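import Pool.Agent.Helper84.SV.DefsK

/-!
# SVK-4: proper discontinuity gives discreteness (helper83)
-/

open Set Finset

namespace Pool.SV

variable {E : Type*} [NormedAddCommGroup E] [NormedSpace ℝ E] [FiniteDimensional ℝ E]

theorem norm_apply_le (g : E ≃ᵃ[ℝ] E) (x : E) : ‖g x‖ ≤ ‖hat g‖ * ‖((x, 1) : E × ℝ)‖ := by
  have h1 : (hat g (x, 1)).1 = g x := act_hat g x
  rw [← h1]
  exact (norm_fst_le _).trans ((hat g).le_opNorm _)

theorem norm_linear_le (g : E ≃ᵃ[ℝ] E) (v : E) : ‖g.linear v‖ ≤ ‖hat g‖ * ‖v‖ := by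
  have h1 : (hat g (v, 0)).1 = g.linear v := by
    rw [hat_apply]
    simp
  have h2 : ‖((v, 0) : E × ℝ)‖ = ‖v‖ := by
    simp [Prod.norm_def]
  rw [← h1, ← h2]
  exact (norm_fst_le _).trans ((hat g).le_opNorm _)

theorem disc_of_geo (D : Geo E) : DiscMod (hatHom D.Γ) 0 := by
  intro C
  obtain ⟨x, hx⟩ := D.nonempty
  obtain ⟨r, hr, hball⟩ := Metric.isOpen_iff.1 D.isOpen x hx
  set C₁ : ℝ := |C| + 1 with hC₁
  have hC1 : 1 ≤ C₁ := by
    have := abs_nonneg C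
    linarith
  have hC0 : 0 < C₁ := lt_of_lt_of_le one_pos hC1
  have hCC : C ≤ C₁ := by
    have := le_abs_self C
    linarith
  set ρ : ℝ := r / C₁ with hρ
  have hρ0 : 0 < ρ := div_pos hr hC0
  have hρr : ρ ≤ r := div_le_self hr.le hC1
  set K : Set E := Metric.closedBall 0 (C₁ * ‖((x, 1) : E × ℝ)‖) ∩
    (Metric.thickening ρ (D.X)ᶜ)ᶜ with hK
  have hKc : IsCompact K :=
    (isCompact_closedBall 0 _).inter_right Metric.isOpen_thickening.isClosed_compl
  have hmem : ∀ y : E, y ∈ (Metric.thickening ρ (D.X)ᶜ)ᶜ ↔ Metric.ball y ρ ⊆ D.X := by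
    intro y
    rw [Set.mem_compl_iff, Metric.mem_thickening_iff]
    constructor
    · intro h z hz
      by_contra hzX
      exact h ⟨z, hzX, by rw [dist_comm]; exact hz⟩
    · rintro h ⟨z, hzX, hz⟩
      exact hzX (h (by rw [Metric.mem_ball, dist_comm]; exact hz))
  have hKX : K ⊆ D.X := fun y hy =>
    (hmem y).1 hy.2 (Metric.mem_ball_self hρ0)
  have hfin := D.pd K hKX hKc
  refine (hfin.preimage (f := fun g : D.Γ => g.1) (Subtype.val_injective.injOn)).subset ?_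
  rintro g ⟨h1, h2⟩
  rw [sub_zero, one_mul, mul_one] at h1 h2
  have h1' : ‖hat g.1‖ ≤ C₁ := h1.trans hCC
  have h2' : ‖hat (g.1⁻¹)‖ ≤ C₁ := h2.trans hCC
  refine ⟨g.2, x, ⟨?_, ?_⟩, ?_, ?_⟩
  · rw [Metric.mem_closedBall, dist_zero_right]
    calc ‖x‖ ≤ ‖((x, 1) : E × ℝ)‖ := norm_fst_le (x, (1 : ℝ))
      _ ≤ C₁ * ‖((x, 1) : E × ℝ)‖ := le_mul_of_one_le_left (norm_nonneg _) hC1
  · rw [hmem]
    exact (Metric.ball_subset_ball hρr).trans hball
  · rw [Metric.mem_closedBall, dist_zero_right]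
    exact (norm_apply_le g.1 x).trans (mul_le_mul_of_nonneg_right h1' (norm_nonneg _))
  · rw [hmem]
    intro z hz
    have h3 : g.1⁻¹ z ∈ D.X := by
      apply hball
      rw [Metric.mem_ball, dist_eq_norm]
      have h4 : g.1⁻¹ z - x = (g.1⁻¹).linear (z - g.1 x) := by
        have h5 : g.1⁻¹ (g.1 x) = x := by
          change (g.1⁻¹ * g.1) x = x
          rw [inv_mul_cancel]
          rfl
        have h6 := aff_eq (g.1⁻¹) z
        have h7 := aff_eq (g.1⁻¹) (g.1 x)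
        rw [h5] at h7
        rw [map_sub, h6]
        nth_rewrite 1 [h7]
        abel
      rw [h4]
      have h8 : ‖z - g.1 x‖ < ρ := by
        rw [← dist_eq_norm]
        exact hz
      calc ‖(g.1⁻¹).linear (z - g.1 x)‖ ≤ ‖hat (g.1⁻¹)‖ * ‖z - g.1 x‖ := norm_linear_le _ _
        _ ≤ C₁ * ‖z - g.1 x‖ := mul_le_mul_of_nonneg_right h2' (norm_nonneg _)
        _ < C₁ * ρ := mul_lt_mul_of_pos_left h8 hC0
        _ = r := by rw [hρ]; field_simp
    have h9 : g.1 (g.1⁻¹ z) = z := by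
      change (g.1 * g.1⁻¹) z = z
      rw [mul_inv_cancel]
      rfl
    rw [← h9]
    exact D.inv g.1 g.2 _ h3

end Pool.SV
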