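import Pool.Agent.SV.Step
import Pool.Agent.SV.Base
import Pool.Agent.Helper84.SV.CaseC

open Set Finset

set_option linter.unusedSectionVars false

namespace Pool.SV

/-! ## K-5 FLAG (uses step, disc_of_geo, eq_one_of_pow) -/

namespace Flag

variable {E : Type*} [NormedAddCommGroup E] [NormedSpace ℝ E] [FiniteDimensional ℝ E]

theorem continuous_seminorm (p : Seminorm ℝ E) : Continuous p :=
  (p.convexOn.locallyLipschitz).continuous

/-- A seminorm which is positive on the fixed vectors of `f` bounds the norm there. -/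
theorem exists_bound (f : Alg E) (p : Seminorm ℝ E)
    (h : ∀ v, f v = v → p v.1 = 0 → v = 0) :
    ∃ C : ℝ, 0 ≤ C ∧ ∀ v, f v = v → ‖v‖ ≤ C * p v.1 := by
  have hpc : Continuous (fun v : E × ℝ => p v.1) := (continuous_seminorm p).comp continuous_fst
  have hcomp : IsCompact {v : E × ℝ | f v = v ∧ ‖v‖ = 1} := by
    have h1 : {v : E × ℝ | f v = v ∧ ‖v‖ = 1} = {v | f v = v} ∩ Metric.sphere (0 : E × ℝ) 1 := by
      ext v
      simp
    rw [h1]
    exact (isCompact_sphere (0 : E × ℝ) 1).inter_left (isClosed_eq f.continuous continuous_id)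
  by_cases hne : {v : E × ℝ | f v = v ∧ ‖v‖ = 1}.Nonempty
  · obtain ⟨w, ⟨hw, hw1⟩, hmin⟩ := hcomp.exists_isMinOn hne hpc.continuousOn
    have hpos : 0 < p w.1 := by
      rcases (apply_nonneg p w.1).lt_or_eq with h1 | h1
      · exact h1
      · have := h w hw h1.symm
        rw [this, norm_zero] at hw1
        exact absurd hw1 (by norm_num)
    refine ⟨(p w.1)⁻¹, by positivity, fun v hv => ?_⟩
    by_cases hv0 : v = 0
    · rw [hv0, norm_zero]
      have := apply_nonneg p (0 : E × ℝ).1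
      positivity
    · have hn : 0 < ‖v‖ := norm_pos_iff.mpr hv0
      have h1 : f (‖v‖⁻¹ • v) = ‖v‖⁻¹ • v := by rw [map_smul, hv]
      have h2 : ‖‖v‖⁻¹ • v‖ = 1 := by
        rw [norm_smul, norm_inv, norm_norm, inv_mul_cancel₀ hn.ne']
      have h3 : p w.1 ≤ p (‖v‖⁻¹ • v).1 := hmin ⟨h1, h2⟩
      have h4 : p (‖v‖⁻¹ • v).1 = ‖v‖⁻¹ * p v.1 := by
        rw [Prod.smul_fst, map_smul_eq_mul, norm_inv, norm_norm]
      rw [h4] at h3
      have h5 : p w.1 * ‖v‖ ≤ p v.1 := by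
        calc p w.1 * ‖v‖ ≤ (‖v‖⁻¹ * p v.1) * ‖v‖ := by gcongr
          _ = p v.1 := by field_simp
      rw [inv_mul_eq_div, le_div_iff₀ hpos]
      linarith
  · refine ⟨0, le_rfl, fun v hv => ?_⟩
    by_cases hv0 : v = 0
    · rw [hv0, norm_zero, zero_mul]
    · exfalso
      apply hne
      have hn : 0 < ‖v‖ := norm_pos_iff.mpr hv0
      refine ⟨‖v‖⁻¹ • v, by rw [map_smul, hv], ?_⟩
      rw [norm_smul, norm_inv, norm_norm, inv_mul_cancel₀ hn.ne']

/-- Enlarging an idempotent. -/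
theorem exists_idem (e : Alg E) (he : e * e = e) (W : Submodule ℝ (E × ℝ))
    (hW : ∀ v, e v ∈ W) : ∃ e' : Alg E, e' * e' = e' ∧ e * e' = e ∧ e' * e = e ∧
      ∀ v, e' v = v ↔ v ∈ W := by
  obtain ⟨q₀, hq₀⟩ := W.subtype.exists_leftInverse_of_injective W.ker_subtype
  set q : Alg E := LinearMap.toContinuousLinearMap (W.subtype ∘ₗ q₀) with hq
  have hqW : ∀ v, q v ∈ W := fun v => (q₀ v).2
  have hqf : ∀ v ∈ W, q v = v := by
    intro v hv
    have h1 : q₀ (W.subtype ⟨v, hv⟩) = ⟨v, hv⟩ := by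
      rw [← LinearMap.comp_apply, hq₀]
      rfl
    exact congrArg Subtype.val h1
  have hqe : q * e = e := by
    apply ContinuousLinearMap.ext
    intro v
    exact hqf _ (hW v)
  have hqq : q * q = q := by
    apply ContinuousLinearMap.ext
    intro v
    exact hqf _ (hqW v)
  have h01 : (1 - e) * (1 - e) = 1 - e := by
    rw [mul_sub, mul_one, sub_mul, one_mul, he, sub_self, sub_zero]
  have h02 : e * (1 - e) = 0 := by rw [mul_sub, mul_one, he, sub_self]
  have h03 : (1 - e) * e = 0 := by rw [sub_mul, one_mul, he, sub_self]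
  have hmid : q * (1 - e) * q = (1 - e) * q := by
    rw [mul_sub, mul_one, sub_mul, hqq, hqe, sub_mul, one_mul]
  have hff : ((1 - e) * q * (1 - e)) * ((1 - e) * q * (1 - e)) = (1 - e) * q * (1 - e) := by
    calc ((1 - e) * q * (1 - e)) * ((1 - e) * q * (1 - e))
        = (1 - e) * (q * ((1 - e) * (1 - e)) * q) * (1 - e) := by simp only [mul_assoc]
      _ = (1 - e) * (q * (1 - e) * q) * (1 - e) := congrArg
          (fun T : Alg E => (1 - e) * (q * T * q) * (1 - e)) h01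
      _ = (1 - e) * ((1 - e) * q) * (1 - e) := by rw [hmid]
      _ = (1 - e) * q * (1 - e) := by rw [← mul_assoc (1 - e) (1 - e) q, h01]
  refine ⟨e + (1 - e) * q * (1 - e), ?_, ?_, ?_, ?_⟩
  · rw [mul_add, add_mul, add_mul, he, hff]
    have h1 : (1 - e) * q * (1 - e) * e = 0 := by rw [mul_assoc, h03, mul_zero]
    have h2 : e * ((1 - e) * q * (1 - e)) = 0 := by
      rw [← mul_assoc, ← mul_assoc, h02, zero_mul, zero_mul]
    rw [h1, h2, add_zero, zero_add]
  · have h2 : e * ((1 - e) * q * (1 - e)) = 0 := by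
      rw [← mul_assoc, ← mul_assoc, h02, zero_mul, zero_mul]
    rw [mul_add, he, h2, add_zero]
  · have h1 : (1 - e) * q * (1 - e) * e = 0 := by rw [mul_assoc, h03, mul_zero]
    rw [add_mul, he, h1, add_zero]
  · intro v
    have h1 : (e + (1 - e) * q * (1 - e)) v = e v + (q (v - e v) - e (q (v - e v))) := rfl
    constructor
    · intro h
      rw [← h, h1]
      exact W.add_mem (hW _) (W.sub_mem (hqW _) (hW _))
    · intro h
      have h2 : q (v - e v) = v - e v := hqf _ (W.sub_mem h (hW _))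
      have h3 : e (e v) = e v := congrArg (fun T : Alg E => T v) he
      rw [h1, h2, map_sub, h3, sub_self, sub_zero]
      abel

theorem invariant (D : Geo E) (r : ℕ) (F : ℕ → Submodule ℝ E) (h0 : F 0 = ⊥)
    (hF : ∀ i < r, F i ≤ F (i + 1) ∧ ∃ p : Seminorm ℝ E, (∀ v ∈ F (i + 1), p v = 0 ↔ v ∈ F i) ∧
      ∀ g ∈ D.Γ, ∃ c : ℝ, ∀ v ∈ F (i + 1), g.linear v ∈ F (i + 1) ∧ p (g.linear v) = c * p v)
    (i : ℕ) (hi : i ≤ r) (g : E ≃ᵃ[ℝ] E) (hg : g ∈ D.Γ) (v : E) (hv : v ∈ F i) :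
    g.linear v ∈ F i := by
  cases i with
  | zero =>
    rw [h0, Submodule.mem_bot] at hv ⊢
    rw [hv, map_zero]
  | succ i =>
    obtain ⟨_, p, _, h2⟩ := hF i (by omega)
    obtain ⟨c, hc⟩ := h2 g hg
    exact (hc v hv).1

/-- The idempotent `e` is invariant. -/
theorem hinv_of_range (D : Geo E) (G : Submodule ℝ E) (e : Alg E) (he : e * e = e)
    (hr : ∀ v : E × ℝ, e v = v ↔ v.2 = 0 ∧ v.1 ∈ G)
    (hG : ∀ g ∈ D.Γ, ∀ v ∈ G, g.linear v ∈ G) (g : D.Γ) :
    (1 - e) * hatHom D.Γ g * e = 0 := by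
  apply ContinuousLinearMap.ext
  intro v
  have h1 : e (e v) = e v := congrArg (fun T : Alg E => T v) he
  have h2 := (hr (e v)).mp h1
  have h3 : e (hat g.1 (e v)) = hat g.1 (e v) := by
    rw [hr, hat_apply]
    refine ⟨h2.1, ?_⟩
    change g.1.linear (e v).1 + (e v).2 • g.1 0 ∈ G
    rw [h2.1, zero_smul, add_zero]
    exact hG g.1 g.2 _ h2.2
  change hat g.1 (e v) - e (hat g.1 (e v)) = 0
  rw [h3, sub_self]

theorem flag_step (D : Geo E) (A B : Submodule ℝ E) (hAB : A ≤ B)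
    (hA : ∀ g ∈ D.Γ, ∀ v ∈ A, g.linear v ∈ A)
    (p : Seminorm ℝ E) (hp : ∀ v ∈ B, p v = 0 ↔ v ∈ A)
    (hc : ∀ g ∈ D.Γ, ∃ c : ℝ, ∀ v ∈ B, g.linear v ∈ B ∧ p (g.linear v) = c * p v)
    (e : Alg E) (he : e * e = e) (hr : ∀ v : E × ℝ, e v = v ↔ v.2 = 0 ∧ v.1 ∈ A)
    (hd : DiscMod (hatHom D.Γ) e) :
    HasAbNormal D.Γ ∨ ∃ e' : Alg E, e' * e' = e' ∧
      (∀ v : E × ℝ, e' v = v ↔ v.2 = 0 ∧ v.1 ∈ B) ∧ DiscMod (hatHom D.Γ) e' := by
  by_cases hBA : B ≤ A
  · have hEq : A = B := le_antisymm hAB hBA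
    subst hEq
    exact Or.inr ⟨e, he, hr, hd⟩
  obtain ⟨v₀, hv₀, hv₀'⟩ := Set.not_subset.mp hBA
  have hv₀ : v₀ ∈ B := hv₀
  have hv₀' : v₀ ∉ A := hv₀'
  have hpv₀ : 0 < p v₀ := by
    rcases (apply_nonneg p v₀).lt_or_eq with h1 | h1
    · exact h1
    · exact absurd ((hp v₀ hv₀).mp h1.symm) hv₀'
  -- the multipliers
  have hc' : ∀ g : D.Γ, ∃ c : ℝ, ∀ v ∈ B, g.1.linear v ∈ B ∧ p (g.1.linear v) = c * p v :=
    fun g => hc g.1 g.2
  choose c hcs using hc'
  have hcm : ∀ g h : D.Γ, c (g * h) = c g * c h := by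
    intro g h
    have h1 := (hcs (g * h) v₀ hv₀).2
    have h2 : (g * h : D.Γ).1.linear v₀ = g.1.linear (h.1.linear v₀) := rfl
    rw [h2, (hcs g _ (hcs h v₀ hv₀).1).2, (hcs h v₀ hv₀).2, ← mul_assoc] at h1
    exact (mul_right_cancel₀ hpv₀.ne' h1).symm
  have hc1 : c 1 = 1 := by
    have h1 := (hcs 1 v₀ hv₀).2
    have h2 : (1 : D.Γ).1.linear v₀ = v₀ := rfl
    rw [h2] at h1
    nth_rewrite 1 [← one_mul (p v₀)] at h1
    exact (mul_right_cancel₀ hpv₀.ne' h1).symm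
  have hc0 : ∀ g : D.Γ, 0 < c g := by
    intro g
    have h1 := (hcs g v₀ hv₀).2
    have h2 : 0 ≤ c g := by
      have h3 : 0 ≤ c g * p v₀ := h1 ▸ apply_nonneg p _
      exact nonneg_of_mul_nonneg_left h3 hpv₀
    rcases h2.lt_or_eq with h3 | h3
    · exact h3
    · have h4 := hcm g g⁻¹
      rw [mul_inv_cancel, hc1, ← h3, zero_mul] at h4
      exact absurd h4 one_ne_zero
  -- the new idempotent
  have hrange : ∀ v, (e v).2 = 0 ∧ (e v).1 ∈ A := by
    intro v
    have h1 : e (e v) = e v := congrArg (fun T : Alg E => T v) he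
    exact (hr _).mp h1
  obtain ⟨e', he', h1, h2, hW⟩ := exists_idem e he (B.prod ⊥) (by
    intro v
    obtain ⟨h3, h4⟩ := hrange v
    exact ⟨hAB h4, h3⟩)
  have hr' : ∀ v : E × ℝ, e' v = v ↔ v.2 = 0 ∧ v.1 ∈ B := by
    intro v
    rw [hW, Submodule.mem_prod, Submodule.mem_bot, and_comm]
  have hrange' : ∀ v, (e' v).2 = 0 ∧ (e' v).1 ∈ B := by
    intro v
    have h1 : e' (e' v) = e' v := congrArg (fun T : Alg E => T v) he'
    exact (hr' _).mp h1
  have hB : ∀ g ∈ D.Γ, ∀ v ∈ B, g.linear v ∈ B := by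
    intro g hg v hv
    obtain ⟨c, hc⟩ := hc g hg
    exact (hc v hv).1
  -- the projection onto the new block
  have hfW : ∀ v : E × ℝ, v.2 = 0 → v.1 ∈ B → p ((e' - e) v).1 = p v.1 := by
    intro v hv2 hv1
    have h3 : e' v = v := (hr' v).mpr ⟨hv2, hv1⟩
    have h4 : ((e' - e) v).1 = v.1 - (e v).1 := by
      change (e' v).1 - (e v).1 = _
      rw [h3]
    have h5 : p (e v).1 = 0 := (hp _ (hAB (hrange v).2)).mpr (hrange v).2
    rw [h4]
    apply le_antisymm
    · calc p (v.1 - (e v).1) ≤ p v.1 + p (e v).1 := map_sub_le_add p _ _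
        _ = p v.1 := by rw [h5, add_zero]
    · calc p v.1 = p ((v.1 - (e v).1) + (e v).1) := by rw [sub_add_cancel]
        _ ≤ p (v.1 - (e v).1) + p (e v).1 := map_add_le_add p _ _
        _ = p (v.1 - (e v).1) := by rw [h5, add_zero]
  have hfB : ∀ v : E × ℝ, ((e' - e) v).2 = 0 ∧ ((e' - e) v).1 ∈ B := by
    intro v
    refine ⟨?_, ?_⟩
    · change (e' v).2 - (e v).2 = 0
      rw [(hrange' v).1, (hrange v).1, sub_self]
    · exact B.sub_mem (hrange' v).2 (hAB (hrange v).2)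
  have hef : e * (e' - e) = 0 := by rw [mul_sub, h1, he, sub_self]
  have hff : (e' - e) * (e' - e) = e' - e := by
    rw [sub_mul, hef, sub_zero, mul_sub, he', h2]
  obtain ⟨C₁, hC₁, hC₁'⟩ := exists_bound (e' - e) p (by
    intro v hv hpv
    have h3 := hfB v
    rw [hv] at h3
    have h4 : v.1 ∈ A := (hp _ h3.2).mp hpv
    have h5 : e v = v := (hr v).mpr ⟨h3.1, h4⟩
    have h6 : e ((e' - e) v) = 0 := congrArg (fun T : Alg E => T v) hef
    rw [hv, h5] at h6
    exact h6)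
  obtain ⟨C₂, hC₂, hC₂'⟩ := Seminorm.bound_of_continuous_normedSpace p (continuous_seminorm p)
  -- apply the step
  have hbound : ∀ g : D.Γ, ‖(e' - e) * hatHom D.Γ g * (e' - e)‖ ≤
      (C₁ * (C₂ * ‖e' - e‖)) * c g := by
    intro g
    have hcg := hc0 g
    refine ContinuousLinearMap.opNorm_le_bound _ (by positivity) fun z => ?_
    set y : E × ℝ := (e' - e) z with hy
    have hyB := hfB z
    rw [← hy] at hyB
    have h3 : ((e' - e) * hatHom D.Γ g * (e' - e)) z = (e' - e) (hat g.1 y) := rfl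
    rw [h3]
    have h4 : (e' - e) ((e' - e) (hat g.1 y)) = (e' - e) (hat g.1 y) :=
      congrArg (fun T : Alg E => T (hat g.1 y)) hff
    have h5 : (hat g.1 y).1 = g.1.linear y.1 := by
      change g.1.linear y.1 + y.2 • g.1 0 = _
      rw [hyB.1, zero_smul, add_zero]
    have h6 : p ((e' - e) (hat g.1 y)).1 = c g * p y.1 := by
      rw [hfW (hat g.1 y) hyB.1 (by rw [h5]; exact hB g.1 g.2 _ hyB.2), h5,
        (hcs g y.1 hyB.2).2]
    calc ‖(e' - e) (hat g.1 y)‖ ≤ C₁ * p ((e' - e) (hat g.1 y)).1 := hC₁' _ h4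
      _ = C₁ * (c g * p y.1) := by rw [h6]
      _ ≤ C₁ * (c g * (C₂ * ‖y.1‖)) := by
          gcongr
          exact hC₂' _
      _ ≤ C₁ * (c g * (C₂ * (‖e' - e‖ * ‖z‖))) := by
          gcongr
          calc ‖y.1‖ ≤ ‖y‖ := norm_fst_le y
            _ ≤ ‖e' - e‖ * ‖z‖ := (e' - e).le_opNorm z
      _ = (C₁ * (C₂ * ‖e' - e‖)) * c g * ‖z‖ := by ring
  have htf : ∀ (g : D.Γ) (m : ℕ), 0 < m → g ^ m = 1 → g = 1 := by
    intro g m hm h
    apply Subtype.ext
    exact eq_one_of_pow D g.1 g.2 m hm (congrArg Subtype.val h)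
  have : FiniteDimensional ℝ (Alg E) := ContinuousLinearMap.finiteDimensional
  rcases step (hatHom D.Γ) htf e e' he he' h1 h2 (hinv_of_range D A e he hr hA)
    (hinv_of_range D B e' he' hr' hB) c hcm hc0 _ hbound hd with h | h
  · exact Or.inl h
  · exact Or.inr ⟨e', he', hr', h⟩

end Flag

section Geometry

variable {E : Type*} [NormedAddCommGroup E] [NormedSpace ℝ E] [FiniteDimensional ℝ E]

theorem flag_disc (D : Geo E) (h : SimFlag D.Γ D.X) :
    HasAbNormal D.Γ ∨ ∃ e : Alg E, e * e = e ∧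
      (∀ v : E × ℝ, e v = v ↔ v.2 = 0 ∧ ∀ x ∈ D.X, ∀ t : ℝ, x + t • v.1 ∈ D.X) ∧
      DiscMod (hatHom D.Γ) e := by
  obtain ⟨r, F, h0, hr, hF⟩ := h
  have key : ∀ i ≤ r, HasAbNormal D.Γ ∨ ∃ e : Alg E, e * e = e ∧
      (∀ v : E × ℝ, e v = v ↔ v.2 = 0 ∧ v.1 ∈ F i) ∧ DiscMod (hatHom D.Γ) e := by
    intro i
    induction i with
    | zero =>
      intro _
      refine Or.inr ⟨0, mul_zero _, fun v => ?_, disc_of_geo D⟩
      rw [h0, Submodule.mem_bot, zero_apply]
      constructor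
      · intro h
        rw [← h]
        exact ⟨rfl, rfl⟩
      · rintro ⟨h1, h2⟩
        exact (Prod.ext h2 h1).symm
    | succ i ih =>
      intro hi
      rcases ih (by omega) with h | ⟨e, he, hre, hd⟩
      · exact Or.inl h
      · obtain ⟨hle, p, hp, hc⟩ := hF i (by omega)
        exact Flag.flag_step D (F i) (F (i + 1)) hle
          (Flag.invariant D r F h0 hF i (by omega)) p hp hc e he hre hd
  rcases key r le_rfl with h | ⟨e, he, hre, hd⟩
  · exact Or.inl h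
  · refine Or.inr ⟨e, he, fun v => ?_, hd⟩
    rw [hre, hr]

end Geometry

end Pool.SV
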