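import Pool.Agent.Helper84.SV.DefsK

open Set Finset

namespace Pool.SV

namespace Line

variable {E : Type*} [NormedAddCommGroup E] [NormedSpace ℝ E] [FiniteDimensional ℝ E]

/-- The lineality space. -/
def Lin (X : Set E) : Set E := {v | ∀ x ∈ X, ∀ t : ℝ, x + t • v ∈ X}

/-- Bound for symmetric segments centred in a compact set, modulo the lineality space. -/
theorem seg_bound {X : Set E} (hX : IsOpen X) (hconv : Convex ℝ X) {K : Set E}
    (hK : IsCompact K) (e : Alg E) (he : e * e = e)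
    (hrange : ∀ v : E × ℝ, e v = v ↔ v.2 = 0 ∧ v.1 ∈ Lin X) :
    ∃ R : ℝ, ∀ p ∈ K, ∀ v : E, p + v ∈ X → p - v ∈ X → ‖(1 - e) ((v, 0) : E × ℝ)‖ ≤ R := by
  by_contra hcon
  push Not at hcon
  have hee : ∀ z, e (e z) = e z := fun z => by
    rw [← mul_apply_eq_comp, he]
  choose p hp v hv1 hv2 hv3 using fun n : ℕ => hcon (n + 1)
  -- the first component of (1 - e) (v, 0)
  have key : ∀ w : E, (1 - e) ((w, 0) : E × ℝ) = (w - (e (w, 0)).1, 0) := by
    intro w
    have h2 : (e (w, 0)).2 = 0 := ((hrange _).1 (hee (w, 0))).1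
    ext
    · simp
    · simp [h2]
  set u : ℕ → E := fun n => v n - (e (v n, 0)).1 with hu
  have hunorm : ∀ n : ℕ, (n : ℝ) + 1 < ‖u n‖ := by
    intro n
    have h := hv3 n
    rw [key] at h
    have h1 : ‖((v n - (e (v n, 0)).1, 0) : E × ℝ)‖ = ‖u n‖ := by
      simp [Prod.norm_def, hu]
    rw [h1] at h
    exact h
  have hupos : ∀ n, 0 < ‖u n‖ := fun n => lt_trans (by positivity) (hunorm n)
  have hwLin : ∀ n, (e (v n, 0)).1 ∈ Lin X := fun n => ((hrange _).1 (hee (v n, 0))).2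
  have hplus : ∀ n, p n + u n ∈ X := by
    intro n
    have h := hwLin n (p n + v n) (hv1 n) (-1)
    convert h using 1
    simp only [hu]
    module
  have hminus : ∀ n, p n - u n ∈ X := by
    intro n
    have h := hwLin n (p n - v n) (hv2 n) 1
    convert h using 1
    simp only [hu]
    module
  -- compactness
  have hsph : IsCompact (Metric.sphere (0 : E) 1) := isCompact_sphere 0 1
  have hmem : ∀ n, (p n, (‖u n‖)⁻¹ • u n) ∈ K ×ˢ Metric.sphere (0 : E) 1 := by
    intro n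
    refine ⟨hp n, ?_⟩
    rw [mem_sphere_zero_iff_norm, norm_smul, norm_inv, norm_norm]
    exact inv_mul_cancel₀ (hupos n).ne'
  obtain ⟨⟨q, w⟩, hqw, φ, hφ, hlim⟩ := (hK.prod hsph).tendsto_subseq hmem
  have hq : Filter.Tendsto (fun n => p (φ n)) Filter.atTop (nhds q) :=
    (continuous_fst.tendsto _).comp hlim
  have hw : Filter.Tendsto (fun n => (‖u (φ n)‖)⁻¹ • u (φ n)) Filter.atTop (nhds w) :=
    (continuous_snd.tendsto _).comp hlim
  have hw1 : ‖w‖ = 1 := mem_sphere_zero_iff_norm.1 hqw.2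
  -- the line through q
  have hline : ∀ t : ℝ, q + t • w ∈ closure X := by
    intro t
    have h1 : Filter.Tendsto (fun n => p (φ n) + t • ((‖u (φ n)‖)⁻¹ • u (φ n))) Filter.atTop
        (nhds (q + t • w)) := hq.add (hw.const_smul t)
    refine mem_closure_of_tendsto h1 ?_
    obtain ⟨N, hN⟩ := exists_nat_ge |t|
    filter_upwards [Filter.eventually_ge_atTop N] with n hn
    have h2 : |t| ≤ ‖u (φ n)‖ := by
      have h3 : (N : ℝ) ≤ (φ n : ℕ) := by exact_mod_cast hn.trans (hφ.id_le n)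
      have := hunorm (φ n)
      linarith
    have h4 := hupos (φ n)
    set s : ℝ := t * (‖u (φ n)‖)⁻¹ with hs
    have hs1 : |s| ≤ 1 := by
      rw [hs, abs_mul, abs_inv, abs_norm]
      rw [← div_eq_mul_inv, div_le_one h4]
      exact h2
    have hs2 := abs_le.1 hs1
    have h5 := hconv (hminus (φ n)) (hplus (φ n)) (a := (1 - s) / 2) (b := (1 + s) / 2)
      (by linarith) (by linarith) (by ring)
    convert h5 using 1
    rw [smul_smul, ← hs]
    module
  -- w is in the lineality space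
  have hwl : w ∈ Lin X := by
    intro x hx t
    have hx' : ∃ δ : ℝ, 0 < δ ∧ x + δ • (x - q) ∈ X := by
      have hc : Continuous (fun δ : ℝ => x + δ • (x - q)) := by fun_prop
      have h0 : (fun δ : ℝ => x + δ • (x - q)) 0 ∈ X := by simpa using hx
      have hnear := (hc.continuousAt (x := 0)).eventually (hX.mem_nhds h0)
      obtain ⟨ε, hε, hball⟩ := Metric.eventually_nhds_iff.1 hnear
      refine ⟨ε / 2, by positivity, hball ?_⟩
      rw [Real.dist_eq, sub_zero, abs_of_pos (by positivity)]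
      linarith
    obtain ⟨δ, hδ, hx'⟩ := hx'
    have h1 : x + δ • (x - q) ∈ interior X := by rwa [hX.interior_eq]
    have h2 := hconv.combo_interior_closure_mem_interior h1 (hline ((1 + δ) / δ * t))
      (a := 1 / (1 + δ)) (b := δ / (1 + δ)) (by positivity) (by positivity)
      (by field_simp)
    rw [hX.interior_eq] at h2
    convert h2 using 1
    have hd : (1 + δ) ≠ 0 := by positivity
    have e1 : (1 / (1 + δ)) • (x + δ • (x - q)) + (δ / (1 + δ)) • (q + ((1 + δ) / δ * t) • w)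
        = ((1 / (1 + δ)) * (1 + δ)) • x + ((δ / (1 + δ)) * ((1 + δ) / δ)) • t • w := by
      rw [show (1 / (1 + δ)) * (1 + δ) = 1 / (1 + δ) + δ * (1 / (1 + δ)) by ring]
      rw [show δ / (1 + δ) = δ * (1 / (1 + δ)) by ring]
      module
    rw [e1, show (1 / (1 + δ)) * (1 + δ) = 1 by field_simp,
      show (δ / (1 + δ)) * ((1 + δ) / δ) = 1 by field_simp, one_smul, one_smul]
  have hfix : e (w, 0) = (w, 0) := (hrange (w, 0)).2 ⟨rfl, hwl⟩
  -- but (1 - e) (w, 0) = (w, 0)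
  have hkill : ∀ n, (1 - e) (((‖u n‖)⁻¹ • u n, 0) : E × ℝ) = ((‖u n‖)⁻¹ • u n, 0) := by
    intro n
    have h1 : ((u n, 0) : E × ℝ) = (1 - e) ((v n, 0) : E × ℝ) := (key (v n)).symm
    have h2 : (1 - e) ((u n, 0) : E × ℝ) = (u n, 0) := by
      rw [h1]
      simp only [sub_apply, one_apply_eq_self, map_sub, hee]
      simp
    have h3 : (((‖u n‖)⁻¹ • u n, 0) : E × ℝ) = (‖u n‖)⁻¹ • ((u n, 0) : E × ℝ) := by
      ext <;> simp
    rw [h3, map_smul, h2]
  have hlim1 : Filter.Tendsto (fun n => (1 - e) (((‖u (φ n)‖)⁻¹ • u (φ n), 0) : E × ℝ))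
      Filter.atTop (nhds ((1 - e) ((w, 0) : E × ℝ))) := by
    have hc : Continuous (fun y : E => (1 - e) ((y, 0) : E × ℝ)) := by fun_prop
    exact (hc.tendsto w).comp hw
  have hlim2 : Filter.Tendsto (fun n => (1 - e) (((‖u (φ n)‖)⁻¹ • u (φ n), 0) : E × ℝ))
      Filter.atTop (nhds ((w, 0) : E × ℝ)) := by
    have hc : Continuous (fun y : E => ((y, 0) : E × ℝ)) := by fun_prop
    have h1 := (hc.tendsto w).comp hw
    refine h1.congr ?_
    intro n
    exact (hkill (φ n)).symm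
  have heq := tendsto_nhds_unique hlim1 hlim2
  have h0 : (1 - e) ((w, 0) : E × ℝ) = 0 := by
    simp only [sub_apply, one_apply_eq_self, hfix, sub_self]
  rw [h0] at heq
  have hw0 : w = 0 := by
    have := congrArg Prod.fst heq
    simpa using this.symm
  rw [hw0, norm_zero] at hw1
  exact zero_ne_one hw1

/-- Norm estimate. -/
theorem norm_bound (e : Alg E) (g : E ≃ᵃ[ℝ] E) (a : E) {r R S A : ℝ} (hr : 0 < r) (hR : 0 ≤ R)
    (hS : 0 ≤ S) (hA : 0 ≤ A) (h1 : ∀ y : E, ‖y‖ ≤ r → ‖(1 - e) ((g.linear y, 0) : E × ℝ)‖ ≤ R)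
    (h2 : ‖(1 - e) ((g a, 1) : E × ℝ)‖ ≤ S) (h3 : ‖a‖ ≤ A) :
    ‖(1 - e) * hat g‖ ≤ R / r * (1 + A) + S := by
  have h1' : ∀ y : E, ‖(1 - e) ((g.linear y, 0) : E × ℝ)‖ ≤ R / r * ‖y‖ := by
    intro y
    rcases eq_or_ne y 0 with rfl | hy
    · have : (1 - e) ((g.linear 0, 0) : E × ℝ) = 0 := by
        rw [map_zero]
        exact map_zero _
      rw [this]
      simp
    · have hy' : 0 < ‖y‖ := norm_pos_iff.2 hy
      have h4 := h1 ((r / ‖y‖) • y) (by
        rw [norm_smul, Real.norm_of_nonneg (by positivity)]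
        rw [div_mul_cancel₀ _ hy'.ne'])
      have h5 : ((g.linear ((r / ‖y‖) • y), 0) : E × ℝ) = (r / ‖y‖) • ((g.linear y, 0) : E × ℝ) := by
        ext <;> simp
      rw [h5, map_smul, norm_smul, Real.norm_of_nonneg (by positivity)] at h4
      rw [div_mul_eq_mul_div, div_le_iff₀ hy'] at h4
      rw [div_mul_eq_mul_div, le_div_iff₀ hr]
      linarith
  refine ContinuousLinearMap.opNorm_le_bound _ (by positivity) ?_
  intro z
  have hz : z.1 = (z.1 - z.2 • a) + z.2 • a := by abel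
  have hdec : hat g z = (g.linear (z.1 - z.2 • a), 0) + z.2 • ((g a, 1) : E × ℝ) := by
    rw [hat_apply, aff_eq g a]
    ext
    · simp only [map_sub, map_smul, Prod.fst_add, Prod.smul_fst, smul_add]
      abel
    · simp
  rw [mul_apply_eq_comp, hdec, map_add, map_smul]
  have hz1 : ‖z.1‖ ≤ ‖z‖ := norm_fst_le z
  have hz2 : ‖z.2‖ ≤ ‖z‖ := norm_snd_le z
  calc ‖(1 - e) ((g.linear (z.1 - z.2 • a), 0) : E × ℝ) + z.2 • (1 - e) ((g a, 1) : E × ℝ)‖
      ≤ ‖(1 - e) ((g.linear (z.1 - z.2 • a), 0) : E × ℝ)‖ +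
        ‖z.2 • (1 - e) ((g a, 1) : E × ℝ)‖ := norm_add_le _ _
    _ ≤ R / r * ‖z.1 - z.2 • a‖ + ‖z.2‖ * S := by
        refine add_le_add (h1' _) ?_
        rw [norm_smul]
        exact mul_le_mul_of_nonneg_left h2 (norm_nonneg _)
    _ ≤ R / r * ((1 + A) * ‖z‖) + ‖z‖ * S := by
        refine add_le_add (mul_le_mul_of_nonneg_left ?_ (by positivity))
          (mul_le_mul_of_nonneg_right hz2 hS)
        calc ‖z.1 - z.2 • a‖ ≤ ‖z.1‖ + ‖z.2 • a‖ := norm_sub_le _ _
          _ ≤ ‖z‖ + ‖z‖ * A := by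
              rw [norm_smul]
              refine add_le_add hz1 (mul_le_mul hz2 h3 (norm_nonneg _) (norm_nonneg _))
          _ = (1 + A) * ‖z‖ := by ring
    _ = (R / r * (1 + A) + S) * ‖z‖ := by ring

end Line

open Line

section Geometry

variable {E : Type*} [NormedAddCommGroup E] [NormedSpace ℝ E] [FiniteDimensional ℝ E]

theorem not_discMod (D : Geo E)
    (hcc : ∃ K ⊆ D.X, IsCompact K ∧ ∀ x ∈ D.X, ∃ g ∈ D.Γ, g x ∈ K)
    (hline : ∃ v : E, v ≠ 0 ∧ ∀ x ∈ D.X, ∀ t : ℝ, x + t • v ∈ D.X) (e : Alg E) (he : e * e = e)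
    (hrange : ∀ v : E × ℝ, e v = v ↔ v.2 = 0 ∧ ∀ x ∈ D.X, ∀ t : ℝ, x + t • v.1 ∈ D.X) :
    ¬ DiscMod (hatHom D.Γ) e := by
  intro hd
  obtain ⟨K, hKX, hK, hcov⟩ := hcc
  obtain ⟨v, hv0, hv⟩ := hline
  obtain ⟨x, hx⟩ := D.nonempty
  have hee : ∀ z, e (e z) = e z := fun z => by
    rw [← mul_apply_eq_comp, he]
  -- (1 - e) hat g e = 0
  have hginv : ∀ g ∈ D.Γ, ∀ w : E, (∀ y ∈ D.X, ∀ t : ℝ, y + t • w ∈ D.X) →
      ∀ y ∈ D.X, ∀ t : ℝ, y + t • g.linear w ∈ D.X := by
    intro g hg w hw y hy t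
    have h1 : g⁻¹ y ∈ D.X := D.inv g⁻¹ (D.Γ.inv_mem hg) y hy
    have h2 := D.inv g hg _ (hw _ h1 t)
    have h3 : g (g⁻¹ y + t • w) = y + t • g.linear w := by
      rw [aff_eq g, map_add, map_smul]
      have h4 : g.linear (g⁻¹ y) + g 0 = y := by
        rw [← aff_eq]
        exact g.apply_symm_apply y
      calc g.linear (g⁻¹ y) + t • g.linear w + g 0
          = (g.linear (g⁻¹ y) + g 0) + t • g.linear w := by abel
        _ = y + t • g.linear w := by rw [h4]
    rwa [h3] at h2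
  have hkill : ∀ g ∈ D.Γ, (1 - e) * hat g * e = 0 := by
    intro g hg
    apply ContinuousLinearMap.ext
    intro z
    rw [mul_assoc, mul_apply_eq_comp, mul_apply_eq_comp]
    have h1 := (hrange (e z)).1 (hee z)
    have h2 : e (hat g (e z)) = hat g (e z) := by
      rw [hrange]
      refine ⟨?_, ?_⟩
      · rw [hat_apply]
        exact h1.1
      · rw [hat_apply, h1.1, zero_smul, add_zero]
        exact hginv g hg _ h1.2
    rw [sub_apply, one_apply_eq_self, h2, sub_self]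
    rfl
  have hred : ∀ g ∈ D.Γ, (1 - e) * hat g * (1 - e) = (1 - e) * hat g := by
    intro g hg
    rw [mul_sub, mul_one, hkill g hg, sub_zero]
  -- constants
  obtain ⟨R, hR⟩ := seg_bound D.isOpen D.convex hK e he hrange
  obtain ⟨R', hR'⟩ := seg_bound D.isOpen D.convex (isCompact_singleton (x := x)) e he hrange
  obtain ⟨r, hr, hrK⟩ := hK.exists_cthickening_subset_open D.isOpen hKX
  obtain ⟨r', hr', hrx⟩ := (isCompact_singleton (x := x)).exists_cthickening_subset_open D.isOpen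
    (by simpa using hx)
  obtain ⟨M, hM⟩ := hK.isBounded.exists_norm_le
  set R₁ := max R 0 with hR₁
  set R₂ := max R' 0 with hR₂
  set M₁ := max M 0 with hM₁
  have hball : ∀ p ∈ K, ∀ y : E, ‖y‖ ≤ r → p + y ∈ D.X ∧ p - y ∈ D.X := by
    intro p hp y hy
    have h1 := Metric.closedBall_subset_cthickening hp r
    refine ⟨hrK (h1 ?_), hrK (h1 ?_)⟩
    · rw [Metric.mem_closedBall, dist_eq_norm]
      simpa using hy
    · rw [Metric.mem_closedBall, dist_eq_norm]
      simpa using hy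
  have hball' : ∀ y : E, ‖y‖ ≤ r' → x + y ∈ D.X ∧ x - y ∈ D.X := by
    intro y hy
    have h1 := Metric.closedBall_subset_cthickening (Set.mem_singleton x) r'
    refine ⟨hrx (h1 ?_), hrx (h1 ?_)⟩
    · rw [Metric.mem_closedBall, dist_eq_norm]
      simpa using hy
    · rw [Metric.mem_closedBall, dist_eq_norm]
      simpa using hy
  -- the sequence
  have hseq : ∀ j : ℕ, ∃ g ∈ D.Γ, g (x + (j : ℝ) • v) ∈ K := fun j => hcov _ (hv x hx j)
  choose g hg hgK using hseq
  have hsplit : ∀ (g : E ≃ᵃ[ℝ] E) (a b : E), g (a + b) = g a + g.linear b := by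
    intro g a b
    rw [aff_eq g (a + b), aff_eq g a, map_add]
    abel
  -- (1 - e) kills lineality directions
  have hlin0 : ∀ w : E, (∀ y ∈ D.X, ∀ t : ℝ, y + t • w ∈ D.X) →
      (1 - e) ((w, 0) : E × ℝ) = 0 := by
    intro w hw
    have := (hrange (w, 0)).2 ⟨rfl, hw⟩
    rw [sub_apply, one_apply_eq_self, this, sub_self]
  have hb1 : ∀ j, ‖(1 - e) * hat (g j)‖ ≤ R₁ / r' * (1 + ‖x‖) + ‖(1 - e)‖ * max M₁ 1 := by
    intro j
    refine norm_bound e (g j) x hr' (le_max_right _ _) (by positivity) (norm_nonneg _) ?_ ?_ le_rfl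
    · intro y hy
      obtain ⟨h1, h2⟩ := hball' y hy
      have h3 := D.inv (g j) (hg j) _ (hv _ h1 j)
      have h4 := D.inv (g j) (hg j) _ (hv _ h2 j)
      have h5 : g j (x + y + (j : ℝ) • v) = g j (x + (j : ℝ) • v) + (g j).linear y := by
        rw [← hsplit]
        congr 1
        abel
      have h6 : g j (x - y + (j : ℝ) • v) = g j (x + (j : ℝ) • v) - (g j).linear y := by
        rw [sub_eq_add_neg (g j (x + (j : ℝ) • v)), ← map_neg, ← hsplit]
        congr 1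
        abel
      rw [h5] at h3
      rw [h6] at h4
      exact (hR _ (hgK j) _ h3 h4).trans (le_max_left _ _)
    · have h1 : ((g j x, 1) : E × ℝ) = (g j (x + (j : ℝ) • v), 1) -
          (j : ℝ) • (((g j).linear v, 0) : E × ℝ) := by
        rw [hsplit]
        ext <;> simp
      rw [h1, map_sub, map_smul, hlin0 _ (hginv (g j) (hg j) v hv), smul_zero, sub_zero]
      refine (ContinuousLinearMap.le_opNorm _ _).trans ?_
      refine mul_le_mul_of_nonneg_left ?_ (norm_nonneg _)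
      rw [Prod.norm_def]
      refine max_le_max ?_ ?_
      · exact (hM _ (hgK j)).trans (le_max_left _ _)
      · simp
  have hb2 : ∀ j, ‖(1 - e) * hat (g j)⁻¹‖ ≤ R₂ / r * (1 + M₁) +
      ‖(1 - e) ((x, 1) : E × ℝ)‖ := by
    intro j
    have hback : (g j)⁻¹ (g j (x + (j : ℝ) • v)) = x + (j : ℝ) • v :=
      (g j).symm_apply_apply _
    refine norm_bound e (g j)⁻¹ (g j (x + (j : ℝ) • v)) hr (le_max_right _ _) (norm_nonneg _)
      (le_max_right _ _) ?_ ?_ ((hM _ (hgK j)).trans (le_max_left _ _))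
    · intro y hy
      obtain ⟨h1, h2⟩ := hball _ (hgK j) y hy
      have h3 := D.inv (g j)⁻¹ (D.Γ.inv_mem (hg j)) _ h1
      have h4 := D.inv (g j)⁻¹ (D.Γ.inv_mem (hg j)) _ h2
      rw [hsplit, hback] at h3
      rw [sub_eq_add_neg, hsplit, hback, map_neg, ← sub_eq_add_neg] at h4
      have h5 := hv _ h3 (-(j : ℝ))
      have h6 := hv _ h4 (-(j : ℝ))
      refine (hR' x (Set.mem_singleton x) _ ?_ ?_).trans (le_max_left _ _)
      · convert h5 using 1
        module
      · convert h6 using 1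
        module
    · rw [hback]
      have h1 : ((x + (j : ℝ) • v, 1) : E × ℝ) = (x, 1) + (j : ℝ) • ((v, 0) : E × ℝ) := by
        ext <;> simp
      rw [h1, map_add, map_smul, hlin0 v hv, smul_zero, add_zero]
  set C := max (R₁ / r' * (1 + ‖x‖) + ‖(1 - e)‖ * max M₁ 1)
    (R₂ / r * (1 + M₁) + ‖(1 - e) ((x, 1) : E × ℝ)‖) with hC
  have hfin := hd C
  have hmem : ∀ j, (⟨g j, hg j⟩ : D.Γ) ∈
      {g : D.Γ | ‖(1 - e) * hatHom D.Γ g * (1 - e)‖ ≤ C ∧
        ‖(1 - e) * hatHom D.Γ g⁻¹ * (1 - e)‖ ≤ C} := by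
    intro j
    refine ⟨?_, ?_⟩
    · change ‖(1 - e) * hat (g j) * (1 - e)‖ ≤ C
      rw [hred _ (hg j)]
      exact (hb1 j).trans (le_max_left _ _)
    · change ‖(1 - e) * hat (g j)⁻¹ * (1 - e)‖ ≤ C
      rw [hred _ (D.Γ.inv_mem (hg j))]
      exact (hb2 j).trans (le_max_right _ _)
  -- bound on j
  have hbd : BddAbove ((fun γ : D.Γ => (M + ‖γ.1 x‖) / ‖γ.1.linear v‖) ''
      {g : D.Γ | ‖(1 - e) * hatHom D.Γ g * (1 - e)‖ ≤ C ∧
        ‖(1 - e) * hatHom D.Γ g⁻¹ * (1 - e)‖ ≤ C}) := (hfin.image _).bddAbove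
  obtain ⟨B, hB⟩ := hbd
  obtain ⟨j, hj⟩ := exists_nat_gt B
  have h1 := hB (Set.mem_image_of_mem _ (hmem j))
  have h2 := hM _ (hgK j)
  have hne : (g j).linear v ≠ 0 := by
    intro h0
    apply hv0
    have : Function.Injective (g j).linear := (g j).linear.injective
    apply this
    rw [h0, map_zero]
  have hpos : 0 < ‖(g j).linear v‖ := norm_pos_iff.2 hne
  have h3 : (j : ℝ) * ‖(g j).linear v‖ ≤ M + ‖g j x‖ := by
    rw [hsplit, map_smul] at h2
    have h4 : (j : ℝ) * ‖(g j).linear v‖ = ‖(j : ℝ) • (g j).linear v‖ := by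
      rw [norm_smul, Real.norm_natCast]
    rw [h4]
    calc ‖(j : ℝ) • (g j).linear v‖ = ‖(g j x + (j : ℝ) • (g j).linear v) - g j x‖ := by
          congr 1
          abel
      _ ≤ ‖g j x + (j : ℝ) • (g j).linear v‖ + ‖g j x‖ := norm_sub_le _ _
      _ ≤ M + ‖g j x‖ := by linarith
  have h5 : (j : ℝ) ≤ (M + ‖g j x‖) / ‖(g j).linear v‖ := by
    rw [le_div_iff₀ hpos]
    exact h3
  have h6 : (M + ‖g j x‖) / ‖(g j).linear v‖ ≤ B := h1
  linarith

end Geometry

end Pool.SV
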