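import Pool.Agent.SV.Chain

open Set Finset

namespace Pool.SV

namespace Alt

variable {B : Type*}

/-- The boundary of a tuple given as a function. -/
theorem dl_ofFn (n : ℕ) (x : Fin (n + 1) → B) :
    dl (List.ofFn x) = ∑ i : Fin (n + 1),
      ((-1 : ℝ) ^ (i : ℕ)) • Finsupp.single (List.ofFn fun k => x (i.succAbove k)) (1 : ℝ) := by
  induction n with
  | zero =>
    rw [Fin.sum_univ_one, List.ofFn_succ, List.ofFn_zero]
    simp [dl]
  | succ n ih =>
    rw [List.ofFn_succ, dl, ih, map_sum]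
    conv_rhs => rw [Fin.sum_univ_succ]
    have h1 : (fun k => x ((0 : Fin (n + 2)).succAbove k)) = fun k => x k.succ := by
      funext k
      rw [Fin.zero_succAbove]
    rw [h1, Fin.val_zero, pow_zero, one_smul, sub_eq_add_neg, ← Finset.sum_neg_distrib]
    congr 1
    apply Finset.sum_congr rfl
    intro i _
    rw [map_smul, cone, Finsupp.lmapDomain_apply, Finsupp.mapDomain_single, Fin.val_succ, pow_succ,
      mul_neg_one, neg_smul]
    congr 3
    rw [List.ofFn_succ]
    congr 1
    simp only [Fin.succ_succAbove_succ]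

/-- The alternation of a tuple given as a function. -/
noncomputable def TF (n : ℕ) (x : Fin n → B) : L B :=
  ((n.factorial : ℝ))⁻¹ • ∑ π : Equiv.Perm (Fin n),
    (((Equiv.Perm.sign π : ℤ) : ℝ)) • Finsupp.single (List.ofFn fun i => x (π i)) (1 : ℝ)

/-- The alternation of a tuple. -/
noncomputable def T (l : List B) : L B := TF l.length l.get

theorem TF_congr {m n : ℕ} (h : m = n) (y : Fin m → B) (x : Fin n → B)
    (hy : ∀ i, y i = x (Fin.cast h i)) : TF m y = TF n x := by
  subst h
  congr 1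
  funext i
  exact hy i

theorem T_ofFn (n : ℕ) (x : Fin n → B) : T (List.ofFn x) = TF n x := by
  apply TF_congr List.length_ofFn
  intro i
  rw [List.get_eq_getElem, List.getElem_ofFn]
  rfl

/-- Composition of permutations which corresponds to the expansion of a determinant. -/
def psi {n : ℕ} (i : Fin (n + 1)) (je : Fin (n + 1) × Equiv.Perm (Fin n)) :
    Equiv.Perm (Fin (n + 1)) :=
  je.1.cycleRange⁻¹ * Equiv.Perm.decomposeFin.symm (0, je.2) * i.cycleRange

theorem psi_self {n : ℕ} (i : Fin (n + 1)) (je : Fin (n + 1) × Equiv.Perm (Fin n)) :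
    psi i je i = je.1 := by
  unfold psi
  rw [Equiv.Perm.mul_apply, Equiv.Perm.mul_apply, Fin.cycleRange_self,
    Equiv.Perm.decomposeFin_symm_apply_zero]
  exact Fin.cycleRange_symm_zero _

theorem psi_succAbove {n : ℕ} (i : Fin (n + 1)) (je : Fin (n + 1) × Equiv.Perm (Fin n))
    (k : Fin n) : psi i je (i.succAbove k) = je.1.succAbove (je.2 k) := by
  unfold psi
  rw [Equiv.Perm.mul_apply, Equiv.Perm.mul_apply, Fin.cycleRange_succAbove,
    Equiv.Perm.decomposeFin_symm_apply_succ, Equiv.swap_self, Equiv.refl_apply]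
  exact Fin.cycleRange_symm_succ _ _

theorem sign_psi {n : ℕ} (i : Fin (n + 1)) (je : Fin (n + 1) × Equiv.Perm (Fin n)) :
    ((Equiv.Perm.sign (psi i je) : ℤ) : ℝ) =
      (-1) ^ (i : ℕ) * (-1) ^ (je.1 : ℕ) * ((Equiv.Perm.sign je.2 : ℤ) : ℝ) := by
  unfold psi
  rw [Equiv.Perm.sign_mul, Equiv.Perm.sign_mul, Equiv.Perm.sign_inv, Fin.sign_cycleRange,
    Fin.sign_cycleRange, Equiv.Perm.decomposeFin.symm_sign, if_pos rfl, one_mul]
  push_cast
  ring

theorem psi_bijective {n : ℕ} (i : Fin (n + 1)) :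
    Function.Bijective (psi (n := n) i) := by
  rw [Fintype.bijective_iff_injective_and_card]
  constructor
  · rintro ⟨j, e⟩ ⟨j', e'⟩ h
    have h1 : j = j' := by
      have := congrArg (fun p : Equiv.Perm (Fin (n + 1)) => p i) h
      simpa only [psi_self] using this
    subst h1
    have h2 : e = e' := by
      ext k
      have := congrArg (fun p : Equiv.Perm (Fin (n + 1)) => p (i.succAbove k)) h
      simp only [psi_succAbove] at this
      rw [Fin.succAbove_right_injective this]
    rw [h2]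
  · rw [Fintype.card_prod, Fintype.card_fin, Fintype.card_perm, Fintype.card_perm,
      Fintype.card_fin, Fintype.card_fin, Nat.factorial_succ]

theorem d_single (l : List B) (c : ℝ) : d (Finsupp.single l c) = c • dl l := by
  unfold d
  rw [Finsupp.linearCombination_single]

theorem lin_single {A : Type*} (S : List A → L B) (l : List A) (c : ℝ) :
    lin S (Finsupp.single l c) = c • S l := by
  unfold lin
  rw [Finsupp.linearCombination_single]

/-- The alternation is a chain map. -/
theorem d_T (l : List B) : d (T l) = lin T (dl l) := by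
  rcases l with _ | ⟨b, l⟩
  · have h : T ([] : List B) = TF 0 (fun i => i.elim0) := T_ofFn 0 _
    rw [h]
    unfold TF
    rw [map_smul, map_sum]
    simp only [List.ofFn_zero, map_smul, d_single, dl, smul_zero, Finset.sum_const_zero, map_zero]
  · obtain ⟨n, x, hx⟩ : ∃ (n : ℕ) (x : Fin (n + 1) → B), b :: l = List.ofFn x :=
      ⟨l.length, (b :: l).get, (List.ofFn_get (b :: l)).symm⟩
    rw [hx, T_ofFn, dl_ofFn, map_sum]
    have hR : ∀ j : Fin (n + 1), lin T (((-1 : ℝ) ^ (j : ℕ)) •
        Finsupp.single (List.ofFn fun k => x (j.succAbove k)) (1 : ℝ)) =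
        ((n.factorial : ℝ))⁻¹ • ∑ e : Equiv.Perm (Fin n),
          ((-1 : ℝ) ^ (j : ℕ) * ((Equiv.Perm.sign e : ℤ) : ℝ)) •
            Finsupp.single (List.ofFn fun k => x (j.succAbove (e k))) (1 : ℝ) := by
      intro j
      rw [map_smul, lin_single, one_smul, T_ofFn]
      unfold TF
      rw [smul_comm, Finset.smul_sum]
      congr 1
      apply Finset.sum_congr rfl
      intro e _
      rw [smul_smul]
    rw [Finset.sum_congr rfl fun j _ => hR j, ← Finset.smul_sum]
    unfold TF
    rw [map_smul, map_sum]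
    have hL : ∀ π : Equiv.Perm (Fin (n + 1)), d ((((Equiv.Perm.sign π : ℤ) : ℝ)) •
        Finsupp.single (List.ofFn fun i => x (π i)) (1 : ℝ)) =
        ∑ i : Fin (n + 1), (((Equiv.Perm.sign π : ℤ) : ℝ) * (-1 : ℝ) ^ (i : ℕ)) •
          Finsupp.single (List.ofFn fun k => x (π (i.succAbove k))) (1 : ℝ) := by
      intro π
      rw [map_smul, d_single, one_smul, dl_ofFn, Finset.smul_sum]
      apply Finset.sum_congr rfl
      intro i _
      rw [smul_smul]
    rw [Finset.sum_congr rfl fun π _ => hL π, Finset.sum_comm]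
    have hI : ∀ i : Fin (n + 1), ∑ π : Equiv.Perm (Fin (n + 1)),
        (((Equiv.Perm.sign π : ℤ) : ℝ) * (-1 : ℝ) ^ (i : ℕ)) •
          Finsupp.single (List.ofFn fun k => x (π (i.succAbove k))) (1 : ℝ) =
        ∑ j : Fin (n + 1), ∑ e : Equiv.Perm (Fin n),
          ((-1 : ℝ) ^ (j : ℕ) * ((Equiv.Perm.sign e : ℤ) : ℝ)) •
            Finsupp.single (List.ofFn fun k => x (j.succAbove (e k))) (1 : ℝ) := by
      intro i
      rw [← (psi_bijective i).sum_comp, Fintype.sum_prod_type]
      apply Finset.sum_congr rfl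
      intro j _
      apply Finset.sum_congr rfl
      intro e _
      simp only [psi_succAbove]
      rw [sign_psi]
      congr 1
      have h2 : ((-1 : ℝ) ^ (i : ℕ)) * (-1 : ℝ) ^ (i : ℕ) = 1 := by
        rw [← mul_pow]
        norm_num
      calc (-1 : ℝ) ^ (i : ℕ) * (-1) ^ (j : ℕ) * ((Equiv.Perm.sign e : ℤ) : ℝ) * (-1) ^ (i : ℕ)
          = ((-1 : ℝ) ^ (i : ℕ) * (-1 : ℝ) ^ (i : ℕ)) *
            ((-1) ^ (j : ℕ) * ((Equiv.Perm.sign e : ℤ) : ℝ)) := by ring
        _ = _ := by rw [h2, one_mul]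
    rw [Finset.sum_congr rfl fun i _ => hI i, Finset.sum_const, Finset.card_univ,
      Fintype.card_fin, ← Nat.cast_smul_eq_nsmul ℝ, smul_smul]
    congr 1
    rw [Nat.factorial_succ]
    push_cast
    have h3 : (n.factorial : ℝ) ≠ 0 := by positivity
    have h4 : ((n : ℝ) + 1) ≠ 0 := by positivity
    field_simp

theorem T_nil : T ([] : List B) = Finsupp.single [] 1 := by
  have h : T ([] : List B) = TF 0 (fun i => i.elim0) := T_ofFn 0 _
  rw [h]
  unfold TF
  simp

theorem T_one (b : B) : T [b] = Finsupp.single [b] 1 := by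
  have h : T [b] = TF 1 (fun _ => b) := by
    have := T_ofFn 1 (fun _ => b)
    simpa using this
  rw [h]
  unfold TF
  simp

theorem T_map {A : Type*} (f : A → B) (l : List A) :
    T (l.map f) = (T l).mapDomain (List.map f) := by
  obtain ⟨n, x, rfl⟩ : ∃ (n : ℕ) (x : Fin n → A), l = List.ofFn x :=
    ⟨l.length, l.get, (List.ofFn_get l).symm⟩
  rw [List.map_ofFn, T_ofFn, T_ofFn]
  unfold TF
  rw [Finsupp.mapDomain_smul, Finsupp.mapDomain_finsetSum]
  congr 1
  apply Finset.sum_congr rfl
  intro π _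
  rw [Finsupp.mapDomain_smul, Finsupp.mapDomain_single, List.map_ofFn]
  rfl

theorem pair_single (β : List B → ℝ) (l : List B) (c : ℝ) :
    pair β (Finsupp.single l c) = c * β l := by
  unfold pair
  rw [Finsupp.linearCombination_single, smul_eq_mul]

theorem dual_ofFn (β : List B → ℝ) (n : ℕ) (x : Fin n → B) :
    dual T β (List.ofFn x) = ((n.factorial : ℝ))⁻¹ * ∑ π : Equiv.Perm (Fin n),
      ((Equiv.Perm.sign π : ℤ) : ℝ) * β (List.ofFn fun i => x (π i)) := by
  unfold dual
  rw [T_ofFn]
  unfold TF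
  rw [map_smul, map_sum, smul_eq_mul]
  congr 1
  apply Finset.sum_congr rfl
  intro π _
  rw [map_smul, pair_single, one_mul, smul_eq_mul]

theorem abs_sign {n : ℕ} (π : Equiv.Perm (Fin n)) : |((Equiv.Perm.sign π : ℤ) : ℝ)| = 1 := by
  rcases Int.units_eq_one_or (Equiv.Perm.sign π) with h | h <;> rw [h] <;> simp

theorem dual_bdd (β : List B → ℝ) (C : ℝ) (hβ : ∀ l, |β l| ≤ C) (l : List B) :
    |dual T β l| ≤ C := by
  obtain ⟨n, x, rfl⟩ : ∃ (n : ℕ) (x : Fin n → B), l = List.ofFn x :=
    ⟨l.length, l.get, (List.ofFn_get l).symm⟩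
  rw [dual_ofFn, abs_mul]
  have h1 : |∑ π : Equiv.Perm (Fin n),
      ((Equiv.Perm.sign π : ℤ) : ℝ) * β (List.ofFn fun i => x (π i))| ≤ n.factorial * C := by
    calc |∑ π : Equiv.Perm (Fin n),
          ((Equiv.Perm.sign π : ℤ) : ℝ) * β (List.ofFn fun i => x (π i))|
        ≤ ∑ π : Equiv.Perm (Fin n),
          |((Equiv.Perm.sign π : ℤ) : ℝ) * β (List.ofFn fun i => x (π i))| :=
          Finset.abs_sum_le_sum_abs _ _
      _ ≤ ∑ _π : Equiv.Perm (Fin n), C := by
          apply Finset.sum_le_sum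
          intro π _
          rw [abs_mul, abs_sign, one_mul]
          exact hβ _
      _ = n.factorial * C := by
          rw [Finset.sum_const, Finset.card_univ, Fintype.card_perm, Fintype.card_fin,
            nsmul_eq_mul]
  have h2 : (0 : ℝ) < n.factorial := by positivity
  rw [abs_of_pos (inv_pos.2 h2)]
  calc ((n.factorial : ℝ))⁻¹ * _ ≤ ((n.factorial : ℝ))⁻¹ * (n.factorial * C) :=
        mul_le_mul_of_nonneg_left h1 (inv_pos.2 h2).le
    _ = C := by
        rw [← mul_assoc, inv_mul_cancel₀ h2.ne', one_mul]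

theorem pair_mapDomain {A : Type*} (β : List B → ℝ) (f : List A → List B) (c : L A) :
    pair β (c.mapDomain f) = pair (fun l => β (f l)) c := by
  unfold pair
  rw [Finsupp.linearCombination_mapDomain]
  rfl

end Alt

open Alt

theorem exists_alt (Γ : Type*) {B : Type*} [Group Γ] [MulAction Γ B] (n : ℕ)
    (β : List B → ℝ) (hb : Bdd β) (hβ : Inv Γ β) (hc : cob β = 0) :
    ∃ β' : List B → ℝ, Bdd β' ∧ Inv Γ β' ∧ cob β' = 0 ∧
      (∀ (x : Fin (n + 1) → B) (π : Equiv.Perm (Fin (n + 1))),
        β' (List.ofFn (fun i => x (π i))) = ((Equiv.Perm.sign π : ℤ) : ℝ) * β' (List.ofFn x)) ∧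
      ∀ w, Cyc Γ w → pair β' w = pair β w := by
  obtain ⟨C, hC⟩ := hb
  refine ⟨dual T β, ⟨C, dual_bdd β C hC⟩, ?_, ?_, ?_, ?_⟩
  · intro g l
    unfold dual
    rw [T_map, pair_mapDomain]
    congr 1
    congr 1
    funext l'
    exact hβ g l'
  · funext l
    unfold cob
    rw [pair_dual, ← d_T, pair_d, hc]
    simp [pair]
  · intro x π
    rw [dual_ofFn, dual_ofFn, ← mul_assoc, mul_comm (((Equiv.Perm.sign π : ℤ) : ℝ)), mul_assoc]
    congr 1
    rw [Finset.mul_sum]
    rw [← (Equiv.mulLeft π).bijective.sum_comp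
      (fun ρ => ((Equiv.Perm.sign π : ℤ) : ℝ) *
        (((Equiv.Perm.sign ρ : ℤ) : ℝ) * β (List.ofFn fun i => x (ρ i))))]
    apply Finset.sum_congr rfl
    intro ρ _
    simp only [Equiv.coe_mulLeft, Equiv.Perm.sign_mul, Equiv.Perm.mul_apply]
    push_cast
    have h2 : ((Equiv.Perm.sign π : ℤ) : ℝ) * ((Equiv.Perm.sign π : ℤ) : ℝ) = 1 := by
      rcases Int.units_eq_one_or (Equiv.Perm.sign π) with h | h <;> rw [h] <;> simp
    calc ((Equiv.Perm.sign ρ : ℤ) : ℝ) * β (List.ofFn fun i => x (π (ρ i)))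
        = (((Equiv.Perm.sign π : ℤ) : ℝ) * ((Equiv.Perm.sign π : ℤ) : ℝ)) *
          (((Equiv.Perm.sign ρ : ℤ) : ℝ) * β (List.ofFn fun i => x (π (ρ i)))) := by
          rw [h2, one_mul]
      _ = _ := by ring
  · intro w hw
    exact natural Γ T T_nil T_one d_T (fun g l => T_map _ l) β hβ hc w hw

namespace Alt

/-- Evaluation of a push forward. -/
theorem dual_push_ofFn {Q Y : Type*} (S : Finset Q) (ν : Y → (Q →₀ ℝ)) (n : ℕ)
    (β : List Q → ℝ) (x : Fin n → Y) (hx : ∀ i, (ν (x i)).support ⊆ S) :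
    dual (push ν) β (List.ofFn x) =
      ∑ q : Fin n → S, (∏ i, ν (x i) (q i)) * β (List.ofFn fun i => (q i : Q)) := by
  induction n generalizing β with
  | zero =>
    unfold dual
    rw [List.ofFn_zero, push, pair_single]
    simp
  | succ n ih =>
    unfold dual
    rw [List.ofFn_succ, push, Finsupp.sum_of_support_subset _ (hx 0) _ (by simp), map_sum]
    have h1 : ∀ b : Q, pair β (ν (x 0) b • cone b (push ν (List.ofFn fun i => x i.succ))) =
        ν (x 0) b * ∑ q : Fin n → S, (∏ i, ν (x i.succ) (q i)) *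
          β (b :: List.ofFn fun i => (q i : Q)) := by
      intro b
      rw [map_smul, smul_eq_mul, ← ih (fun l => β (b :: l)) (fun i => x i.succ)
        (fun i => hx i.succ)]
      congr 1
      rw [cone, Finsupp.lmapDomain_apply, pair_mapDomain]
      rfl
    rw [Finset.sum_congr rfl fun b _ => h1 b]
    rw [← (Fin.consEquiv (fun _ : Fin (n + 1) => (S : Type _))).bijective.sum_comp,
      Fintype.sum_prod_type, ← Finset.sum_coe_sort S]
    apply Finset.sum_congr rfl
    intro b _
    rw [Finset.mul_sum]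
    apply Finset.sum_congr rfl
    intro q _
    rw [Fin.prod_univ_succ, List.ofFn_succ]
    simp only [Fin.consEquiv_apply, Fin.cons_zero, Fin.cons_succ]
    ring

end Alt

theorem exists_altMap {Q : Type*} (S : Finset Q) (n : ℕ) (β : List Q → ℝ)
    (halt : ∀ (x : Fin n → Q) (π : Equiv.Perm (Fin n)),
      β (List.ofFn (fun i => x (π i))) = ((Equiv.Perm.sign π : ℤ) : ℝ) * β (List.ofFn x))
    (Y : Type*) :
    ∃ Φ : (S → ℝ) [⋀^Fin n]→ₗ[ℝ] ℝ, ∀ (ν : Y → (Q →₀ ℝ)) (x : Fin n → Y),
      (∀ i, (ν (x i)).support ⊆ S) →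
        dual (push ν) β (List.ofFn x) = Φ (fun i q => ν (x i) q) := by
  classical
  let M : MultilinearMap ℝ (fun _ : Fin n => (S → ℝ)) ℝ :=
    ∑ q : Fin n → S, (MultilinearMap.mkPiRing ℝ (Fin n)
      (β (List.ofFn fun i => (q i : Q)))).compLinearMap (fun i => LinearMap.proj (q i))
  have hM : ∀ v : Fin n → S → ℝ, M v = ∑ q : Fin n → S, (∏ i, v i (q i)) *
      β (List.ofFn fun i => (q i : Q)) := by
    intro v
    simp only [M, _root_.sum_apply, MultilinearMap.compLinearMap_apply,
      MultilinearMap.mkPiRing_apply, LinearMap.proj_apply, smul_eq_mul]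
  have halt' : ∀ (v : Fin n → S → ℝ) (i j : Fin n), v i = v j → i ≠ j → M v = 0 := by
    intro v i j hij hne
    rw [hM]
    have hcomp : ∑ q : Fin n → S, (∏ i, v i (q i)) * β (List.ofFn fun i => (q i : Q)) =
        ∑ q : Fin n → S, -((∏ i, v i (q i)) * β (List.ofFn fun i => (q i : Q))) := by
      rw [← (Equiv.arrowCongr (Equiv.swap i j) (Equiv.refl S)).bijective.sum_comp
        (fun q : Fin n → S => (∏ i, v i (q i)) * β (List.ofFn fun i => (q i : Q)))]
      apply Finset.sum_congr rfl
      intro q _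
      have h1 : ∀ k, (Equiv.arrowCongr (Equiv.swap i j) (Equiv.refl S)) q k =
          q (Equiv.swap i j k) := by
        intro k
        simp [Equiv.arrowCongr, Equiv.symm_swap]
      simp only [h1]
      rw [halt (fun k => (q k : Q)) (Equiv.swap i j), Equiv.Perm.sign_swap hne]
      have h2 : ∏ k, v k (q (Equiv.swap i j k)) = ∏ k, v k (q k) := by
        rw [← (Equiv.swap i j).bijective.prod_comp (fun k => v k (q k))]
        apply Finset.prod_congr rfl
        intro k _
        have h3 : v k = v (Equiv.swap i j k) := by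
          rcases eq_or_ne k i with rfl | hki
          · rw [Equiv.swap_apply_left]
            exact hij
          · rcases eq_or_ne k j with rfl | hkj
            · rw [Equiv.swap_apply_right]
              exact hij.symm
            · rw [Equiv.swap_apply_of_ne_of_ne hki hkj]
        rw [h3]
      rw [h2]
      simp
    rw [Finset.sum_neg_distrib] at hcomp
    linarith
  refine ⟨{ M with map_eq_zero_of_eq' := halt' }, ?_⟩
  intro ν x hx
  rw [dual_push_ofFn S ν n β x hx]
  change _ = M (fun i q => ν (x i) q)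
  rw [hM]

end Pool.SV
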