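import Pool.Agent.Helper84.SV.Hat

/-!
Project SV: centralisers of elements of an abelian normal subgroup without unipotent elements.
-/

open Set Finset

namespace Pool.SV

namespace Cent

variable {E : Type*} [NormedAddCommGroup E] [NormedSpace ℝ E]

/-- Conjugation as a homomorphism of algebras. -/
def conjHom (U V : Alg E) (h : V * U = 1) (h' : U * V = 1) : Alg E →ₐ[ℝ] Alg E where
  toFun x := U * x * V
  map_one' := by rw [mul_one, h']
  map_mul' x y := by
    calc U * (x * y) * V = U * x * 1 * y * V := by simp only [mul_one, mul_assoc]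
      _ = U * x * (V * U) * y * V := by rw [h]
      _ = U * x * V * (U * y * V) := by simp only [mul_assoc]
  map_zero' := by simp
  map_add' x y := by rw [mul_add, add_mul]
  commutes' r := by
    rw [← Algebra.commutes r U, mul_assoc, h', mul_one]

theorem conjHom_apply (U V : Alg E) (h : V * U = 1) (h' : U * V = 1) (x : Alg E) :
    conjHom U V h h' x = U * x * V := rfl

variable [FiniteDimensional ℝ E]

/-- Elements of a commutative set of operators which are roots of one polynomial, pairwise
incongruent modulo nilpotent operators, are finite in number. -/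
theorem finite_of_roots {ι : Type*} (u : ι → Alg E) (hcomm : ∀ i j, u i * u j = u j * u i)
    (hinj : ∀ i j, IsNilpotent (u i - u j) → i = j) (p : Polynomial ℝ) (hp : p ≠ 0)
    (C : Set ι) (hC : ∀ i ∈ C, Polynomial.aeval (u i) p = 0) : C.Finite := by
  classical
  let S : Set (Alg E) := Set.range u
  have hS : ∀ x ∈ S, ∀ y ∈ S, x * y = y * x := by
    rintro _ ⟨i, rfl⟩ _ ⟨j, rfl⟩
    exact hcomm i j
  let B := Algebra.adjoin ℝ S
  letI : CommRing B := Algebra.adjoinCommRingOfComm ℝ hS
  have hfd : Module.Finite ℝ B := inferInstance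
  have hart : IsArtinianRing B := IsArtinianRing.of_finite ℝ B
  let v : ι → B := fun i => ⟨u i, Algebra.subset_adjoin ⟨i, rfl⟩⟩
  let Θ : ι → ∀ m : MaximalSpectrum B, B ⧸ m.asIdeal := fun i m => Ideal.Quotient.mk m.asIdeal (v i)
  have hΘ : Function.Injective Θ := by
    intro i j hij
    apply hinj
    have h1 : IsNilpotent (v i - v j) := by
      rw [nilpotent_iff_mem_prime]
      intro J hJ
      have hJm : J.IsMaximal := IsArtinianRing.isMaximal_of_isPrime J
      have h2 := congrFun hij ⟨J, hJm⟩
      exact (Ideal.Quotient.mk_eq_mk_iff_sub_mem _ _).1 h2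
    have h3 := h1.map B.val
    rwa [map_sub] at h3
  have hroot : ∀ i ∈ C, ∀ m : MaximalSpectrum B, Polynomial.aeval (Θ i m) p = 0 := by
    intro i hi m
    have h1 : Polynomial.aeval (v i) p = 0 := by
      apply Subtype.val_injective
      have h2 : B.val (Polynomial.aeval (v i) p) = Polynomial.aeval (B.val (v i)) p :=
        (Polynomial.aeval_algHom_apply B.val (v i) p).symm
      exact h2.trans (hC i hi)
    have h2 := Polynomial.aeval_algHom_apply (Ideal.Quotient.mkₐ ℝ m.asIdeal) (v i) p
    rw [h1, map_zero] at h2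
    exact h2
  have hfin : {f : ∀ m : MaximalSpectrum B, B ⧸ m.asIdeal |
      ∀ m, f m ∈ {y : B ⧸ m.asIdeal | Polynomial.aeval y p = 0}}.Finite := by
    apply Set.Finite.pi'
    intro m
    have hm : m.asIdeal.IsMaximal := m.isMaximal
    letI : Field (B ⧸ m.asIdeal) := Ideal.Quotient.field m.asIdeal
    have h1 := Polynomial.rootSet_finite p (B ⧸ m.asIdeal)
    refine h1.subset ?_
    intro y hy
    rw [Polynomial.mem_rootSet]
    exact ⟨hp, hy⟩
  refine Set.Finite.of_finite_image (f := Θ) (hfin.subset ?_) hΘ.injOn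
  rintro _ ⟨i, hi, rfl⟩ m
  exact hroot i hi m

end Cent

section Geometry

variable {E : Type*} [NormedAddCommGroup E] [NormedSpace ℝ E] [FiniteDimensional ℝ E]

theorem centralizer_finiteIndex (Γ : Subgroup (E ≃ᵃ[ℝ] E)) (A : Subgroup Γ) [A.Normal]
    (hab : ∀ a ∈ A, ∀ b ∈ A, a * b = b * a)
    (hnu : ∀ a ∈ A, IsNilpotent (hat a.1 - 1) → a = 1) (a : Γ) (ha : a ∈ A) :
    (Subgroup.centralizer ({a} : Set Γ)).FiniteIndex := by
  classical
  have hmul : ∀ b c : Γ, hat (b * c).1 = hat b.1 * hat c.1 := fun b c => hat_mul b.1 c.1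
  let u : A → Alg E := fun b => hat (b : Γ).1
  let p := minpoly ℝ (hat a.1)
  have hint : IsIntegral ℝ (hat a.1) := Algebra.IsIntegral.isIntegral _
  have hC : {b : A | Polynomial.aeval (u b) p = 0}.Finite := by
    refine Cent.finite_of_roots u ?_ ?_ p (minpoly.ne_zero hint) _ fun b hb => hb
    · intro b c
      change hat (b : Γ).1 * hat (c : Γ).1 = hat (c : Γ).1 * hat (b : Γ).1
      rw [← hmul, ← hmul, hab b b.2 c c.2]
    · intro b c hbc
      have h1 : IsNilpotent (hat ((b : Γ) * (c : Γ)⁻¹).1 - 1) := by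
        have h2 : hat ((b : Γ) * (c : Γ)⁻¹).1 - 1 = (u b - u c) * hat ((c : Γ)⁻¹).1 := by
          rw [hmul, sub_mul]
          congr 1
          exact (hat_mul_inv (c : Γ).1).symm
        rw [h2]
        apply Commute.isNilpotent_mul_right _ hbc
        have h3 : ∀ b' : A, Commute (u b') (hat ((c : Γ)⁻¹).1) := by
          intro b'
          change hat (b' : Γ).1 * hat ((c : Γ)⁻¹).1 = hat ((c : Γ)⁻¹).1 * hat (b' : Γ).1
          rw [← hmul, ← hmul, hab b' b'.2 _ (A.inv_mem c.2)]
        exact (h3 b).sub_left (h3 c)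
      have h4 := hnu _ (A.mul_mem b.2 (A.inv_mem c.2)) h1
      exact Subtype.ext (mul_inv_eq_one.1 h4)
  have hconj : ∀ g : Γ, Polynomial.aeval (hat (g * a * g⁻¹).1) p = 0 := by
    intro g
    have h1 : hat (g * a * g⁻¹).1 = Cent.conjHom (hat g.1) (hat (g⁻¹ : Γ).1) (hat_inv_mul g.1)
        (hat_mul_inv g.1) (hat a.1) := by
      rw [Cent.conjHom_apply, hmul, hmul]
    rw [h1, Polynomial.aeval_algHom_apply, minpoly.aeval, map_zero]
  have hfin : Finite (Γ ⧸ Subgroup.centralizer ({a} : Set Γ)) := by
    have := hC.to_subtype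
    let f : Γ ⧸ Subgroup.centralizer ({a} : Set Γ) → {b : A | Polynomial.aeval (u b) p = 0} :=
      fun q => ⟨⟨q.out * a * q.out⁻¹, (inferInstance : A.Normal).conj_mem a ha q.out⟩,
        hconj q.out⟩
    refine Finite.of_injective f ?_
    intro q q' h
    have h1 : q.out * a * q.out⁻¹ = q'.out * a * q'.out⁻¹ := by
      have := congrArg (fun z => ((z.1 : A) : Γ)) h
      exact this
    have h2 : (q.out : Γ ⧸ Subgroup.centralizer ({a} : Set Γ)) = (q'.out : Γ) := by
      rw [QuotientGroup.eq, Subgroup.mem_centralizer_singleton_iff]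
      have h3 : a = q.out⁻¹ * (q'.out * a * q'.out⁻¹) * q.out := by
        rw [← h1]
        group
      calc q.out⁻¹ * q'.out * a = q.out⁻¹ * (q'.out * a * q'.out⁻¹) * q.out *
            (q.out⁻¹ * q'.out) := by group
        _ = a * (q.out⁻¹ * q'.out) := by rw [← h3]
    rw [QuotientGroup.out_eq', QuotientGroup.out_eq'] at h2
    exact h2
  exact Subgroup.finiteIndex_of_finite_quotient

end Geometry

end Pool.SV
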