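import Pool.Agent.Helper84.SV.Hat

set_option autoImplicit false

open Set Finset

namespace Pool.SV

namespace Cone

open Filter Topology

variable {E : Type*} [NormedAddCommGroup E] [NormedSpace ℝ E]

/-- closeness of points of the cone -/
def N (C : Set E) (r : ℝ) (x y : E) : Prop :=
  Real.exp r • y - x ∈ C ∧ Real.exp r • x - y ∈ C

/-- open convex cone without lines -/
structure IsC (C : Set E) : Prop where
  isOpen : IsOpen C
  convex : Convex ℝ C
  cone : ∀ t : ℝ, 0 < t → ∀ x ∈ C, t • x ∈ C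
  sharp : ∀ v : E, v ≠ 0 → ∃ x ∈ C, ∃ t : ℝ, x + t • v ∉ C

variable {C : Set E} (hC : IsC C)

include hC

theorem add_mem' {x y : E} (hx : x ∈ C) (hy : y ∈ C) : x + y ∈ C := by
  have h := hC.convex hx hy (a := 1 / 2) (b := 1 / 2) (by norm_num) (by norm_num) (by norm_num)
  have h2 := hC.cone 2 (by norm_num) _ h
  rw [smul_add, smul_smul, smul_smul] at h2
  norm_num at h2
  exact h2

theorem add_closure_mem {x c : E} (hx : x ∈ C) (hc : c ∈ closure C) : x + c ∈ C := by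
  have h := hC.convex.combo_interior_closure_mem_interior (by rwa [hC.isOpen.interior_eq]) hc
    (a := 1 / 2) (b := 1 / 2) (by norm_num) (by norm_num) (by norm_num)
  rw [hC.isOpen.interior_eq] at h
  have h2 := hC.cone 2 (by norm_num) _ h
  rw [smul_add, smul_smul, smul_smul] at h2
  norm_num at h2
  exact h2

theorem smul_closure_mem {c : E} (hc : c ∈ closure C) {t : ℝ} (ht : 0 < t) :
    t • c ∈ closure C :=
  map_mem_closure (continuous_const_smul t) hc (fun x hx => hC.cone t ht x hx)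

theorem eq_zero_of_closure {v : E} (h1 : v ∈ closure C) (h2 : -v ∈ closure C) : v = 0 := by
  by_contra hv
  obtain ⟨x, hx, t, ht⟩ := hC.sharp v hv
  apply ht
  rcases lt_trichotomy t 0 with h | h | h
  · have h3 := smul_closure_mem hC h2 (neg_pos.2 h)
    rw [neg_smul, smul_neg, neg_neg] at h3
    exact add_closure_mem hC hx h3
  · rw [h, zero_smul, add_zero]
    exact hx
  · exact add_closure_mem hC hx (smul_closure_mem hC h1 h)

theorem zero_notMem (hne : ∃ v : E, v ≠ 0) : (0 : E) ∉ C := by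
  intro h0
  obtain ⟨v, hv⟩ := hne
  -- C is everything
  have h1 : ∀ w : E, w ∈ C := by
    intro w
    have h2 : ∀ᶠ t : ℝ in 𝓝 0, t • w ∈ C := by
      have : Tendsto (fun t : ℝ => t • w) (𝓝 0) (𝓝 ((0 : ℝ) • w)) :=
        (continuous_id.smul continuous_const).tendsto 0
      rw [zero_smul] at this
      exact this (hC.isOpen.mem_nhds h0)
    have h3 := (h2.filter_mono (nhdsWithin_le_nhds (s := Set.Ioi (0 : ℝ)))).and
      self_mem_nhdsWithin
    obtain ⟨t, ht, ht0⟩ := h3.exists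
    have ht0' : (0 : ℝ) < t := ht0
    have := hC.cone t⁻¹ (inv_pos.2 ht0') _ ht
    rwa [smul_smul, inv_mul_cancel₀ ht0'.ne', one_smul] at this
  obtain ⟨x, _, t, ht⟩ := hC.sharp v hv
  exact ht (h1 _)

omit hC in
theorem N.symm {r : ℝ} {x y : E} (h : N C r x y) : N C r y x := ⟨h.2, h.1⟩

theorem N.trans {r s : ℝ} {x y z : E} (h : N C r x y) (h' : N C s y z) : N C (r + s) x z := by
  constructor
  · have h1 := hC.cone _ (Real.exp_pos r) _ h'.1
    have h2 := add_mem' hC h1 h.1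
    rw [Real.exp_add]
    convert h2 using 1
    rw [smul_sub, smul_smul]
    abel
  · have h1 := hC.cone _ (Real.exp_pos s) _ h.2
    have h2 := add_mem' hC h1 h'.2
    rw [add_comm r s, Real.exp_add]
    convert h2 using 1
    rw [smul_sub, smul_smul]
    abel

theorem N.mono {r s : ℝ} {x y : E} (hx : x ∈ C) (hy : y ∈ C) (hrs : r ≤ s) (h : N C r x y) :
    N C s x y := by
  rcases eq_or_lt_of_le hrs with rfl | hlt
  · exact h
  have h0 : 0 < Real.exp s - Real.exp r := sub_pos.2 (Real.exp_lt_exp.2 hlt)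
  constructor
  · have := add_mem' hC (hC.cone _ h0 _ hy) h.1
    convert this using 1
    rw [sub_smul]
    abel
  · have := add_mem' hC (hC.cone _ h0 _ hx) h.2
    convert this using 1
    rw [sub_smul]
    abel

theorem N.smul {r : ℝ} {x y : E} (h : N C r x y) {t : ℝ} (ht : 0 < t) :
    N C r (t • x) (t • y) := by
  constructor
  · have := hC.cone t ht _ h.1
    rwa [smul_sub, smul_comm] at this
  · have := hC.cone t ht _ h.2
    rwa [smul_sub, smul_comm] at this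

theorem N.nhds {r : ℝ} (hr : 0 < r) {x : E} (hx : x ∈ C) : {y | N C r y x} ∈ 𝓝 x := by
  have h0 : 0 < Real.exp r - 1 := by
    rw [sub_pos, ← Real.exp_zero]
    exact Real.exp_lt_exp.2 hr
  have hopen : IsOpen {y | N C r y x} := by
    have h1 : IsOpen {y : E | Real.exp r • x - y ∈ C} :=
      hC.isOpen.preimage (continuous_const.sub continuous_id)
    have h2 : IsOpen {y : E | Real.exp r • y - x ∈ C} :=
      hC.isOpen.preimage ((continuous_id.const_smul (Real.exp r)).sub continuous_const)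
    exact h1.inter h2
  apply hopen.mem_nhds
  have h1 := hC.cone _ h0 x hx
  rw [sub_smul, one_smul] at h1
  exact ⟨h1, h1⟩

theorem N.not_scale (h0 : (0 : E) ∉ C) {r σ : ℝ} {x : E} (hx : x ∈ C) (hσ : Real.exp r ≤ σ) :
    ¬ N C r (σ • x) x := by
  intro h
  have h1 := h.1
  rcases eq_or_lt_of_le hσ with h2 | h2
  · rw [h2, sub_self] at h1
    exact h0 h1
  · have h3 : (σ - Real.exp r) • x ∈ C := hC.cone _ (sub_pos.2 h2) x hx
    have h4 := add_mem' hC h1 h3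
    rw [sub_smul] at h4
    have : Real.exp r • x - σ • x + (σ • x - Real.exp r • x) = 0 := by abel
    rw [this] at h4
    exact h0 h4

variable [FiniteDimensional ℝ E]

/-- normality of the cone -/
theorem exists_normal : ∃ δ : ℝ, 0 < δ ∧ ∀ u ∈ closure C, ∀ v ∈ closure C,
    δ * ‖u‖ ≤ ‖u + v‖ := by
  have : ProperSpace E := FiniteDimensional.proper ℝ E
  let S : Set (E × E) := {p | p.1 ∈ closure C ∧ ‖p.1‖ = 1 ∧ p.2 ∈ closure C ∧ ‖p.2‖ ≤ 2}
  have hS : IsCompact S := by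
    have h1 : IsCompact (Metric.closedBall (0 : E) 1 ×ˢ Metric.closedBall (0 : E) 2) :=
      (isCompact_closedBall _ _).prod (isCompact_closedBall _ _)
    apply h1.of_isClosed_subset
    · have c1 : IsClosed {p : E × E | p.1 ∈ closure C} :=
        isClosed_closure.preimage continuous_fst
      have c2 : IsClosed {p : E × E | ‖p.1‖ = 1} :=
        isClosed_eq continuous_fst.norm continuous_const
      have c3 : IsClosed {p : E × E | p.2 ∈ closure C} :=
        isClosed_closure.preimage continuous_snd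
      have c4 : IsClosed {p : E × E | ‖p.2‖ ≤ 2} :=
        isClosed_le continuous_snd.norm continuous_const
      exact c1.inter (c2.inter (c3.inter c4))
    · rintro ⟨u, v⟩ ⟨_, h2, _, h4⟩
      exact ⟨by simpa using h2.le, by simpa using h4⟩
  have hkey : ∃ δ : ℝ, 0 < δ ∧ ∀ p ∈ S, δ ≤ ‖p.1 + p.2‖ := by
    rcases S.eq_empty_or_nonempty with h | h
    · exact ⟨1, one_pos, fun p hp => by rw [h] at hp; exact absurd hp (Set.notMem_empty p)⟩
    · obtain ⟨p, hp, hmin⟩ := hS.exists_isMinOn h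
        ((continuous_fst.add continuous_snd).norm.continuousOn)
      refine ⟨‖p.1 + p.2‖, ?_, fun q hq => hmin hq⟩
      rw [norm_pos_iff]
      intro h0
      have h1 : p.2 = -p.1 := (neg_eq_of_add_eq_zero_right h0).symm
      have h2 : p.1 = 0 := eq_zero_of_closure hC hp.1 (h1 ▸ hp.2.2.1)
      have h3 := hp.2.1
      rw [h2, norm_zero] at h3
      exact zero_ne_one h3
  obtain ⟨δ, hδ, hkey⟩ := hkey
  refine ⟨min δ 1, lt_min hδ one_pos, ?_⟩
  intro u hu v hv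
  by_cases hu0 : u = 0
  · rw [hu0, norm_zero, mul_zero]
    exact norm_nonneg _
  have hun : 0 < ‖u‖ := norm_pos_iff.2 hu0
  have h1 : min δ 1 ≤ ‖‖u‖⁻¹ • u + ‖u‖⁻¹ • v‖ := by
    have hu' : ‖‖u‖⁻¹ • u‖ = 1 := by
      rw [norm_smul, norm_inv, norm_norm, inv_mul_cancel₀ hun.ne']
    by_cases h2 : ‖‖u‖⁻¹ • v‖ ≤ 2
    · refine (min_le_left _ _).trans (hkey (‖u‖⁻¹ • u, ‖u‖⁻¹ • v) ⟨?_, hu', ?_, h2⟩)
      · exact smul_closure_mem hC hu (inv_pos.2 hun)
      · exact smul_closure_mem hC hv (inv_pos.2 hun)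
    · push Not at h2
      refine (min_le_right _ _).trans ?_
      have h3 : ‖‖u‖⁻¹ • v‖ ≤ ‖‖u‖⁻¹ • u + ‖u‖⁻¹ • v‖ + ‖‖u‖⁻¹ • u‖ := by
        have := norm_sub_le (‖u‖⁻¹ • u + ‖u‖⁻¹ • v) (‖u‖⁻¹ • u)
        rwa [add_sub_cancel_left] at this
      rw [hu'] at h3
      linarith
  rw [← smul_add, norm_smul, norm_inv, norm_norm] at h1
  calc min δ 1 * ‖u‖ ≤ ‖u‖⁻¹ * ‖u + v‖ * ‖u‖ := by gcongr
    _ = ‖u + v‖ := by field_simp

/-- the points close to a compact set form a relatively compact set -/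
theorem exists_compact {K : Set E} (hK : IsCompact K) (hKC : K ⊆ C) :
    ∃ K' ⊆ C, IsCompact K' ∧ ∀ x ∈ K, ∀ y, N C 1 x y → y ∈ K' := by
  have : ProperSpace E := FiniteDimensional.proper ℝ E
  obtain ⟨δ, hδ, hnorm⟩ := exists_normal hC
  obtain ⟨R, hR⟩ := hK.isBounded.exists_norm_le
  set e := Real.exp 1 with he
  have he0 : 0 < e := Real.exp_pos 1
  set ρ := (e + e⁻¹) * R / δ + e⁻¹ * R with hρ
  let S : Set (E × E) := {p | p.1 ∈ K ∧ p.2 ∈ Metric.closedBall (0 : E) ρ ∧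
    e • p.2 - p.1 ∈ closure C ∧ e • p.1 - p.2 ∈ closure C}
  have hS : IsCompact S := by
    have h1 : IsCompact (K ×ˢ Metric.closedBall (0 : E) ρ) := hK.prod (isCompact_closedBall _ _)
    apply h1.of_isClosed_subset
    · have c1 : IsClosed {p : E × E | p.1 ∈ K} := hK.isClosed.preimage continuous_fst
      have c2 : IsClosed {p : E × E | p.2 ∈ Metric.closedBall (0 : E) ρ} :=
        Metric.isClosed_closedBall.preimage continuous_snd
      have c3 : IsClosed {p : E × E | e • p.2 - p.1 ∈ closure C} :=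
        isClosed_closure.preimage ((continuous_snd.const_smul e).sub continuous_fst)
      have c4 : IsClosed {p : E × E | e • p.1 - p.2 ∈ closure C} :=
        isClosed_closure.preimage ((continuous_fst.const_smul e).sub continuous_snd)
      exact c1.inter (c2.inter (c3.inter c4))
    · rintro ⟨u, v⟩ ⟨h1, h2, _, _⟩
      exact ⟨h1, h2⟩
  refine ⟨Prod.snd '' S, ?_, hS.image continuous_snd, ?_⟩
  · rintro _ ⟨⟨x, y⟩, ⟨hx, _, h3, _⟩, rfl⟩
    have h5 := smul_closure_mem hC h3 (inv_pos.2 he0)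
    have h6 := add_closure_mem hC (hC.cone _ (inv_pos.2 he0) x (hKC hx)) h5
    convert h6 using 1
    change y = e⁻¹ • x + e⁻¹ • (e • y - x)
    rw [smul_sub, smul_smul, inv_mul_cancel₀ he0.ne', one_smul]
    abel
  · intro x hx y hy
    refine ⟨(x, y), ⟨hx, ?_, subset_closure hy.1, subset_closure hy.2⟩, rfl⟩
    have h5 := smul_closure_mem hC (subset_closure hy.1) (inv_pos.2 he0)
    have h6 := hnorm _ h5 _ (subset_closure hy.2)
    have h7 : e⁻¹ • (e • y - x) + (e • x - y) = (e - e⁻¹) • x := by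
      rw [smul_sub, smul_smul, inv_mul_cancel₀ he0.ne', one_smul, sub_smul]
      abel
    rw [h7] at h6
    have h8 : ‖e - e⁻¹‖ ≤ e + e⁻¹ := by
      rw [Real.norm_eq_abs, abs_le]
      have := inv_pos.2 he0
      constructor <;> linarith
    have hRx := hR x hx
    have hR0 : 0 ≤ R := (norm_nonneg x).trans hRx
    have h9 : ‖e⁻¹ • (e • y - x)‖ ≤ (e + e⁻¹) * R / δ := by
      rw [le_div_iff₀ hδ, mul_comm]
      refine h6.trans ?_
      rw [norm_smul]
      gcongr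
    have h10 : y = e⁻¹ • (e • y - x) + e⁻¹ • x := by
      rw [smul_sub, smul_smul, inv_mul_cancel₀ he0.ne', one_smul]
      abel
    rw [mem_closedBall_zero_iff, h10]
    refine (norm_add_le _ _).trans ?_
    rw [hρ]
    refine add_le_add h9 ?_
    rw [norm_smul, Real.norm_eq_abs, abs_of_pos (inv_pos.2 he0)]
    gcongr

end Cone

section main

open Filter Topology Cone

variable {E : Type*} [NormedAddCommGroup E] [NormedSpace ℝ E] [FiniteDimensional ℝ E]

namespace Cone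

variable (D : Geo E) (hC : IsC D.X) (hlin : ∀ g ∈ D.Γ, g 0 = 0)

include hlin in
theorem map_smul' {g : E ≃ᵃ[ℝ] E} (hg : g ∈ D.Γ) (a : ℝ) (x : E) : g (a • x) = a • g x := by
  rw [aff_eq g, aff_eq g x, hlin g hg, add_zero, add_zero, map_smul]

include hlin in
theorem map_sub' {g : E ≃ᵃ[ℝ] E} (hg : g ∈ D.Γ) (x y : E) : g (x - y) = g x - g y := by
  rw [aff_eq g, aff_eq g x, aff_eq g y, hlin g hg, add_zero, add_zero, add_zero, map_sub]

include hlin in
theorem N_map {g : E ≃ᵃ[ℝ] E} (hg : g ∈ D.Γ) {r : ℝ} {x y : E} (h : N D.X r x y) :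
    N D.X r (g x) (g y) := by
  constructor
  · rw [← map_smul' D hlin hg, ← map_sub' D hlin hg]
    exact D.inv g hg _ h.1
  · rw [← map_smul' D hlin hg, ← map_sub' D hlin hg]
    exact D.inv g hg _ h.2

omit [FiniteDimensional ℝ E] in
include hC in
/-- a single group element moves the points of a compact set by a definite amount -/
theorem exists_r_single {K : Set E} (hK : IsCompact K) (hKX : K ⊆ D.X) {g : E ≃ᵃ[ℝ] E}
    (hg : g ∈ D.Γ) (hg1 : g ≠ 1) (hcont : Continuous g) :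
    ∃ r : ℝ, 0 < r ∧ ∀ x ∈ K, ¬ N D.X r x (g x) := by
  by_contra hcon
  push Not at hcon
  have h1 : ∀ n : ℕ, ∃ x ∈ K, N D.X (1 / ((n : ℝ) + 1)) x (g x) := fun n =>
    hcon _ (by positivity)
  choose x hxK hx using h1
  obtain ⟨a, haK, φ, hφ, hlim⟩ := hK.tendsto_subseq hxK
  have hr : Tendsto (fun n : ℕ => Real.exp (1 / ((φ n : ℝ) + 1))) atTop (𝓝 1) := by
    have h2 : Tendsto (fun n : ℕ => 1 / ((n : ℝ) + 1)) atTop (𝓝 0) :=
      tendsto_one_div_add_atTop_nhds_zero_nat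
    have h3 := (Real.continuous_exp.tendsto 0).comp (h2.comp hφ.tendsto_atTop)
    rw [Real.exp_zero] at h3
    exact h3
  have hgl : Tendsto (fun n => g (x (φ n))) atTop (𝓝 (g a)) := (hcont.tendsto a).comp hlim
  have e1 : g a - a ∈ closure D.X := by
    have h4 := (hr.smul hgl).sub hlim
    rw [one_smul] at h4
    exact mem_closure_of_tendsto h4 (Eventually.of_forall fun n => (hx (φ n)).1)
  have e2 : -(g a - a) ∈ closure D.X := by
    have h4 := (hr.smul hlim).sub hgl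
    rw [one_smul] at h4
    rw [neg_sub]
    exact mem_closure_of_tendsto h4 (Eventually.of_forall fun n => (hx (φ n)).2)
  exact hg1 (D.free g hg a (hKX haK) (sub_eq_zero.1 (eq_zero_of_closure hC e1 e2)))

include hC hlin in
theorem exists_r {K : Set E} (hK : IsCompact K) (hKX : K ⊆ D.X)
    (hcc : ∀ x ∈ D.X, ∃ g ∈ D.Γ, g x ∈ K) :
    ∃ r : ℝ, 0 < r ∧ ∀ x ∈ D.X, ∀ g ∈ D.Γ, N D.X r x (g x) → g = 1 := by
  obtain ⟨K', hK'X, hK', hKK'⟩ := exists_compact hC hK hKX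
  have hfin := D.pd (K ∪ K') (Set.union_subset hKX hK'X) (hK.union hK')
  set F := {g : E ≃ᵃ[ℝ] E | g ∈ D.Γ ∧ ∃ x ∈ K ∪ K', g x ∈ K ∪ K'} with hF
  have hsingle : ∀ g : E ≃ᵃ[ℝ] E, ∃ r : ℝ, 0 < r ∧ r ≤ 1 ∧ (g ∈ D.Γ → g ≠ 1 → ∀ x ∈ K,
      ¬ N D.X r x (g x)) := by
    intro g
    by_cases h : g ∈ D.Γ ∧ g ≠ 1
    · obtain ⟨r, hr, hrK⟩ := exists_r_single D hC hK hKX h.1 h.2
        (AffineMap.continuous_of_finiteDimensional (g : E →ᵃ[ℝ] E))
      refine ⟨min r 1, lt_min hr one_pos, min_le_right _ _, fun _ _ x hx hN => ?_⟩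
      exact hrK x hx (N.mono hC (hKX hx) (D.inv g h.1 x (hKX hx)) (min_le_left _ _) hN)
    · exact ⟨1, one_pos, le_rfl, fun h1 h2 => absurd ⟨h1, h2⟩ h⟩
  choose ρ hρ0 hρ1 hρ using hsingle
  obtain ⟨r, hr0, hr⟩ : ∃ r : ℝ, 0 < r ∧ ∀ g ∈ F, r ≤ ρ g := by
    rcases F.eq_empty_or_nonempty with h | h
    · exact ⟨1, one_pos, fun g hg => by rw [h] at hg; exact absurd hg (Set.notMem_empty g)⟩
    · obtain ⟨g, hg, hmin⟩ := Set.exists_min_image F ρ hfin h
      exact ⟨ρ g, hρ0 g, hmin⟩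
  refine ⟨min r 1, lt_min hr0 one_pos, ?_⟩
  intro x hx g hg hN
  obtain ⟨h, hh, hhx⟩ := hcc x hx
  have hN1 : N D.X (min r 1) (h x) ((h * g * h⁻¹) (h x)) := by
    have h1 := N_map D hlin hh hN
    have h2 : (h * g * h⁻¹) (h x) = h (g x) := by
      change h (g (h⁻¹ (h x))) = h (g x)
      have h3 : h⁻¹ (h x) = x := by
        change (h⁻¹ * h) x = x
        rw [inv_mul_cancel]; rfl
      rw [h3]
    rw [h2]
    exact h1
  have hg' : h * g * h⁻¹ ∈ D.Γ := D.Γ.mul_mem (D.Γ.mul_mem hh hg) (D.Γ.inv_mem hh)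
  have hxh : h x ∈ D.X := D.inv h hh x hx
  have hF' : h * g * h⁻¹ ∈ F := by
    refine ⟨hg', h x, Or.inl hhx, Or.inr (hKK' _ hhx _ ?_)⟩
    exact N.mono hC hxh (D.inv _ hg' _ hxh) (min_le_right _ _) hN1
  have h4 : h * g * h⁻¹ = 1 := by
    by_contra hne
    refine hρ _ hg' hne _ hhx ?_
    exact N.mono hC hxh (D.inv _ hg' _ hxh) ((min_le_left _ _).trans (hr _ hF')) hN1
  have h5 : h * g = h := by
    rw [mul_inv_eq_one] at h4
    exact h4
  exact mul_eq_left.1 h5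

include hC hlin in
/-- recurrence: the homothety by some `σ ≥ 2` is close to group elements -/
theorem exists_sigma {K : Set E} (hK : IsCompact K) (hKX : K ⊆ D.X)
    (hcc : ∀ x ∈ D.X, ∃ g ∈ D.Γ, g x ∈ K) {r : ℝ} (hr : 0 < r) :
    ∃ σ : ℝ, 2 ≤ σ ∧ ∀ x ∈ D.X, ∃ g ∈ D.Γ, N D.X (r + r + (r + r)) (σ • x) (g x) := by
  classical
  obtain ⟨t, htK, hcov⟩ := hK.elim_nhds_subcover (fun x => {y | N D.X r y x})
    (fun x hx => N.nhds hC hr (hKX hx))
  have hcov' : ∀ y ∈ K, ∃ x : t, N D.X r y x := by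
    intro y hy
    have := hcov hy
    rw [Set.mem_iUnion₂] at this
    obtain ⟨x, hx, hxy⟩ := this
    exact ⟨⟨x, hx⟩, hxy⟩
  -- for each time and each point of the net
  have h1 : ∀ (n : ℕ) (x : t), ∃ (j : t) (g : E ≃ᵃ[ℝ] E), g ∈ D.Γ ∧
      N D.X r (g ((2 : ℝ) ^ n • (x : E))) j := by
    intro n x
    obtain ⟨g, hg, hgK⟩ := hcc ((2 : ℝ) ^ n • (x : E))
      (hC.cone _ (by positivity) _ (hKX (htK x x.2)))
    obtain ⟨j, hj⟩ := hcov' _ hgK
    exact ⟨j, g, hg, hj⟩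
  choose J g hg hJ using h1
  obtain ⟨n, n', hne, hJJ⟩ := Finite.exists_ne_map_eq_of_infinite J
  wlog hlt : n < n' generalizing n n'
  · exact this n' n hne.symm hJJ.symm (by omega)
  obtain ⟨m, hm, rfl⟩ : ∃ m, 1 ≤ m ∧ n' = n + m := ⟨n' - n, by omega, by omega⟩
  refine ⟨(2 : ℝ) ^ m, ?_, ?_⟩
  · calc (2 : ℝ) = 2 ^ 1 := (pow_one _).symm
      _ ≤ 2 ^ m := pow_le_pow_right₀ (by norm_num) hm
  -- points of the net
  have hnet : ∀ x : t, N D.X (r + r) ((2 : ℝ) ^ m • (x : E))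
      (((g (n + m) x)⁻¹ * g n x) (x : E)) := by
    intro x
    have a1 := hJ (n + m) x
    have a2 := hJ n x
    rw [← hJJ] at a1
    have a3 := N.trans hC a1 a2.symm
    have hginv : (g (n + m) x)⁻¹ ∈ D.Γ := D.Γ.inv_mem (hg _ _)
    have a4 := N_map D hlin hginv a3
    have e1 : (g (n + m) x)⁻¹ (g (n + m) x ((2 : ℝ) ^ (n + m) • (x : E))) =
        (2 : ℝ) ^ n • ((2 : ℝ) ^ m • (x : E)) := by
      change ((g (n + m) x)⁻¹ * g (n + m) x) _ = _
      rw [inv_mul_cancel, smul_smul, ← pow_add]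
      rfl
    have e2 : (g (n + m) x)⁻¹ (g n x ((2 : ℝ) ^ n • (x : E))) =
        (2 : ℝ) ^ n • ((g (n + m) x)⁻¹ * g n x) (x : E) := by
      have hmem : (g (n + m) x)⁻¹ * g n x ∈ D.Γ := D.Γ.mul_mem hginv (hg _ _)
      rw [← map_smul' D hlin hmem]
      rfl
    rw [e1, e2] at a4
    have a5 := N.smul hC a4 (t := ((2 : ℝ) ^ n)⁻¹) (by positivity)
    have hpow : ((2 : ℝ) ^ n) ≠ 0 := by positivity
    rwa [inv_smul_smul₀ hpow, inv_smul_smul₀ hpow] at a5
  have hKp : ∀ x ∈ K, ∃ h ∈ D.Γ, N D.X (r + r + (r + r)) ((2 : ℝ) ^ m • x) (h x) := by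
    intro x hx
    obtain ⟨y, hy⟩ := hcov' x hx
    have hmem : (g (n + m) y)⁻¹ * g n y ∈ D.Γ :=
      D.Γ.mul_mem (D.Γ.inv_mem (hg _ _)) (hg _ _)
    refine ⟨_, hmem, ?_⟩
    have b1 := N.smul hC hy (t := (2 : ℝ) ^ m) (by positivity)
    have b2 := N_map D hlin hmem hy.symm
    have b3 := N.trans hC (N.trans hC b1 (hnet y)) b2
    convert b3 using 1
    ring
  intro x hx
  obtain ⟨h, hh, hhx⟩ := hcc x hx
  obtain ⟨k, hk, hkx⟩ := hKp _ hhx
  refine ⟨h⁻¹ * k * h, D.Γ.mul_mem (D.Γ.mul_mem (D.Γ.inv_mem hh) hk) hh, ?_⟩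
  have c1 := N_map D hlin (D.Γ.inv_mem hh) hkx
  rw [map_smul' D hlin (D.Γ.inv_mem hh)] at c1
  have e1 : h⁻¹ (h x) = x := by
    change (h⁻¹ * h) x = x
    rw [inv_mul_cancel]; rfl
  rw [e1] at c1
  exact c1

end Cone

theorem cone_center (D : Geo E)
    (hcone : ∀ t : ℝ, 0 < t → ∀ x ∈ D.X, t • x ∈ D.X)
    (hsharp : ∀ v : E, v ≠ 0 → ∃ x ∈ D.X, ∃ t : ℝ, x + t • v ∉ D.X)
    (hlin : ∀ g ∈ D.Γ, g 0 = 0)
    (hcc : ∃ K ⊆ D.X, IsCompact K ∧ ∀ x ∈ D.X, ∃ g ∈ D.Γ, g x ∈ K) (hpos : 0 < Module.finrank ℝ E) :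
    ∃ z ∈ D.Γ, z ≠ 1 ∧ ∀ g ∈ D.Γ, g * z = z * g := by
  have hC : IsC D.X := ⟨D.isOpen, D.convex, hcone, hsharp⟩
  obtain ⟨K, hKX, hK, hcc⟩ := hcc
  have hne : ∃ v : E, v ≠ 0 := by
    have := Module.nontrivial_of_finrank_pos hpos
    exact exists_ne 0
  have h0 := zero_notMem hC hne
  obtain ⟨r₀, hr₀, hfree⟩ := exists_r D hC hlin hK hKX hcc
  -- the small radius
  set r := min (r₀ / 16) (Real.log 2 / 16) with hr
  have hlog2 : 0 < Real.log 2 := Real.log_pos (by norm_num)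
  have hrpos : 0 < r := lt_min (by positivity) (by positivity)
  have hr1 : 16 * r ≤ r₀ := by
    have := min_le_left (r₀ / 16) (Real.log 2 / 16)
    linarith
  have hr2 : 16 * r ≤ Real.log 2 := by
    have := min_le_right (r₀ / 16) (Real.log 2 / 16)
    linarith
  obtain ⟨σ, hσ, hδ⟩ := exists_sigma D hC hlin hK hKX hcc hrpos
  have hσ0 : 0 < σ := by linarith
  -- uniqueness
  have huniq : ∀ x ∈ D.X, ∀ g ∈ D.Γ, ∀ h ∈ D.Γ, N D.X (6 * r) (σ • x) (g x) →
      N D.X (6 * r) (σ • x) (h x) → g = h := by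
    intro x hx g hg h hh h1 h2
    have h3 := N.trans hC h1.symm h2
    have h4 := N_map D hlin (D.Γ.inv_mem hg) h3
    have e1 : g⁻¹ (g x) = x := by
      change (g⁻¹ * g) x = x
      rw [inv_mul_cancel]; rfl
    have e2 : g⁻¹ (h x) = (g⁻¹ * h) x := rfl
    rw [e1, e2] at h4
    have hmem : g⁻¹ * h ∈ D.Γ := D.Γ.mul_mem (D.Γ.inv_mem hg) hh
    have h5 := N.mono hC hx (D.inv _ hmem x hx) (by linarith : 6 * r + 6 * r ≤ r₀) h4
    exact inv_mul_eq_one.1 (hfree x hx _ hmem h5)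
  have hδ' : ∀ x : E, ∃ g : E ≃ᵃ[ℝ] E, x ∈ D.X → g ∈ D.Γ ∧ N D.X (4 * r) (σ • x) (g x) := by
    intro x
    by_cases hx : x ∈ D.X
    · obtain ⟨g, hg, h⟩ := hδ x hx
      refine ⟨g, fun _ => ⟨hg, ?_⟩⟩
      convert h using 1
      ring
    · exact ⟨1, fun h => absurd h hx⟩
  choose δ hδ' using hδ'
  have hσX : ∀ x ∈ D.X, σ • x ∈ D.X := fun x hx => hcone σ hσ0 x hx
  -- locally constant
  have hloc : ∀ x ∈ D.X, ∀ y ∈ D.X, N D.X r y x → δ y = δ x := by
    intro x hx y hy hyx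
    obtain ⟨hg, hgx⟩ := hδ' x hx
    obtain ⟨hh, hhy⟩ := hδ' y hy
    refine huniq y hy _ hh _ hg ?_ ?_
    · exact N.mono hC (hσX y hy) (D.inv _ hh y hy) (by linarith) hhy
    · have a1 := N.smul hC hyx hσ0
      have a2 := N_map D hlin hg hyx.symm
      have a3 := N.trans hC (N.trans hC a1 hgx) a2
      convert a3 using 1
      ring
  obtain ⟨x₀, hx₀⟩ := D.nonempty
  have hconst : ∀ x ∈ D.X, δ x = δ x₀ := by
    intro x hx
    let i : TopologicalSpace (E ≃ᵃ[ℝ] E) := ⊥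
    have i2 : DiscreteTopology (E ≃ᵃ[ℝ] E) := ⟨rfl⟩
    have hcont : ContinuousOn δ D.X := by
      intro y hy
      have h1 : ∀ᶠ z in 𝓝[D.X] y, δ z = δ y := by
        have h2 : ∀ᶠ z in 𝓝[D.X] y, N D.X r z y :=
          nhdsWithin_le_nhds (N.nhds hC hrpos hy)
        filter_upwards [h2, self_mem_nhdsWithin] with z hz hzX
        exact hloc y hy z hzX hz
      exact (tendsto_congr' h1).2 tendsto_const_nhds
    exact D.convex.isPreconnected.constant hcont hx hx₀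
  obtain ⟨hz, hzx⟩ := hδ' x₀ hx₀
  refine ⟨δ x₀, hz, ?_, ?_⟩
  · intro h1
    rw [h1] at hzx
    have : (1 : E ≃ᵃ[ℝ] E) x₀ = x₀ := rfl
    rw [this] at hzx
    refine N.not_scale hC h0 hx₀ ?_ hzx
    have h2 : Real.exp (4 * r) ≤ Real.exp (Real.log 2) := Real.exp_le_exp.2 (by linarith)
    rw [Real.exp_log (by norm_num)] at h2
    linarith
  · intro g hg
    have hgx : g x₀ ∈ D.X := D.inv g hg x₀ hx₀
    obtain ⟨h1, h2⟩ := hδ' (g x₀) hgx
    have h3 : δ (g x₀) = g * δ x₀ * g⁻¹ := by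
      refine huniq (g x₀) hgx _ h1 _ (D.Γ.mul_mem (D.Γ.mul_mem hg hz) (D.Γ.inv_mem hg)) ?_ ?_
      · exact N.mono hC (hσX _ hgx) (D.inv _ h1 _ hgx) (by linarith) h2
      · have a1 := N_map D hlin hg hzx
        rw [map_smul' D hlin hg] at a1
        have e1 : (g * δ x₀ * g⁻¹) (g x₀) = g (δ x₀ x₀) := by
          change g (δ x₀ (g⁻¹ (g x₀))) = g (δ x₀ x₀)
          have : g⁻¹ (g x₀) = x₀ := by
            change (g⁻¹ * g) x₀ = x₀
            rw [inv_mul_cancel]; rfl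
          rw [this]
        rw [e1]
        exact N.mono hC (hσX _ hgx) (D.inv g hg _ (D.inv _ hz _ hx₀)) (by linarith) a1
    rw [hconst _ hgx] at h3
    rw [eq_mul_inv_iff_mul_eq] at h3
    exact h3.symm

end main

end Pool.SV
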