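import Pool.Agent.Helper84.SV.Hat

open Set Finset

namespace Pool.SV

section Geometry

variable {E : Type*} [NormedAddCommGroup E] [NormedSpace ℝ E] [FiniteDimensional ℝ E]

theorem Flow.exp_add_smul (T : Alg E) (s t : ℝ) :
    NormedSpace.exp ((s + t) • T) = NormedSpace.exp (s • T) * NormedSpace.exp (t • T) := by
  haveI : CompleteSpace E := FiniteDimensional.complete ℝ E
  rw [add_smul]
  apply NormedSpace.exp_add_of_commute
  exact ((Commute.refl T).smul_left s).smul_right t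

theorem flow_preserves (Γ : Subgroup (E ≃ᵃ[ℝ] E)) (X : Set E) (hX : IsOpen X)
    (hinv : ∀ g ∈ Γ, ∀ x ∈ X, g x ∈ X)
    (hcc : ∃ K ⊆ X, IsCompact K ∧ ∀ x ∈ X, ∃ g ∈ Γ, g x ∈ K)
    (T : Alg E) (hT : ∀ v, (T v).2 = 0) (hc : ∀ g ∈ Γ, Commute (hat g) T) :
    ∀ t : ℝ, ∀ x ∈ X, act (NormedSpace.exp (t • T)) x ∈ X := by
  haveI : CompleteSpace E := FiniteDimensional.complete ℝ E
  obtain ⟨K, hKX, hK, hcov⟩ := hcc
  have hTg : IsGen T := hT
  have hcont : Continuous (fun p : ℝ × E => act (NormedSpace.exp (p.1 • T)) p.2) := by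
    have h1 : Continuous (fun p : ℝ × E => (NormedSpace.exp (p.1 • T), p.2)) := by
      apply Continuous.prodMk
      · exact NormedSpace.exp_continuous.comp (by fun_prop)
      · exact continuous_snd
    exact continuous_act_uncurry.comp h1
  have hopen : IsOpen ((fun p : ℝ × E => act (NormedSpace.exp (p.1 • T)) p.2) ⁻¹' X) :=
    hX.preimage hcont
  have hsub : ({0} : Set ℝ) ×ˢ K ⊆ (fun p : ℝ × E => act (NormedSpace.exp (p.1 • T)) p.2) ⁻¹' X := by
    rintro ⟨t, x⟩ ⟨ht, hx⟩
    simp only [Set.mem_singleton_iff] at ht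
    simp only [Set.mem_preimage]
    rw [ht, zero_smul, NormedSpace.exp_zero, act_one]
    exact hKX hx
  obtain ⟨U, W, hU, _, h0U, hKW, hUW⟩ := generalized_tube_lemma isCompact_singleton hK hopen hsub
  obtain ⟨ε, hε, hball⟩ := Metric.isOpen_iff.1 hU 0 (h0U rfl)
  have hstep : ∀ t : ℝ, |t| < ε → ∀ x ∈ X, act (NormedSpace.exp (t • T)) x ∈ X := by
    intro t ht x hx
    obtain ⟨g, hg, hgx⟩ := hcov x hx
    have htU : t ∈ U := hball (by rw [Metric.mem_ball, dist_zero_right, Real.norm_eq_abs]; exact ht)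
    have h1 : act (NormedSpace.exp (t • T)) (g x) ∈ X := hUW (Set.mk_mem_prod htU (hKW hgx))
    have hcomm : Commute (hat g) (NormedSpace.exp (t • T)) :=
      ((hc g hg).smul_right t).exp_right
    have h2 : act (NormedSpace.exp (t • T)) (g x) = g (act (NormedSpace.exp (t • T)) x) := by
      rw [← act_hat g x, ← act_hat g (act _ x), ← act_mul (isAff_hat g),
        ← act_mul (isAff_exp (hTg.smul t)), hcomm.eq]
    rw [h2] at h1
    have h3 := hinv g⁻¹ (Γ.inv_mem hg) _ h1
    have h4 : (g⁻¹ : E ≃ᵃ[ℝ] E) (g (act (NormedSpace.exp (t • T)) x)) =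
        act (NormedSpace.exp (t • T)) x := by
      have : (g⁻¹ * g : E ≃ᵃ[ℝ] E) (act (NormedSpace.exp (t • T)) x) =
        act (NormedSpace.exp (t • T)) x := by rw [inv_mul_cancel]; rfl
      exact this
    rwa [h4] at h3
  have hind : ∀ n : ℕ, ∀ t : ℝ, |t| < ε → ∀ x ∈ X, act (NormedSpace.exp ((n * t) • T)) x ∈ X := by
    intro n t ht
    induction n with
    | zero =>
      intro x hx
      rw [Nat.cast_zero, zero_mul, zero_smul, NormedSpace.exp_zero, act_one]
      exact hx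
    | succ n ih =>
      intro x hx
      have h1 : ((n + 1 : ℕ) * t : ℝ) = n * t + t := by push_cast; ring
      rw [h1, Flow.exp_add_smul, act_mul (isAff_exp (hTg.smul t))]
      exact ih _ (hstep t ht x hx)
  intro t x hx
  obtain ⟨n, hn⟩ := exists_nat_gt (|t| / ε)
  have hn0 : (0 : ℝ) < n := lt_of_le_of_lt (by positivity) hn
  have h1 : |t / n| < ε := by
    rw [abs_div, abs_of_pos hn0, div_lt_iff₀ hn0]
    rw [div_lt_iff₀ hε] at hn
    linarith
  have h2 := hind n (t / n) h1 x hx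
  rwa [mul_div_cancel₀ _ hn0.ne'] at h2

end Geometry

end Pool.SV
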