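import Pool.Agent.Helper84.SV.Hat

open Set Finset

namespace Pool.SV

namespace Log

open Polynomial

section Banach

variable {A : Type*} [NormedRing A] [NormedAlgebra ℝ A] [CompleteSpace A]

theorem exp_add {x y : A} (h : Commute x y) :
    NormedSpace.exp (x + y) = NormedSpace.exp x * NormedSpace.exp y := by
  letI : NormedAlgebra ℚ A := NormedAlgebra.restrictScalars ℚ ℝ A
  exact NormedSpace.exp_add_of_commute h

theorem exp_neg_mul (x : A) : NormedSpace.exp (-x) * NormedSpace.exp x = 1 := by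
  rw [← exp_add ((Commute.refl x).neg_left), neg_add_cancel, NormedSpace.exp_zero]

theorem exp_nilp (z : A) (hz : IsNilpotent z) :
    ∃ q : ℝ[X], NormedSpace.exp z = 1 + z + z ^ 2 * aeval z q := by
  obtain ⟨N, hN⟩ := hz
  refine ⟨∑ n ∈ range N, C (((n + 2).factorial : ℝ)⁻¹) * X ^ n, ?_⟩
  have h1 : NormedSpace.exp z = ∑' n : ℕ, ((n.factorial : ℝ)⁻¹) • z ^ n := by
    rw [NormedSpace.exp_eq_tsum ℝ]
  rw [h1, tsum_eq_sum (s := range (N + 2))]
  · rw [Finset.sum_range_succ', Finset.sum_range_succ']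
    rw [map_sum, Finset.mul_sum]
    have h2 : ∀ n ∈ range N, (((n + 1 + 1).factorial : ℝ)⁻¹) • z ^ (n + 1 + 1) =
        z ^ 2 * aeval z (C (((n + 2).factorial : ℝ)⁻¹) * X ^ n) := by
      intro n _
      rw [map_mul, aeval_C, map_pow, aeval_X, Algebra.smul_def, ← mul_assoc,
        (Algebra.commutes _ (z ^ 2)).symm, mul_assoc, ← pow_add, add_comm 2 n]
    rw [Finset.sum_congr rfl h2]
    simp only [zero_add, Nat.factorial_one, Nat.factorial_zero, Nat.cast_one, inv_one, pow_zero,
      one_smul, pow_one]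
    abel
  · intro n hn
    rw [Finset.mem_range, not_lt] at hn
    rw [pow_eq_zero_of_le (by omega : N ≤ n) hN, smul_zero]

theorem exists_log_step (x : A) (hx : IsNilpotent x) (m : ℕ) :
    ∃ p r : ℝ[X], (1 + x) * NormedSpace.exp (-(x * aeval x p)) = 1 + x ^ (m + 1) * aeval x r := by
  induction m with
  | zero =>
    refine ⟨0, 1, ?_⟩
    rw [map_zero, mul_zero, neg_zero, NormedSpace.exp_zero, mul_one, map_one, mul_one, zero_add,
      pow_one]
  | succ m ih =>
    obtain ⟨p, r, h⟩ := ih
    set s : ℝ[X] := X ^ (m + 1) * r with hs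
    have hsx : aeval x s = x ^ (m + 1) * aeval x r := by
      rw [hs, map_mul, map_pow, aeval_X]
    have hcom : ∀ a b : ℝ[X], Commute (aeval x a) (aeval x b) := by
      intro a b
      show aeval x a * aeval x b = aeval x b * aeval x a
      rw [← map_mul, ← map_mul, mul_comm]
    have hnil : IsNilpotent (aeval x (-s)) := by
      have h1 : aeval x (-s) = x * aeval x (-(X ^ m * r)) := by
        have h2 : -s = X * (-(X ^ m * r)) := by rw [hs]; ring
        rw [h2, map_mul, aeval_X]
      rw [h1]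
      have h3 : Commute x (aeval x (-(X ^ m * r))) := by
        have := hcom X (-(X ^ m * r))
        rwa [aeval_X] at this
      exact h3.isNilpotent_mul_right hx
    obtain ⟨q, hq⟩ := exp_nilp (aeval x (-s)) hnil
    have hqc : aeval (aeval x (-s)) q = aeval x (q.comp (-s)) := by rw [aeval_comp]
    rw [hqc] at hq
    refine ⟨p + X ^ m * r, X ^ m * r ^ 2 * (-1 + (1 + s) * q.comp (-s)), ?_⟩
    have h4 : -(x * aeval x (p + X ^ m * r)) = -(x * aeval x p) + aeval x (-s) := by
      have h5 : x * aeval x (p + X ^ m * r) = x * aeval x p + aeval x s := by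
        rw [map_add, mul_add]
        congr 1
        have h6 : s = X * (X ^ m * r) := by rw [hs]; ring
        rw [h6]
        simp only [map_mul, aeval_X]
      rw [h5, map_neg, neg_add]
    have h7 : Commute (-(x * aeval x p)) (aeval x (-s)) := by
      have := hcom (-(X * p)) (-s)
      rwa [map_neg, map_mul, aeval_X] at this
    rw [h4, exp_add h7, ← mul_assoc, h, hq, ← hsx]
    have h8 : (1 + aeval x s) * (1 + aeval x (-s) + aeval x (-s) ^ 2 * aeval x (q.comp (-s))) =
        aeval x ((1 + s) * (1 + (-s) + (-s) ^ 2 * q.comp (-s))) := by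
      simp only [map_mul, map_add, map_one, map_pow]
    have h9 : (1 : A) + x ^ (m + 1 + 1) *
        aeval x (X ^ m * r ^ 2 * (-1 + (1 + s) * q.comp (-s))) =
        aeval x (1 + X ^ (m + 1 + 1) * (X ^ m * r ^ 2 * (-1 + (1 + s) * q.comp (-s)))) := by
      simp only [map_add, map_mul, map_pow, map_one, aeval_X]
    rw [h8, h9]
    congr 1
    rw [hs]
    ring

/-- a path of units starting at `1` ends in the image of the exponential map -/
theorem path_exp {B : Type*} [NormedRing B] [NormedAlgebra ℝ B] [CompleteSpace B]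
    (hcomm : ∀ x y : B, x * y = y * x) (γ δ : ℝ → B) (hγ : Continuous γ)
    (hδ : ∀ t ∈ Set.Icc (0 : ℝ) 1, γ t * δ t = 1) (h0 : γ 0 = 1) :
    ∃ y, NormedSpace.exp y = γ 1 := by
  have hnhds : Set.range (NormedSpace.exp : B → B) ∈ nhds (1 : B) := by
    have h1 := (hasStrictFDerivAt_exp_zero (𝕂 := ℝ) (𝔸 := B))
    have h2 : HasStrictFDerivAt (NormedSpace.exp : B → B)
        ((ContinuousLinearEquiv.refl ℝ B : B ≃L[ℝ] B) : B →L[ℝ] B) 0 := h1
    have h3 := h2.map_nhds_eq_of_equiv
    rw [NormedSpace.exp_zero] at h3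
    rw [← h3]
    exact Filter.mem_map.2 (Filter.mem_of_superset Filter.univ_mem (fun x _ => ⟨x, rfl⟩))
  let f : Set.Icc (0 : ℝ) 1 → Prop := fun t => γ t ∈ Set.range (NormedSpace.exp : B → B)
  have hloc : IsLocallyConstant f := by
    rw [IsLocallyConstant.iff_eventually_eq]
    intro t₀
    have hc : Continuous (fun t : Set.Icc (0 : ℝ) 1 => γ t * δ t₀) :=
      (hγ.comp continuous_subtype_val).mul continuous_const
    have hev : ∀ᶠ t : Set.Icc (0 : ℝ) 1 in nhds t₀,
        γ t * δ t₀ ∈ Set.range (NormedSpace.exp : B → B) := by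
      apply hc.continuousAt
      show _ ∈ nhds (γ t₀ * δ t₀)
      rw [hδ t₀ t₀.2]
      exact hnhds
    filter_upwards [hev] with t ht
    obtain ⟨y, hy⟩ := ht
    have h1 : γ t = NormedSpace.exp y * γ t₀ := by
      rw [hy, mul_assoc, hcomm (δ t₀) (γ t₀), hδ t₀ t₀.2, mul_one]
    apply propext
    constructor
    · rintro ⟨z, hz⟩
      refine ⟨-y + z, ?_⟩
      rw [exp_add (hcomm _ _), hz, h1, ← mul_assoc, exp_neg_mul, one_mul]
    · rintro ⟨z, hz⟩
      refine ⟨y + z, ?_⟩
      rw [exp_add (hcomm _ _), hz, h1]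
  have h1 : f ⟨1, by norm_num, le_refl _⟩ = f ⟨0, le_refl _, by norm_num⟩ :=
    hloc.apply_eq_of_preconnectedSpace _ _
  have h2 : f ⟨0, le_refl _, by norm_num⟩ := ⟨0, by rw [NormedSpace.exp_zero, h0]⟩
  rw [← h1] at h2
  exact h2

end Banach

/-- the quadratic polynomials of the path -/
noncomputable def qp (u v : ℝ) : ℝ[X] :=
  1 + C (2 * u) * (X - 1) + C (u ^ 2 + v ^ 2) * (X - 1) ^ 2

theorem qp_aeval (u v : ℝ) (z : ℂ) : aeval z (qp u v) =
    (1 + (u + v * Complex.I) * (z - 1)) * (1 + (u - v * Complex.I) * (z - 1)) := by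
  unfold qp
  simp only [map_add, map_mul, map_one, map_pow, map_sub, aeval_X, aeval_C]
  simp only [Complex.coe_algebraMap]
  push_cast
  have h : Complex.I ^ 2 = -1 := Complex.I_sq
  linear_combination ((v : ℂ) ^ 2 * (z - 1) ^ 2) * h

/-- choice of the path -/
theorem exists_path (P : ℝ[X]) (hP : P ≠ 0) (hP0 : P.eval 0 ≠ 0) :
    ∃ h : ℝ, ∀ t ∈ Set.Icc (0 : ℝ) 1, IsCoprime (qp t (h * (t * (1 - t)))) P := by
  -- the bad values of `h`
  set Rt : Finset ℂ := (P.map (algebraMap ℝ ℂ)).roots.toFinset with hRt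
  set bad : Finset ℝ :=
    (Rt.image (fun z => (-(z - 1)⁻¹).im / ((-(z - 1)⁻¹).re * (1 - (-(z - 1)⁻¹).re)))) ∪
    (Rt.image (fun z => -((-(z - 1)⁻¹).im / ((-(z - 1)⁻¹).re * (1 - (-(z - 1)⁻¹).re))))) with hbad
  obtain ⟨h, hh⟩ := Infinite.exists_notMem_finset bad
  refine ⟨h, fun t ht => ?_⟩
  refine (Polynomial.isCoprime_iff_aeval_ne_zero_of_isAlgClosed (k := ℝ) ℂ _ _).2 ?_
  intro z
  by_contra hcon
  push Not at hcon
  obtain ⟨h1, h2⟩ := hcon
  have hzR : z ∈ Rt := by
    rw [hRt, Multiset.mem_toFinset, mem_roots (map_ne_zero hP), IsRoot.def, eval_map_algebraMap]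
    exact h2
  have hz0 : z ≠ 0 := by
    rintro rfl
    apply hP0
    have h3 : aeval (0 : ℂ) P = algebraMap ℝ ℂ (P.eval 0) := by
      rw [← map_zero (algebraMap ℝ ℂ), aeval_algebraMap_apply_eq_algebraMap_eval]
    rw [h3] at h2
    exact (map_eq_zero _).1 h2
  rw [qp_aeval] at h1
  set v : ℝ := h * (t * (1 - t)) with hv
  -- reduce to `c = -(z-1)⁻¹`
  have hkey : ∀ c : ℂ, 1 + c * (z - 1) = 0 → c.re = t → (c.im = v ∨ c.im = -v) → False := by
    intro c hc hre him
    have hz1 : z - 1 ≠ 0 := by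
      intro h3
      rw [h3, mul_zero, add_zero] at hc
      exact one_ne_zero hc
    have hc2 : c = -(z - 1)⁻¹ := by
      rw [eq_neg_iff_add_eq_zero]
      have h4 : (c + (z - 1)⁻¹) * (z - 1) = 0 := by
        rw [add_mul, inv_mul_cancel₀ hz1, add_comm]
        exact hc
      exact (mul_eq_zero.1 h4).resolve_right hz1
    have ht0 : t ≠ 0 := by
      intro h3
      have hv0 : v = 0 := by rw [hv, h3]; ring
      rw [hv0] at him
      have hc0 : c = 0 := by
        apply Complex.ext
        · rw [hre, h3]; rfl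
        · rcases him with h4 | h4 <;> rw [h4] <;> simp
      rw [hc0, zero_mul, add_zero] at hc
      exact one_ne_zero hc
    have ht1 : 1 - t ≠ 0 := by
      intro h3
      have hv0 : v = 0 := by rw [hv, h3]; ring
      rw [hv0] at him
      have hc1 : c = 1 := by
        apply Complex.ext
        · rw [hre]; simp; linarith
        · rcases him with h4 | h4 <;> rw [h4] <;> simp
      rw [hc1, one_mul] at hc
      apply hz0
      have : (1 : ℂ) + (z - 1) = z := by ring
      rwa [this] at hc
    apply hh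
    rw [hbad, Finset.mem_union, Finset.mem_image, Finset.mem_image]
    rcases him with h4 | h4
    · left
      refine ⟨z, hzR, ?_⟩
      rw [← hc2, hre, h4, hv]
      field_simp
    · right
      refine ⟨z, hzR, ?_⟩
      rw [← hc2, hre, h4, hv]
      field_simp
  rcases mul_eq_zero.1 h1 with h3 | h3
  · exact hkey _ h3 (by simp) (Or.inl (by simp))
  · exact hkey _ h3 (by simp) (Or.inr (by simp))

end Log

theorem exists_log {A : Type*} [NormedRing A] [NormedAlgebra ℝ A] [CompleteSpace A] (x : A)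
    (hx : IsNilpotent x) :
    ∃ y : A, IsNilpotent y ∧ NormedSpace.exp y = 1 + x ∧ y ∈ Algebra.adjoin ℝ {x} := by
  obtain ⟨N, hN⟩ := hx
  obtain ⟨p, r, h⟩ := Log.exists_log_step x ⟨N, hN⟩ N
  have h0 : x ^ (N + 1) = 0 := pow_eq_zero_of_le (by omega) hN
  rw [h0, zero_mul, add_zero] at h
  have hcom : Commute x (Polynomial.aeval x p) := by
    show x * Polynomial.aeval x p = Polynomial.aeval x p * x
    have h1 : x * Polynomial.aeval x p = Polynomial.aeval x (Polynomial.X * p) := by
      rw [map_mul, Polynomial.aeval_X]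
    have h2 : Polynomial.aeval x p * x = Polynomial.aeval x (p * Polynomial.X) := by
      rw [map_mul, Polynomial.aeval_X]
    rw [h1, h2, mul_comm]
  refine ⟨x * Polynomial.aeval x p, hcom.isNilpotent_mul_right ⟨N, hN⟩, ?_, ?_⟩
  · have h1 := Log.exp_neg_mul (x * Polynomial.aeval x p)
    calc NormedSpace.exp (x * Polynomial.aeval x p) =
          ((1 + x) * NormedSpace.exp (-(x * Polynomial.aeval x p))) *
            NormedSpace.exp (x * Polynomial.aeval x p) := by rw [h, one_mul]
      _ = 1 + x := by rw [mul_assoc, h1, mul_one]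
  · have h1 : x * Polynomial.aeval x p = Polynomial.aeval x (Polynomial.X * p) := by
      rw [map_mul, Polynomial.aeval_X]
    rw [h1]
    exact Polynomial.aeval_mem_adjoin_singleton ℝ x

theorem exp_inj_nilpotent {A : Type*} [NormedRing A] [NormedAlgebra ℝ A] [CompleteSpace A]
    (x y : A) (hx : IsNilpotent x) (hy : IsNilpotent y) (hxy : Commute x y)
    (h : NormedSpace.exp x = NormedSpace.exp y) : x = y := by
  have hz : IsNilpotent (x - y) := hxy.isNilpotent_sub hx hy
  have h1 : NormedSpace.exp (x - y) = 1 := by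
    have h2 : x - y = -y + x := by abel
    rw [h2, Log.exp_add (hxy.symm.neg_left), h, Log.exp_neg_mul]
  obtain ⟨q, hq⟩ := Log.exp_nilp (x - y) hz
  rw [h1] at hq
  set z := x - y with hzdef
  have hcom : Commute z (Polynomial.aeval z q) := by
    show z * Polynomial.aeval z q = Polynomial.aeval z q * z
    have h1 : z * Polynomial.aeval z q = Polynomial.aeval z (Polynomial.X * q) := by
      rw [map_mul, Polynomial.aeval_X]
    have h2 : Polynomial.aeval z q * z = Polynomial.aeval z (q * Polynomial.X) := by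
      rw [map_mul, Polynomial.aeval_X]
    rw [h1, h2, mul_comm]
  have h2 : z * (1 + z * Polynomial.aeval z q) = 0 := by
    have h3 : z + z ^ 2 * Polynomial.aeval z q = 0 := by
      have h4 : (1 : A) + (z + z ^ 2 * Polynomial.aeval z q) = 1 + 0 := by
        rw [add_zero, ← add_assoc]; exact hq.symm
      exact add_left_cancel h4
    rw [mul_add, mul_one, ← mul_assoc, ← sq]
    exact h3
  have h3 : IsUnit (1 + z * Polynomial.aeval z q) :=
    (hcom.isNilpotent_mul_right hz).isUnit_one_add
  have h4 : z = 0 := by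
    obtain ⟨u, hu⟩ := h3
    rw [← hu] at h2
    have h5 : z = z * u * (u⁻¹ : Aˣ) := by rw [mul_assoc, Units.mul_inv, mul_one]
    rw [h5, h2, zero_mul]
  rw [hzdef] at h4
  exact sub_eq_zero.1 h4

theorem exists_log_sq {A : Type*} [NormedRing A] [NormedAlgebra ℝ A] [FiniteDimensional ℝ A]
    (a : A) (ha : IsUnit a) : ∃ y ∈ Algebra.adjoin ℝ {a}, NormedSpace.exp y = a * a := by
  haveI : CompleteSpace A := FiniteDimensional.complete ℝ A
  have hint : IsIntegral ℝ a := IsIntegral.of_finite ℝ a
  set P := minpoly ℝ a with hP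
  have hPne : P ≠ 0 := minpoly.ne_zero hint
  have hP0 : P.eval 0 ≠ 0 := by
    intro h0
    have hdvd : Polynomial.X ∣ P := by
      rw [Polynomial.X_dvd_iff, Polynomial.coeff_zero_eq_eval_zero]
      exact h0
    obtain ⟨Q, hQ⟩ := hdvd
    have hQne : Q ≠ 0 := by
      rintro rfl
      rw [mul_zero] at hQ
      exact hPne hQ
    have h1 : a * Polynomial.aeval a Q = 0 := by
      have h2 := minpoly.aeval ℝ a
      rw [← hP, hQ, map_mul, Polynomial.aeval_X] at h2
      exact h2
    have h3 : Polynomial.aeval a Q = 0 := (ha.mul_right_eq_zero).1 h1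
    have h4 := minpoly.degree_le_of_ne_zero ℝ a hQne h3
    rw [← hP, hQ, Polynomial.degree_mul, Polynomial.degree_X] at h4
    have h5 : (Q.degree : WithBot ℕ) = Q.natDegree := Polynomial.degree_eq_natDegree hQne
    rw [h5] at h4
    have h6 : ((1 + Q.natDegree : ℕ) : WithBot ℕ) ≤ (Q.natDegree : WithBot ℕ) := by
      push_cast
      exact h4
    have h7 : 1 + Q.natDegree ≤ Q.natDegree := by exact_mod_cast h6
    omega
  obtain ⟨h, hpath⟩ := Log.exists_path P hPne hP0
  let R := Algebra.adjoin ℝ ({a} : Set A)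
  let a' : R := ⟨a, Algebra.self_mem_adjoin_singleton ℝ a⟩
  haveI : FiniteDimensional ℝ R := FiniteDimensional.finiteDimensional_subalgebra R
  haveI : CompleteSpace R := FiniteDimensional.complete ℝ R
  have hcoe : ∀ p : Polynomial ℝ, ((Polynomial.aeval a' p : R) : A) = Polynomial.aeval a p := by
    intro p
    have := Polynomial.aeval_algHom_apply R.val a' p
    exact this.symm
  have hcomm : ∀ x y : R, x * y = y * x := by
    intro x y
    have hx : (x : A) ∈ Algebra.adjoin ℝ ({a} : Set A) := x.2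
    have hy : (y : A) ∈ Algebra.adjoin ℝ ({a} : Set A) := y.2
    rw [Algebra.adjoin_singleton_eq_range_aeval] at hx hy
    obtain ⟨p, hp⟩ := hx
    obtain ⟨q, hq⟩ := hy
    apply Subtype.ext
    show (x : A) * y = y * x
    rw [← hp, ← hq]
    show Polynomial.aeval a p * Polynomial.aeval a q = Polynomial.aeval a q * Polynomial.aeval a p
    rw [← map_mul, ← map_mul, mul_comm]
  have hPa : Polynomial.aeval a' P = 0 := by
    apply Subtype.ext
    rw [hcoe]
    exact minpoly.aeval ℝ a
  choose! U V hUV using hpath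
  obtain ⟨y, hy⟩ := Log.path_exp hcomm
    (fun t => Polynomial.aeval a' (Log.qp t (h * (t * (1 - t)))))
    (fun t => Polynomial.aeval a' (U t)) (by
      unfold Log.qp
      simp only [map_add, map_mul, map_one, map_pow, map_sub, Polynomial.aeval_X,
        Polynomial.aeval_C]
      have hal : Continuous (algebraMap ℝ R) := continuous_algebraMap ℝ R
      fun_prop) (by
      intro t ht
      rw [← map_mul, mul_comm]
      have h1 := congrArg (Polynomial.aeval a') (hUV t ht)
      rw [map_add, map_mul _ (V t), hPa, mul_zero, add_zero, map_one] at h1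
      exact h1) (by
      simp [Log.qp])
  refine ⟨(y : A), y.2, ?_⟩
  have h1 : ((NormedSpace.exp y : R) : A) = NormedSpace.exp (y : A) := by
    letI : NormedAlgebra ℚ A := NormedAlgebra.restrictScalars ℚ ℝ A
    letI : NormedAlgebra ℚ R := NormedAlgebra.restrictScalars ℚ ℝ R
    exact NormedSpace.map_exp R.val continuous_subtype_val y
  rw [← h1, hy, hcoe]
  simp only [Log.qp, map_add, map_mul, map_one, map_pow, map_sub, Polynomial.aeval_X,
    Polynomial.aeval_C]
  norm_num
  have h2 : (1 : A) + 2 * (a - 1) + (a - 1) ^ 2 = a * a := by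
    have h3 : (2 : A) = 1 + 1 := by norm_num
    rw [h3]
    noncomm_ring
  have h4 : algebraMap ℝ A 2 = 2 := map_ofNat _ 2
  rw [h4]
  exact h2

end Pool.SV
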