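import Pool.Agent.Helper84.SV.Hat
import Pool.Agent.SV.Log

/-!
Project SV, module SV-10 Hull (written by helper76): a unipotent abelian normal subgroup is a
lattice of a vector group.
-/

open Set Finset

namespace Pool.SV

namespace Hull

section

variable {E : Type*} [NormedAddCommGroup E] [NormedSpace ℝ E]

theorem height_adjoin {x y : Alg E} (hx : ∀ v, (x v).2 = 0) (hy : y ∈ Algebra.adjoin ℝ {x}) :
    ∃ c : ℝ, ∀ v, (y v).2 = c * v.2 := by
  induction hy using Algebra.adjoin_induction with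
  | mem z hz =>
    rw [Set.mem_singleton_iff] at hz
    subst hz
    exact ⟨0, fun v => by rw [hx, zero_mul]⟩
  | algebraMap r =>
    refine ⟨r, fun v => ?_⟩
    rw [Algebra.algebraMap_eq_smul_one, smul_apply, Prod.smul_snd, smul_eq_mul]
    rfl
  | add y z _ _ hy hz =>
    obtain ⟨c, hc⟩ := hy
    obtain ⟨c', hc'⟩ := hz
    refine ⟨c + c', fun v => ?_⟩
    rw [add_apply, Prod.snd_add, hc, hc', add_mul]
  | mul y z _ _ hy hz =>
    obtain ⟨c, hc⟩ := hy
    obtain ⟨c', hc'⟩ := hz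
    refine ⟨c * c', fun v => ?_⟩
    rw [mul_apply_eq_comp, hc, hc', mul_assoc]

theorem isGen_of_nilpotent {y : Alg E} (hy : IsNilpotent y) {c : ℝ} (hc : ∀ v, (y v).2 = c * v.2) :
    ∀ v, (y v).2 = 0 := by
  have hpow : ∀ (n : ℕ) (v : E × ℝ), ((y ^ n) v).2 = c ^ n * v.2 := by
    intro n
    induction n with
    | zero => intro v; simp
    | succ n ih =>
      intro v
      rw [pow_succ, mul_apply_eq_comp, ih, hc, pow_succ, mul_assoc]
  obtain ⟨n, hn⟩ := hy
  have h1 := hpow n (0, 1)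
  rw [hn] at h1
  simp only [mul_one] at h1
  have h2 : c = 0 := by
    by_contra h
    exact (pow_ne_zero n h) h1.symm
  intro v
  rw [hc, h2, zero_mul]

end

variable {E : Type*} [NormedAddCommGroup E] [NormedSpace ℝ E] [FiniteDimensional ℝ E]

theorem continuous_act_exp (x : E) :
    Continuous (fun T : Alg E => act (NormedSpace.exp T) x) := by
  have h1 : Continuous (fun T : Alg E => NormedSpace.exp T) := NormedSpace.exp_continuous
  have h2 : Continuous (fun U : Alg E => act U x) := by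
    unfold act
    fun_prop
  exact h2.comp h1

theorem exp_conj_hat {Γ : Subgroup (E ≃ᵃ[ℝ] E)} (γ : Γ) (y : Alg E) :
    NormedSpace.exp (hat γ.1 * y * hat (γ⁻¹ : Γ).1) =
      hat γ.1 * NormedSpace.exp y * hat (γ⁻¹ : Γ).1 := by
  have hhg1 : hat γ.1 * hat (γ⁻¹ : Γ).1 = 1 := hat_mul_inv γ.1
  have hhg2 : hat (γ⁻¹ : Γ).1 * hat γ.1 = 1 := hat_inv_mul γ.1
  exact NormedSpace.exp_units_conj ⟨hat γ.1, hat (γ⁻¹ : Γ).1, hhg1, hhg2⟩ y

theorem nilp_conj_hat {Γ : Subgroup (E ≃ᵃ[ℝ] E)} (γ : Γ) {y : Alg E} (hy : IsNilpotent y) :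
    IsNilpotent (hat γ.1 * y * hat (γ⁻¹ : Γ).1) := by
  have hhg1 : hat γ.1 * hat (γ⁻¹ : Γ).1 = 1 := hat_mul_inv γ.1
  have hhg2 : hat (γ⁻¹ : Γ).1 * hat γ.1 = 1 := hat_inv_mul γ.1
  obtain ⟨n, hn⟩ := hy
  refine ⟨n, ?_⟩
  have h1 := Units.conj_pow ⟨hat γ.1, hat (γ⁻¹ : Γ).1, hhg1, hhg2⟩ y n
  change (hat γ.1 * y * hat (γ⁻¹ : Γ).1) ^ n = hat γ.1 * y ^ n * hat (γ⁻¹ : Γ).1 at h1
  rw [h1, hn, mul_zero, zero_mul]

theorem commute_conj_hat {Γ : Subgroup (E ≃ᵃ[ℝ] E)} (γ : Γ) {y z : Alg E} (hy : Commute y z) :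
    Commute (hat γ.1 * y * hat (γ⁻¹ : Γ).1) (hat γ.1 * z * hat (γ⁻¹ : Γ).1) := by
  have hhg2 : hat (γ⁻¹ : Γ).1 * hat γ.1 = 1 := hat_inv_mul γ.1
  have key : ∀ p q : Alg E, (hat γ.1 * p * hat (γ⁻¹ : Γ).1) * (hat γ.1 * q * hat (γ⁻¹ : Γ).1) =
      hat γ.1 * (p * q) * hat (γ⁻¹ : Γ).1 := by
    intro p q
    calc (hat γ.1 * p * hat (γ⁻¹ : Γ).1) * (hat γ.1 * q * hat (γ⁻¹ : Γ).1)
        = hat γ.1 * p * (hat (γ⁻¹ : Γ).1 * hat γ.1) * q * hat (γ⁻¹ : Γ).1 := by
          simp only [mul_assoc]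
      _ = hat γ.1 * (p * q) * hat (γ⁻¹ : Γ).1 := by
          rw [hhg2, mul_one]; simp only [mul_assoc]
  change _ * _ = _ * _
  rw [key, key, hy.eq]

/-- a subgroup of the domain's group whose logarithms are given additively is discrete -/
theorem discrete_of_log (D : Geo E) (N : Subgroup D.Γ) (Y : N → Alg E)
    (hYe : ∀ a, NormedSpace.exp (Y a) = hat a.1.1) (Λ : Submodule ℤ (Alg E))
    (hΛ : ∀ z, z ∈ Λ ↔ ∃ a : N, Y a = z) : DiscreteTopology Λ := by
  obtain ⟨x, hx⟩ := D.nonempty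
  have hprop : ProperSpace E := FiniteDimensional.proper_real E
  obtain ⟨K, hK, hxK, hKX⟩ := exists_compact_subset D.isOpen hx
  have hF := D.pd K hKX hK
  let W : Set (Alg E) := {T | act (NormedSpace.exp T) x ∈ interior K}
  have hWo : IsOpen W := isOpen_interior.preimage (continuous_act_exp x)
  have h0W : (0 : Alg E) ∈ W := by
    change act (NormedSpace.exp 0) x ∈ interior K
    rw [NormedSpace.exp_zero, act_one]
    exact hxK
  have hfin1 : {a : N | Y a ∈ W}.Finite := by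
    have hinj : Function.Injective (fun a : N => (a.1.1 : E ≃ᵃ[ℝ] E)) := fun a b h =>
      Subtype.ext (Subtype.ext h)
    refine (hF.preimage hinj.injOn).subset ?_
    intro a ha
    refine ⟨a.1.2, x, interior_subset hxK, ?_⟩
    have h1 : act (NormedSpace.exp (Y a)) x ∈ interior K := ha
    rw [hYe, act_hat] at h1
    exact interior_subset h1
  have hfin2 : (Y '' {a : N | Y a ∈ W} \ {0}).Finite := (hfin1.image Y).sdiff
  apply discreteTopology_of_isOpen_singleton_zero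
  rw [isOpen_induced_iff]
  refine ⟨W \ (Y '' {a : N | Y a ∈ W} \ {0}), hWo.sdiff hfin2.isClosed, ?_⟩
  ext ⟨z, hz⟩
  simp only [Set.mem_preimage, Set.mem_sdiff, Set.mem_singleton_iff]
  constructor
  · rintro ⟨h1, h2⟩
    obtain ⟨a, rfl⟩ := (hΛ z).1 hz
    by_contra h3
    apply h2
    exact ⟨⟨a, h1, rfl⟩, fun h4 => h3 (Subtype.ext h4)⟩
  · intro h1
    have h2 : z = 0 := congrArg Subtype.val h1
    subst h2
    exact ⟨h0W, fun h3 => h3.2 rfl⟩

end Hull

open Hull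

variable {E : Type*} [NormedAddCommGroup E] [NormedSpace ℝ E] [FiniteDimensional ℝ E]

theorem exists_hull (D : Geo E) (N : Subgroup D.Γ) [N.Normal]
    (hab : ∀ a ∈ N, ∀ b ∈ N, a * b = b * a) (hne : N ≠ ⊥)
    (hu : ∀ a ∈ N, IsNilpotent (hat a.1 - 1)) :
    ∃ (k : ℕ) (T : Fin k → Alg E) (j : (Fin k → ℤ) → D.Γ), 0 < k ∧
      (∀ i i', Commute (T i) (T i')) ∧ (∀ i, IsNilpotent (T i)) ∧ (∀ i v, (T i v).2 = 0) ∧
      (∀ a b, j (a + b) = j a * j b) ∧ Function.Injective j ∧ (∀ g, g ∈ N ↔ ∃ m, j m = g) ∧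
      (∀ m, hat (j m).1 = NormedSpace.exp (∑ i, (m i : ℝ) • T i)) ∧
      (∀ (g : D.Γ) (i : Fin k), hat g.1 * T i * hat (g⁻¹ : D.Γ).1 ∈
        Submodule.span ℝ (Set.range T)) := by
  classical
  have hlog : ∀ a : N, ∃ y : Alg E, IsNilpotent y ∧ NormedSpace.exp y = hat a.1.1 ∧
      y ∈ Algebra.adjoin ℝ {hat a.1.1 - 1} := by
    intro a
    obtain ⟨y, h1, h2, h3⟩ := exists_log (hat a.1.1 - 1) (hu a.1 a.2)
    exact ⟨y, h1, by rw [h2]; abel, h3⟩
  choose Y hYn hYe hYa using hlog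
  have hhat : ∀ a b : D.Γ, hat (a * b).1 = hat a.1 * hat b.1 := fun a b => by
    rw [← hat_mul]; rfl
  have hcommhat : ∀ a b : N, Commute (hat a.1.1) (hat b.1.1) := by
    intro a b
    change hat a.1.1 * hat b.1.1 = hat b.1.1 * hat a.1.1
    rw [← hhat, ← hhat, hab a.1 a.2 b.1 b.2]
  -- anything commuting with `hat a` commutes with `Y a`
  have hcY : ∀ (z : Alg E) (a : N), Commute z (hat a.1.1) → Commute z (Y a) := by
    intro z a hz
    exact Algebra.commute_of_mem_adjoin_singleton_of_commute (hYa a)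
      (hz.sub_right (Commute.one_right z))
  have hcomm : ∀ a b : N, Commute (Y a) (Y b) := by
    intro a b
    apply hcY
    exact (hcY _ a (hcommhat b a)).symm
  have hadd : ∀ a b : N, Y (a * b) = Y a + Y b := by
    intro a b
    apply exp_inj_nilpotent
    · exact hYn _
    · exact (hcomm a b).isNilpotent_add (hYn a) (hYn b)
    · exact (hcomm _ _).add_right (hcomm _ _)
    · rw [NormedSpace.exp_add_of_commute (hcomm a b), hYe, hYe, hYe, ← hhat]
      rfl
  have hYinj : Function.Injective Y := by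
    intro a b h
    have h1 : hat a.1.1 = hat b.1.1 := by rw [← hYe, ← hYe, h]
    exact Subtype.ext (Subtype.ext (hat_injective h1))
  have hYgen : ∀ a v, (Y a v).2 = 0 := by
    intro a
    obtain ⟨c, hc⟩ := height_adjoin (x := hat a.1.1 - 1) (fun v => by
      rw [sub_apply, Prod.snd_sub, isAff_hat]
      exact sub_self _) (hYa a)
    exact isGen_of_nilpotent (hYn a) hc
  -- the lattice
  let f : Additive N →+ Alg E :=
    { toFun := fun a => Y a.toMul
      map_zero' := by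
        have h1 := hadd 1 1
        rw [mul_one] at h1
        have h2 : Y 1 = 0 := by
          have h3 : Y 1 + Y 1 = Y 1 + 0 := by rw [← h1, add_zero]
          exact add_left_cancel h3
        exact h2
      map_add' := fun a b => hadd _ _ }
  have hf : ∀ a : N, f (Additive.ofMul a) = Y a := fun a => rfl
  let Λ : Submodule ℤ (Alg E) := AddSubgroup.toIntSubmodule f.range
  have hΛ : ∀ z, z ∈ Λ ↔ ∃ a : N, Y a = z := by
    intro z
    constructor
    · rintro ⟨a, ha⟩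
      exact ⟨a.toMul, ha⟩
    · rintro ⟨a, ha⟩
      exact ⟨Additive.ofMul a, ha⟩
  -- discreteness
  have hdisc : DiscreteTopology Λ := discrete_of_log D N Y hYe Λ hΛ
  let bs := Module.finBasis ℤ Λ
  have hg : ∀ z : Λ, ∃ a : N, Y a = z.1 := fun z => (hΛ z.1).1 z.2
  choose g hYg using hg
  let z : (Fin (Module.finrank ℤ Λ) → ℤ) → Λ := fun m => bs.equivFun.symm m
  have hzadd : ∀ a b, z (a + b) = z a + z b := fun a b => map_add _ _ _
  have hzinj : Function.Injective z := bs.equivFun.symm.injective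
  have hz : ∀ m, (z m : Alg E) = ∑ i, (m i : ℝ) • (bs i : Alg E) := by
    intro m
    change ((bs.equivFun.symm m : Λ) : Alg E) = _
    rw [Module.Basis.equivFun_symm_apply, Submodule.coe_sum]
    apply Finset.sum_congr rfl
    intro i _
    rw [Submodule.coe_smul_of_tower]
    exact (Int.cast_smul_eq_zsmul ℝ (m i) (bs i : Alg E)).symm
  refine ⟨Module.finrank ℤ Λ, fun i => (bs i : Alg E), fun m => (g (z m)).1, ?_, ?_, ?_, ?_, ?_,
    ?_, ?_, ?_, ?_⟩
  · by_contra h0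
    have h1 : Module.finrank ℤ Λ = 0 := by omega
    apply hne
    rw [Subgroup.eq_bot_iff_forall]
    intro a ha
    have hemp : IsEmpty (Fin (Module.finrank ℤ Λ)) := by rw [h1]; infer_instance
    have hsub : Subsingleton Λ := bs.equivFun.toEquiv.subsingleton
    have h2 : (⟨Y ⟨a, ha⟩, (hΛ _).2 ⟨_, rfl⟩⟩ : Λ) = ⟨Y 1, (hΛ _).2 ⟨_, rfl⟩⟩ :=
      Subsingleton.elim _ _
    have h3 := hYinj (congrArg Subtype.val h2)
    exact congrArg Subtype.val h3
  · intro i i'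
    have h1 := hcomm (g (bs i)) (g (bs i'))
    rwa [hYg, hYg] at h1
  · intro i
    have h1 := hYn (g (bs i))
    rwa [hYg] at h1
  · intro i v
    have h1 := hYgen (g (bs i)) v
    rwa [hYg] at h1
  · intro a b
    have h1 : g (z (a + b)) = g (z a) * g (z b) := by
      apply hYinj
      rw [hadd, hYg, hYg, hYg, hzadd]
      rfl
    change (g (z (a + b))).1 = (g (z a)).1 * (g (z b)).1
    rw [h1]
    rfl
  · intro a b h
    apply hzinj
    have h1 : g (z a) = g (z b) := Subtype.ext h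
    apply Subtype.ext
    rw [← hYg, ← hYg, h1]
  · intro a
    constructor
    · intro ha
      refine ⟨bs.equivFun ⟨Y ⟨a, ha⟩, (hΛ _).2 ⟨_, rfl⟩⟩, ?_⟩
      have h1 : z (bs.equivFun ⟨Y ⟨a, ha⟩, (hΛ _).2 ⟨_, rfl⟩⟩) = ⟨Y ⟨a, ha⟩, (hΛ _).2 ⟨_, rfl⟩⟩ :=
        bs.equivFun.symm_apply_apply _
      have h2 : g (z (bs.equivFun ⟨Y ⟨a, ha⟩, (hΛ _).2 ⟨_, rfl⟩⟩)) = ⟨a, ha⟩ := by
        apply hYinj
        rw [hYg, h1]
      exact congrArg Subtype.val h2
    · rintro ⟨m, rfl⟩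
      exact (g (z m)).2
  · intro m
    rw [← hYe, hYg, hz]
  · intro γ i
    have hb : γ * (g (bs i)).1 * γ⁻¹ ∈ N := Subgroup.Normal.conj_mem inferInstance _ (g (bs i)).2 γ
    have hexpb : NormedSpace.exp (hat γ.1 * Y (g (bs i)) * hat (γ⁻¹ : D.Γ).1) =
        hat (γ * (g (bs i)).1 * γ⁻¹).1 := by
      rw [exp_conj_hat, hYe, hhat, hhat]
    have hnil := nilp_conj_hat γ (hYn (g (bs i)))
    have hcm : Commute (hat γ.1 * Y (g (bs i)) * hat (γ⁻¹ : D.Γ).1)
        (hat (γ * (g (bs i)).1 * γ⁻¹).1) := by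
      rw [hhat, hhat]
      exact commute_conj_hat γ (hcY _ _ (Commute.refl _)).symm
    have heq : hat γ.1 * Y (g (bs i)) * hat (γ⁻¹ : D.Γ).1 =
        Y ⟨γ * (g (bs i)).1 * γ⁻¹, hb⟩ := by
      apply exp_inj_nilpotent _ _ hnil (hYn _)
      · exact hcY _ _ hcm
      · rw [hexpb, hYe]
    have hmem : hat γ.1 * Y (g (bs i)) * hat (γ⁻¹ : D.Γ).1 ∈ Λ := by
      rw [heq]
      exact (hΛ _).2 ⟨_, rfl⟩
    have hYi : Y (g (bs i)) = (bs i : Alg E) := hYg _
    rw [hYi] at hmem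
    have hspan : ∀ w : Λ, (w : Alg E) ∈
        Submodule.span ℝ (Set.range fun i => (bs i : Alg E)) := by
      intro w
      obtain ⟨m, rfl⟩ : ∃ m, z m = w := ⟨bs.equivFun w, bs.equivFun.symm_apply_apply _⟩
      rw [hz]
      exact Submodule.sum_mem _ fun i _ => Submodule.smul_mem _ _ (Submodule.subset_span ⟨i, rfl⟩)
    exact hspan ⟨_, hmem⟩

end Pool.SV
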