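import Pool.Agent.SV.Chain

open Set Finset

namespace Pool.SV

namespace Mean

open Filter Topology

variable {Γ : Type*} [Group Γ]

theorem pair_single' {B : Type*} (β : List B → ℝ) (l : List B) (c : ℝ) :
    pair β (Finsupp.single l c) = c * β l := by
  unfold pair
  rw [Finsupp.linearCombination_single, smul_eq_mul]

theorem pair_mapDomain' {A B : Type*} (β : List B → ℝ) (f : List A → List B) (c : L A) :
    pair β (c.mapDomain f) = pair (fun l => β (f l)) c := by
  unfold pair
  rw [Finsupp.linearCombination_mapDomain]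
  rfl

theorem dual_nil {A B : Type*} (p : A → (B →₀ ℝ)) (β : List B → ℝ) :
    dual (push p) β [] = β [] := by
  unfold dual
  rw [push, pair_single', one_mul]

theorem dual_cons {A B : Type*} (p : A → (B →₀ ℝ)) (β : List B → ℝ) (a : A) (l : List A) :
    dual (push p) β (a :: l) = Finsupp.linearCombination ℝ
      (fun b => dual (push p) (fun l' => β (b :: l')) l) (p a) := by
  unfold dual
  rw [push, Finsupp.linearCombination_apply, Finsupp.sum, Finsupp.sum, map_sum]
  apply Finset.sum_congr rfl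
  intro b _
  rw [map_smul, cone, Finsupp.lmapDomain_apply, pair_mapDomain']

/-- The uniform measure on `g t^n`, `n < T`. -/
noncomputable def pT (t : Γ) (T : ℕ) (g : Γ) : Γ →₀ ℝ :=
  ((T : ℝ))⁻¹ • ∑ n ∈ Finset.range T, Finsupp.single (g * t ^ n) (1 : ℝ)

theorem lc_pT {M : Type*} [AddCommGroup M] [Module ℝ M] (t : Γ) (T : ℕ) (g : Γ) (F : Γ → M) :
    Finsupp.linearCombination ℝ F (pT t T g) =
      ((T : ℝ))⁻¹ • ∑ n ∈ Finset.range T, F (g * t ^ n) := by
  unfold pT
  rw [map_smul, map_sum]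
  simp only [Finsupp.linearCombination_single, one_smul]

theorem pT_normalised (t : Γ) (T : ℕ) (hT : 0 < T) : Normalised (pT t T) := by
  intro g
  have h := lc_pT t T g (fun _ => (1 : ℝ))
  rw [Finsupp.linearCombination_apply] at h
  simp only [smul_eq_mul, mul_one, Finset.sum_const, Finset.card_range, nsmul_eq_mul] at h
  rw [h]
  have : (T : ℝ) ≠ 0 := by positivity
  field_simp

theorem pT_nonneg (t : Γ) (T : ℕ) (g b : Γ) : 0 ≤ pT t T g b := by
  unfold pT
  rw [Finsupp.smul_apply, Finsupp.finsetSum_apply]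
  apply smul_nonneg (by positivity)
  apply Finset.sum_nonneg
  intro n _
  classical
  rw [Finsupp.single_apply]
  split_ifs <;> norm_num

theorem pT_equiv (t : Γ) (T : ℕ) : Equiv' Γ (pT t T) := by
  intro g a
  unfold pT
  rw [Finsupp.mapDomain_smul, Finsupp.mapDomain_finsetSum]
  congr 1
  apply Finset.sum_congr rfl
  intro n _
  rw [Finsupp.mapDomain_single, smul_eq_mul, smul_eq_mul, mul_assoc]

/-- The averaged cochain. -/
noncomputable def Av (t : Γ) (T : ℕ) (β : List Γ → ℝ) : List Γ → ℝ := dual (push (pT t T)) β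

theorem Av_nil (t : Γ) (T : ℕ) (β : List Γ → ℝ) : Av t T β [] = β [] := dual_nil _ _

theorem Av_cons (t : Γ) (T : ℕ) (β : List Γ → ℝ) (g : Γ) (l : List Γ) :
    Av t T β (g :: l) = ((T : ℝ))⁻¹ * ∑ n ∈ Finset.range T,
      Av t T (fun l' => β ((g * t ^ n) :: l')) l := by
  unfold Av
  rw [dual_cons, lc_pT, smul_eq_mul]

theorem Av_bdd (t : Γ) (T : ℕ) (hT : 0 < T) (β : List Γ → ℝ) (C : ℝ) (hβ : ∀ l, |β l| ≤ C)
    (l : List Γ) : |Av t T β l| ≤ C :=
  bdd_push (pT t T) (pT_normalised t T hT) (pT_nonneg t T) β C hβ l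

/-- Right invariance in every slot. -/
def RI (s : Γ) (β : List Γ → ℝ) : Prop :=
  ∀ (l₁ : List Γ) (g : Γ) (l₂ : List Γ), β (l₁ ++ (g * s) :: l₂) = β (l₁ ++ g :: l₂)

theorem RI.cons {s : Γ} {β : List Γ → ℝ} (h : RI s β) (x : Γ) :
    RI s (fun l => β (x :: l)) := fun l₁ g l₂ => h (x :: l₁) g l₂

theorem RI_Av {s t : Γ} (hst : s * t = t * s) (T : ℕ) {β : List Γ → ℝ} (h : RI s β) :
    RI s (Av t T β) := by
  intro l₁
  induction l₁ generalizing β with
  | nil =>
    intro g l₂
    rw [List.nil_append, List.nil_append, Av_cons, Av_cons]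
    congr 1
    apply Finset.sum_congr rfl
    intro n _
    have hc : Commute s t := hst
    have h1 : g * s * t ^ n = g * t ^ n * s := by
      rw [mul_assoc, (hc.pow_right n).eq, mul_assoc]
    rw [h1]
    congr 1
    funext l'
    exact h [] (g * t ^ n) l'
  | cons a l₁ ih =>
    intro g l₂
    rw [List.cons_append, List.cons_append, Av_cons, Av_cons]
    congr 1
    apply Finset.sum_congr rfl
    intro n _
    exact ih (h.cons _) g l₂

/-- The averaged cochain is almost invariant. -/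
theorem Av_almost (t : Γ) (T : ℕ) (hT : 0 < T) (β : List Γ → ℝ) (C : ℝ)
    (hβ : ∀ l, |β l| ≤ C) (l₁ : List Γ) (g : Γ) (l₂ : List Γ) :
    |Av t T β (l₁ ++ (g * t) :: l₂) - Av t T β (l₁ ++ g :: l₂)| ≤ 2 * C / T := by
  have hT' : (0 : ℝ) < T := by exact_mod_cast hT
  induction l₁ generalizing β with
  | nil =>
    rw [List.nil_append, List.nil_append, Av_cons, Av_cons, ← mul_sub, ← Finset.sum_sub_distrib]
    have h1 : ∀ n ∈ Finset.range T, Av t T (fun l' => β ((g * t * t ^ n) :: l')) l₂ -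
        Av t T (fun l' => β ((g * t ^ n) :: l')) l₂ =
        (fun n : ℕ => Av t T (fun l' => β ((g * t ^ n) :: l')) l₂) (n + 1) -
        (fun n : ℕ => Av t T (fun l' => β ((g * t ^ n) :: l')) l₂) n := by
      intro n _
      have : g * t * t ^ n = g * t ^ (n + 1) := by rw [pow_succ', mul_assoc]
      simp only [this]
    rw [Finset.sum_congr rfl h1,
      Finset.sum_range_sub (fun n : ℕ => Av t T (fun l' => β ((g * t ^ n) :: l')) l₂) T,
      abs_mul, abs_of_pos (inv_pos.2 hT')]
    have h2 := Av_bdd t T hT (fun l' => β ((g * t ^ T) :: l')) C (fun l => hβ _) l₂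
    have h3 := Av_bdd t T hT (fun l' => β ((g * t ^ 0) :: l')) C (fun l => hβ _) l₂
    have h4 := abs_sub (Av t T (fun l' => β ((g * t ^ T) :: l')) l₂)
      (Av t T (fun l' => β ((g * t ^ 0) :: l')) l₂)
    rw [inv_mul_eq_div]
    apply div_le_div_of_nonneg_right _ hT'.le
    linarith
  | cons a l₁ ih =>
    rw [List.cons_append, List.cons_append, Av_cons, Av_cons, ← mul_sub,
      ← Finset.sum_sub_distrib, abs_mul, abs_of_pos (inv_pos.2 hT')]
    calc ((T : ℝ))⁻¹ * |∑ n ∈ Finset.range T,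
          (Av t T (fun l' => β ((a * t ^ n) :: l')) (l₁ ++ (g * t) :: l₂) -
            Av t T (fun l' => β ((a * t ^ n) :: l')) (l₁ ++ g :: l₂))|
        ≤ ((T : ℝ))⁻¹ * ∑ n ∈ Finset.range T,
          |Av t T (fun l' => β ((a * t ^ n) :: l')) (l₁ ++ (g * t) :: l₂) -
            Av t T (fun l' => β ((a * t ^ n) :: l')) (l₁ ++ g :: l₂)| :=
          mul_le_mul_of_nonneg_left (Finset.abs_sum_le_sum_abs _ _) (inv_pos.2 hT').le
      _ ≤ ((T : ℝ))⁻¹ * ∑ _n ∈ Finset.range T, 2 * C / T := by
          apply mul_le_mul_of_nonneg_left _ (inv_pos.2 hT').le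
          apply Finset.sum_le_sum
          intro n _
          exact ih (fun l' => β ((a * t ^ n) :: l')) (fun l => hβ _)
      _ = 2 * C / T := by
          rw [Finset.sum_const, Finset.card_range, nsmul_eq_mul]
          field_simp

theorem push_dirac {A B : Type*} (f : A → B) (l : List A) :
    push (fun a => Finsupp.single (f a) (1 : ℝ)) l = Finsupp.single (l.map f) 1 := by
  induction l with
  | nil => rfl
  | cons a l ih =>
    rw [push, ih, Finsupp.sum_single_index (by simp), one_smul, cone, Finsupp.lmapDomain_apply,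
      Finsupp.mapDomain_single, List.map_cons]

theorem dual_push_dirac {A B : Type*} (f : A → B) (β : List B → ℝ) (l : List A) :
    dual (push fun a => Finsupp.single (f a) (1 : ℝ)) β l = β (l.map f) := by
  unfold dual
  rw [push_dirac, pair_single', one_mul]

/-- The good properties of a cochain. -/
structure OK (β : List Γ → ℝ) (β₀ : List Γ → ℝ) : Prop where
  bdd : Bdd β
  inv : Inv Γ β
  cob : cob β = 0
  pair : ∀ w : L Γ, Cyc Γ w → pair β w = pair β₀ w

theorem exists_limit (β : List Γ → ℝ) (β₀ : List Γ → ℝ) (h : OK β β₀) (t : Γ) :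
    ∃ β' : List Γ → ℝ, OK β' β₀ ∧ RI t β' ∧ ∀ s : Γ, s * t = t * s → RI s β → RI s β' := by
  obtain ⟨C, hC⟩ := h.bdd
  -- limits along an ultrafilter
  have hlim : ∀ l : List Γ, ∃ y : ℝ, Tendsto (fun T : ℕ => Av t (T + 1) β l)
      (Filter.hyperfilter ℕ : Filter ℕ) (𝓝 y) ∧ |y| ≤ C := by
    intro l
    have hmem : ∀ T : ℕ, Av t (T + 1) β l ∈ Set.Icc (-C) C := by
      intro T
      have := abs_le.1 (Av_bdd t (T + 1) (Nat.succ_pos T) β C hC l)
      exact ⟨this.1, this.2⟩
    have hK : IsCompact (Set.Icc (-C) C) := isCompact_Icc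
    obtain ⟨y, hy, hle⟩ := hK.ultrafilter_le_nhds
      ((Filter.hyperfilter ℕ).map (fun T : ℕ => Av t (T + 1) β l)) (by
        rw [Ultrafilter.coe_map, Filter.le_principal_iff, Filter.mem_map]
        exact Filter.univ_mem' hmem)
    exact ⟨y, hle, abs_le.2 ⟨hy.1, hy.2⟩⟩
  choose β' hβ' hβ'C using hlim
  have hpair : ∀ c : L Γ, Tendsto (fun T : ℕ => Pool.SV.pair (Av t (T + 1) β) c)
      (Filter.hyperfilter ℕ : Filter ℕ) (𝓝 (Pool.SV.pair β' c)) := by
    intro c
    unfold Pool.SV.pair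
    simp only [Finsupp.linearCombination_apply, Finsupp.sum]
    apply tendsto_finsetSum
    intro l _
    exact (hβ' l).const_smul _
  have hOK : ∀ T : ℕ, cob (Av t (T + 1) β) = 0 ∧ Inv Γ (Av t (T + 1) β) ∧
      ∀ w : L Γ, Cyc Γ w → Pool.SV.pair (Av t (T + 1) β) w = Pool.SV.pair β w := by
    intro T
    refine ⟨?_, ?_, ?_⟩
    · unfold Av
      rw [cob_push _ (pT_normalised t (T + 1) (Nat.succ_pos T)), h.cob]
      funext l
      simp [dual, Pool.SV.pair]
    · exact inv_push Γ _ (pT_equiv t (T + 1)) β h.inv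
    · intro w hw
      have h1 := push_homotopic Γ (pT t (T + 1)) (fun g => Finsupp.single g (1 : ℝ))
        (pT_normalised t (T + 1) (Nat.succ_pos T))
        (fun g => by simp) (pT_equiv t (T + 1))
        (fun g a => by rw [Finsupp.mapDomain_single]) β h.inv h.cob w hw
      have h2 : dual (push fun g : Γ => Finsupp.single g (1 : ℝ)) β = β := by
        funext l
        rw [dual_push_dirac (fun g : Γ => g), List.map_id']
      rw [h2] at h1
      exact h1
  refine ⟨β', ⟨⟨C, hβ'C⟩, ?_, ?_, ?_⟩, ?_, ?_⟩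
  · intro g l
    refine tendsto_nhds_unique (hβ' _) ?_
    refine (hβ' l).congr fun T => ?_
    exact ((hOK T).2.1 g l).symm
  · funext l
    have h1 := hpair (dl l)
    have h2 : (fun T : ℕ => Pool.SV.pair (Av t (T + 1) β) (dl l)) = fun _ => 0 := by
      funext T
      exact congrFun (hOK T).1 l
    rw [h2] at h1
    exact tendsto_nhds_unique h1 tendsto_const_nhds
  · intro w hw
    rw [← h.pair w hw]
    have h1 := hpair w
    have h2 : (fun T : ℕ => Pool.SV.pair (Av t (T + 1) β) w) = fun _ => Pool.SV.pair β w := by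
      funext T
      exact (hOK T).2.2 w hw
    rw [h2] at h1
    exact tendsto_nhds_unique h1 tendsto_const_nhds
  · intro l₁ g l₂
    have h1 : Tendsto (fun T : ℕ => Av t (T + 1) β (l₁ ++ (g * t) :: l₂) -
        Av t (T + 1) β (l₁ ++ g :: l₂)) (Filter.hyperfilter ℕ : Filter ℕ) (𝓝 0) := by
      have h2 : Tendsto (fun T : ℕ => 2 * C / ((T + 1 : ℕ) : ℝ)) atTop (𝓝 0) :=
        (tendsto_const_div_atTop_nhds_zero_nat (2 * C)).comp (tendsto_add_atTop_nat 1)
      have h3 : (Filter.hyperfilter ℕ : Filter ℕ) ≤ atTop := by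
        rw [← Nat.cofinite_eq_atTop]
        exact Filter.hyperfilter_le_cofinite
      refine squeeze_zero_norm' ?_ (h2.mono_left h3)
      apply Filter.Eventually.of_forall
      intro T
      rw [Real.norm_eq_abs]
      exact Av_almost t (T + 1) (Nat.succ_pos T) β C hC l₁ g l₂
    have h4 := (hβ' (l₁ ++ (g * t) :: l₂)).sub (hβ' (l₁ ++ g :: l₂))
    have h5 := tendsto_nhds_unique h4 h1
    linarith
  · intro s hs hRI l₁ g l₂
    refine tendsto_nhds_unique (hβ' _) ?_
    refine (hβ' (l₁ ++ g :: l₂)).congr fun T => ?_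
    exact (RI_Av hs (T + 1) hRI l₁ g l₂).symm

theorem exists_limit_list (β₀ : List Γ → ℝ) (ts : List Γ)
    (hcomm : ∀ s ∈ ts, ∀ t ∈ ts, s * t = t * s) (β : List Γ → ℝ) (h : OK β β₀) :
    ∃ β' : List Γ → ℝ, OK β' β₀ ∧ ∀ t ∈ ts, RI t β' := by
  induction ts with
  | nil => exact ⟨β, h, by simp⟩
  | cons t ts ih =>
    obtain ⟨β₁, h1, h2⟩ := ih (fun s hs t' ht' =>
      hcomm s (List.mem_cons_of_mem _ hs) t' (List.mem_cons_of_mem _ ht'))
    obtain ⟨β₂, h3, h4, h5⟩ := exists_limit β₁ β₀ h1 t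
    refine ⟨β₂, h3, ?_⟩
    intro s hs
    rcases List.mem_cons.1 hs with rfl | hs'
    · exact h4
    · exact h5 s (hcomm s hs t List.mem_cons_self) (h2 s hs')

theorem RI_one (β : List Γ → ℝ) : RI 1 β := by
  intro l₁ g l₂
  rw [mul_one]

theorem RI_mul {β : List Γ → ℝ} {s t : Γ} (hs : RI s β) (ht : RI t β) : RI (s * t) β := by
  intro l₁ g l₂
  rw [← mul_assoc, ht l₁ (g * s) l₂, hs l₁ g l₂]

theorem RI_inv {β : List Γ → ℝ} {s : Γ} (hs : RI s β) : RI s⁻¹ β := by
  intro l₁ g l₂
  have := hs l₁ (g * s⁻¹) l₂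
  rw [inv_mul_cancel_right] at this
  exact this.symm

theorem dl_map {A B : Type*} (f : A → B) (l : List A) :
    dl (l.map f) = (dl l).mapDomain (List.map f) := by
  induction l with
  | nil => simp [dl]
  | cons a l ih =>
    rw [List.map_cons, dl, dl, ih]
    have hsub : (Finsupp.single l (1 : ℝ) - cone a (dl l)).mapDomain (List.map f) =
        (Finsupp.single l (1 : ℝ)).mapDomain (List.map f) -
          (cone a (dl l)).mapDomain (List.map f) := by
      exact map_sub (Finsupp.mapDomain.addMonoidHom (M := ℝ) (List.map f)) _ _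
    rw [hsub, Finsupp.mapDomain_single]
    congr 1
    rw [cone, cone, Finsupp.lmapDomain_apply, Finsupp.lmapDomain_apply, ← Finsupp.mapDomain_comp,
      ← Finsupp.mapDomain_comp]
    rfl

end Mean

open Mean in
theorem mean_descend {Γ : Type*} [Group Γ] (k : ℕ) (j : (Fin k → ℤ) → Γ)
    (hj : ∀ a b, j (a + b) = j a * j b) (N : Subgroup Γ) [N.Normal]
    (hN : ∀ g, g ∈ N ↔ ∃ m, j m = g) (β : List Γ → ℝ) (hb : Bdd β) (hβ : Inv Γ β)
    (hc : cob β = 0) :
    ∃ β' : List (Γ ⧸ N) → ℝ, Bdd β' ∧ Inv Γ β' ∧ cob β' = 0 ∧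
      ∀ w : L Γ, Cyc Γ w →
        pair (dual (push (fun g : Γ => Finsupp.single (g : Γ ⧸ N) (1 : ℝ))) β') w =
          pair β w := by
  classical
  have hj0 : j 0 = 1 := by
    have := hj 0 0
    rw [add_zero] at this
    exact (mul_eq_left.1 this.symm)
  have hjneg : ∀ a, j (-a) = (j a)⁻¹ := by
    intro a
    rw [eq_inv_iff_mul_eq_one, ← hj, neg_add_cancel, hj0]
  obtain ⟨β'', hOK, hRI⟩ := exists_limit_list β
    (List.ofFn fun i : Fin k => j (Pi.single i 1)) (by
      intro s hs t ht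
      rw [List.mem_ofFn] at hs ht
      obtain ⟨i, rfl⟩ := hs
      obtain ⟨i', rfl⟩ := ht
      rw [← hj, ← hj, add_comm]) β ⟨hb, hβ, hc, fun _ _ => rfl⟩
  -- right invariance under the whole group
  have hall : ∀ m : Fin k → ℤ, RI (j m) β'' := by
    let A : AddSubgroup (Fin k → ℤ) :=
      { carrier := {m | RI (j m) β''}
        zero_mem' := by
          show RI (j 0) β''
          rw [hj0]
          exact RI_one _
        add_mem' := by
          intro a b ha hb'
          show RI (j (a + b)) β''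
          rw [hj]
          exact RI_mul ha hb'
        neg_mem' := by
          intro a ha
          show RI (j (-a)) β''
          rw [hjneg]
          exact RI_inv ha }
    intro m
    have h1 : m ∈ A := by
      rw [← Finset.univ_sum_single m]
      apply A.sum_mem
      intro i _
      have h2 : Pi.single i (m i) = (m i) • (Pi.single i (1 : ℤ) : Fin k → ℤ) := by
        rw [← Pi.single_smul]
        simp
      rw [h2]
      apply A.zsmul_mem
      show RI (j (Pi.single i 1)) β''
      apply hRI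
      rw [List.mem_ofFn]
      exact ⟨i, rfl⟩
    exact h1
  have hNRI : ∀ n ∈ N, RI n β'' := by
    intro n hn
    obtain ⟨m, rfl⟩ := (hN n).1 hn
    exact hall m
  have hout : ∀ (l l₁ : List Γ),
      β'' (l₁ ++ l.map (fun g : Γ => ((g : Γ ⧸ N)).out)) = β'' (l₁ ++ l) := by
    intro l
    induction l with
    | nil => intro l₁; rfl
    | cons g l ih =>
      intro l₁
      rw [List.map_cons]
      obtain ⟨n, hn⟩ := QuotientGroup.mk_out_eq_mul N g
      rw [hn, hNRI n n.2 l₁ g _]
      have := ih (l₁ ++ [g])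
      simpa using this
  set β' : List (Γ ⧸ N) → ℝ := fun l => β'' (l.map Quotient.out) with hβ'
  have hmk : ∀ l : List Γ, β' (l.map (fun g : Γ => (g : Γ ⧸ N))) = β'' l := by
    intro l
    have := hout l []
    simp only [List.nil_append] at this
    rw [← this, hβ']
    simp only [List.map_map]
    rfl
  have hlift : ∀ l : List (Γ ⧸ N), ∃ l' : List Γ, l = l'.map (fun g : Γ => (g : Γ ⧸ N)) := by
    intro l
    refine ⟨l.map Quotient.out, ?_⟩
    rw [List.map_map]
    have : ((fun g : Γ => (g : Γ ⧸ N)) ∘ Quotient.out) = id := by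
      funext q
      exact Quotient.out_eq' q
    rw [this, List.map_id]
  refine ⟨β', ?_, ?_, ?_, ?_⟩
  · obtain ⟨C, hC⟩ := hOK.bdd
    exact ⟨C, fun l => hC _⟩
  · intro g l
    obtain ⟨l', rfl⟩ := hlift l
    rw [hmk, List.map_map]
    have h1 : ((fun b : Γ ⧸ N => g • b) ∘ fun g' : Γ => (g' : Γ ⧸ N)) =
        (fun g' : Γ => (g' : Γ ⧸ N)) ∘ fun g' => g • g' := by
      funext g'
      rfl
    rw [h1, ← List.map_map, hmk]
    exact hOK.inv g l'
  · funext l
    obtain ⟨l', rfl⟩ := hlift l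
    unfold cob
    rw [dl_map, pair_mapDomain']
    have h1 : (fun l : List Γ => β' (l.map (fun g : Γ => (g : Γ ⧸ N)))) = β'' := funext hmk
    rw [h1]
    exact congrFun hOK.cob l'
  · intro w hw
    have h1 : dual (push (fun g : Γ => Finsupp.single (g : Γ ⧸ N) (1 : ℝ))) β' = β'' := by
      funext l
      rw [dual_push_dirac (fun g : Γ => (g : Γ ⧸ N)), hmk]
    rw [h1]
    exact hOK.pair w hw

end Pool.SV
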