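import Pool.Agent.Helper84.SV.Hat

/-!
# Second order estimate for alternating forms of a rank deficient map (SV-4)
-/

open Set Finset

namespace Pool.SV

namespace Rank

/-! ### Bound for a multilinear form on `S → ℝ` -/

theorem multilinear_bound {ι S : Type*} [Fintype ι] [Fintype S]
    (f : MultilinearMap ℝ (fun _ : ι => (S → ℝ)) ℝ) :
    ∃ C : ℝ, 0 ≤ C ∧ ∀ m : ι → (S → ℝ), ‖f m‖ ≤ C * ∏ i, ‖m i‖ := by
  classical
  refine ⟨∑ r : ι → S, ‖f (fun i => Pi.single (r i) (1 : ℝ))‖,
    Finset.sum_nonneg fun _ _ => norm_nonneg _, fun m => ?_⟩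
  have h1 : m = fun i => ∑ s : S, (m i s) • (Pi.single s (1 : ℝ) : S → ℝ) := by
    funext i
    funext t
    simp [Finset.sum_apply, Pi.single_apply]
  have h2 : f m = ∑ r : ι → S, (∏ i, m i (r i)) * f (fun i => Pi.single (r i) (1 : ℝ)) := by
    conv_lhs => rw [h1]
    rw [MultilinearMap.map_sum]
    refine Finset.sum_congr rfl fun r _ => ?_
    rw [MultilinearMap.map_smul_univ]
    rfl
  rw [h2, Finset.sum_mul]
  refine (norm_sum_le _ _).trans (Finset.sum_le_sum fun r _ => ?_)
  rw [norm_mul, norm_prod, mul_comm]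
  refine mul_le_mul_of_nonneg_left ?_ (norm_nonneg _)
  exact Finset.prod_le_prod (fun i _ => norm_nonneg _) (fun i _ => norm_le_pi_norm (m i) (r i))

/-! ### Subtracting the first argument of an alternating form -/

theorem alt_sub {V : Type*} [AddCommGroup V] [Module ℝ V] (n : ℕ)
    (Φ : V [⋀^Fin (n + 1)]→ₗ[ℝ] ℝ) (a : V) (y : Fin n → V) :
    Φ (Matrix.vecCons a y) = Φ (Matrix.vecCons a (fun i => y i - a)) := by
  classical
  have key : ∀ s : Finset (Fin n),
      Φ (Matrix.vecCons a (fun i => if i ∈ s then y i - a else y i)) = Φ (Matrix.vecCons a y) := by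
    intro s
    induction s using Finset.induction_on with
    | empty => simp
    | insert i s hi ih =>
      have e1 : (Matrix.vecCons a (fun j => if j ∈ insert i s then y j - a else y j))
          = Function.update (Matrix.vecCons a (fun j => if j ∈ s then y j - a else y j))
              i.succ (y i - a) := by
        funext k
        refine Fin.cases ?_ (fun j => ?_) k
        · rw [Function.update_of_ne (Fin.succ_ne_zero i).symm]
          simp
        · by_cases hj : j = i
          · subst hj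
            simp
          · rw [Function.update_of_ne (by simpa using hj)]
            simp [Finset.mem_insert, hj]
      have e2 : Function.update (Matrix.vecCons a (fun j => if j ∈ s then y j - a else y j))
              i.succ (y i) = Matrix.vecCons a (fun j => if j ∈ s then y j - a else y j) := by
        rw [Function.update_eq_self_iff]
        simp [hi]
      rw [e1, AlternatingMap.map_update_sub, e2, ih]
      have e3 : Φ (Function.update (Matrix.vecCons a (fun j => if j ∈ s then y j - a else y j))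
              i.succ a) = 0 := by
        refine Φ.map_eq_zero_of_eq _ (i := 0) (j := i.succ) ?_ (Fin.succ_ne_zero i).symm
        rw [Function.update_self, Function.update_of_ne (Fin.succ_ne_zero i).symm]
        simp
      rw [e3, sub_zero]
  have := key Finset.univ
  simpa using this.symm

/-! ### Rank -/

theorem not_linInd {E V : Type*} [AddCommGroup E] [Module ℝ E] [FiniteDimensional ℝ E]
    [AddCommGroup V] [Module ℝ V] (n : ℕ) (hn : Module.finrank ℝ E = n) (D : E →ₗ[ℝ] V)
    (hD : ∃ v : E, v ≠ 0 ∧ D v = 0) (w : Fin n → E) :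
    ¬ LinearIndependent ℝ (fun i => D (w i)) := by
  intro hli
  have h1 : LinearIndependent ℝ
      (fun i => (⟨D (w i), LinearMap.mem_range_self D (w i)⟩ : LinearMap.range D)) := by
    apply LinearIndependent.of_comp (LinearMap.range D).subtype
    exact hli
  have h2 := h1.fintype_card_le_finrank
  have h3 := LinearMap.finrank_range_add_finrank_ker D
  have h4 : 0 < Module.finrank ℝ (LinearMap.ker D) := by
    obtain ⟨v, hv, hDv⟩ := hD
    rw [Module.finrank_pos_iff_exists_ne_zero]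
    exact ⟨⟨v, hDv⟩, fun h => hv (congrArg Subtype.val h)⟩
  rw [Fintype.card_fin] at h2
  omega

/-! ### Total variation of a tuple -/

theorem tv_cons_cons {E : Type*} [NormedAddCommGroup E] (a b : E) (l : List E) :
    tv (a :: b :: l) = ‖b - a‖ + tv (b :: l) := rfl

theorem tv_nonneg {E : Type*} [NormedAddCommGroup E] : ∀ l : List E, 0 ≤ tv l
  | [] => le_refl _
  | [_] => le_refl _
  | a :: b :: l => by
    rw [tv_cons_cons]
    exact add_nonneg (norm_nonneg _) (tv_nonneg (b :: l))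

theorem norm_le_tv {E : Type*} [NormedAddCommGroup E] : ∀ (l : List E) (a : E) (b : E),
    b ∈ l → ‖b - a‖ ≤ tv (a :: l)
  | [], _, _, h => by simp at h
  | c :: l, a, b, h => by
    rw [tv_cons_cons]
    rcases List.mem_cons.1 h with rfl | h
    · exact le_add_of_nonneg_right (tv_nonneg _)
    · have h1 := norm_le_tv l c b h
      have h2 : b - a = (c - a) + (b - c) := by abel
      rw [h2]
      exact (norm_add_le _ _).trans (add_le_add (le_refl _) h1)

/-! ### Taylor estimates on a compact convex set -/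

theorem bdd_fderiv {E G : Type*} [NormedAddCommGroup E] [NormedSpace ℝ E]
    [NormedAddCommGroup G] [NormedSpace ℝ G] (K O : Set E)
    (hK : IsCompact K) (hO : IsOpen O) (hKO : K ⊆ O) (g : E → G)
    (hg : ContDiffOn ℝ 1 g O) : ∃ C : ℝ, ∀ x ∈ K, ‖fderiv ℝ g x‖ ≤ C :=
  hK.exists_bound_of_continuousOn ((hg.continuousOn_fderiv_of_isOpen hO le_rfl).mono hKO)

theorem taylor {E F : Type*} [NormedAddCommGroup E] [NormedSpace ℝ E]
    [NormedAddCommGroup F] [NormedSpace ℝ F] (K O : Set E)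
    (hK : IsCompact K) (hKc : Convex ℝ K) (hO : IsOpen O) (hKO : K ⊆ O) (f : E → F)
    (hf : ContDiffOn ℝ 2 f O) :
    ∃ C : ℝ, 0 ≤ C ∧ (∀ x ∈ K, ‖f x‖ ≤ C) ∧ (∀ x ∈ K, ‖fderiv ℝ f x‖ ≤ C) ∧
      (∀ x ∈ K, ∀ y ∈ K, ‖f y - f x‖ ≤ C * ‖y - x‖) ∧
      (∀ x ∈ K, ∀ y ∈ K, ‖f y - f x - fderiv ℝ f x (y - x)‖ ≤ C * ‖y - x‖ * ‖y - x‖) := by
  have hdf : ContDiffOn ℝ 1 (fderiv ℝ f) O :=
    hf.fderiv_of_isOpen hO (by norm_num)
  have hc0 : ContinuousOn f K := hf.continuousOn.mono hKO
  have hc1 : ContinuousOn (fderiv ℝ f) K := hdf.continuousOn.mono hKO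
  obtain ⟨C0, hC0⟩ := hK.exists_bound_of_continuousOn hc0
  obtain ⟨C1, hC1⟩ := hK.exists_bound_of_continuousOn hc1
  obtain ⟨C2, hC2⟩ := bdd_fderiv K O hK hO hKO (fderiv ℝ f) hdf
  have hd0 : ∀ x ∈ K, DifferentiableAt ℝ f x := fun x hx =>
    (hf.differentiableOn (by norm_num)).differentiableAt (hO.mem_nhds (hKO hx))
  have hd1 : ∀ x ∈ K, DifferentiableAt ℝ (fderiv ℝ f) x := fun x hx =>
    (hdf.differentiableOn (by norm_num)).differentiableAt (hO.mem_nhds (hKO hx))
  set C := max 0 (max C0 (max C1 C2)) with hC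
  have l0 : C0 ≤ C := le_max_of_le_right (le_max_left _ _)
  have l1 : C1 ≤ C := le_max_of_le_right (le_max_of_le_right (le_max_left _ _))
  have l2 : C2 ≤ C := le_max_of_le_right (le_max_of_le_right (le_max_right _ _))
  have hlip : ∀ x ∈ K, ∀ y ∈ K, ‖fderiv ℝ f y - fderiv ℝ f x‖ ≤ C * ‖y - x‖ :=
    fun x hx y hy => hKc.norm_image_sub_le_of_norm_fderiv_le hd1
      (fun z hz => (hC2 z hz).trans l2) hx hy
  refine ⟨C, le_max_left _ _, fun x hx => (hC0 x hx).trans l0, fun x hx => (hC1 x hx).trans l1,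
    fun x hx y hy => hKc.norm_image_sub_le_of_norm_fderiv_le hd0
      (fun z hz => (hC1 z hz).trans l1) hx hy, fun x hx y hy => ?_⟩
  have hseg : segment ℝ x y ⊆ K := hKc.segment_subset hx hy
  refine (convex_segment x y).norm_image_sub_le_of_norm_fderiv_le'
    (fun z hz => hd0 z (hseg hz)) (fun z hz => ?_) (left_mem_segment ℝ x y)
    (right_mem_segment ℝ x y)
  refine (hlip x hx z (hseg hz)).trans ?_
  refine mul_le_mul_of_nonneg_left ?_ (le_max_left _ _)
  obtain ⟨a, b, ha, hb, hab, rfl⟩ := hz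
  have e : a • x + b • y - x = b • (y - x) := by
    have : a = 1 - b := by linarith
    subst this
    module
  rw [e, norm_smul, Real.norm_eq_abs, abs_of_nonneg hb]
  have hb1 : b ≤ 1 := by linarith
  exact mul_le_of_le_one_left (norm_nonneg _) hb1

end Rank

open Rank

theorem rank_est {E : Type*} [NormedAddCommGroup E] [NormedSpace ℝ E] [FiniteDimensional ℝ E]
    (n : ℕ) (hn : Module.finrank ℝ E = n) (hn0 : 0 < n) {S : Type*} [Fintype S] (K O : Set E)
    (hK : IsCompact K) (hKc : Convex ℝ K) (hO : IsOpen O) (hKO : K ⊆ O) (ν : E → S → ℝ)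
    (hν : ContDiffOn ℝ 2 ν O) (hrank : ∀ x ∈ K, ∃ v : E, v ≠ 0 ∧ fderiv ℝ ν x v = 0)
    (Φ : (S → ℝ) [⋀^Fin (n + 1)]→ₗ[ℝ] ℝ) :
    ∃ C : ℝ, ∀ x : Fin (n + 1) → E, (∀ i, x i ∈ K) →
      |Φ (fun i => ν (x i))| ≤ C * (tv (List.ofFn x)) ^ (n + 1) := by
  obtain ⟨B, hB, hΦ⟩ := multilinear_bound Φ.toMultilinearMap
  obtain ⟨C, hC, h0, h1, h2, h3⟩ := taylor K O hK hKc hO hKO ν hν
  refine ⟨B * C * n * C ^ (n - 1) * C, fun x hx => ?_⟩
  set t := tv (List.ofFn x) with ht
  have htn : 0 ≤ t := tv_nonneg _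
  set x0 := x 0 with hx0
  set D := fderiv ℝ ν x0 with hD
  set w : Fin n → E := fun i => x i.succ - x0 with hw
  have hwt : ∀ i, ‖w i‖ ≤ t := by
    intro i
    rw [ht, List.ofFn_succ]
    apply norm_le_tv
    rw [List.mem_ofFn]
    exact ⟨i, rfl⟩
  -- reduction to differences
  have e1 : (fun i => ν (x i)) = Matrix.vecCons (ν x0) (fun i : Fin n => ν (x i.succ)) := by
    funext k
    refine Fin.cases ?_ (fun j => ?_) k
    · rfl
    · rfl
  have e2 : Φ (fun i => ν (x i))
      = (AlternatingMap.curryLeft Φ (ν x0)) (fun i : Fin n => ν (x i.succ) - ν x0) := by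
    rw [e1, alt_sub, AlternatingMap.curryLeft_apply_apply]
  have e3 : (AlternatingMap.curryLeft Φ (ν x0)) (fun i : Fin n => D (w i)) = 0 :=
    AlternatingMap.map_linearDependent _ _ (not_linInd n hn D.toLinearMap (hrank x0 (hx 0)) w)
  -- bounds
  have hbd : ∀ m : Fin n → (S → ℝ),
      ‖(AlternatingMap.curryLeft Φ (ν x0)).toMultilinearMap m‖ ≤ (B * C) * ∏ i, ‖m i‖ := by
    intro m
    have := hΦ (Matrix.vecCons (ν x0) m)
    refine this.trans ?_
    rw [Fin.prod_univ_succ]
    simp only [Matrix.cons_val_zero, Matrix.cons_val_succ]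
    rw [← mul_assoc]
    refine mul_le_mul_of_nonneg_right ?_ (Finset.prod_nonneg fun _ _ => norm_nonneg _)
    exact mul_le_mul_of_nonneg_left (h0 x0 (hx 0)) hB
  have key := (AlternatingMap.curryLeft Φ (ν x0)).toMultilinearMap.norm_image_sub_le_of_bound
    (mul_nonneg hB hC) hbd (fun i : Fin n => ν (x i.succ) - ν x0) (fun i : Fin n => D (w i))
  have n1 : ‖(fun i : Fin n => ν (x i.succ) - ν x0)‖ ≤ C * t := by
    rw [pi_norm_le_iff_of_nonneg (mul_nonneg hC htn)]
    intro i
    exact (h2 x0 (hx 0) (x i.succ) (hx _)).trans (mul_le_mul_of_nonneg_left (hwt i) hC)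
  have n2 : ‖(fun i : Fin n => D (w i))‖ ≤ C * t := by
    rw [pi_norm_le_iff_of_nonneg (mul_nonneg hC htn)]
    intro i
    refine (D.le_opNorm (w i)).trans ?_
    exact mul_le_mul (h1 x0 (hx 0)) (hwt i) (norm_nonneg _) hC
  have n3 : ‖(fun i : Fin n => ν (x i.succ) - ν x0) - (fun i : Fin n => D (w i))‖
      ≤ C * t * t := by
    rw [pi_norm_le_iff_of_nonneg (mul_nonneg (mul_nonneg hC htn) htn)]
    intro i
    refine (h3 x0 (hx 0) (x i.succ) (hx _)).trans ?_
    exact mul_le_mul (mul_le_mul_of_nonneg_left (hwt i) hC) (hwt i) (norm_nonneg _)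
      (mul_nonneg hC htn)
  rw [Fintype.card_fin] at key
  have e4 : ‖(AlternatingMap.curryLeft Φ (ν x0)).toMultilinearMap
        (fun i : Fin n => ν (x i.succ) - ν x0)
      - (AlternatingMap.curryLeft Φ (ν x0)).toMultilinearMap (fun i : Fin n => D (w i))‖
      = |Φ (fun i => ν (x i))| := by
    rw [e2, ← Real.norm_eq_abs]
    congr 1
    have : (AlternatingMap.curryLeft Φ (ν x0)).toMultilinearMap (fun i : Fin n => D (w i)) = 0 :=
      e3
    rw [this, sub_zero]
    rfl
  rw [e4] at key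
  refine key.trans ?_
  have m1 : max ‖(fun i : Fin n => ν (x i.succ) - ν x0)‖ ‖(fun i : Fin n => D (w i))‖
      ≤ C * t := max_le n1 n2
  have m0 : 0 ≤ max ‖(fun i : Fin n => ν (x i.succ) - ν x0)‖ ‖(fun i : Fin n => D (w i))‖ :=
    le_max_of_le_left (norm_nonneg _)
  have hn1 : (0 : ℝ) ≤ n := Nat.cast_nonneg n
  calc B * C * n * (max ‖(fun i : Fin n => ν (x i.succ) - ν x0)‖
          ‖(fun i : Fin n => D (w i))‖) ^ (n - 1)
          * ‖(fun i : Fin n => ν (x i.succ) - ν x0) - (fun i : Fin n => D (w i))‖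
      ≤ B * C * n * (C * t) ^ (n - 1) * (C * t * t) := by
        refine mul_le_mul ?_ n3 (norm_nonneg _) ?_
        · exact mul_le_mul_of_nonneg_left (pow_le_pow_left₀ m0 m1 _)
            (mul_nonneg (mul_nonneg hB hC) hn1)
        · exact mul_nonneg (mul_nonneg (mul_nonneg hB hC) hn1)
            (pow_nonneg (mul_nonneg hC htn) _)
    _ = B * C * n * C ^ (n - 1) * C * t ^ (n + 1) := by
        obtain ⟨m, rfl⟩ : ∃ m, n = m + 1 := ⟨n - 1, by omega⟩
        rw [Nat.add_sub_cancel, mul_pow]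
        ring

end Pool.SV
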