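import Pool.Agent.Helper84.SV.Hat

/-!
# Singular chains of a quotient of a convex set and tuple chains

If bounded invariant cocycles on tuples vanish on cycles of top degree, then every singular
cycle of top degree of the quotient manifold has arbitrarily small norm modulo boundaries.
-/

open Set Finset Topology

set_option linter.unusedSectionVars false

namespace Pool.SV

namespace SingAux

/-! ### Faces of the standard simplex -/

theorem face_self (q : ℕ) (i : Fin (q + 2)) (t : stdSimplex ℝ (Fin (q + 1))) :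
    (face q i t) i = 0 := by
  change (stdSimplex.map (Fin.succAbove i) t) i = 0
  rw [stdSimplex.map_coe, FunOnFinite.linearMap_apply_apply]
  apply Finset.sum_eq_zero
  intro x hx
  rw [Finset.mem_filter] at hx
  exact absurd hx.2 (Fin.succAbove_ne i x)

theorem face_succAbove (q : ℕ) (i : Fin (q + 2)) (t : stdSimplex ℝ (Fin (q + 1)))
    (j : Fin (q + 1)) : (face q i t) (i.succAbove j) = t j := by
  change (stdSimplex.map (Fin.succAbove i) t) (i.succAbove j) = t j
  rw [stdSimplex.map_coe, FunOnFinite.linearMap_apply_apply, Finset.sum_eq_single j]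
  · intro b hb hbj
    rw [Finset.mem_filter] at hb
    exact absurd (Fin.succAbove_right_injective hb.2) hbj
  · intro h
    exact absurd (by simp) h

theorem sum_face {V : Type*} [AddCommMonoid V] [Module ℝ V] (q : ℕ) (i : Fin (q + 2))
    (t : stdSimplex ℝ (Fin (q + 1))) (v : Fin (q + 2) → V) :
    ∑ j, (face q i t) j • v j = ∑ j, t j • v (i.succAbove j) := by
  rw [Fin.sum_univ_succAbove _ i, face_self, zero_smul, zero_add]
  exact Finset.sum_congr rfl fun j _ => by rw [face_succAbove]

theorem face_vertex (q : ℕ) (i : Fin (q + 2)) (j : Fin (q + 1)) :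
    face q i (stdSimplex.vertex j) = stdSimplex.vertex (i.succAbove j) := by
  change stdSimplex.map (Fin.succAbove i) (stdSimplex.vertex j) = _
  rw [stdSimplex.map_vertex]

theorem face_comp_face (q : ℕ) (i : Fin (q + 3)) (j : Fin (q + 2)) :
    (face (q + 1) (i.succAbove j)).comp (face q (j.predAbove i)) =
      (face (q + 1) i).comp (face q j) := by
  ext t : 1
  change stdSimplex.map _ (stdSimplex.map _ t) = stdSimplex.map _ (stdSimplex.map _ t)
  rw [stdSimplex.map_comp_apply, stdSimplex.map_comp_apply]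
  congr 1
  funext k
  exact Fin.succAbove_succAbove_succAbove_predAbove i j k

/-! ### Singular chains -/

variable {M : Type*} [TopologicalSpace M]

theorem bd_single (q : ℕ) (σ : Sing M (q + 1)) :
    bd M q (Finsupp.single σ 1) =
      ∑ i : Fin (q + 2), ((-1 : ℝ) ^ (i : ℕ)) • Finsupp.single (σ.comp (face q i)) (1 : ℝ) := by
  rw [bd, Finsupp.linearCombination_single, one_smul]

theorem bd_bd (q : ℕ) (c : Chain M (q + 2)) : bd M q (bd M (q + 1) c) = 0 := by
  suffices h : (bd M q).comp (bd M (q + 1)) = 0 by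
    exact LinearMap.congr_fun h c
  apply Finsupp.lhom_ext'
  intro σ
  apply LinearMap.ext_ring
  change bd M q (bd M (q + 1) (Finsupp.single σ 1)) = 0
  rw [bd_single, map_sum]
  simp_rw [map_smul, bd_single, Finset.smul_sum, smul_smul, ← pow_add]
  rw [← Finset.sum_product']
  refine Finset.sum_involution
    (fun p _ => (p.1.succAbove p.2, p.2.predAbove p.1)) ?_ ?_ ?_ ?_
  · rintro ⟨i, j⟩ _
    have h := face_comp_face q i j
    simp only [ContinuousMap.comp_assoc]
    rw [h, Fin.neg_one_pow_succAbove_add_predAbove, neg_smul, add_neg_cancel]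
  · rintro ⟨i, j⟩ _ _ h
    rw [Prod.mk.injEq] at h
    exact Fin.succAbove_ne _ _ h.1
  · intro _ _
    exact Finset.mem_univ _
  · rintro ⟨i, j⟩ _
    simp only
    rw [Fin.succAbove_succAbove_predAbove, Fin.predAbove_predAbove_succAbove]

theorem nrm_nonneg {q : ℕ} (c : Chain M q) : 0 ≤ nrm c :=
  Finsupp.sum_nonneg fun _ _ => abs_nonneg _

theorem nrm_smul {q : ℕ} (a : ℝ) (c : Chain M q) : nrm (a • c) = |a| * nrm c := by
  unfold nrm
  rw [Finsupp.sum_smul_index (by simp), Finsupp.mul_sum]
  simp_rw [abs_mul]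

theorem nrm_add {q : ℕ} (c c' : Chain M q) : nrm (c + c') ≤ nrm c + nrm c' := by
  classical
  unfold nrm
  have h1 : ∀ f : Chain M q, f.support ⊆ c.support ∪ c'.support →
      f.sum (fun _ a => |a|) = ∑ σ ∈ c.support ∪ c'.support, |f σ| := fun f hf =>
    Finsupp.sum_of_support_subset _ hf _ (by simp)
  rw [h1 _ Finsupp.support_add, h1 _ Finset.subset_union_left, h1 _ Finset.subset_union_right,
    ← Finset.sum_add_distrib]
  exact Finset.sum_le_sum fun σ _ => abs_add_le _ _

theorem nrm_single {q : ℕ} (σ : Sing M q) (a : ℝ) : nrm (Finsupp.single σ a) = |a| := by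
  unfold nrm
  rw [Finsupp.sum_single_index (by simp)]

theorem exists_functional (q : ℕ) (z : Chain M (q + 1)) (ε : ℝ) (hε : 0 < ε)
    (h : ∀ b : Chain M (q + 2), ε ≤ nrm (z + bd M (q + 1) b)) :
    ∃ ζ : Chain M (q + 1) →ₗ[ℝ] ℝ, (∀ b, ζ (bd M (q + 1) b) = 0) ∧ ζ z = ε ∧
      ∀ σ, |ζ (Finsupp.single σ 1)| ≤ 1 := by
  have hz : z ∉ LinearMap.range (bd M (q + 1)) := by
    rintro ⟨b, hb⟩
    have h1 := h (-b)
    rw [map_neg, hb, add_neg_cancel] at h1
    have h2 : nrm (0 : Chain M (q + 1)) = 0 := by simp [nrm]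
    linarith
  let f0 : Chain M (q + 1) →ₗ.[ℝ] ℝ := ⟨LinearMap.range (bd M (q + 1)), 0⟩
  let f := f0.supSpanSingleton z ε hz
  have hf : ∀ x : f.domain, f x ≤ nrm (x : Chain M (q + 1)) := by
    rintro ⟨x, hx⟩
    have hx' := hx
    change x ∈ LinearMap.range (bd M (q + 1)) ⊔ Submodule.span ℝ {z} at hx'
    obtain ⟨y, hy, w, hw, hyw⟩ := Submodule.mem_sup.1 hx'
    obtain ⟨a, rfl⟩ := Submodule.mem_span_singleton.1 hw
    subst hyw
    have e := LinearPMap.supSpanSingleton_apply_mk f0 z ε hz y hy a
    change f ⟨y + a • z, hx⟩ = _ at e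
    rw [e]
    change (0 : ℝ) + a • ε ≤ nrm (y + a • z)
    obtain ⟨b, rfl⟩ := hy
    rw [zero_add, smul_eq_mul]
    rcases le_or_gt a 0 with ha | ha
    · exact (mul_nonpos_of_nonpos_of_nonneg ha hε.le).trans (nrm_nonneg _)
    · have e2 : bd M (q + 1) b + a • z = a • (z + bd M (q + 1) (a⁻¹ • b)) := by
        rw [smul_add, map_smul, smul_smul, mul_inv_cancel₀ ha.ne', one_smul]
        exact add_comm _ _
      rw [e2, nrm_smul, abs_of_pos ha]
      exact mul_le_mul_of_nonneg_left (h _) ha.le
  obtain ⟨g, hg1, hg2⟩ := exists_extension_of_le_sublinear f nrm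
    (fun c hc x => by rw [nrm_smul, abs_of_pos hc]) nrm_add hf
  refine ⟨g, ?_, ?_, ?_⟩
  · intro b
    have h1 := hg1 ⟨bd M (q + 1) b, Submodule.mem_sup_left ⟨b, rfl⟩⟩
    rw [LinearPMap.supSpanSingleton_apply_mk_of_mem f0 ε hz ⟨b, rfl⟩] at h1
    exact h1
  · have h1 := hg1 ⟨z, Submodule.mem_sup_right (Submodule.mem_span_singleton_self _)⟩
    rw [LinearPMap.supSpanSingleton_apply_self f0 ε hz] at h1
    exact h1
  · intro σ
    rw [abs_le]
    constructor
    · have h1 := hg2 (-Finsupp.single σ 1)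
      have e3 : nrm (-Finsupp.single σ (1 : ℝ)) = 1 := by
        rw [← neg_one_smul ℝ, nrm_smul, nrm_single]
        norm_num
      rw [map_neg, e3] at h1
      linarith
    · have h1 := hg2 (Finsupp.single σ 1)
      rw [nrm_single, abs_one] at h1
      exact h1

/-! ### The boundary of a tuple -/

theorem dl_ofFn {B : Type*} : ∀ (n : ℕ) (v : Fin (n + 1) → B),
    dl (List.ofFn v) = ∑ i : Fin (n + 1),
      ((-1 : ℝ) ^ (i : ℕ)) • Finsupp.single (List.ofFn (fun j => v (i.succAbove j))) (1 : ℝ)
  | 0, v => by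
    simp [dl, cone]
  | n + 1, v => by
    have h := dl_ofFn n (fun i => v i.succ)
    rw [List.ofFn_succ, dl, h, map_sum]
    conv_rhs => rw [Fin.sum_univ_succ]
    simp only [map_smul, Fin.val_zero, pow_zero, one_smul, Fin.val_succ, pow_succ,
      Fin.zero_succAbove, mul_neg, mul_one, neg_smul, Finset.sum_neg_distrib, sub_eq_add_neg]
    congr 2
    apply Finset.sum_congr rfl
    intro i _
    congr 1
    rw [cone, Finsupp.lmapDomain_apply, Finsupp.mapDomain_single]
    congr 1
    rw [List.ofFn_succ]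
    simp


/-! ### Cones of singular simplices -/

/-- The join parametrisation of the simplex. -/
noncomputable def joinMap (m : ℕ) :
    C(unitInterval × stdSimplex ℝ (Fin (m + 1)), stdSimplex ℝ (Fin (m + 1 + 1))) :=
  ⟨fun p => ⟨Fin.cons (p.1 : ℝ) (fun j => (1 - (p.1 : ℝ)) * p.2 j), by
      constructor
      · intro j
        refine Fin.cases ?_ (fun j => ?_) j
        · exact p.1.2.1
        · rw [Fin.cons_succ]
          exact mul_nonneg (sub_nonneg.2 p.1.2.2) (stdSimplex.zero_le _ _)
      · rw [Fin.sum_univ_succ]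
        simp only [Fin.cons_zero, Fin.cons_succ]
        rw [← Finset.mul_sum, stdSimplex.sum_eq_one]
        ring⟩, by
    refine Continuous.subtype_mk ?_ _
    refine continuous_pi fun j => ?_
    refine Fin.cases ?_ (fun j => ?_) j
    · simp only [Fin.cons_zero]
      fun_prop
    · simp only [Fin.cons_succ]
      refine Continuous.mul (by fun_prop) ?_
      exact (continuous_apply j).comp (continuous_subtype_val.comp continuous_snd)⟩

theorem joinMap_zero (m : ℕ) (p : unitInterval × stdSimplex ℝ (Fin (m + 1))) :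
    joinMap m p 0 = (p.1 : ℝ) := rfl

theorem joinMap_succ (m : ℕ) (p : unitInterval × stdSimplex ℝ (Fin (m + 1))) (j : Fin (m + 1)) :
    joinMap m p j.succ = (1 - (p.1 : ℝ)) * p.2 j := rfl

theorem joinMap_surjective (m : ℕ) : Function.Surjective (joinMap m) := by
  intro t
  have h0 : 0 ≤ t 0 := stdSimplex.zero_le _ _
  have h1 : t 0 ≤ 1 := stdSimplex.le_one _ _
  have hs : t 0 + ∑ j : Fin (m + 1), t j.succ = 1 := by
    rw [← Fin.sum_univ_succ, stdSimplex.sum_eq_one]
  rcases h1.lt_or_eq with h | h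
  · have hp : 0 < 1 - t 0 := sub_pos.2 h
    refine ⟨(⟨t 0, h0, h1⟩, ⟨fun j => (1 - t 0)⁻¹ * t j.succ, ?_, ?_⟩), ?_⟩
    · intro j
      exact mul_nonneg (inv_nonneg.2 hp.le) (stdSimplex.zero_le _ _)
    · rw [← Finset.mul_sum, inv_mul_eq_one₀ hp.ne']
      linarith
    · ext j
      refine Fin.cases ?_ (fun j => ?_) j
      · rfl
      · rw [joinMap_succ]
        change (1 - t 0) * ((1 - t 0)⁻¹ * t j.succ) = t j.succ
        rw [← mul_assoc, mul_inv_cancel₀ hp.ne', one_mul]
  · refine ⟨(⟨t 0, h0, h1⟩, stdSimplex.vertex 0), ?_⟩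
    ext j
    refine Fin.cases ?_ (fun j => ?_) j
    · rfl
    · rw [joinMap_succ]
      change (1 - t 0) * (stdSimplex.vertex 0 : stdSimplex ℝ (Fin (m + 1))) j = t j.succ
      have h3 : 1 - t 0 = 0 := by
        rw [h, sub_self]
      rw [h3, zero_mul]
      have h2 : ∑ j : Fin (m + 1), t j.succ = 0 := by linarith
      exact ((Finset.sum_eq_zero_iff_of_nonneg
        (fun j _ => stdSimplex.zero_le t _)).1 h2 j (Finset.mem_univ _)).symm

theorem joinMap_isQuotientMap (m : ℕ) : IsQuotientMap (joinMap m) :=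
  (joinMap m).continuous.isClosedMap.isQuotientMap (joinMap m).continuous (joinMap_surjective m)

theorem joinMap_face_zero (m : ℕ) (t : stdSimplex ℝ (Fin (m + 1))) :
    face m 0 t = joinMap m (0, t) := by
  ext j
  refine Fin.cases ?_ (fun j => ?_) j
  · rw [face_self]
    rfl
  · have h := face_succAbove m 0 t j
    rw [Fin.zero_succAbove] at h
    rw [h, joinMap_succ]
    change t j = (1 - 0) * t j
    ring

theorem joinMap_face_succ (m : ℕ) (i : Fin (m + 2)) (s : unitInterval)
    (u : stdSimplex ℝ (Fin (m + 1))) :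
    face (m + 1) i.succ (joinMap m (s, u)) = joinMap (m + 1) (s, face m i u) := by
  ext j
  refine Fin.cases ?_ (fun j => ?_) j
  · have h := face_succAbove (m + 1) i.succ (joinMap m (s, u)) 0
    rw [Fin.succ_succAbove_zero] at h
    rw [h]
    rfl
  · rw [joinMap_succ]
    change _ = (1 - (s : ℝ)) * face m i u j
    rcases Fin.eq_self_or_eq_succAbove i j with h | ⟨k, h⟩
    · subst h
      rw [face_self, face_self, mul_zero]
    · subst h
      rw [face_succAbove]
      have h := face_succAbove (m + 1) i.succ (joinMap m (s, u)) k.succ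
      rw [Fin.succ_succAbove_succ] at h
      rw [h]
      rfl

section Geo

variable {E : Type*} [NormedAddCommGroup E] [NormedSpace ℝ E] (D : Geo E)

theorem cone_factors (m : ℕ) (b : D.X) (σ : Sing D.X m) :
    ∃ c : Sing D.X (m + 1), ∀ (s : unitInterval) (u : stdSimplex ℝ (Fin (m + 1))),
      (c (joinMap m (s, u)) : E) = (s : ℝ) • (b : E) + (1 - (s : ℝ)) • (σ u : E) := by
  let g : C(unitInterval × stdSimplex ℝ (Fin (m + 1)), D.X) :=
    ⟨fun p => ⟨(p.1 : ℝ) • (b : E) + (1 - (p.1 : ℝ)) • (σ p.2 : E),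
      D.convex b.2 (σ p.2).2 p.1.2.1 (sub_nonneg.2 p.1.2.2) (by ring)⟩, by fun_prop⟩
  have hg : Function.FactorsThrough g (joinMap m) := by
    rintro ⟨s, u⟩ ⟨s', u'⟩ h
    have h0 : s = s' := by
      have := congrArg (fun t : stdSimplex ℝ (Fin (m + 1 + 1)) => t 0) h
      exact Subtype.ext this
    subst h0
    apply Subtype.ext
    change (s : ℝ) • (b : E) + (1 - (s : ℝ)) • (σ u : E) =
      (s : ℝ) • (b : E) + (1 - (s : ℝ)) • (σ u' : E)
    by_cases hs : 1 - (s : ℝ) = 0
    · rw [hs, zero_smul, zero_smul]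
    · have h1 : u = u' := by
        ext j
        have := congrArg (fun t : stdSimplex ℝ (Fin (m + 1 + 1)) => t j.succ) h
        simp only [joinMap_succ] at this
        exact mul_left_cancel₀ hs this
      rw [h1]
  refine ⟨(joinMap_isQuotientMap m).lift g hg, fun s u => ?_⟩
  have h := (joinMap_isQuotientMap m).lift_comp g hg
  have h2 := congrArg (fun f : C(unitInterval × stdSimplex ℝ (Fin (m + 1)), D.X) => f (s, u)) h
  exact congrArg Subtype.val h2

/-- The cone of a singular simplex of the convex set `D.X`. -/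
noncomputable def coneS (m : ℕ) (b : D.X) (σ : Sing D.X m) : Sing D.X (m + 1) :=
  (cone_factors D m b σ).choose

theorem coneS_apply (m : ℕ) (b : D.X) (σ : Sing D.X m) (s : unitInterval)
    (u : stdSimplex ℝ (Fin (m + 1))) :
    (coneS D m b σ (joinMap m (s, u)) : E) = (s : ℝ) • (b : E) + (1 - (s : ℝ)) • (σ u : E) :=
  (cone_factors D m b σ).choose_spec s u

theorem coneS_face_zero (m : ℕ) (b : D.X) (σ : Sing D.X m) :
    (coneS D m b σ).comp (face m 0) = σ := by
  ext t
  change ((coneS D m b σ (face m 0 t) : D.X) : E) = σ t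
  rw [joinMap_face_zero, coneS_apply]
  change (0 : ℝ) • (b : E) + (1 - (0 : ℝ)) • (σ t : E) = σ t
  rw [zero_smul, sub_zero, one_smul, zero_add]

theorem coneS_face_succ (m : ℕ) (b : D.X) (σ : Sing D.X (m + 1)) (i : Fin (m + 2)) :
    (coneS D (m + 1) b σ).comp (face (m + 1) i.succ) = coneS D m b (σ.comp (face m i)) := by
  ext t
  obtain ⟨⟨s, u⟩, rfl⟩ := joinMap_surjective m t
  change ((coneS D (m + 1) b σ (face (m + 1) i.succ (joinMap m (s, u))) : D.X) : E) = _
  rw [joinMap_face_succ, coneS_apply, coneS_apply]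
  rfl

/-- The straight simplex. -/
noncomputable def straight {m : ℕ} (v : Fin (m + 1) → D.X) : Sing D.X m :=
  ⟨fun t => ⟨∑ j, t j • (v j : E), D.convex.sum_mem (fun j _ => stdSimplex.zero_le t j)
      (stdSimplex.sum_eq_one t) (fun j _ => (v j).2)⟩, by
    refine Continuous.subtype_mk ?_ _
    refine continuous_finsetSum _ fun j _ => Continuous.smul ?_ continuous_const
    exact (continuous_apply j).comp continuous_subtype_val⟩

theorem straight_coe {m : ℕ} (v : Fin (m + 1) → D.X) (t : stdSimplex ℝ (Fin (m + 1))) :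
    (straight D v t : E) = ∑ j, t j • (v j : E) := rfl

theorem straight_face {m : ℕ} (v : Fin (m + 2) → D.X) (i : Fin (m + 2)) :
    (straight D v).comp (face m i) = straight D (fun j => v (i.succAbove j)) := by
  ext t
  change ((straight D v (face m i t) : D.X) : E) = _
  rw [straight_coe, sum_face, straight_coe]

/-- The vertices of a singular simplex. -/
noncomputable def vt {m : ℕ} (σ : Sing D.X m) : Fin (m + 1) → D.X :=
  fun j => σ (stdSimplex.vertex j)

theorem vt_face {m : ℕ} (σ : Sing D.X (m + 1)) (i : Fin (m + 2)) :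
    vt D (σ.comp (face m i)) = fun j => vt D σ (i.succAbove j) := by
  funext j
  unfold vt
  rw [ContinuousMap.comp_apply, face_vertex]

/-- The straightening of a singular simplex. -/
noncomputable def str {m : ℕ} (σ : Sing D.X m) : Sing D.X m := straight D (vt D σ)

theorem str_face {m : ℕ} (σ : Sing D.X (m + 1)) (i : Fin (m + 2)) :
    (str D σ).comp (face m i) = str D (σ.comp (face m i)) := by
  unfold str
  rw [straight_face, vt_face]

theorem str_zero (σ : Sing D.X 0) : str D σ = σ := by
  ext t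
  change ((straight D (vt D σ) t : D.X) : E) = σ t
  rw [straight_coe, Fin.sum_univ_one]
  have h : t = stdSimplex.vertex 0 := Subsingleton.elim _ _
  subst h
  have h1 : (stdSimplex.vertex (0 : Fin 1) : stdSimplex ℝ (Fin 1)) 0 = 1 := by simp
  rw [h1, one_smul]
  rfl

/-! ### The action on singular simplices -/

/-- Continuous maps of the domain that are affine. -/
def AffC (γ : C(D.X, D.X)) : Prop := ∃ g : E ≃ᵃ[ℝ] E, ∀ x : D.X, (γ x : E) = g x

theorem aff_comb (g : E ≃ᵃ[ℝ] E) (s : ℝ) (x y : E) :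
    g (s • x + (1 - s) • y) = s • g x + (1 - s) • g y := by
  have h1 : ∀ x, g x = g.linear x + g 0 := fun x => by
    have h := g.map_vadd 0 x
    simpa using h
  rw [h1 (s • x + (1 - s) • y), h1 x, h1 y, map_add, map_smul, map_smul]
  module

theorem aff_sum (g : E ≃ᵃ[ℝ] E) {m : ℕ} (t : stdSimplex ℝ (Fin (m + 1)))
    (v : Fin (m + 1) → E) : g (∑ j, t j • v j) = ∑ j, t j • g (v j) := by
  have h1 : ∀ x, g x = g.linear x + g 0 := fun x => by
    have h := g.map_vadd 0 x
    simpa using h
  rw [h1, map_sum]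
  simp_rw [map_smul]
  have h2 : ∀ j, t j • g (v j) = t j • g.linear (v j) + t j • g 0 := fun j => by
    rw [h1 (v j), smul_add]
  rw [Finset.sum_congr rfl fun j _ => h2 j, Finset.sum_add_distrib, ← Finset.sum_smul,
    stdSimplex.sum_eq_one, one_smul]

theorem coneS_comp (γ : C(D.X, D.X)) (hγ : AffC D γ) (m : ℕ) (b : D.X) (σ : Sing D.X m) :
    γ.comp (coneS D m b σ) = coneS D m (γ b) (γ.comp σ) := by
  obtain ⟨g, hg⟩ := hγ
  ext t
  obtain ⟨⟨s, u⟩, rfl⟩ := joinMap_surjective m t
  rw [coneS_apply, ContinuousMap.comp_apply, hg, coneS_apply, aff_comb, hg,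
    ContinuousMap.comp_apply, hg]

theorem str_comp (γ : C(D.X, D.X)) (hγ : AffC D γ) {m : ℕ} (σ : Sing D.X m) :
    γ.comp (str D σ) = str D (γ.comp σ) := by
  obtain ⟨g, hg⟩ := hγ
  ext t
  unfold str
  rw [ContinuousMap.comp_apply, hg, straight_coe, aff_sum, straight_coe]
  refine Finset.sum_congr rfl fun j _ => ?_
  unfold vt
  rw [ContinuousMap.comp_apply, hg]

/-! ### Linear versions -/

/-- The cone operator on chains. -/
noncomputable def coneL (m : ℕ) (b : D.X) : Chain D.X m →ₗ[ℝ] Chain D.X (m + 1) :=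
  Finsupp.lmapDomain ℝ ℝ (coneS D m b)

/-- Straightening of chains. -/
noncomputable def strL (m : ℕ) : Chain D.X m →ₗ[ℝ] Chain D.X m :=
  Finsupp.lmapDomain ℝ ℝ (str D)

/-- Push forward of chains. -/
noncomputable def pushL {X Y : Type*} [TopologicalSpace X] [TopologicalSpace Y] (γ : C(X, Y))
    (m : ℕ) : Chain X m →ₗ[ℝ] Chain Y m :=
  Finsupp.lmapDomain ℝ ℝ (fun σ => γ.comp σ)

theorem coneL_single (m : ℕ) (b : D.X) (σ : Sing D.X m) (a : ℝ) :
    coneL D m b (Finsupp.single σ a) = Finsupp.single (coneS D m b σ) a := by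
  rw [coneL, Finsupp.lmapDomain_apply, Finsupp.mapDomain_single]

theorem strL_single (m : ℕ) (σ : Sing D.X m) (a : ℝ) :
    strL D m (Finsupp.single σ a) = Finsupp.single (str D σ) a := by
  rw [strL, Finsupp.lmapDomain_apply, Finsupp.mapDomain_single]

theorem pushL_single {X Y : Type*} [TopologicalSpace X] [TopologicalSpace Y] (γ : C(X, Y))
    (m : ℕ) (σ : Sing X m) (a : ℝ) :
    pushL γ m (Finsupp.single σ a) = Finsupp.single (γ.comp σ) a := by
  rw [pushL, Finsupp.lmapDomain_apply, Finsupp.mapDomain_single]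

theorem bd_pushL {X Y : Type*} [TopologicalSpace X] [TopologicalSpace Y] (γ : C(X, Y))
    (m : ℕ) (c : Chain X (m + 1)) : bd Y m (pushL γ (m + 1) c) = pushL γ m (bd X m c) := by
  suffices h : (bd Y m).comp (pushL γ (m + 1)) = (pushL γ m).comp (bd X m) by
    exact LinearMap.congr_fun h c
  apply Finsupp.lhom_ext'
  intro σ
  apply LinearMap.ext_ring
  change bd Y m (pushL γ (m + 1) (Finsupp.single σ 1)) = pushL γ m (bd X m (Finsupp.single σ 1))
  rw [pushL_single, bd_single, bd_single, map_sum]
  refine Finset.sum_congr rfl fun i _ => ?_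
  rw [map_smul, pushL_single, ContinuousMap.comp_assoc]

theorem bd_strL (m : ℕ) (c : Chain D.X (m + 1)) :
    bd D.X m (strL D (m + 1) c) = strL D m (bd D.X m c) := by
  suffices h : (bd D.X m).comp (strL D (m + 1)) = (strL D m).comp (bd D.X m) by
    exact LinearMap.congr_fun h c
  apply Finsupp.lhom_ext'
  intro σ
  apply LinearMap.ext_ring
  change bd D.X m (strL D (m + 1) (Finsupp.single σ 1)) =
    strL D m (bd D.X m (Finsupp.single σ 1))
  rw [strL_single, bd_single, bd_single, map_sum]
  refine Finset.sum_congr rfl fun i _ => ?_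
  rw [map_smul, strL_single, str_face]

theorem bd_coneL (m : ℕ) (b : D.X) (c : Chain D.X (m + 1)) :
    bd D.X (m + 1) (coneL D (m + 1) b c) = c - coneL D m b (bd D.X m c) := by
  suffices h : (bd D.X (m + 1)).comp (coneL D (m + 1) b) =
      LinearMap.id - (coneL D m b).comp (bd D.X m) by
    exact LinearMap.congr_fun h c
  apply Finsupp.lhom_ext'
  intro σ
  apply LinearMap.ext_ring
  change bd D.X (m + 1) (coneL D (m + 1) b (Finsupp.single σ 1)) =
    Finsupp.single σ 1 - coneL D m b (bd D.X m (Finsupp.single σ 1))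
  rw [coneL_single, bd_single, bd_single, Fin.sum_univ_succ, coneS_face_zero, map_sum]
  rw [Fin.val_zero, pow_zero, one_smul, sub_eq_add_neg, ← Finset.sum_neg_distrib]
  congr 1
  refine Finset.sum_congr rfl fun i _ => ?_
  rw [coneS_face_succ, map_smul, coneL_single, Fin.val_succ, pow_succ, mul_neg_one, neg_smul]

theorem strL_zero (c : Chain D.X 0) : strL D 0 c = c := by
  suffices h : strL D 0 = LinearMap.id by
    exact LinearMap.congr_fun h c
  apply Finsupp.lhom_ext'
  intro σ
  apply LinearMap.ext_ring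
  change strL D 0 (Finsupp.single σ 1) = Finsupp.single σ 1
  rw [strL_single, str_zero]

/-! ### The straightening homotopy -/

/-- The homotopy between the straightening and the identity. -/
noncomputable def htpy : (m : ℕ) → Chain D.X m →ₗ[ℝ] Chain D.X (m + 1)
  | 0 => 0
  | m + 1 => Finsupp.linearCombination ℝ (fun σ : Sing D.X (m + 1) =>
      coneL D (m + 1) (σ (stdSimplex.vertex 0))
        (Finsupp.single (str D σ) 1 - Finsupp.single σ 1 -
          htpy m (bd D.X m (Finsupp.single σ 1))))

theorem htpy_single (m : ℕ) (σ : Sing D.X (m + 1)) :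
    htpy D (m + 1) (Finsupp.single σ 1) =
      coneL D (m + 1) (σ (stdSimplex.vertex 0))
        (Finsupp.single (str D σ) 1 - Finsupp.single σ 1 -
          htpy D m (bd D.X m (Finsupp.single σ 1))) := by
  rw [htpy, Finsupp.linearCombination_single, one_smul]

theorem bd_htpy : ∀ (m : ℕ) (c : Chain D.X (m + 1)),
    bd D.X (m + 1) (htpy D (m + 1) c) + htpy D m (bd D.X m c) = strL D (m + 1) c - c := by
  intro m
  induction m with
  | zero =>
    intro c
    suffices h : (bd D.X 1).comp (htpy D 1) + (htpy D 0).comp (bd D.X 0) =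
        strL D 1 - LinearMap.id by
      exact LinearMap.congr_fun h c
    apply Finsupp.lhom_ext'
    intro σ
    apply LinearMap.ext_ring
    change bd D.X 1 (htpy D 1 (Finsupp.single σ 1)) + htpy D 0 (bd D.X 0 (Finsupp.single σ 1)) =
      strL D 1 (Finsupp.single σ 1) - Finsupp.single σ 1
    have h0 : ∀ c, htpy D 0 c = 0 := fun c => rfl
    have hY : bd D.X 0 (Finsupp.single (str D σ) 1 - Finsupp.single σ 1 -
        htpy D 0 (bd D.X 0 (Finsupp.single σ 1))) = 0 := by
      rw [← strL_single, map_sub, map_sub, bd_strL, strL_zero, sub_self, h0, map_zero, sub_zero]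
    rw [htpy_single, bd_coneL, hY, map_zero, sub_zero, ← strL_single]
    abel
  | succ m ih =>
    intro c
    suffices h : (bd D.X (m + 2)).comp (htpy D (m + 2)) + (htpy D (m + 1)).comp (bd D.X (m + 1)) =
        strL D (m + 2) - LinearMap.id by
      exact LinearMap.congr_fun h c
    apply Finsupp.lhom_ext'
    intro σ
    apply LinearMap.ext_ring
    change bd D.X (m + 2) (htpy D (m + 2) (Finsupp.single σ 1)) +
      htpy D (m + 1) (bd D.X (m + 1) (Finsupp.single σ 1)) =
      strL D (m + 2) (Finsupp.single σ 1) - Finsupp.single σ 1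
    have h := ih (bd D.X (m + 1) (Finsupp.single σ 1))
    rw [bd_bd, map_zero, add_zero] at h
    have hY : bd D.X (m + 1) (Finsupp.single (str D σ) 1 - Finsupp.single σ 1 -
        htpy D (m + 1) (bd D.X (m + 1) (Finsupp.single σ 1))) = 0 := by
      rw [← strL_single, map_sub, map_sub, bd_strL, h, sub_self]
    rw [htpy_single, bd_coneL, hY, map_zero, sub_zero, ← strL_single]
    abel

theorem htpy_pushL (γ : C(D.X, D.X)) (hγ : AffC D γ) : ∀ (m : ℕ) (c : Chain D.X m),
    htpy D m (pushL γ m c) = pushL γ (m + 1) (htpy D m c) := by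
  intro m
  induction m with
  | zero =>
    intro c
    have h0 : ∀ c, htpy D 0 c = 0 := fun c => rfl
    rw [h0, h0, map_zero]
  | succ m ih =>
    intro c
    suffices h : (htpy D (m + 1)).comp (pushL γ (m + 1)) =
        (pushL γ (m + 2)).comp (htpy D (m + 1)) by
      exact LinearMap.congr_fun h c
    apply Finsupp.lhom_ext'
    intro σ
    apply LinearMap.ext_ring
    change htpy D (m + 1) (pushL γ (m + 1) (Finsupp.single σ 1)) =
      pushL γ (m + 2) (htpy D (m + 1) (Finsupp.single σ 1))
    rw [pushL_single, htpy_single, htpy_single, ← pushL_single, bd_pushL, ih,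
      ← str_comp D γ hγ, ← pushL_single, ← map_sub, ← map_sub]
    generalize (Finsupp.single (str D σ) (1 : ℝ) - Finsupp.single σ 1 -
      htpy D m (bd D.X m (Finsupp.single σ 1))) = c
    suffices h : (coneL D (m + 1) (γ.comp σ (stdSimplex.vertex 0))).comp (pushL γ (m + 1)) =
        (pushL γ (m + 2)).comp (coneL D (m + 1) (σ (stdSimplex.vertex 0))) by
      exact LinearMap.congr_fun h c
    apply Finsupp.lhom_ext'
    intro τ
    apply LinearMap.ext_ring
    change coneL D (m + 1) _ (pushL γ (m + 1) (Finsupp.single τ 1)) =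
      pushL γ (m + 2) (coneL D (m + 1) _ (Finsupp.single τ 1))
    rw [pushL_single, coneL_single, coneL_single, pushL_single, coneS_comp D γ hγ]
    rfl

end Geo


/-! ### Lifting singular simplices -/

instance instCt (m : ℕ) : ContractibleSpace (stdSimplex ℝ (Fin (m + 1))) :=
  (convex_stdSimplex ℝ (Fin (m + 1))).contractibleSpace ⟨_, single_mem_stdSimplex ℝ 0⟩

instance instLpc (m : ℕ) : LocallyPathConnectedSpace (stdSimplex ℝ (Fin (m + 1))) :=
  (convex_stdSimplex ℝ (Fin (m + 1))).locallyPathConnectedSpace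

section Cov

variable {E : Type*} [NormedAddCommGroup E] [NormedSpace ℝ E] [FiniteDimensional ℝ E] (D : Geo E)

theorem continuous_act (g : D.Γ) : Continuous (fun x : D.X => g • x) := by
  refine Continuous.subtype_mk ?_ _
  have h : Continuous (g.1 : E → E) := AffineEquiv.continuous_of_finiteDimensional g.1
  exact h.comp continuous_subtype_val

/-- The action by continuous maps. -/
def actC (g : D.Γ) : C(D.X, D.X) := ⟨fun x => g • x, continuous_act D g⟩

theorem actC_aff (g : D.Γ) : AffC D (actC D g) := ⟨g.1, fun _ => rfl⟩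

theorem isCoveringMap (π : D.X → M) (hπ : Topology.IsQuotientMap π)
    (hfib : ∀ x y : D.X, π x = π y ↔ ∃ g : D.Γ, g • x = y) : IsCoveringMap π := by
  have : ContinuousConstSMul D.Γ D.X := ⟨continuous_act D⟩
  have : ProperSpace E := FiniteDimensional.proper ℝ E
  have : LocallyCompactSpace D.X := D.isOpen.locallyCompactSpace
  have : IsCancelSMul D.Γ D.X := by
    refine isCancelSMul_iff_eq_one_of_smul_eq.2 ?_
    intro g x h
    apply Subtype.ext
    exact D.free g.1 g.2 x.1 x.2 (congrArg Subtype.val h)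
  have : ProperlyDiscontinuousSMul D.Γ D.X := by
    constructor
    intro K L hK hL
    have hKL : IsCompact (Subtype.val '' (K ∪ L) : Set E) :=
      (hK.union hL).image continuous_subtype_val
    have hfin := D.pd _ (by rintro _ ⟨x, _, rfl⟩; exact x.2) hKL
    refine Set.Finite.of_injOn (f := fun g : D.Γ => g.1) ?_ (Subtype.val_injective.injOn) hfin
    intro g hg
    refine ⟨g.2, ?_⟩
    obtain ⟨y, ⟨x, hx, hxy⟩, hy⟩ := hg
    refine ⟨x, ⟨x, Or.inl hx, rfl⟩, ⟨y, Or.inr hy, ?_⟩⟩
    rw [← hxy]
    rfl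
  refine (hπ.isQuotientCoveringMap_of_properlyDiscontinuousSMul (G := D.Γ) ?_).isCoveringMap
  intro x y
  rw [eq_comm, hfib]
  rfl

theorem exists_lift {π : D.X → M} (hc : IsCoveringMap π) (hs : Function.Surjective π) (m : ℕ)
    (σ : Sing M m) : ∃ τ : Sing D.X m, ∀ t, π (τ t) = σ t := by
  obtain ⟨e, he⟩ := hs (σ (stdSimplex.vertex 0))
  obtain ⟨F, ⟨_, hF⟩, _⟩ := hc.existsUnique_continuousMap_lifts σ (stdSimplex.vertex 0) e he
  exact ⟨F, fun t => congrFun hF t⟩

theorem lift_unique {π : D.X → M} (hc : IsCoveringMap π)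
    (hfib : ∀ x y : D.X, π x = π y ↔ ∃ g : D.Γ, g • x = y) (m : ℕ)
    (τ τ' : Sing D.X m) (h : ∀ t, π (τ t) = π (τ' t)) : ∃ g : D.Γ, (actC D g).comp τ = τ' := by
  obtain ⟨g, hg⟩ := (hfib _ _).1 (h (stdSimplex.vertex 0))
  refine ⟨g, ?_⟩
  let σ : Sing M m := ⟨fun t => π (τ' t), hc.continuous.comp τ'.continuous⟩
  obtain ⟨F, _, hu⟩ := hc.existsUnique_continuousMap_lifts σ (stdSimplex.vertex 0)
    (τ' (stdSimplex.vertex 0)) rfl
  have h1 : (actC D g).comp τ = F := by
    refine hu _ ⟨hg, ?_⟩
    funext t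
    change π (g • τ t) = π (τ' t)
    rw [← h t]
    exact ((hfib _ _).2 ⟨g, rfl⟩).symm
  have h2 : τ' = F := hu _ ⟨rfl, rfl⟩
  rw [h1, h2]

theorem straight_comp (γ : C(D.X, D.X)) (hγ : AffC D γ) {m : ℕ} (v : Fin (m + 1) → D.X) :
    γ.comp (straight D v) = straight D (fun j => γ (v j)) := by
  obtain ⟨g, hg⟩ := hγ
  ext t
  rw [ContinuousMap.comp_apply, hg, straight_coe, aff_sum, straight_coe]
  exact Finset.sum_congr rfl fun j _ => by rw [hg]

/-- Vertices of chains. -/
noncomputable def vL (m : ℕ) : Chain D.X m →ₗ[ℝ] L D.X :=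
  Finsupp.lmapDomain ℝ ℝ (fun τ => List.ofFn (vt D τ))

theorem vL_single (m : ℕ) (σ : Sing D.X m) (a : ℝ) :
    vL D m (Finsupp.single σ a) = Finsupp.single (List.ofFn (vt D σ)) a := by
  rw [vL, Finsupp.lmapDomain_apply, Finsupp.mapDomain_single]

theorem pair_single {B : Type*} (β : List B → ℝ) (l : List B) (a : ℝ) :
    pair β (Finsupp.single l a) = a * β l := by
  rw [pair, Finsupp.linearCombination_single, smul_eq_mul]

theorem pair_cob_vL (m : ℕ) (α : List D.X → ℝ) (c : Chain D.X (m + 1)) :
    pair (cob α) (vL D (m + 1) c) = pair α (vL D m (bd D.X m c)) := by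
  suffices h : (pair (cob α)).comp (vL D (m + 1)) =
      (pair α).comp ((vL D m).comp (bd D.X m)) by
    exact LinearMap.congr_fun h c
  apply Finsupp.lhom_ext'
  intro σ
  apply LinearMap.ext_ring
  change pair (cob α) (vL D (m + 1) (Finsupp.single σ 1)) =
    pair α (vL D m (bd D.X m (Finsupp.single σ 1)))
  rw [vL_single, bd_single, pair_single, one_mul, cob, dl_ofFn, map_sum, map_sum, map_sum]
  refine Finset.sum_congr rfl fun i _ => ?_
  rw [map_smul, map_smul, map_smul, vL_single, vt_face]

theorem desc {π : D.X → M} (hc : IsCoveringMap π)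
    (hfib : ∀ x y : D.X, π x = π y ↔ ∃ g : D.Γ, g • x = y)
    (lft : (m : ℕ) → Sing M m → Sing D.X m) (hlft : ∀ m σ t, π (lft m σ t) = σ t)
    (q : ℕ) (F : Chain D.X q →ₗ[ℝ] ℝ)
    (hF : ∀ (g : D.Γ) (τ : Sing D.X q), F (Finsupp.single ((actC D g).comp τ) 1) =
      F (Finsupp.single τ 1)) (z : Chain M (q + 1)) (hz : bd M q z = 0) :
    F (bd D.X q (Finsupp.lmapDomain ℝ ℝ (lft (q + 1)) z)) = 0 := by
  have h : F.comp ((bd D.X q).comp (Finsupp.lmapDomain ℝ ℝ (lft (q + 1)))) =
      (F.comp (Finsupp.lmapDomain ℝ ℝ (lft q))).comp (bd M q) := by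
    apply Finsupp.lhom_ext'
    intro σ
    apply LinearMap.ext_ring
    change F (bd D.X q (Finsupp.lmapDomain ℝ ℝ (lft (q + 1)) (Finsupp.single σ 1))) =
      F (Finsupp.lmapDomain ℝ ℝ (lft q) (bd M q (Finsupp.single σ 1)))
    rw [Finsupp.lmapDomain_apply, Finsupp.mapDomain_single, bd_single, bd_single, map_sum,
      map_sum, map_sum]
    refine Finset.sum_congr rfl fun i _ => ?_
    rw [map_smul, map_smul, map_smul, Finsupp.lmapDomain_apply, Finsupp.mapDomain_single]
    congr 1
    obtain ⟨g, hg⟩ := lift_unique D hc hfib q (lft q (σ.comp (face q i)))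
      ((lft (q + 1) σ).comp (face q i)) (fun t => by
        rw [hlft, ContinuousMap.comp_apply, ContinuousMap.comp_apply, hlft])
    rw [← hg, hF]
  have h2 := LinearMap.congr_fun h z
  change F (bd D.X q (Finsupp.lmapDomain ℝ ℝ (lft (q + 1)) z)) =
    F (Finsupp.lmapDomain ℝ ℝ (lft q) (bd M q z)) at h2
  rw [h2, hz, map_zero, map_zero]

theorem main (hV : Vanish D) (π : D.X → M)
    (hπ : Topology.IsQuotientMap π) (hfib : ∀ x y : D.X, π x = π y ↔ ∃ g : D.Γ, g • x = y)
    (q : ℕ) (hq : Module.finrank ℝ E = q + 1) (z : Chain M (q + 1)) (hz : bd M q z = 0)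
    (ε : ℝ) (hε : 0 < ε) : ∃ b : Chain M (q + 2), nrm (z + bd M (q + 1) b) < ε := by
  by_contra hcon
  push Not at hcon
  obtain ⟨ζ, hζb, hζz, hζ1⟩ := exists_functional q z ε hε hcon
  have hc := isCoveringMap D π hπ hfib
  have hs := hπ.surjective
  let P : C(D.X, M) := ⟨π, hπ.continuous⟩
  have hPg : ∀ g : D.Γ, P.comp (actC D g) = P := by
    intro g
    ext x
    exact ((hfib _ _).2 ⟨g, rfl⟩).symm
  choose lft hlft using fun (m : ℕ) (σ : Sing M m) => exists_lift D hc hs m σ
  have hPl : ∀ m (σ : Sing M m), P.comp (lft m σ) = σ := fun m σ => by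
    ext t
    exact hlft m σ t
  -- the cochain
  let β : List D.X → ℝ := fun l =>
    if h : l.length = q + 2 then
      ζ (Finsupp.single (P.comp (straight D (fun j : Fin (q + 2) => l.get (j.cast h.symm)))) 1)
    else 0
  have hβ1 : ∀ v : Fin (q + 2) → D.X,
      β (List.ofFn v) = ζ (Finsupp.single (P.comp (straight D v)) 1) := by
    intro v
    have h : (List.ofFn v).length = q + 2 := List.length_ofFn
    simp only [β]
    rw [dif_pos h]
    congr 4
    funext j
    rw [List.get_ofFn]
    congr 1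
  have hβ2 : ∀ l : List D.X, l.length ≠ q + 2 → β l = 0 := by
    intro l h
    simp only [β]
    rw [dif_neg h]
  have hofFn : ∀ (n : ℕ) (l : List D.X), l.length = n → ∃ v : Fin n → D.X, l = List.ofFn v := by
    intro n l hl
    subst hl
    exact ⟨l.get, (List.ofFn_get l).symm⟩
  have hBdd : Bdd β := by
    refine ⟨1, fun l => ?_⟩
    by_cases h : l.length = q + 2
    · obtain ⟨v, rfl⟩ := hofFn _ l h
      rw [hβ1]
      exact hζ1 _
    · rw [hβ2 l h, abs_zero]
      exact zero_le_one
  have hInv : Inv D.Γ β := by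
    intro g l
    by_cases h : l.length = q + 2
    · obtain ⟨v, rfl⟩ := hofFn _ l h
      rw [List.map_ofFn, hβ1, hβ1]
      have h1 := straight_comp D (actC D g) (actC_aff D g) v
      change ζ (Finsupp.single (P.comp (straight D (fun j => actC D g (v j)))) 1) = _
      rw [← h1, ← ContinuousMap.comp_assoc, hPg]
    · rw [hβ2 l h, hβ2]
      rw [List.length_map]
      exact h
  have hcob : cob β = 0 := by
    funext l
    rw [Pi.zero_apply]
    cases hl : l.length with
    | zero =>
      rw [List.length_eq_zero_iff] at hl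
      subst hl
      rw [cob, dl, map_zero]
    | succ n =>
      obtain ⟨v, rfl⟩ := hofFn _ l hl
      rw [cob, dl_ofFn, map_sum]
      by_cases hn : n = q + 2
      · subst hn
        have h1 := hζb (Finsupp.single (P.comp (straight D v)) 1)
        rw [bd_single, map_sum] at h1
        rw [← h1]
        refine Finset.sum_congr rfl fun i _ => ?_
        rw [map_smul, map_smul, pair_single, one_mul, hβ1, ContinuousMap.comp_assoc,
          straight_face]
      · refine Finset.sum_eq_zero fun i _ => ?_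
        rw [map_smul, pair_single, hβ2, mul_zero, smul_zero]
        rw [List.length_ofFn]
        exact hn
  -- the lifted chain
  set c : Chain D.X (q + 1) := Finsupp.lmapDomain ℝ ℝ (lft (q + 1)) z with hcdef
  have hCyc : Cyc D.Γ (vL D (q + 1) c) := by
    intro α hα
    rw [pair_cob_vL]
    refine desc D hc hfib lft hlft q ((pair α).comp (vL D q)) ?_ z hz
    intro g τ
    rw [LinearMap.comp_apply, LinearMap.comp_apply, vL_single, vL_single, pair_single,
      pair_single, one_mul, one_mul, ← hα g (List.ofFn (vt D τ)), List.map_ofFn]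
    rfl
  have hsupp : ∀ l ∈ (vL D (q + 1) c).support, l.length = Module.finrank ℝ E + 1 := by
    classical
    intro l hl
    have h1 := Finsupp.mapDomain_support hl
    rw [Finset.mem_image] at h1
    obtain ⟨τ, _, rfl⟩ := h1
    rw [List.length_ofFn, hq]
  have h0 := hV β hBdd hInv hcob (vL D (q + 1) c) hCyc hsupp
  -- evaluation
  have h1 : pair β (vL D (q + 1) c) = ζ (pushL P (q + 1) (strL D (q + 1) c)) := by
    suffices h : (pair β).comp (vL D (q + 1)) =
        ζ.comp ((pushL P (q + 1)).comp (strL D (q + 1))) by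
      exact LinearMap.congr_fun h c
    apply Finsupp.lhom_ext'
    intro σ
    apply LinearMap.ext_ring
    change pair β (vL D (q + 1) (Finsupp.single σ 1)) =
      ζ (pushL P (q + 1) (strL D (q + 1) (Finsupp.single σ 1)))
    rw [vL_single, strL_single, pushL_single, pair_single, one_mul, hβ1]
    rfl
  have h2 : pushL P (q + 1) c = z := by
    suffices h : (pushL P (q + 1)).comp (Finsupp.lmapDomain ℝ ℝ (lft (q + 1))) =
        LinearMap.id by
      exact LinearMap.congr_fun h z
    apply Finsupp.lhom_ext'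
    intro σ
    apply LinearMap.ext_ring
    change pushL P (q + 1) (Finsupp.lmapDomain ℝ ℝ (lft (q + 1)) (Finsupp.single σ 1)) =
      Finsupp.single σ 1
    rw [Finsupp.lmapDomain_apply, Finsupp.mapDomain_single, pushL_single, hPl]
  have h3 : ζ (pushL P (q + 1) (htpy D q (bd D.X q c))) = 0 := by
    refine desc D hc hfib lft hlft q (ζ.comp ((pushL P (q + 1)).comp (htpy D q))) ?_ z hz
    intro g τ
    change ζ (pushL P (q + 1) (htpy D q (Finsupp.single ((actC D g).comp τ) 1))) =
      ζ (pushL P (q + 1) (htpy D q (Finsupp.single τ 1)))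
    rw [← pushL_single, htpy_pushL D _ (actC_aff D g)]
    generalize htpy D q (Finsupp.single τ 1) = e
    congr 1
    suffices h : (pushL P (q + 1)).comp (pushL (actC D g) (q + 1)) = pushL P (q + 1) by
      exact LinearMap.congr_fun h e
    apply Finsupp.lhom_ext'
    intro σ
    apply LinearMap.ext_ring
    change pushL P (q + 1) (pushL (actC D g) (q + 1) (Finsupp.single σ 1)) =
      pushL P (q + 1) (Finsupp.single σ 1)
    rw [pushL_single, pushL_single, pushL_single, ← ContinuousMap.comp_assoc, hPg]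
  have h4 := congrArg (fun e => ζ (pushL P (q + 1) e)) (bd_htpy D q c)
  simp only [map_add, map_sub] at h4
  rw [← bd_pushL, hζb, h3, ← h1, h0, h2, hζz] at h4
  linarith

end Cov

end SingAux

section Geometry

variable {E : Type*} [NormedAddCommGroup E] [NormedSpace ℝ E] [FiniteDimensional ℝ E]

theorem of_vanish (D : Geo E) (hV : Vanish D) (M : Type*) [TopologicalSpace M] (π : D.X → M)
    (hπ : Topology.IsQuotientMap π) (hfib : ∀ x y : D.X, π x = π y ↔ ∃ g : D.Γ, g • x = y)
    (q : ℕ) (hq : Module.finrank ℝ E = q + 1) (z : Chain M (q + 1)) (hz : bd M q z = 0)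
    (ε : ℝ) (hε : 0 < ε) : ∃ b : Chain M (q + 2), nrm (z + bd M (q + 1) b) < ε :=
  SingAux.main D hV π hπ hfib q hq z hz ε hε

end Geometry

end Pool.SV
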