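import Pool.Agent.Helper84.SV.Hat

set_option autoImplicit false

open Set Finset

namespace Pool.SV

namespace Spline

open MeasureTheory intervalIntegral

variable {E : Type*} [NormedAddCommGroup E] [NormedSpace ℝ E] [FiniteDimensional ℝ E]

/-- the flow -/
noncomputable def G (T : Alg E) (t : ℝ) : Alg E := NormedSpace.exp (t • T)

omit [FiniteDimensional ℝ E] in
theorem G_zero (T : Alg E) : G T 0 = 1 := by
  unfold G
  rw [zero_smul, NormedSpace.exp_zero]

theorem G_add (T : Alg E) (s t : ℝ) : G T (s + t) = G T s * G T t := by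
  unfold G
  rw [add_smul, NormedSpace.exp_add_of_commute]
  exact ((Commute.refl T).smul_left s).smul_right t

theorem G_comm (T : Alg E) (s t : ℝ) : G T s * G T t = G T t * G T s := by
  rw [← G_add, ← G_add, add_comm]

omit [FiniteDimensional ℝ E] in
theorem G_commute (T : Alg E) (t : ℝ) : Commute T (G T t) := by
  unfold G
  exact ((Commute.refl T).smul_right t).exp_right

theorem hasDerivAt_G (T : Alg E) (t : ℝ) : HasDerivAt (G T) (T * G T t) t :=
  hasDerivAt_exp_smul_const' T t

theorem continuous_G (T : Alg E) : Continuous (G T) :=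
  continuous_iff_continuousAt.2 fun t => (hasDerivAt_G T t).continuousAt

theorem hasDerivAt_G_apply (T : Alg E) (t : ℝ) (x : E × ℝ) :
    HasDerivAt (fun s => G T s x) (G T t (T x)) t := by
  have h := (hasDerivAt_G T t)
  have h2 := (ContinuousLinearMap.apply ℝ (E × ℝ) x).hasFDerivAt.comp_hasDerivAt t h
  have h3 : (ContinuousLinearMap.apply ℝ (E × ℝ) x) (T * G T t) = G T t (T x) := by
    rw [(G_commute T t).eq]
    rfl
  rw [h3] at h2
  exact h2

theorem continuous_G_apply (T : Alg E) (x : E × ℝ) : Continuous (fun s => G T s x) :=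
  continuous_iff_continuousAt.2 fun t => (hasDerivAt_G_apply T t x).continuousAt

/-- vectors killed by `T` are fixed by the flow -/
theorem G_fix {T : Alg E} {x : E × ℝ} (hx : T x = 0) (t : ℝ) : G T t x = x := by
  have h : ∀ s, HasDerivAt (fun s => G T s x) 0 s := by
    intro s
    have := hasDerivAt_G_apply T s x
    rwa [hx, map_zero] at this
  have h2 := is_const_of_deriv_eq_zero (fun s => (h s).differentiableAt)
    (fun s => (h s).deriv) t 0
  simp only [G_zero] at h2
  exact h2

theorem integral_G_apply (T : Alg E) (x : E × ℝ) (a b : ℝ) :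
    ∫ s in a..b, G T s (T x) = G T b x - G T a x :=
  integral_eq_sub_of_hasDerivAt (fun s _ => hasDerivAt_G_apply T s x)
    ((continuous_G_apply T (T x)).intervalIntegrable a b)

/-- the averages -/
noncomputable def P (T : Alg E) (v : E × ℝ) : ℕ → ℝ → E × ℝ
  | 0 => fun t => G T (⌊t⌋ : ℝ) v
  | k + 1 => fun t => ∫ s in (t - 1)..t, P T v k s

variable (T : Alg E) (v : E × ℝ)

omit [FiniteDimensional ℝ E] in
theorem P_int (k : ℕ) : ∀ a b, IntervalIntegrable (P T v k) volume a b := by
  induction k with
  | zero =>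
    intro a b
    have hm : StronglyMeasurable (P T v 0) := by
      have h1 : StronglyMeasurable (fun m : ℤ => G T (m : ℝ) v) :=
        StronglyMeasurable.of_discrete
      exact h1.comp_measurable Int.measurable_floor
    obtain ⟨C, hC⟩ : ∃ C : ℝ, ∀ s ∈ uIoc a b, ‖P T v 0 s‖ ≤ C := by
      obtain ⟨C, hC⟩ := ((Set.finite_Icc (⌊min a b⌋) (⌊max a b⌋)).image
        (fun m : ℤ => ‖G T (m : ℝ) v‖)).bddAbove
      refine ⟨C, fun s hs => hC ?_⟩
      have hs : s ∈ Set.Ioc (min a b) (max a b) := hs
      refine ⟨⌊s⌋, ⟨?_, ?_⟩, rfl⟩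
      · exact Int.floor_le_floor hs.1.le
      · exact Int.floor_le_floor hs.2
    rw [intervalIntegrable_iff]
    apply Measure.integrableOn_of_bounded (M := C) measure_Ioc_lt_top.ne hm.aestronglyMeasurable
    filter_upwards [ae_restrict_mem measurableSet_uIoc] with s hs using hC s hs
  | succ k ih =>
    intro a b
    apply Continuous.intervalIntegrable
    have h1 : P T v (k + 1) = fun t => (∫ s in (0 : ℝ)..t, P T v k s) -
        ∫ s in (0 : ℝ)..(t - 1), P T v k s := by
      funext t
      change (∫ s in (t - 1)..t, P T v k s) = _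
      rw [integral_interval_sub_left (ih _ _) (ih _ _)]
    rw [h1]
    exact (continuous_primitive ih 0).sub ((continuous_primitive ih 0).comp
      (continuous_id.sub continuous_const))

theorem P_shift (k : ℕ) : ∀ t, P T v k (t + 1) = G T 1 (P T v k t) := by
  induction k with
  | zero =>
    intro t
    change G T ((⌊t + 1⌋ : ℤ) : ℝ) v = G T 1 (G T (⌊t⌋ : ℝ) v)
    rw [Int.floor_add_one, Int.cast_add, Int.cast_one, add_comm, G_add]
    rfl
  | succ k ih =>
    intro t
    change (∫ s in (t + 1 - 1)..(t + 1), P T v k s) = G T 1 (∫ s in (t - 1)..t, P T v k s)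
    rw [← ContinuousLinearMap.intervalIntegral_comp_comm _ (P_int T v k _ _)]
    rw [← intervalIntegral.integral_congr (fun s _ => ih s)]
    rw [integral_comp_add_right (fun s => P T v k s) 1]
    congr 1
    ring

theorem P_mem (C : Set (E × ℝ)) (hC : Convex ℝ C) (hv : ∀ m : ℤ, G T (m : ℝ) v ∈ C) (k : ℕ)
    (t : ℝ) : P T v k t ∈ C := by
  -- a finite hull
  have key : ∀ (M : ℤ) (k : ℕ) (t : ℝ), |t| + k ≤ M → P T v k t ∈
      convexHull ℝ ((fun m : ℤ => G T (m : ℝ) v) '' Set.Icc (-M - 1) M) := by
    intro M k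
    induction k with
    | zero =>
      intro t ht
      apply subset_convexHull
      refine ⟨⌊t⌋, ⟨?_, ?_⟩, rfl⟩
      · rw [Int.le_floor]
        have := neg_abs_le t
        push_cast at ht ⊢
        linarith
      · rw [← Int.lt_add_one_iff, Int.floor_lt]
        have := le_abs_self t
        push_cast at ht ⊢
        linarith
    | succ k ih =>
      intro t ht
      change (∫ s in (t - 1)..t, P T v k s) ∈ _
      rw [integral_of_le (by linarith)]
      have hprob : IsProbabilityMeasure (volume.restrict (Set.Ioc (t - 1) t)) := by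
        constructor
        rw [Measure.restrict_apply_univ, Real.volume_Ioc]
        simp
      refine Convex.integral_mem (convex_convexHull ℝ _) ?_ ?_ ?_
      · exact (((Set.finite_Icc (-M - 1) M).image _).isCompact_convexHull ℝ).isClosed
      · filter_upwards [ae_restrict_mem measurableSet_Ioc] with s hs
        apply ih
        push_cast at ht
        have h1 : |s| ≤ |t| + 1 := by
          rw [abs_le]
          have h2 := neg_abs_le t
          have h3 := le_abs_self t
          constructor
          · linarith [hs.1]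
          · linarith [hs.2]
        linarith
      · have := P_int T v k (t - 1) t
        rw [intervalIntegrable_iff_integrableOn_Ioc_of_le (by linarith)] at this
        exact this
  obtain ⟨M, hM⟩ := exists_int_gt (|t| + k)
  refine (convexHull_min ?_ hC) (key M k t hM.le)
  rintro _ ⟨m, _, rfl⟩
  exact hv m

omit [FiniteDimensional ℝ E] in
theorem T_pow_comm (e : ℕ) (t : ℝ) (x : E × ℝ) : (T ^ e) (G T t x) = G T t ((T ^ e) x) := by
  have h : Commute (T ^ e) (G T t) := (G_commute T t).pow_left e
  exact congrArg (fun U : Alg E => U x) h.eq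

theorem T_int_pow (e k : ℕ) (t : ℝ) : (T ^ e) (P T v (k + 1) t) =
    ∫ s in (t - 1)..t, (T ^ e) (P T v k s) := by
  change (T ^ e) (∫ s in (t - 1)..t, P T v k s) = _
  rw [ContinuousLinearMap.intervalIntegral_comp_comm _ (P_int T v k _ _)]

theorem G_int (c : E × ℝ) (s : ℝ) :
    ∫ r in (-1 : ℝ)..0, G T r (G T s c) = G T s (∫ r in (-1 : ℝ)..0, G T r c) := by
  rw [← ContinuousLinearMap.intervalIntegral_comp_comm _
    ((continuous_G_apply T c).intervalIntegrable _ _)]
  apply intervalIntegral.integral_congr
  intro r _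
  exact congrArg (fun U : Alg E => U c) (G_comm T r s)

/-- the inductive step -/
theorem step (e k : ℕ)
    (H : ∀ s, (T ^ (e + 1)) (P T v k s) = G T s ((T ^ (e + 1)) (P T v k 0))) (t : ℝ) :
    (T ^ e) (P T v (k + 1) t) = G T t ((T ^ e) (P T v (k + 1) 0)) := by
  set c := (T ^ (e + 1)) (P T v k 0) with hc
  set b := P T v (k + 1) 0 with hb
  have hTpow : ∀ x : E × ℝ, T ((T ^ e) x) = (T ^ (e + 1)) x := by
    intro x
    rw [pow_succ']
    rfl
  have hTpow' : ∀ x : E × ℝ, (T ^ e) (T x) = (T ^ (e + 1)) x := by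
    intro x
    rw [pow_succ]
    rfl
  -- 1
  have h1 : (T ^ (e + 1)) b = ∫ s in (-1 : ℝ)..0, G T s c := by
    rw [hb, T_int_pow]
    have : (0 : ℝ) - 1 = -1 := by norm_num
    rw [this]
    exact intervalIntegral.integral_congr (fun s _ => H s)
  -- 2
  have h2 : ∀ s, (T ^ e) (P T v k s - P T v k (s - 1)) = G T s ((T ^ (e + 1)) b) := by
    intro s
    have e1 : P T v k (s - 1) = G T (-1) (P T v k s) := by
      have h := P_shift T v k (s - 1)
      rw [sub_add_cancel] at h
      rw [h]
      have h' : G T (-1) (G T 1 (P T v k (s - 1))) = (G T (-1) * G T 1) (P T v k (s - 1)) := rfl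
      rw [h', ← G_add]
      norm_num
      rw [G_zero]
      rfl
    have e2 := integral_G_apply T (P T v k s) (-1) 0
    rw [e1]
    have e3 : P T v k s = G T 0 (P T v k s) := by rw [G_zero]; rfl
    nth_rewrite 1 [e3]
    rw [← e2, ← ContinuousLinearMap.intervalIntegral_comp_comm _
      ((continuous_G_apply T _).intervalIntegrable _ _)]
    rw [h1, ← G_int]
    apply intervalIntegral.integral_congr
    intro r _
    change (T ^ e) (G T r (T (P T v k s))) = G T r (G T s c)
    rw [T_pow_comm, hTpow', H s]
  -- 3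
  have h3 : P T v (k + 1) t - b = ∫ s in (0 : ℝ)..t, (P T v k s - P T v k (s - 1)) := by
    have i1 : ∀ a b, IntervalIntegrable (fun s => P T v k (s - 1)) volume a b := by
      intro a b
      have := (P_int T v k (a - 1) (b - 1)).comp_sub_right 1
      simpa using this
    rw [intervalIntegral.integral_sub (P_int T v k _ _) (i1 _ _),
      integral_comp_sub_right (fun s => P T v k s) 1]
    change (∫ s in (t - 1)..t, P T v k s) - (∫ s in ((0 : ℝ) - 1)..0, P T v k s) = _
    rw [← integral_add_adjacent_intervals (P_int T v k (t - 1) 0) (P_int T v k 0 t),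
      ← integral_add_adjacent_intervals (P_int T v k (0 - 1) 0) (P_int T v k 0 (t - 1)),
      integral_symm (t - 1) 0]
    abel
  -- 4
  have h4 : (T ^ e) (P T v (k + 1) t - b) = G T t ((T ^ e) b) - (T ^ e) b := by
    rw [h3, ← ContinuousLinearMap.intervalIntegral_comp_comm]
    · rw [intervalIntegral.integral_congr (fun s _ => h2 s)]
      have := integral_G_apply T ((T ^ e) b) 0 t
      rw [hTpow, G_zero] at this
      exact this
    · have i1 : IntervalIntegrable (fun s => P T v k (s - 1)) volume 0 t := by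
        have := (P_int T v k (0 - 1) (t - 1)).comp_sub_right 1
        simpa using this
      exact (P_int T v k _ _).sub i1
  rw [map_sub] at h4
  exact sub_left_injective h4

/-- one variable -/
theorem one_var (hT : IsNilpotent T) (C : Set (E × ℝ)) (hC : Convex ℝ C)
    (hv : ∀ m : ℤ, G T (m : ℝ) v ∈ C) : ∃ y : E × ℝ, ∀ t, G T t y ∈ C := by
  obtain ⟨n, hn⟩ := hT
  have hn1 : T ^ (n + 1) = 0 := by rw [pow_succ, hn, zero_mul]
  have key : ∀ k ≤ n, ∀ s, (T ^ (n - k)) (P T v k s) = G T s ((T ^ (n - k)) (P T v k 0)) := by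
    intro k
    induction k with
    | zero =>
      intro _ s
      rw [Nat.sub_zero, hn]
      simp
    | succ k ih =>
      intro hk s
      have e1 : n - k = (n - (k + 1)) + 1 := by omega
      have := ih (by omega)
      rw [e1] at this
      exact step T v _ k this s
  refine ⟨P T v n 0, fun t => ?_⟩
  have := key n le_rfl t
  rw [Nat.sub_self, pow_zero] at this
  have h2 : P T v n t = G T t (P T v n 0) := this
  rw [← h2]
  exact P_mem T v C hC hv n t

section several

variable {k : ℕ} (T : Fin k → Alg E)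

/-- the generator with coordinates `s` -/
noncomputable def S (s : Fin k → ℝ) : Alg E := ∑ i, s i • T i

omit [FiniteDimensional ℝ E] in
theorem S_add (s s' : Fin k → ℝ) : S T (s + s') = S T s + S T s' := by
  unfold S
  rw [← Finset.sum_add_distrib]
  apply Finset.sum_congr rfl
  intro i _
  rw [Pi.add_apply, add_smul]

omit [FiniteDimensional ℝ E] in
theorem S_single (j : Fin k) (t : ℝ) : S T (Pi.single j t) = t • T j := by
  unfold S
  rw [Finset.sum_eq_single j]
  · rw [Pi.single_eq_same]
  · intro i _ hi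
    rw [Pi.single_eq_of_ne hi, zero_smul]
  · intro h; exact absurd (Finset.mem_univ _) h

omit [FiniteDimensional ℝ E] in
theorem S_commute (hcomm : ∀ i i', Commute (T i) (T i')) (s s' : Fin k → ℝ) :
    Commute (S T s) (S T s') := by
  unfold S
  apply Commute.sum_left
  intro i _
  apply Commute.sum_right
  intro j _
  exact ((hcomm i j).smul_left _).smul_right _

theorem act_add (hcomm : ∀ i i', Commute (T i) (T i')) (hT : ∀ i v, (T i v).2 = 0)
    (s s' : Fin k → ℝ) (x : E) : act (NormedSpace.exp (S T (s + s'))) x =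
      act (NormedSpace.exp (S T s)) (act (NormedSpace.exp (S T s')) x) := by
  have h : IsAff (NormedSpace.exp (S T s')) := isAff_exp (isGen_sum hT s')
  rw [S_add, NormedSpace.exp_add_of_commute (S_commute T hcomm s s'), act_mul h]

/-- points whose orbit stays in `X` when the first `j` coordinates are real, the others
integral -/
def XX (X : Set E) (j : ℕ) : Set E :=
  {y | ∀ s : Fin k → ℝ, (∀ i : Fin k, j ≤ (i : ℕ) → ∃ m : ℤ, s i = m) →
    act (NormedSpace.exp (S T s)) y ∈ X}

omit [FiniteDimensional ℝ E] in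
theorem XX_convex (X : Set E) (hX : Convex ℝ X) (j : ℕ) : Convex ℝ (XX T X j) := by
  intro x hx y hy a b ha hb hab s hs
  rw [act_convex x y a b hab]
  exact hX (hx s hs) (hy s hs) ha hb hab

theorem XX_nonempty (X : Set E) (hX : Convex ℝ X) (hne : X.Nonempty)
    (hcomm : ∀ i i', Commute (T i) (T i')) (hnil : ∀ i, IsNilpotent (T i))
    (hT : ∀ i v, (T i v).2 = 0)
    (hinv : ∀ m : Fin k → ℤ, ∀ x ∈ X, act (NormedSpace.exp (∑ i, (m i : ℝ) • T i)) x ∈ X)
    (j : ℕ) (hj : j ≤ k) : (XX T X j).Nonempty := by
  induction j with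
  | zero =>
    obtain ⟨x, hx⟩ := hne
    refine ⟨x, ?_⟩
    intro s hs
    have h1 : ∀ i, ∃ m : ℤ, s i = m := fun i => hs i (Nat.zero_le _)
    choose m hm using h1
    have h2 : S T s = ∑ i, (m i : ℝ) • T i := by
      unfold S
      exact Finset.sum_congr rfl (fun i _ => by rw [hm])
    rw [h2]
    exact hinv m x hx
  | succ j ih =>
    obtain ⟨x, hx⟩ := ih (by omega)
    let j' : Fin k := ⟨j, by omega⟩
    let C : Set (E × ℝ) := {p | p.1 ∈ XX T X j ∧ p.2 = 1}
    have hC : Convex ℝ C := by
      intro p hp q hq a b ha hb hab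
      refine ⟨XX_convex T X hX j hp.1 hq.1 ha hb hab, ?_⟩
      change a * p.2 + b * q.2 = 1
      rw [hp.2, hq.2, mul_one, mul_one, hab]
    have haff : ∀ t, IsAff (G (T j') t) := by
      intro t
      exact isAff_exp (IsGen.smul (fun v => hT j' v) t)
    have hv : ∀ m : ℤ, G (T j') (m : ℝ) (x, 1) ∈ C := by
      intro m
      refine ⟨?_, haff _ _⟩
      intro s hs
      have h1 : (G (T j') (m : ℝ) (x, 1)).1 = act (NormedSpace.exp (S T (Pi.single j' (m : ℝ)))) x := by
        rw [S_single]; rfl
      rw [h1, ← act_add T hcomm hT]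
      apply hx
      intro i hi
      obtain ⟨n, hn⟩ := hs i hi
      by_cases hij : i = j'
      · subst hij
        exact ⟨n + m, by rw [Pi.add_apply, Pi.single_eq_same, hn]; push_cast; rfl⟩
      · exact ⟨n, by rw [Pi.add_apply, Pi.single_eq_of_ne hij, hn, add_zero]⟩
    obtain ⟨y, hy⟩ := one_var (T j') (x, 1) (hnil j') C hC hv
    have hy0 : y = (y.1, 1) := by
      have := hy 0
      rw [G_zero] at this
      ext
      · rfl
      · exact this.2
    refine ⟨y.1, ?_⟩
    intro s hs
    have h1 : s = (fun i => if i = j' then 0 else s i) + Pi.single j' (s j') := by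
      funext i
      rw [Pi.add_apply]
      by_cases hij : i = j'
      · subst hij
        rw [Pi.single_eq_same, if_pos rfl, zero_add]
      · rw [Pi.single_eq_of_ne hij, if_neg hij, add_zero]
    rw [h1, act_add T hcomm hT]
    have h2 : act (NormedSpace.exp (S T (Pi.single j' (s j')))) y.1 ∈ XX T X j := by
      rw [S_single]
      have h3 := (hy (s j')).1
      rw [hy0] at h3
      exact h3
    apply h2
    intro i hi
    by_cases hij : i = j'
    · exact ⟨0, by rw [if_pos hij]; simp⟩
    · have hi2 : j + 1 ≤ (i : ℕ) := by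
        have : (i : ℕ) ≠ j := fun h => hij (Fin.ext h)
        omega
      obtain ⟨m, hm⟩ := hs i hi2
      exact ⟨m, by rw [if_neg hij, hm]⟩

end several

end Spline

section Geometry

variable {E : Type*} [NormedAddCommGroup E] [NormedSpace ℝ E] [FiniteDimensional ℝ E]

theorem exists_spline_point (X : Set E) (hX : Convex ℝ X) (hne : X.Nonempty) (k : ℕ)
    (T : Fin k → Alg E) (hcomm : ∀ i i', Commute (T i) (T i')) (hnil : ∀ i, IsNilpotent (T i))
    (hT : ∀ i v, (T i v).2 = 0)
    (hinv : ∀ m : Fin k → ℤ, ∀ x ∈ X, act (NormedSpace.exp (∑ i, (m i : ℝ) • T i)) x ∈ X) :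
    ∃ y, ∀ s : Fin k → ℝ, act (NormedSpace.exp (∑ i, s i • T i)) y ∈ X := by
  obtain ⟨y, hy⟩ := Spline.XX_nonempty T X hX hne hcomm hnil hT hinv k le_rfl
  refine ⟨y, fun s => ?_⟩
  exact hy s (fun i hi => absurd i.2 (by omega))

end Geometry

end Pool.SV
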