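import Pool.Agent.Helper84.SV.Hat

/-!
Edgewise subdivision of tuple chains.
-/

open Set Finset

namespace Pool.SV

namespace Subdiv

variable {A B : Type*}

theorem cone_single (v : B) (l : List B) (r : ℝ) :
    cone v (Finsupp.single l r) = Finsupp.single (v :: l) r := by
  simp [cone]

theorem lin_single (T : List A → L B) (l : List A) (r : ℝ) :
    lin T (Finsupp.single l r) = r • T l := by
  simp [lin, Finsupp.linearCombination_single]

theorem d_single (l : List B) (r : ℝ) : d (Finsupp.single l r) = r • dl l := by
  simp [d, Finsupp.linearCombination_single]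

theorem d_cone (v : B) (c : L B) : d (cone v c) = c - cone v (d c) := by
  have : (d).comp (cone v) = LinearMap.id - (cone v).comp d := by
    refine Finsupp.lhom_ext' (fun x => LinearMap.ext_ring ?_)
    simp only [LinearMap.comp_apply, Finsupp.lsingle_apply, cone_single, d_single, one_smul,
      LinearMap.sub_apply, LinearMap.id_apply, dl]
  exact LinearMap.congr_fun this c

theorem lin_congr (T T' : List A → L B) (c : L A) (h : ∀ x ∈ c.support, T x = T' x) :
    lin T c = lin T' c := by
  unfold lin
  rw [Finsupp.linearCombination_apply, Finsupp.linearCombination_apply]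
  exact Finsupp.sum_congr fun x hx => by rw [h x hx]

theorem lin_zero' (c : L A) : lin (fun _ => (0 : L B)) c = 0 := by
  unfold lin
  rw [Finsupp.linearCombination_apply]
  simp [Finsupp.sum]

theorem lin_add (T T' : List A → L B) (c : L A) :
    lin (fun x => T x + T' x) c = lin T c + lin T' c := by
  unfold lin
  simp only [Finsupp.linearCombination_apply, Finsupp.sum, smul_add, Finset.sum_add_distrib]

theorem lin_map {C : Type*} (φ : L B →ₗ[ℝ] L C) (T : List A → L B) (c : L A) :
    lin (fun x => φ (T x)) c = φ (lin T c) := by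
  unfold lin
  simp only [Finsupp.linearCombination_apply, Finsupp.sum, map_sum, map_smul]

theorem lin_smul' (r : ℝ) (T : List A → L B) (c : L A) :
    lin (fun x => r • T x) c = r • lin T c := by
  unfold lin
  simp only [Finsupp.linearCombination_apply, Finsupp.sum, Finset.smul_sum, smul_comm r]

theorem lin_cone (T : List A → L B) (v : A) (c : L A) :
    lin T (cone v c) = lin (fun x => T (v :: x)) c := by
  have : (lin T).comp (cone v) = lin (fun x => T (v :: x)) := by
    refine Finsupp.lhom_ext' (fun x => LinearMap.ext_ring ?_)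
    simp only [LinearMap.comp_apply, Finsupp.lsingle_apply, cone_single, lin_single]
  exact LinearMap.congr_fun this c

theorem lin_dl_cons (T : List A → L B) (v : A) (l : List A) :
    lin T (dl (v :: l)) = T l - lin (fun x => T (v :: x)) (dl l) := by
  rw [dl, map_sub, lin_single, one_smul, lin_cone]

theorem lin_dl_nil (T : List A → L B) : lin T (dl ([] : List A)) = 0 := by
  rw [dl, map_zero]

theorem mem_support_cone {v : B} {c : L B} {x : List B} (hx : x ∈ (cone v c).support) :
    ∃ y ∈ c.support, x = v :: y := by
  classical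
  have h := Finsupp.mapDomain_support hx
  obtain ⟨y, hy, hy'⟩ := Finset.mem_image.1 h
  exact ⟨y, hy, hy'.symm⟩

theorem dl_len : ∀ l : List B, ∀ x ∈ (dl l).support, x.length + 1 = l.length := by
  classical
  intro l
  induction l with
  | nil => intro x hx; simp [dl] at hx
  | cons b l ih =>
    intro x hx
    rw [dl] at hx
    rcases Finset.mem_union.1 (Finsupp.support_sub hx) with h | h
    · have := Finsupp.support_single_subset h
      rw [Finset.mem_singleton] at this
      rw [this, List.length_cons]
    · obtain ⟨y, hy, rfl⟩ := mem_support_cone h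
      rw [List.length_cons, List.length_cons, ih y hy]

/-- the correction term -/
noncomputable def e : List B → List B → L B
  | [], [] => Finsupp.single [] 1
  | _, _ => 0

theorem e_symm (a b : List B) : e a b = e b a := by
  cases a <;> cases b <;> rfl

/-- the correction term in the boundary formula -/
noncomputable def dlt (a b : List B) : L B :=
  if a.length = 1 ∧ b.length = 1 then Finsupp.single [] 1 else 0

theorem dlt_symm (a b : List B) : dlt a b = dlt b a := by
  unfold dlt
  simp only [and_comm]

theorem e_eq (a0 b0 : B) (a b : List B) : e a b = dlt (a0 :: a) (b0 :: b) := by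
  cases a <;> cases b <;> simp [e, dlt]

theorem lin_e (b0 : B) (a b : List B) : lin (fun x => e x b) (dl a) = dlt a (b0 :: b) := by
  rcases a with _ | ⟨z, _ | ⟨z', t⟩⟩
  · rw [lin_dl_nil]
    simp [dlt]
  · rw [lin_dl_cons, lin_dl_nil, sub_zero]
    cases b <;> simp [e, dlt]
  · have h : dlt (z :: z' :: t) (b0 :: b) = 0 := by
      simp [dlt]
    rw [h, ← lin_zero' (B := B) (dl (z :: z' :: t))]
    apply lin_congr
    intro x hx
    have := dl_len _ x hx
    cases x with
    | nil => simp at this
    | cons y x => rfl

theorem lin_e' (a0 : B) (a b : List B) : lin (fun y => e a y) (dl b) = dlt (a0 :: a) b := by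
  rw [dlt_symm, ← lin_e]
  apply lin_congr
  intro x _
  exact e_symm _ _

/-- inner recursion for `Sh` -/
noncomputable def ShAux (m : B → B → B) (a0 : B) (a' : List B) (F : List B → L B) :
    List B → L B
  | [] => 0
  | b0 :: b' => cone (m a0 b0) (e a' b' + F (b0 :: b') +
      (-1 : ℝ) ^ a'.length • ShAux m a0 a' F b')

/-- the shuffle product of two tuples, with midpoints -/
noncomputable def Sh (m : B → B → B) : List B → List B → L B
  | [] => fun _ => 0
  | a0 :: a' => ShAux m a0 a' (Sh m a')

variable (m : B → B → B)

theorem Sh_cons (a0 b0 : B) (a' b' : List B) :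
    Sh m (a0 :: a') (b0 :: b') = cone (m a0 b0) (e a' b' + Sh m a' (b0 :: b') +
      (-1 : ℝ) ^ a'.length • Sh m (a0 :: a') b') := rfl

theorem Sh_nil_left (b : List B) : Sh m [] b = 0 := rfl

theorem Sh_nil_right (a : List B) : Sh m a [] = 0 := by cases a <;> rfl

theorem d_e (a b : List B) : d (e a b) = 0 := by
  cases a <;> cases b <;> simp [e, d_single, dl]

theorem aux (φ : L B →ₗ[ℝ] L B) (e1 s1 s2 s3 P Q R T d1 d2 : L B) (ε : ℝ) (hε : ε * ε = 1) :
    e1 + s1 + ε • s2 - φ (0 + (P - ε • (s3 - Q) + d1) + ε • (s3 - R - (ε * -1) • T + d2)) =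
      s1 - φ (d1 + P - ε • R) - (ε * -1) • (s2 - φ (d2 + Q + ε • T)) + e1 := by
  have h1 : (0 + (P - ε • (s3 - Q) + d1) + ε • (s3 - R - (ε * -1) • T + d2)) =
      (d1 + P - ε • R) + ε • (d2 + Q + ε • T) := by
    have h2 : ε • ((ε * -1) • T) = -T := by
      rw [smul_smul, ← mul_assoc, hε]; simp
    have h3 : ε • (ε • T) = T := by rw [smul_smul, hε, one_smul]
    simp only [smul_add, smul_sub, h2, h3]
    abel
  rw [h1, map_add φ, map_smul φ, smul_sub, mul_neg, mul_one, neg_smul, neg_smul]
  abel

theorem d_Sh : ∀ a b : List B, d (Sh m a b) = lin (fun x => Sh m x b) (dl a) -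
    (-1 : ℝ) ^ a.length • lin (fun y => Sh m a y) (dl b) + dlt a b := by
  intro a
  induction a with
  | nil =>
    intro b
    have h : lin (fun y => Sh m [] y) (dl b) = 0 := lin_zero' (dl b)
    rw [h, lin_dl_nil, Sh_nil_left]
    simp [dlt]
  | cons a0 a' iha =>
    intro b
    induction b with
    | nil =>
      have h : lin (fun x => Sh m x []) (dl (a0 :: a')) = 0 := by
        rw [← lin_zero' (B := B) (dl (a0 :: a'))]
        exact lin_congr _ _ _ fun x _ => Sh_nil_right m x
      rw [h, lin_dl_nil, Sh_nil_right]
      simp [dlt]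
    | cons b0 b' ihb =>
      have E1 := iha (b0 :: b')
      have E2 := ihb
      rw [lin_dl_cons (fun y => Sh m a' y)] at E1
      rw [lin_dl_cons (fun x => Sh m x b')] at E2
      rw [lin_dl_cons (fun x => Sh m x (b0 :: b')), lin_dl_cons (fun y => Sh m (a0 :: a') y)]
      set P := lin (fun x => Sh m x (b0 :: b')) (dl a') with hP
      set Q := lin (fun y => Sh m a' (b0 :: y)) (dl b') with hQ
      set R := lin (fun x => Sh m (a0 :: x) b') (dl a') with hR
      set T := lin (fun y => Sh m (a0 :: a') y) (dl b') with hT
      set ε : ℝ := (-1) ^ a'.length with hε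
      have hεε : ε * ε = 1 := by
        rw [hε, ← mul_pow]; norm_num
      have V1 : lin (fun x => Sh m (a0 :: x) (b0 :: b')) (dl a') =
          cone (m a0 b0) (dlt a' (b0 :: b') + P - ε • R) := by
        have h1 : lin (fun x => Sh m (a0 :: x) (b0 :: b')) (dl a') =
            lin (fun x => cone (m a0 b0) ((e x b' + Sh m x (b0 :: b')) +
              (-ε) • Sh m (a0 :: x) b')) (dl a') := by
          apply lin_congr
          intro x hx
          have h2 := dl_len _ x hx
          rw [Sh_cons]
          congr 2
          rw [hε, ← h2, pow_succ]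
          congr 1
          ring
        rw [h1, lin_map, lin_add (fun x => e x b' + Sh m x (b0 :: b')), lin_add, lin_smul',
          lin_e b0, neg_smul, ← sub_eq_add_neg]
      have V2 : lin (fun y => Sh m (a0 :: a') (b0 :: y)) (dl b') =
          cone (m a0 b0) (dlt (a0 :: a') b' + Q + ε • T) := by
        have h1 : lin (fun y => Sh m (a0 :: a') (b0 :: y)) (dl b') =
            lin (fun y => cone (m a0 b0) ((e a' y + Sh m a' (b0 :: y)) +
              ε • Sh m (a0 :: a') y)) (dl b') := by
          apply lin_congr
          intro x _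
          rw [Sh_cons]
        rw [h1, lin_map, lin_add (fun y => e a' y + Sh m a' (b0 :: y)), lin_add, lin_smul',
          lin_e' a0]
      rw [V1, V2, Sh_cons, d_cone, map_add d, map_add d, map_smul d, E1, E2, d_e, ← e_eq,
        List.length_cons, pow_succ, ← hε]
      exact aux (cone (m a0 b0)) _ _ _ _ _ _ _ _ _ _ ε hεε

/-- append a vertex at the end -/
noncomputable def app (x : B) : L B →ₗ[ℝ] L B := Finsupp.lmapDomain ℝ ℝ (fun a => a ++ [x])

theorem app_single (x : B) (l : List B) (r : ℝ) :
    app x (Finsupp.single l r) = Finsupp.single (l ++ [x]) r := by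
  simp [app]

theorem app_cone (x v : B) (c : L B) : app x (cone v c) = cone v (app x c) := by
  have : (app x).comp (cone v) = (cone v).comp (app x) := by
    refine Finsupp.lhom_ext' (fun y => LinearMap.ext_ring ?_)
    simp only [LinearMap.comp_apply, Finsupp.lsingle_apply, cone_single, app_single,
      List.cons_append]
  exact LinearMap.congr_fun this c

theorem lin_app (T : List B → L B) (x : B) (c : L B) :
    lin T (app x c) = lin (fun a => T (a ++ [x])) c := by
  have : (lin T).comp (app x) = lin (fun a => T (a ++ [x])) := by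
    refine Finsupp.lhom_ext' (fun y => LinearMap.ext_ring ?_)
    simp only [LinearMap.comp_apply, Finsupp.lsingle_apply, app_single, lin_single]
  exact LinearMap.congr_fun this c

theorem dl_append (p : List B) (x : B) :
    dl (p ++ [x]) = app x (dl p) + (-1 : ℝ) ^ p.length • Finsupp.single p 1 := by
  induction p with
  | nil => simp [dl]
  | cons b p ih =>
    rw [List.cons_append, dl, dl, ih, map_sub, app_single, app_cone, map_add, map_smul,
      cone_single, List.length_cons, pow_succ]
    simp only [mul_neg, mul_one, neg_smul]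
    abel

/-- the sum of the shuffle products over the cutting points -/
noncomputable def U : List B → List B → L B
  | _, [] => 0
  | p, x :: l => Sh m (p ++ [x]) (x :: l) + U (p ++ [x]) l

theorem U_nil (p : List B) : U m p [] = 0 := by rw [U]

theorem U_cons (p : List B) (x : B) (l : List B) :
    U m p (x :: l) = Sh m (p ++ [x]) (x :: l) + U m (p ++ [x]) l := by rw [U]

theorem d_U : ∀ w p : List B, d (U m p w) = lin (fun p' => U m p' w) (dl p) +
    (-1 : ℝ) ^ p.length • lin (fun w' => U m p w') (dl w) + (-1 : ℝ) ^ p.length • Sh m p w +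
    (if p.length = 0 ∧ w.length = 1 then Finsupp.single [] 1 else 0) := by
  intro w
  induction w with
  | nil =>
    intro p
    have h : lin (fun p' => U m p' []) (dl p) = 0 := by
      rw [← lin_zero' (B := B) (dl p)]
      exact lin_congr _ _ _ fun x _ => U_nil m x
    rw [h, lin_dl_nil, Sh_nil_right, U_nil]
    simp
  | cons x l ih =>
    intro p
    rw [U_cons, map_add, d_Sh, ih, dl_append, map_add, map_add, map_smul, map_smul, lin_single,
      lin_single, lin_app, lin_app, one_smul, one_smul, lin_dl_cons (fun y => Sh m (p ++ [x]) y),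
      lin_dl_cons (fun w' => U m p w')]
    have h1 : lin (fun p' => U m p' (x :: l)) (dl p) =
        lin (fun a => Sh m (a ++ [x]) (x :: l)) (dl p) +
          lin (fun a => U m (a ++ [x]) l) (dl p) := by
      rw [← lin_add]
      exact lin_congr _ _ _ fun a _ => U_cons m a x l
    have h2 : lin (fun a => U m p (x :: a)) (dl l) =
        lin (fun a => Sh m (p ++ [x]) (x :: a)) (dl l) +
          lin (fun a => U m (p ++ [x]) a) (dl l) := by
      rw [← lin_add]
      exact lin_congr _ _ _ fun a _ => U_cons m p x a
    have h3 : dlt (p ++ [x]) (x :: l) =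
        (if p.length = 0 ∧ (x :: l).length = 1 then Finsupp.single [] 1 else 0) := by
      simp [dlt]
    have h4 : (if (p ++ [x]).length = 0 ∧ l.length = 1 then (Finsupp.single [] 1 : L B) else 0)
        = 0 := by
      simp
    rw [h1, h2, h3, h4, List.length_append, List.length_singleton, pow_succ]
    simp only [smul_add, smul_sub, neg_smul, mul_neg, mul_one]
    abel

/-- the subdivision -/
noncomputable def S : List B → L B
  | [] => Finsupp.single [] 1
  | x :: l => U m [] (x :: l)

theorem d_S (l : List B) : d (S m l) = lin (S m) (dl l) := by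
  cases l with
  | nil => rw [S, d_single, one_smul, lin_dl_nil, dl]
  | cons x l =>
    rw [S, d_U, lin_dl_nil, Sh_nil_left, List.length_nil, pow_zero, one_smul, smul_zero, zero_add,
      add_zero]
    cases l with
    | nil =>
      rw [lin_dl_cons, lin_dl_cons, lin_dl_nil, lin_dl_nil, U_nil, S]
      simp
    | cons y l =>
      have h : lin (fun w' => U m [] w') (dl (x :: y :: l)) = lin (S m) (dl (x :: y :: l)) := by
        apply lin_congr
        intro z hz
        have := dl_len _ z hz
        cases z with
        | nil => simp at this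
        | cons z t => rfl
      rw [h]
      simp

theorem mapDomain_cone (g : B → B) (v : B) (c : L B) :
    (cone v c).mapDomain (List.map g) = cone (g v) (c.mapDomain (List.map g)) := by
  unfold cone
  rw [Finsupp.lmapDomain_apply, Finsupp.lmapDomain_apply, ← Finsupp.mapDomain_comp,
    ← Finsupp.mapDomain_comp]
  rfl

theorem e_map (g : B → B) (a b : List B) :
    e (a.map g) (b.map g) = (e a b).mapDomain (List.map g) := by
  cases a <;> cases b <;> simp [e, Finsupp.mapDomain_single]

theorem Sh_map (g : B → B) (hg : ∀ x y, g (m x y) = m (g x) (g y)) :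
    ∀ a b : List B, Sh m (a.map g) (b.map g) = (Sh m a b).mapDomain (List.map g) := by
  intro a
  induction a with
  | nil => intro b; simp [Sh_nil_left]
  | cons a0 a' iha =>
    intro b
    induction b with
    | nil => simp [Sh_nil_right]
    | cons b0 b' ihb =>
      have h1 := iha (b0 :: b')
      rw [List.map_cons] at h1 ihb
      rw [List.map_cons, List.map_cons, Sh_cons, Sh_cons, mapDomain_cone, hg, h1, ihb,
        Finsupp.mapDomain_add, Finsupp.mapDomain_add, Finsupp.mapDomain_smul, e_map,
        List.length_map]

theorem U_map (g : B → B) (hg : ∀ x y, g (m x y) = m (g x) (g y)) :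
    ∀ w p : List B, U m (p.map g) (w.map g) = (U m p w).mapDomain (List.map g) := by
  intro w
  induction w with
  | nil => intro p; simp [U_nil]
  | cons x l ih =>
    intro p
    have h1 := ih (p ++ [x])
    have h2 := Sh_map m g hg (p ++ [x]) (x :: l)
    rw [List.map_append, List.map_singleton] at h1 h2
    rw [List.map_cons] at h2
    rw [List.map_cons, U_cons, U_cons, Finsupp.mapDomain_add, h1, h2]

/-- the norm -/
noncomputable def nm (c : L B) : ℝ := c.sum (fun _ a => |a|)

theorem nm_zero : nm (0 : L B) = 0 := by simp [nm]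

theorem nm_single (l : List B) (r : ℝ) : nm (Finsupp.single l r) = |r| := by
  simp [nm]

theorem nm_eq (c : L B) (s : Finset (List B)) (hs : c.support ⊆ s) : nm c = ∑ x ∈ s, |c x| := by
  unfold nm
  exact Finsupp.sum_of_support_subset c hs _ (by simp)

theorem nm_add (c c' : L B) : nm (c + c') ≤ nm c + nm c' := by
  classical
  rw [nm_eq (c + c') (c.support ∪ c'.support) Finsupp.support_add,
    nm_eq c (c.support ∪ c'.support) Finset.subset_union_left,
    nm_eq c' (c.support ∪ c'.support) Finset.subset_union_right, ← Finset.sum_add_distrib]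
  exact Finset.sum_le_sum fun x _ => abs_add_le _ _

theorem nm_smul (r : ℝ) (c : L B) : nm (r • c) = |r| * nm c := by
  rw [nm_eq (r • c) c.support Finsupp.support_smul, nm_eq c c.support (Finset.Subset.refl _),
    Finset.mul_sum]
  exact Finset.sum_congr rfl fun x _ => by rw [Finsupp.smul_apply, smul_eq_mul, abs_mul]

theorem nm_cone (v : B) (c : L B) : nm (cone v c) = nm c := by
  unfold nm cone
  rw [Finsupp.lmapDomain_apply, Finsupp.sum_mapDomain_index_inj]
  exact List.cons_injective

theorem nm_step (v : B) (c1 c2 c3 : L B) (k : ℕ) :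
    nm (cone v (c1 + c2 + (-1 : ℝ) ^ k • c3)) ≤ nm c1 + nm c2 + nm c3 := by
  rw [nm_cone]
  have h1 := nm_add (c1 + c2) ((-1 : ℝ) ^ k • c3)
  have h2 := nm_add c1 c2
  rw [nm_smul, abs_pow, abs_neg, abs_one, one_pow, one_mul] at h1
  linarith

theorem Sh_norm : ∀ (a' b' : List B) (a0 b0 : B), nm (Sh m (a0 :: a') (b0 :: b')) ≤
    ((a'.length + b'.length).choose a'.length : ℝ) := by
  intro a'
  induction a' with
  | nil =>
    intro b'
    induction b' with
    | nil =>
      intro a0 b0
      rw [Sh_cons]
      refine (nm_step _ _ _ _ _).trans ?_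
      rw [Sh_nil_left, Sh_nil_right, nm_zero, e, nm_single]
      simp
    | cons b1 b'' ihb =>
      intro a0 b0
      rw [Sh_cons]
      refine (nm_step _ _ _ _ _).trans ?_
      have h1 := ihb a0 b1
      have h2 : e ([] : List B) (b1 :: b'') = 0 := rfl
      rw [Sh_nil_left, h2, nm_zero]
      simp only [List.length_nil, Nat.choose_zero_right, Nat.cast_one] at h1 ⊢
      linarith
  | cons a1 a'' iha =>
    intro b'
    induction b' with
    | nil =>
      intro a0 b0
      rw [Sh_cons]
      refine (nm_step _ _ _ _ _).trans ?_
      have h1 := iha [] a1 b0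
      have h2 : e (a1 :: a'') ([] : List B) = 0 := rfl
      rw [Sh_nil_right, h2, nm_zero]
      simp only [List.length_nil, add_zero, Nat.choose_self, Nat.cast_one] at h1 ⊢
      linarith
    | cons b1 b'' ihb =>
      intro a0 b0
      rw [Sh_cons]
      refine (nm_step _ _ _ _ _).trans ?_
      have h1 := iha (b1 :: b'') a1 b0
      have h3 := ihb a0 b1
      have h2 : e (a1 :: a'') (b1 :: b'') = 0 := rfl
      rw [h2, nm_zero]
      have h4 : ((a1 :: a'').length + (b1 :: b'').length).choose (a1 :: a'').length =
          (a''.length + (b1 :: b'').length).choose a''.length +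
            ((a1 :: a'').length + b''.length).choose (a1 :: a'').length := by
        simp only [List.length_cons]
        have e1 : a''.length + 1 + (b''.length + 1) = (a''.length + (b''.length + 1)) + 1 := by
          ring
        have e2 : a''.length + 1 + b''.length = a''.length + (b''.length + 1) := by ring
        rw [e1, e2, Nat.choose_succ_succ]
      rw [h4]
      push_cast
      linarith

theorem U_norm : ∀ w p : List B, nm (U m p w) ≤
    ∑ i ∈ Finset.Ico p.length (p.length + w.length),
      ((p.length + w.length - 1).choose i : ℝ) := by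
  intro w
  induction w with
  | nil =>
    intro p
    rw [U_nil, nm_zero]
    simp
  | cons x l ih =>
    intro p
    rw [U_cons]
    refine (nm_add _ _).trans ?_
    have h1 := ih (p ++ [x])
    have h2 : nm (Sh m (p ++ [x]) (x :: l)) ≤ ((p.length + l.length).choose p.length : ℝ) := by
      cases p with
      | nil =>
        have := Sh_norm m [] l x x
        simpa using this
      | cons b p =>
        have := Sh_norm m (p ++ [x]) l b x
        simpa using this
    rw [List.length_append, List.length_singleton] at h1
    rw [List.length_cons, Finset.sum_eq_sum_Ico_succ_bot (by omega)]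
    have e1 : p.length + (l.length + 1) - 1 = p.length + l.length := by omega
    have e2 : p.length + 1 + l.length - 1 = p.length + l.length := by omega
    have e3 : p.length + 1 + l.length = p.length + (l.length + 1) := by ring
    rw [e2, e3] at h1
    rw [e1]
    linarith

theorem S_norm (l : List B) : nm (S m l) ≤ 2 ^ (l.length - 1) := by
  cases l with
  | nil => rw [S, nm_single]; simp
  | cons x l =>
    rw [S]
    refine (U_norm m (x :: l) []).trans ?_
    simp only [List.length_nil, zero_add, List.length_cons, add_tsub_cancel_right]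
    rw [← Finset.range_eq_Ico, ← Nat.cast_sum, Nat.sum_range_choose]
    push_cast
    exact le_refl _

section tv

variable {E : Type*} [NormedAddCommGroup E] [NormedSpace ℝ E] (ι : B → E)

theorem tv_append (p : List E) (x : E) (l : List E) :
    tv (p ++ x :: l) = tv (p ++ [x]) + tv (x :: l) := by
  induction p with
  | nil => simp [tv]
  | cons b p ih =>
    cases p with
    | nil => simp [tv]
    | cons c p =>
      simp only [List.cons_append] at ih ⊢
      rw [tv, tv, ih]
      ring

variable (hι : ∀ x y, ι (m x y) = (2 : ℝ)⁻¹ • (ι x + ι y))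

include hι in
theorem Sh_supp : ∀ (a' b' : List B) (a0 b0 : B), ∀ l' ∈ (Sh m (a0 :: a') (b0 :: b')).support,
    (∃ t, l' = m a0 b0 :: t) ∧ l'.length = a'.length + b'.length + 1 ∧
      (∀ y ∈ l', ∃ a ∈ a0 :: a', ∃ b ∈ b0 :: b', y = m a b) ∧
      tv (l'.map ι) ≤ (tv ((a0 :: a').map ι) + tv ((b0 :: b').map ι)) / 2 := by
  classical
  intro a'
  induction a' with
  | nil =>
    intro b'
    induction b' with
    | nil =>
      intro a0 b0 l' hl'
      rw [Sh_cons, Sh_nil_left, Sh_nil_right, smul_zero, add_zero, add_zero] at hl'
      obtain ⟨y, hy, rfl⟩ := mem_support_cone hl'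
      have hy' := Finsupp.support_single_subset hy
      rw [Finset.mem_singleton] at hy'
      subst hy'
      refine ⟨⟨[], rfl⟩, by simp, ?_, by simp [tv]⟩
      intro y hy
      rw [List.mem_singleton] at hy
      exact ⟨a0, by simp, b0, by simp, hy⟩
    | cons b1 b'' ihb =>
      intro a0 b0 l' hl'
      have h2 : e ([] : List B) (b1 :: b'') = 0 := rfl
      rw [Sh_cons, Sh_nil_left, h2, zero_add, zero_add] at hl'
      obtain ⟨y, hy, rfl⟩ := mem_support_cone hl'
      obtain ⟨⟨t, rfl⟩, h3, h4, h5⟩ := ihb a0 b1 y (Finsupp.support_smul hy)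
      refine ⟨⟨_, rfl⟩, ?_, ?_, ?_⟩
      · rw [List.length_cons, h3]; simp
      · intro z hz
        rcases List.mem_cons.1 hz with rfl | hz
        · exact ⟨a0, by simp, b0, by simp, rfl⟩
        · obtain ⟨a, ha, b, hb, h6⟩ := h4 z hz
          exact ⟨a, ha, b, List.mem_cons_of_mem _ hb, h6⟩
      · simp only [List.map_cons, tv] at h5 ⊢
        have h7 : ‖ι (m a0 b1) - ι (m a0 b0)‖ = ‖ι b1 - ι b0‖ / 2 := by
          rw [hι, hι, ← smul_sub, norm_smul]
          have : ι a0 + ι b1 - (ι a0 + ι b0) = ι b1 - ι b0 := by abel
          rw [this]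
          norm_num
          ring
        rw [h7]
        linarith
  | cons a1 a'' iha =>
    intro b'
    induction b' with
    | nil =>
      intro a0 b0 l' hl'
      have h2 : e (a1 :: a'') ([] : List B) = 0 := rfl
      rw [Sh_cons, Sh_nil_right, h2, zero_add, smul_zero, add_zero] at hl'
      obtain ⟨y, hy, rfl⟩ := mem_support_cone hl'
      obtain ⟨⟨t, rfl⟩, h3, h4, h5⟩ := iha [] a1 b0 y hy
      refine ⟨⟨_, rfl⟩, ?_, ?_, ?_⟩
      · rw [List.length_cons, h3]; simp
      · intro z hz
        rcases List.mem_cons.1 hz with rfl | hz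
        · exact ⟨a0, by simp, b0, by simp, rfl⟩
        · obtain ⟨a, ha, b, hb, h6⟩ := h4 z hz
          exact ⟨a, List.mem_cons_of_mem _ ha, b, hb, h6⟩
      · simp only [List.map_cons, tv] at h5 ⊢
        have h7 : ‖ι (m a1 b0) - ι (m a0 b0)‖ = ‖ι a1 - ι a0‖ / 2 := by
          rw [hι, hι, ← smul_sub, norm_smul]
          have : ι a1 + ι b0 - (ι a0 + ι b0) = ι a1 - ι a0 := by abel
          rw [this]
          norm_num
          ring
        rw [h7]
        linarith
    | cons b1 b'' ihb =>
      intro a0 b0 l' hl'
      have h2 : e (a1 :: a'') (b1 :: b'') = 0 := rfl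
      rw [Sh_cons, h2, zero_add] at hl'
      obtain ⟨y, hy, rfl⟩ := mem_support_cone hl'
      rcases Finset.mem_union.1 (Finsupp.support_add hy) with hy | hy
      · obtain ⟨⟨t, rfl⟩, h3, h4, h5⟩ := iha (b1 :: b'') a1 b0 y hy
        refine ⟨⟨_, rfl⟩, ?_, ?_, ?_⟩
        · rw [List.length_cons, h3]
          simp only [List.length_cons]
          ring
        · intro z hz
          rcases List.mem_cons.1 hz with rfl | hz
          · exact ⟨a0, by simp, b0, by simp, rfl⟩
          · obtain ⟨a, ha, b, hb, h6⟩ := h4 z hz
            exact ⟨a, List.mem_cons_of_mem _ ha, b, hb, h6⟩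
        · simp only [List.map_cons, tv] at h5 ⊢
          have h7 : ‖ι (m a1 b0) - ι (m a0 b0)‖ = ‖ι a1 - ι a0‖ / 2 := by
            rw [hι, hι, ← smul_sub, norm_smul]
            have : ι a1 + ι b0 - (ι a0 + ι b0) = ι a1 - ι a0 := by abel
            rw [this]
            norm_num
            ring
          rw [h7]
          linarith
      · obtain ⟨⟨t, rfl⟩, h3, h4, h5⟩ := ihb a0 b1 y (Finsupp.support_smul hy)
        refine ⟨⟨_, rfl⟩, ?_, ?_, ?_⟩
        · rw [List.length_cons, h3]
          simp only [List.length_cons]
          ring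
        · intro z hz
          rcases List.mem_cons.1 hz with rfl | hz
          · exact ⟨a0, by simp, b0, by simp, rfl⟩
          · obtain ⟨a, ha, b, hb, h6⟩ := h4 z hz
            exact ⟨a, ha, b, List.mem_cons_of_mem _ hb, h6⟩
        · simp only [List.map_cons, tv] at h5 ⊢
          have h7 : ‖ι (m a0 b1) - ι (m a0 b0)‖ = ‖ι b1 - ι b0‖ / 2 := by
            rw [hι, hι, ← smul_sub, norm_smul]
            have : ι a0 + ι b1 - (ι a0 + ι b0) = ι b1 - ι b0 := by abel
            rw [this]
            norm_num
            ring
          rw [h7]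
          linarith

include hι in
theorem U_supp : ∀ (w p : List B), ∀ l' ∈ (U m p w).support,
    l'.length = p.length + w.length ∧
      (∀ y ∈ l', ∃ a ∈ p ++ w, ∃ b ∈ p ++ w, y = m a b) ∧
      tv (l'.map ι) ≤ tv ((p ++ w).map ι) / 2 := by
  classical
  intro w
  induction w with
  | nil =>
    intro p l' hl'
    rw [U_nil] at hl'
    simp at hl'
  | cons x l ih =>
    intro p l' hl'
    rw [U_cons] at hl'
    rcases Finset.mem_union.1 (Finsupp.support_add hl') with h | h
    · have key : ∀ (a0 : B) (a' : List B), p ++ [x] = a0 :: a' →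
          l'.length = p.length + (x :: l).length ∧
          (∀ y ∈ l', ∃ a ∈ p ++ x :: l, ∃ b ∈ p ++ x :: l, y = m a b) ∧
          tv (l'.map ι) ≤ tv ((p ++ x :: l).map ι) / 2 := by
        intro a0 a' hp
        rw [hp] at h
        obtain ⟨-, h3, h4, h5⟩ := Sh_supp m ι hι a' l a0 x l' h
        have hlen : p.length + 1 = a'.length + 1 := by
          have := congrArg List.length hp
          simpa using this
        refine ⟨?_, ?_, ?_⟩
        · rw [h3, List.length_cons]; omega
        · intro y hy
          obtain ⟨a, ha, b, hb, h6⟩ := h4 y hy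
          rw [← hp] at ha
          refine ⟨a, ?_, b, List.mem_append_right _ hb, h6⟩
          rcases List.mem_append.1 ha with ha | ha
          · exact List.mem_append_left _ ha
          · rw [List.mem_singleton] at ha
            rw [ha]
            simp
        · rw [← hp] at h5
          rw [List.map_append, List.map_cons, tv_append, ← List.map_cons]
          rw [List.map_append, List.map_singleton] at h5
          exact h5
      cases hq : p ++ [x] with
      | nil => simp at hq
      | cons a0 a' => exact key a0 a' hq
    · obtain ⟨h3, h4, h5⟩ := ih (p ++ [x]) l' h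
      rw [List.append_assoc, List.singleton_append] at h4 h5
      refine ⟨?_, h4, h5⟩
      rw [h3, List.length_append, List.length_singleton, List.length_cons]
      ring

end tv

end Subdiv

theorem exists_subdivision {B : Type*} (m : B → B → B) (hm : ∀ b, m b b = b)
    {E : Type*} [NormedAddCommGroup E] [NormedSpace ℝ E] (ι : B → E)
    (hι : ∀ x y, ι (m x y) = (2 : ℝ)⁻¹ • (ι x + ι y)) :
    ∃ S : List B → L B, S [] = Finsupp.single [] 1 ∧ (∀ b, S [b] = Finsupp.single [b] 1) ∧
      (∀ l, d (S l) = lin S (dl l)) ∧
      (∀ g : B → B, (∀ x y, g (m x y) = m (g x) (g y)) →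
        ∀ l, S (l.map g) = (S l).mapDomain (List.map g)) ∧
      (∀ l, (S l).sum (fun _ a => |a|) ≤ 2 ^ (l.length - 1)) ∧
      (∀ l, ∀ l' ∈ (S l).support, l'.length = l.length ∧
        (∀ y ∈ l', ∃ a ∈ l, ∃ b ∈ l, y = m a b) ∧ tv (l'.map ι) ≤ tv (l.map ι) / 2) := by
  classical
  refine ⟨Subdiv.S m, rfl, ?_, Subdiv.d_S m, ?_, Subdiv.S_norm m, ?_⟩
  · intro b
    rw [Subdiv.S, Subdiv.U_cons, Subdiv.U_nil, List.nil_append, Subdiv.Sh_cons,
      Subdiv.Sh_nil_left, Subdiv.Sh_nil_right, smul_zero, add_zero, add_zero, add_zero, hm,
      Subdiv.e, Subdiv.cone_single]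
  · intro g hg l
    cases l with
    | nil => simp [Subdiv.S, Finsupp.mapDomain_single]
    | cons x l =>
      have := Subdiv.U_map m g hg (x :: l) []
      exact this
  · intro l l' hl'
    cases l with
    | nil =>
      have hy' := Finsupp.support_single_subset hl'
      rw [Finset.mem_singleton] at hy'
      subst hy'
      refine ⟨rfl, ?_, by simp [tv]⟩
      intro y hy
      simp at hy
    | cons x l =>
      have := Subdiv.U_supp m ι hι (x :: l) [] l' hl'
      simpa using this

end Pool.SV
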