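import Pool.Agent.SV.Chain

open Set Finset

namespace Pool.SV

namespace Transfer

theorem pair_map {A B : Type*} (β : List B → ℝ) (f : A → B) (w : L A) :
    pair β (w.mapDomain (List.map f)) = pair (fun l => β (l.map f)) w := by
  unfold pair
  rw [Finsupp.linearCombination_mapDomain]
  rfl

theorem cone_map {A B : Type*} (f : A → B) (a : A) (c : L A) :
    cone (f a) (c.mapDomain (List.map f)) = (cone a c).mapDomain (List.map f) := by
  unfold cone
  rw [Finsupp.lmapDomain_apply, Finsupp.lmapDomain_apply, ← Finsupp.mapDomain_comp,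
    ← Finsupp.mapDomain_comp]
  rfl

theorem dl_map {A B : Type*} (f : A → B) (l : List A) :
    dl (l.map f) = (dl l).mapDomain (List.map f) := by
  induction l with
  | nil => simp [dl]
  | cons a l ih =>
    simp only [List.map_cons, dl]
    rw [ih, cone_map, Finsupp.mapDomain_sub, Finsupp.mapDomain_single]

theorem cob_map {A B : Type*} (f : A → B) (α : List B → ℝ) (l : List A) :
    cob (fun l => α (l.map f)) l = cob α (l.map f) := by
  unfold cob
  rw [dl_map, pair_map]

theorem push_dirac {A B : Type*} (f : A → B) (l : List A) :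
    push (fun a => Finsupp.single (f a) (1 : ℝ)) l = Finsupp.single (l.map f) 1 := by
  induction l with
  | nil => rfl
  | cons a l ih =>
    simp only [push, List.map_cons]
    rw [Finsupp.sum_single_index (by rw [zero_smul]), ih, one_smul]
    unfold cone
    rw [Finsupp.lmapDomain_apply, Finsupp.mapDomain_single]

theorem dual_dirac {A B : Type*} (f : A → B) (β : List B → ℝ) :
    dual (push (fun a => Finsupp.single (f a) (1 : ℝ))) β = fun l => β (l.map f) := by
  funext l
  unfold dual
  rw [push_dirac]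
  unfold pair
  rw [Finsupp.linearCombination_single, one_smul]

theorem support_map {A B : Type*} (f : A → B) (w : L A) (n : ℕ)
    (hw : ∀ l ∈ w.support, l.length = n) :
    ∀ l ∈ (w.mapDomain (List.map f)).support, l.length = n := by
  classical
  intro l hl
  have h1 := Finsupp.mapDomain_support hl
  rw [Finset.mem_image] at h1
  obtain ⟨l', hl', rfl⟩ := h1
  rw [List.length_map]
  exact hw l' hl'

/-- the vanishing property for an abstract action -/
def VA (Γ : Type*) (B : Type*) [Group Γ] [MulAction Γ B] (n : ℕ) : Prop :=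
  ∀ β : List B → ℝ, Bdd β → Inv Γ β → cob β = 0 → ∀ w : L B, Cyc Γ w →
    (∀ l ∈ w.support, l.length = n) → pair β w = 0

/-- same group, larger domain -/
theorem va_of_retract (Γ : Type*) {A A' : Type*} [Group Γ] [MulAction Γ A] [MulAction Γ A'] (n : ℕ)
    (κ : A → A') (ι : A' → A) (hκ : ∀ (g : Γ) (x : A), κ (g • x) = g • κ x)
    (hι : ∀ (g : Γ) (x : A'), ι (g • x) = g • ι x) (hV : VA Γ A' n) : VA Γ A n := by
  intro β hb hi hc w hw hlen
  have hhom := push_homotopic Γ (A := A) (B := A)
    (fun x => Finsupp.single (ι (κ x)) (1 : ℝ))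
    (fun x => Finsupp.single x (1 : ℝ))
    (fun a => by
      show (Finsupp.single (ι (κ a)) (1 : ℝ)).sum (fun _ c => c) = 1
      rw [Finsupp.sum_single_index rfl])
    (fun a => by
      show (Finsupp.single a (1 : ℝ)).sum (fun _ c => c) = 1
      rw [Finsupp.sum_single_index rfl])
    (fun g a => by
      show Finsupp.single (ι (κ (g • a))) (1 : ℝ) =
        (Finsupp.single (ι (κ a)) (1 : ℝ)).mapDomain (fun b => g • b)
      rw [Finsupp.mapDomain_single, hκ, hι])
    (fun g a => by
      show Finsupp.single (g • a) (1 : ℝ) =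
        (Finsupp.single a (1 : ℝ)).mapDomain (fun b => g • b)
      rw [Finsupp.mapDomain_single]) β hi hc w hw
  rw [dual_dirac, dual_dirac] at hhom
  have h2 : (fun l : List A => β (l.map (fun x => x))) = β := by
    funext l
    simp
  rw [h2] at hhom
  rw [← hhom]
  have h3 : (fun l : List A => β (l.map (fun x => ι (κ x)))) =
      fun l => (fun l' : List A' => β (l'.map ι)) (l.map κ) := by
    funext l
    simp only [List.map_map]
    rfl
  rw [h3, ← pair_map (fun l' : List A' => β (l'.map ι)) κ w]
  apply hV (fun l' : List A' => β (l'.map ι))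
  · obtain ⟨C, hC⟩ := hb
    exact ⟨C, fun l => hC _⟩
  · intro g l
    simp only [List.map_map]
    have h4 := hi g (l.map ι)
    rw [List.map_map] at h4
    rw [← h4]
    congr 2
    funext x
    exact hι g x
  · funext l
    rw [cob_map, hc]
    rfl
  · intro α hα
    have h4 : (fun l : List A => cob α (l.map κ)) = cob (fun l : List A => α (l.map κ)) := by
      funext l
      rw [cob_map]
    rw [pair_map, h4]
    apply hw
    intro g l
    show α ((l.map (fun b => g • b)).map κ) = α (l.map κ)
    rw [List.map_map]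
    have h5 : (κ ∘ fun b => g • b) = (fun x : A' => g • x) ∘ κ := by
      funext x
      exact hκ g x
    rw [h5, ← List.map_map]
    exact hα g _
  · exact support_map _ w _ hlen

/-- smaller group, same domain -/
theorem va_of_finiteIndex (Γ : Type*) {B : Type*} [Group Γ] [MulAction Γ B] (n : ℕ)
    (H : Subgroup Γ) [H.FiniteIndex] (hV : VA H B n) : VA Γ B n := by
  classical
  intro β hb hi hc w hw hlen
  haveI : Fintype (Γ ⧸ H) := Fintype.ofFinite _
  let r : (Γ ⧸ H) → Γ := fun q => (Quotient.out q)⁻¹
  let w1 : L B := ∑ q : Γ ⧸ H, w.mapDomain (List.map (fun x => r q • x))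
  have hpair : ∀ α : List B → ℝ, pair α w1 =
      pair (fun l => ∑ q : Γ ⧸ H, α (l.map (fun x => r q • x))) w := by
    intro α
    have h1 : pair α w1 = ∑ q : Γ ⧸ H, pair (fun l => α (l.map (fun x => r q • x))) w := by
      show pair α (∑ q : Γ ⧸ H, w.mapDomain (List.map (fun x => r q • x))) = _
      rw [map_sum]
      apply Finset.sum_congr rfl
      intro q _
      rw [pair_map]
    rw [h1]
    unfold pair
    simp only [Finsupp.linearCombination_apply, Finsupp.sum, smul_eq_mul]
    rw [Finset.sum_comm]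
    apply Finset.sum_congr rfl
    intro l _
    rw [Finset.mul_sum]
  have h1 : pair β w1 = 0 := by
    apply hV β hb
    · intro g l
      exact hi (g : Γ) l
    · exact hc
    · intro α hα
      rw [hpair (cob α)]
      have h2 : (fun l => ∑ q : Γ ⧸ H, cob α (l.map (fun x => r q • x))) =
          cob (fun l => ∑ q : Γ ⧸ H, α (l.map (fun x => r q • x))) := by
        funext l
        have h3 : ∀ q : Γ ⧸ H, cob α (l.map (fun x => r q • x)) =
            cob (fun l => α (l.map (fun x => r q • x))) l := by
          intro q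
          rw [cob_map]
        rw [Finset.sum_congr rfl (fun q _ => h3 q)]
        unfold cob pair
        simp only [Finsupp.linearCombination_apply, Finsupp.sum, smul_eq_mul]
        rw [Finset.sum_comm]
        apply Finset.sum_congr rfl
        intro l _
        rw [Finset.mul_sum]
      rw [h2]
      apply hw
      intro g l
      simp only [List.map_map]
      -- reindex
      have h3 : ∀ q : Γ ⧸ H, α (l.map ((fun x : B => r q • x) ∘ fun b => g • b)) =
          α (l.map (fun x : B => r (g⁻¹ • q) • x)) := by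
        intro q
        have h4 : (((g⁻¹ * q.out : Γ)) : Γ ⧸ H) = g⁻¹ • q := by
          conv_rhs => rw [← Quotient.out_eq q]
          rfl
        have h5 : ((g⁻¹ • q).out : Γ)⁻¹ * (g⁻¹ * q.out) ∈ H := by
          rw [← QuotientGroup.eq]
          rw [h4]
          exact Quotient.out_eq _
        set hh : Γ := ((g⁻¹ • q).out : Γ)⁻¹ * (g⁻¹ * q.out) with hhh
        have h6 : r q * g = hh⁻¹ * r (g⁻¹ • q) := by
          show (q.out : Γ)⁻¹ * g = hh⁻¹ * ((g⁻¹ • q).out : Γ)⁻¹
          rw [hhh]
          group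
        have h7 : (fun x : B => r q • x) ∘ (fun b => g • b) =
            (fun x : B => hh⁻¹ • x) ∘ (fun x : B => r (g⁻¹ • q) • x) := by
          funext x
          show r q • g • x = hh⁻¹ • r (g⁻¹ • q) • x
          rw [← mul_smul, ← mul_smul, h6]
        rw [h7, ← List.map_map]
        exact hα ⟨hh⁻¹, H.inv_mem h5⟩ _
      rw [Finset.sum_congr rfl (fun q _ => h3 q)]
      exact Equiv.sum_comp (MulAction.toPerm g⁻¹)
        (fun q : Γ ⧸ H => α (l.map (fun x : B => r q • x)))
    · intro l hl
      have h2 := Finsupp.support_finsetSum hl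
      rw [Finset.mem_biUnion] at h2
      obtain ⟨q, _, hq⟩ := h2
      exact support_map _ w _ hlen l hq
  rw [hpair β] at h1
  have h2 : (fun l => ∑ q : Γ ⧸ H, β (l.map (fun x => r q • x))) =
      fun l => (Fintype.card (Γ ⧸ H) : ℝ) * β l := by
    funext l
    rw [Finset.sum_congr rfl (fun q _ => hi (r q) l), Finset.sum_const, nsmul_eq_mul]
    rfl
  rw [h2] at h1
  have h3 : pair (fun l => (Fintype.card (Γ ⧸ H) : ℝ) * β l) w =
      (Fintype.card (Γ ⧸ H) : ℝ) * pair β w := by
    unfold pair
    simp only [Finsupp.linearCombination_apply, Finsupp.sum, smul_eq_mul]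
    rw [Finset.mul_sum]
    apply Finset.sum_congr rfl
    intro l _
    ring
  rw [h3] at h1
  have h4 : (Fintype.card (Γ ⧸ H) : ℝ) ≠ 0 := by
    have : 0 < Fintype.card (Γ ⧸ H) := Fintype.card_pos
    positivity
  exact (mul_eq_zero.1 h1).resolve_left h4

/-- an equivariant map to an orbit of a free action -/
theorem exists_equivariant (Γ : Type*) {A A' : Type*} [Group Γ] [MulAction Γ A] [MulAction Γ A']
    (hfree : ∀ (g : Γ) (x : A), g • x = x → g = 1) (y0 : A') :
    ∃ κ : A → A', ∀ (g : Γ) (x : A), κ (g • x) = g • κ x := by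
  letI s : Setoid A := MulAction.orbitRel Γ A
  let ρ : A → A := fun x => (Quotient.mk s x).out
  have hρ : ∀ x, ∃ g : Γ, g • ρ x = x := by
    intro x
    have h1 : s (ρ x) x := Quotient.exact (Quotient.out_eq (Quotient.mk s x))
    have h2 : s x (ρ x) := s.symm h1
    exact h2
  choose gg hgg using hρ
  refine ⟨fun x => gg x • y0, ?_⟩
  intro g x
  have h1 : ρ (g • x) = ρ x := by
    show (Quotient.mk s _).out = (Quotient.mk s _).out
    congr 1
    apply Quotient.sound
    exact ⟨g, rfl⟩
  have h2 := hgg (g • x)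
  rw [h1] at h2
  have h4 : gg (g • x) = g * gg x := by
    have h5 : ((g * gg x)⁻¹ * gg (g • x)) • ρ x = ρ x := by
      rw [mul_smul, h2, inv_smul_eq_iff, mul_smul, hgg]
    have h6 := hfree _ _ h5
    exact (inv_mul_eq_one.1 h6).symm
  show gg (g • x) • y0 = g • gg x • y0
  rw [h4, mul_smul]

end Transfer

section Geometry

variable {E : Type*} [NormedAddCommGroup E] [NormedSpace ℝ E]

theorem vanish_transfer (D D' : Geo E) (hΓ : D'.Γ ≤ D.Γ) (hfin : D'.Γ.relIndex D.Γ ≠ 0)
    (hX : D'.X ⊆ D.X) (hV : Vanish D') : Vanish D := by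
  haveI : (D'.Γ.subgroupOf D.Γ).FiniteIndex := ⟨hfin⟩
  apply Transfer.va_of_finiteIndex D.Γ _ (D'.Γ.subgroupOf D.Γ)
  letI act : MulAction D'.Γ D.X := MulAction.compHom D.X (Subgroup.inclusion hΓ)
  have hcoe : ∀ (g : D'.Γ) (x : D.X), ((g • x : D.X) : E) = g.1 x.1 := fun g x => rfl
  obtain ⟨y0, hy0⟩ := D'.nonempty
  obtain ⟨κ, hκ⟩ := Transfer.exists_equivariant D'.Γ (A := D.X) (A' := D'.X)
    (fun g x h => Subtype.ext (D.free g.1 (hΓ g.2) x.1 x.2 (by
      rw [← hcoe, h]))) ⟨y0, hy0⟩
  have hA : Transfer.VA D'.Γ D.X (Module.finrank ℝ E + 1) := by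
    apply Transfer.va_of_retract D'.Γ _ κ (fun x : D'.X => (⟨x.1, hX x.2⟩ : D.X)) hκ
    · intro g x
      rfl
    · exact hV
  intro β hb hi hc w hw hlen
  apply hA β hb _ hc w _ hlen
  · intro g l
    exact hi ⟨⟨g.1, hΓ g.2⟩, Subgroup.mem_subgroupOf.2 g.2⟩ l
  · intro α hα
    apply hw
    intro g l
    exact hα ⟨((g : D.Γ) : E ≃ᵃ[ℝ] E), Subgroup.mem_subgroupOf.1 g.2⟩ l

end Geometry

end Pool.SV
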