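import Mathlib
import Pool.Agent.Helper84.SV.DefsK

open Set Finset

namespace Pool.SV

namespace Aus1

section Alg

variable {Γ R : Type*} [Group Γ] [NormedRing R] [NormedAlgebra ℝ R]

/-- The block diagonal part. -/
def rho (φ : Γ →* R) (e : R) (g : Γ) : R := e * φ g * e + (1 - e) * φ g * (1 - e)

/-- The conjugating element. -/
noncomputable def dd (e : R) (t : ℝ) : R := t • e + (1 - e)

/-- The conjugated representation. -/
noncomputable def phit (φ : Γ →* R) (e : R) (t : ℝ) (g : Γ) : R := dd e t * φ g * dd e t⁻¹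

theorem phi_inv_mul (φ : Γ →* R) (g : Γ) : φ g⁻¹ * φ g = 1 := by
  rw [← map_mul, inv_mul_cancel, map_one]

theorem phi_mul_inv (φ : Γ →* R) (g : Γ) : φ g * φ g⁻¹ = 1 := by
  rw [← map_mul, mul_inv_cancel, map_one]

theorem ef (e : R) (he : e * e = e) : e * (1 - e) = 0 := by
  rw [mul_sub, mul_one, he, sub_self]

theorem fe (e : R) (he : e * e = e) : (1 - e) * e = 0 := by
  rw [sub_mul, one_mul, he, sub_self]

theorem ff (e : R) (he : e * e = e) : (1 - e) * (1 - e) = 1 - e := by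
  rw [mul_sub, mul_one, fe e he, sub_zero]

theorem dd_mul (e : R) (he : e * e = e) (t : ℝ) (ht : t ≠ 0) : dd e t * dd e t⁻¹ = 1 := by
  unfold dd
  rw [add_mul, mul_add, mul_add, smul_mul_smul_comm, he, smul_mul_assoc, ef e he, mul_smul_comm,
    fe e he, ff e he, mul_inv_cancel₀ ht]
  simp

theorem dd_mul' (e : R) (he : e * e = e) (t : ℝ) (ht : t ≠ 0) : dd e t⁻¹ * dd e t = 1 := by
  have := dd_mul e he t⁻¹ (inv_ne_zero ht)
  rwa [inv_inv] at this

theorem rho_mul (φ : Γ →* R) (e : R) (he : e * e = e) (hinv : ∀ g, (1 - e) * φ g * e = 0)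
    (g h : Γ) : rho φ e (g * h) = rho φ e g * rho φ e h := by
  unfold rho
  have h1 : e * φ (g * h) * e = (e * φ g * e) * (e * φ h * e) := by
    have : e * φ (g * h) * e = e * φ g * (e * (φ h * e)) + e * φ g * ((1 - e) * φ h * e) := by
      rw [map_mul]; noncomm_ring
    rw [this, hinv, mul_zero, add_zero]
    have h2 : (e * φ g * e) * (e * φ h * e) = e * φ g * ((e * e) * (φ h * e)) := by
      noncomm_ring
    rw [h2, he]
  have h3 : (1 - e) * φ (g * h) * (1 - e)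
      = ((1 - e) * φ g * (1 - e)) * ((1 - e) * φ h * (1 - e)) := by
    have : (1 - e) * φ (g * h) * (1 - e) = ((1 - e) * φ g * e) * (φ h * (1 - e))
        + (1 - e) * φ g * ((1 - e) * (φ h * (1 - e))) := by
      rw [map_mul]; noncomm_ring
    rw [this, hinv, zero_mul, zero_add]
    have h2 : ((1 - e) * φ g * (1 - e)) * ((1 - e) * φ h * (1 - e))
        = (1 - e) * φ g * (((1 - e) * (1 - e)) * (φ h * (1 - e))) := by
      simp only [mul_assoc]
    rw [h2, ff e he]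
  rw [h1, h3]
  have h4 : (e * φ g * e) * ((1 - e) * φ h * (1 - e)) = 0 := by
    have : (e * φ g * e) * ((1 - e) * φ h * (1 - e))
        = e * φ g * ((e * (1 - e)) * (φ h * (1 - e))) := by simp only [mul_assoc]
    rw [this, ef e he, zero_mul, mul_zero]
  have h5 : ((1 - e) * φ g * (1 - e)) * (e * φ h * e) = 0 := by
    have : ((1 - e) * φ g * (1 - e)) * (e * φ h * e)
        = (1 - e) * φ g * (((1 - e) * e) * (φ h * e)) := by simp only [mul_assoc]
    rw [this, fe e he, zero_mul, mul_zero]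
  rw [add_mul, mul_add, mul_add, h4, h5]
  abel

theorem rho_one (φ : Γ →* R) (e : R) (he : e * e = e) : rho φ e 1 = 1 := by
  unfold rho
  rw [map_one, mul_one, mul_one, he, ff e he]
  abel

theorem phit_eq (φ : Γ →* R) (e : R) (hinv : ∀ g, (1 - e) * φ g * e = 0)
    (t : ℝ) (ht : t ≠ 0) (g : Γ) :
    phit φ e t g = rho φ e g + t • (e * φ g * (1 - e)) := by
  unfold phit dd rho
  rw [add_mul, add_mul, mul_add, mul_add]
  have h1 : t • e * φ g * t⁻¹ • e = e * φ g * e := by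
    rw [smul_mul_assoc, smul_mul_smul_comm, mul_inv_cancel₀ ht, one_smul]
  have h2 : t • e * φ g * (1 - e) = t • (e * φ g * (1 - e)) := by
    rw [smul_mul_assoc, smul_mul_assoc]
  have h3 : (1 - e) * φ g * t⁻¹ • e = 0 := by
    rw [mul_smul_comm, hinv, smul_zero]
  rw [h1, h2, h3]
  abel

theorem phit_mul (φ : Γ →* R) (e : R) (he : e * e = e) (t : ℝ) (ht : t ≠ 0) (g h : Γ) :
    phit φ e t (g * h) = phit φ e t g * phit φ e t h := by
  unfold phit
  have : dd e t * φ g * dd e t⁻¹ * (dd e t * φ h * dd e t⁻¹)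
      = dd e t * φ g * ((dd e t⁻¹ * dd e t) * (φ h * dd e t⁻¹)) := by simp only [mul_assoc]
  rw [this, dd_mul' e he t ht, one_mul, map_mul]
  simp only [mul_assoc]

theorem phit_one (φ : Γ →* R) (e : R) (he : e * e = e) (t : ℝ) (ht : t ≠ 0) :
    phit φ e t 1 = 1 := by
  unfold phit
  rw [map_one, mul_one, dd_mul e he t ht]

theorem phi_eq (φ : Γ →* R) (e : R) (he : e * e = e) (t : ℝ) (ht : t ≠ 0) (g : Γ) :
    φ g = dd e t⁻¹ * phit φ e t g * dd e t := by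
  unfold phit
  have : dd e t⁻¹ * (dd e t * φ g * dd e t⁻¹) * dd e t
      = (dd e t⁻¹ * dd e t) * φ g * (dd e t⁻¹ * dd e t) := by simp only [mul_assoc]
  rw [this, dd_mul' e he t ht, one_mul, mul_one]

theorem rho_sub_one (φ : Γ →* R) (e : R) (he : e * e = e) (hinv : ∀ g, (1 - e) * φ g * e = 0)
    (t : ℝ) (ht : t ≠ 0) (g : Γ) :
    rho φ e g - 1 = e * (phit φ e t g - 1) * e + (1 - e) * (phit φ e t g - 1) * (1 - e) := by
  have h1 : e * phit φ e t g * e = e * φ g * e := by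
    unfold phit dd
    have : e * ((t • e + (1 - e)) * φ g * (t⁻¹ • e + (1 - e))) * e
      = (t • (e * e) + e * (1 - e)) * φ g * (t⁻¹ • (e * e) + (1 - e) * e) := by
      simp only [mul_add, add_mul, smul_mul_assoc, mul_smul_comm, mul_assoc]
    rw [this, he, ef e he, fe e he, add_zero, add_zero, smul_mul_assoc, smul_mul_smul_comm,
      mul_inv_cancel₀ ht, one_smul]
  have h2 : (1 - e) * phit φ e t g * (1 - e) = (1 - e) * φ g * (1 - e) := by
    unfold phit dd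
    have : (1 - e) * ((t • e + (1 - e)) * φ g * (t⁻¹ • e + (1 - e))) * (1 - e)
      = (t • ((1 - e) * e) + (1 - e) * (1 - e)) * φ g * (t⁻¹ • (e * (1 - e))
        + (1 - e) * (1 - e)) := by
      simp only [mul_add, add_mul, smul_mul_assoc, mul_smul_comm, mul_assoc]
    rw [this, ef e he, fe e he, ff e he, smul_zero, smul_zero, zero_add]
  have h3 : e * (phit φ e t g - 1) * e = e * φ g * e - e := by
    rw [mul_sub, sub_mul, mul_one, he, h1]
  have h4 : (1 - e) * (phit φ e t g - 1) * (1 - e)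
      = (1 - e) * φ g * (1 - e) - (1 - e) := by
    rw [mul_sub (1 - e), sub_mul _ _ (1 - e), mul_one, ff e he, h2]
  rw [h3, h4]
  unfold rho
  abel

omit [NormedAlgebra ℝ R] in
theorem norm_inv_le (x y : R) (h : y * x = 1) (hx : ‖x - 1‖ ≤ 1 / 2) : ‖y‖ ≤ 2 * ‖(1 : R)‖ := by
  have h1 : y = 1 - y * (x - 1) := by rw [mul_sub, h, mul_one]; abel
  have h2 : ‖y‖ ≤ ‖(1 : R)‖ + ‖y‖ * ‖x - 1‖ := by
    calc ‖y‖ = ‖1 - y * (x - 1)‖ := by rw [← h1]
      _ ≤ ‖(1 : R)‖ + ‖y * (x - 1)‖ := norm_sub_le _ _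
      _ ≤ ‖(1 : R)‖ + ‖y‖ * ‖x - 1‖ := by gcongr; exact norm_mul_le _ _
  have h3 : ‖y‖ * ‖x - 1‖ ≤ ‖y‖ * (1 / 2) := by gcongr
  linarith

omit [NormedAlgebra ℝ R] in
theorem comm_le (x y x' y' : R) (hx : x * x' = 1) (hy : y * y' = 1) :
    ‖x * y * (x' * y') - 1‖ ≤ 2 * ‖x - 1‖ * ‖y - 1‖ * (‖x'‖ * ‖y'‖) := by
  have h1 : x * y * (x' * y') - 1
      = ((x - 1) * (y - 1) - (y - 1) * (x - 1)) * (x' * y') := by
    have h2 : y * x * (x' * y') = 1 := by
      have : y * x * (x' * y') = y * (x * x') * y' := by simp only [mul_assoc]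
      rw [this, hx, mul_one, hy]
    have h3 : (x - 1) * (y - 1) - (y - 1) * (x - 1) = x * y - y * x := by noncomm_ring
    rw [h3, sub_mul, h2]
  rw [h1]
  calc ‖((x - 1) * (y - 1) - (y - 1) * (x - 1)) * (x' * y')‖
      ≤ ‖(x - 1) * (y - 1) - (y - 1) * (x - 1)‖ * ‖x' * y'‖ := norm_mul_le _ _
    _ ≤ (‖(x - 1) * (y - 1)‖ + ‖(y - 1) * (x - 1)‖) * (‖x'‖ * ‖y'‖) := by
        gcongr
        · exact norm_sub_le _ _
        · exact norm_mul_le _ _
    _ ≤ (‖x - 1‖ * ‖y - 1‖ + ‖y - 1‖ * ‖x - 1‖) * (‖x'‖ * ‖y'‖) := by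
        gcongr
        · exact norm_mul_le _ _
        · exact norm_mul_le _ _
    _ = 2 * ‖x - 1‖ * ‖y - 1‖ * (‖x'‖ * ‖y'‖) := by ring

/-- The small elements. -/
def U (φ : Γ →* R) (e : R) (ε : ℝ) : Set Γ := {g | ‖rho φ e g - 1‖ < ε}

/-- The algebra generated by the small elements. -/
def A (φ : Γ →* R) (e : R) (ε : ℝ) : Subalgebra ℝ R := Algebra.adjoin ℝ (φ '' U φ e ε)

theorem A_mono (φ : Γ →* R) (e : R) {ε ε' : ℝ} (h : ε ≤ ε') : A φ e ε ≤ A φ e ε' :=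
  Algebra.adjoin_mono (Set.image_mono (fun _ hg => lt_of_lt_of_le hg h))

theorem exists_stable [FiniteDimensional ℝ R] (φ : Γ →* R) (e : R) :
    ∃ ε₃ : ℝ, 0 < ε₃ ∧ ∀ ε, 0 < ε → ε ≤ ε₃ → A φ e ε = A φ e ε₃ := by
  classical
  have hex : ∃ n : ℕ, ∃ ε : ℝ, 0 < ε ∧ Module.finrank ℝ (Subalgebra.toSubmodule (A φ e ε)) = n :=
    ⟨_, 1, one_pos, rfl⟩
  obtain ⟨ε₃, h3, h3'⟩ := Nat.find_spec hex
  refine ⟨ε₃, h3, fun ε h0 h1 => ?_⟩
  have hle : Subalgebra.toSubmodule (A φ e ε) ≤ Subalgebra.toSubmodule (A φ e ε₃) :=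
    A_mono φ e h1
  have h4 : Module.finrank ℝ (Subalgebra.toSubmodule (A φ e ε₃))
      ≤ Module.finrank ℝ (Subalgebra.toSubmodule (A φ e ε)) := by
    rw [h3']
    exact Nat.find_min' hex ⟨ε, h0, rfl⟩
  have := Submodule.eq_of_le_of_finrank_le hle h4
  exact Subalgebra.toSubmodule_injective this

theorem conj_mem (φ : Γ →* R) (e : R) (he : e * e = e) (hinv : ∀ g, (1 - e) * φ g * e = 0)
    (ε₃ : ℝ) (h3 : 0 < ε₃) (hst : ∀ ε, 0 < ε → ε ≤ ε₃ → A φ e ε = A φ e ε₃) (g : Γ) (x : R)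
    (hx : x ∈ A φ e ε₃) : φ g * x * φ g⁻¹ ∈ A φ e ε₃ := by
  set K : ℝ := ‖rho φ e g‖ * ‖rho φ e g⁻¹‖ + 1 with hK
  have hKpos : 1 ≤ K := by rw [hK]; have := mul_nonneg (norm_nonneg (rho φ e g)) (norm_nonneg (rho φ e g⁻¹)); linarith
  have h4 : 0 < ε₃ / K := by positivity
  have h5 : ε₃ / K ≤ ε₃ := div_le_self h3.le hKpos
  rw [← hst _ h4 h5] at hx
  unfold A at hx
  induction hx using Algebra.adjoin_induction with
  | mem y hy =>
    obtain ⟨u, hu, rfl⟩ := hy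
    rw [← map_mul, ← map_mul]
    apply Algebra.subset_adjoin
    refine ⟨_, ?_, rfl⟩
    have h6 : rho φ e (g * u * g⁻¹) - 1 = rho φ e g * (rho φ e u - 1) * rho φ e g⁻¹ := by
      rw [rho_mul φ e he hinv, rho_mul φ e he hinv, mul_sub, sub_mul, mul_one,
        ← rho_mul φ e he hinv g g⁻¹, mul_inv_cancel, rho_one φ e he]
    have hu' : ‖rho φ e u - 1‖ < ε₃ / K := hu
    show ‖rho φ e (g * u * g⁻¹) - 1‖ < ε₃
    rw [h6]
    calc ‖rho φ e g * (rho φ e u - 1) * rho φ e g⁻¹‖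
        ≤ ‖rho φ e g * (rho φ e u - 1)‖ * ‖rho φ e g⁻¹‖ := norm_mul_le _ _
      _ ≤ (‖rho φ e g‖ * ‖rho φ e u - 1‖) * ‖rho φ e g⁻¹‖ := by
          gcongr; exact norm_mul_le _ _
      _ = (‖rho φ e g‖ * ‖rho φ e g⁻¹‖) * ‖rho φ e u - 1‖ := by ring
      _ ≤ K * ‖rho φ e u - 1‖ := by gcongr; rw [hK]; linarith
      _ < K * (ε₃ / K) := by gcongr
      _ = ε₃ := by field_simp
  | algebraMap r =>
    have : φ g * (algebraMap ℝ R r) * φ g⁻¹ = algebraMap ℝ R r := by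
      rw [← Algebra.commutes, mul_assoc, phi_mul_inv, mul_one]
    rw [this]
    exact Subalgebra.algebraMap_mem _ r
  | add y z _ _ hy hz =>
    rw [mul_add, add_mul]
    exact add_mem hy hz
  | mul y z _ _ hy hz =>
    have : φ g * (y * z) * φ g⁻¹ = (φ g * y * φ g⁻¹) * (φ g * z * φ g⁻¹) := by
      have h7 : (φ g * y * φ g⁻¹) * (φ g * z * φ g⁻¹)
          = φ g * y * ((φ g⁻¹ * φ g) * (z * φ g⁻¹)) := by simp only [mul_assoc]
      rw [h7, phi_inv_mul, one_mul]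
      simp only [mul_assoc]
    rw [this]
    exact mul_mem hy hz

/-- The normal abelian subgroup. -/
def N (φ : Γ →* R) (B : Subalgebra ℝ R) : Subgroup Γ where
  carrier := {g | φ g ∈ B ∧ φ g⁻¹ ∈ B ∧ ∀ x ∈ B, φ g * x = x * φ g}
  one_mem' := by
    refine ⟨?_, ?_, ?_⟩
    · rw [map_one]; exact one_mem _
    · rw [inv_one, map_one]; exact one_mem _
    · intro x _; rw [map_one, one_mul, mul_one]
  mul_mem' := by
    rintro g h ⟨g1, g2, g3⟩ ⟨h1, h2, h3⟩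
    refine ⟨?_, ?_, ?_⟩
    · rw [map_mul]; exact mul_mem g1 h1
    · rw [mul_inv_rev, map_mul]; exact mul_mem h2 g2
    · intro x hx
      rw [map_mul, mul_assoc, h3 x hx, ← mul_assoc, g3 x hx, mul_assoc]
  inv_mem' := by
    rintro g ⟨g1, g2, g3⟩
    refine ⟨g2, by rwa [inv_inv], ?_⟩
    intro x hx
    have h1 : φ g⁻¹ * x = φ g⁻¹ * (x * φ g) * φ g⁻¹ := by
      rw [mul_assoc, mul_assoc, phi_mul_inv, mul_one]
    rw [h1, ← g3 x hx, ← mul_assoc, phi_inv_mul, one_mul]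

theorem finite_span [FiniteDimensional ℝ R] (φ : Γ →* R) (S : Set Γ) :
    ∃ F : Finset Γ, (↑F : Set Γ) ⊆ S ∧
      Submodule.span ℝ (φ '' S) = Submodule.span ℝ (φ '' (↑F : Set Γ)) := by
  classical
  have h1 : (Submodule.span ℝ (φ '' S)).FG := Submodule.FG.of_finite
  obtain ⟨s', hs, hs'⟩ := (Submodule.fg_span_iff_fg_span_finset_subset _).1 h1
  obtain ⟨F, hF, hF'⟩ := Finset.subset_set_image_iff.1 hs
  refine ⟨F, hF, ?_⟩
  rw [hs', ← hF', Finset.coe_image]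

theorem comm_adjoin (φ : Γ →* R) (S : Set Γ) (F : Finset Γ)
    (hF : Submodule.span ℝ (φ '' S) = Submodule.span ℝ (φ '' (↑F : Set Γ))) (y : R)
    (hy : ∀ b ∈ F, y * φ b = φ b * y) : ∀ x ∈ Algebra.adjoin ℝ (φ '' S), y * x = x * y := by
  have h1 : ∀ x ∈ Submodule.span ℝ (φ '' S), y * x = x * y := by
    intro x hx
    rw [hF] at hx
    induction hx using Submodule.span_induction with
    | mem z hz =>
      obtain ⟨b, hb, rfl⟩ := hz
      exact hy b hb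
    | zero => rw [mul_zero, zero_mul]
    | add z w _ _ hz hw => rw [mul_add, add_mul, hz, hw]
    | smul r z _ hz => rw [mul_smul_comm, smul_mul_assoc, hz]
  intro x hx
  induction hx using Algebra.adjoin_induction with
  | mem z hz => exact h1 z (Submodule.subset_span hz)
  | algebraMap r => exact (Algebra.commutes r y).symm
  | add z w _ _ hz hw => rw [mul_add, add_mul, hz, hw]
  | mul z w _ _ hz hw => rw [← mul_assoc, hz, mul_assoc, hw, mul_assoc]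

end Alg

end Aus1

/-! ## K-1 AUS1 -/

open Aus1 in
theorem aus1 {Γ R : Type*} [Group Γ] [NormedRing R] [NormedAlgebra ℝ R] [FiniteDimensional ℝ R]
    (φ : Γ →* R) (hinj : Function.Injective φ)
    (hdisc : ∀ C : ℝ, {g : Γ | ‖φ g‖ ≤ C ∧ ‖φ g⁻¹‖ ≤ C}.Finite)
    (e : R) (he : e * e = e) (hinv : ∀ g, (1 - e) * φ g * e = 0)
    (hsmall : ∀ ε : ℝ, 0 < ε → ∃ g : Γ, g ≠ 1 ∧
      ‖e * φ g * e + (1 - e) * φ g * (1 - e) - 1‖ < ε) :
    HasAbNormal Γ := by
  classical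
  obtain ⟨ε₃, h3, hst⟩ := exists_stable φ e
  -- constants
  set C0 : ℝ := ‖e‖ * ‖e‖ + ‖1 - e‖ * ‖1 - e‖ with hC0
  have hC0n : 0 ≤ C0 := by positivity
  set M : ℝ := 2 * ‖(1 : R)‖ with hM
  have hMn : 0 ≤ M := by positivity
  obtain ⟨ε, hε, hε3, hε4, hε5, hε6, hε7⟩ : ∃ ε : ℝ, 0 < ε ∧ ε ≤ ε₃ ∧ 2 * ε ≤ 1 / 2 ∧
      C0 * (2 * ε) < ε₃ ∧ C0 * (M * (2 * ε)) < ε₃ ∧ 4 * ε * (M * M) ≤ 1 := by
    set D : ℝ := 1 + 2 * C0 + 2 * C0 * M with hD
    have hDp : 0 < D := by positivity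
    refine ⟨min (ε₃ / (2 * D)) (min (1 / 4) (1 / (4 * (M * M) + 1))), ?_, ?_, ?_, ?_, ?_, ?_⟩
    · positivity
    · refine le_trans (min_le_left _ _) (div_le_self h3.le ?_)
      rw [hD]
      have : 0 ≤ C0 * M := by positivity
      linarith
    · have : min (ε₃ / (2 * D)) (min (1 / 4) (1 / (4 * (M * M) + 1))) ≤ 1 / 4 :=
        le_trans (min_le_right _ _) (min_le_left _ _)
      linarith
    · have h1 : min (ε₃ / (2 * D)) (min (1 / 4) (1 / (4 * (M * M) + 1))) ≤ ε₃ / (2 * D) :=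
        min_le_left _ _
      have h2 : C0 * (2 * min (ε₃ / (2 * D)) (min (1 / 4) (1 / (4 * (M * M) + 1))))
          ≤ (2 * C0) * (ε₃ / (2 * D)) := by
        rw [← mul_assoc, mul_comm C0 2]
        gcongr
      have h4 : (2 * C0) * (ε₃ / (2 * D)) ≤ D * (ε₃ / (2 * D)) := by
        gcongr
        rw [hD]
        have : 0 ≤ C0 * M := by positivity
        linarith
      have h5 : D * (ε₃ / (2 * D)) = ε₃ / 2 := by field_simp
      linarith
    · have h1 : min (ε₃ / (2 * D)) (min (1 / 4) (1 / (4 * (M * M) + 1))) ≤ ε₃ / (2 * D) :=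
        min_le_left _ _
      have h2 : C0 * (M * (2 * min (ε₃ / (2 * D)) (min (1 / 4) (1 / (4 * (M * M) + 1)))))
          ≤ (2 * C0 * M) * (ε₃ / (2 * D)) := by
        have : C0 * (M * (2 * min (ε₃ / (2 * D)) (min (1 / 4) (1 / (4 * (M * M) + 1)))))
          = (2 * C0 * M) * min (ε₃ / (2 * D)) (min (1 / 4) (1 / (4 * (M * M) + 1))) := by ring
        rw [this]
        gcongr
      have h4 : (2 * C0 * M) * (ε₃ / (2 * D)) ≤ D * (ε₃ / (2 * D)) := by
        gcongr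
        rw [hD]
        linarith
      have h5 : D * (ε₃ / (2 * D)) = ε₃ / 2 := by field_simp
      linarith
    · have h1 : min (ε₃ / (2 * D)) (min (1 / 4) (1 / (4 * (M * M) + 1)))
          ≤ 1 / (4 * (M * M) + 1) := le_trans (min_le_right _ _) (min_le_right _ _)
      calc 4 * min (ε₃ / (2 * D)) (min (1 / 4) (1 / (4 * (M * M) + 1))) * (M * M)
          ≤ 4 * (1 / (4 * (M * M) + 1)) * (M * M) := by gcongr
        _ = (4 * (M * M)) / (4 * (M * M) + 1) := by ring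
        _ ≤ 1 := by
            rw [div_le_one (by positivity)]
            linarith
  obtain ⟨F, hFU, hFs⟩ := finite_span φ (U φ e ε)
  obtain ⟨f0, hf0, hf0'⟩ := hsmall ε hε
  -- choose t
  obtain ⟨t, ht, htF, htf⟩ : ∃ t : ℝ, 0 < t ∧ (∀ b ∈ F, ‖phit φ e t b - 1‖ < 2 * ε) ∧
      ‖phit φ e t f0 - 1‖ < 2 * ε := by
    set S : ℝ := (∑ b ∈ F, ‖e * φ b * (1 - e)‖) + ‖e * φ f0 * (1 - e)‖ + 1 with hS
    have hSp : 0 < S := by positivity
    have hSb : ∀ b ∈ F, ‖e * φ b * (1 - e)‖ ≤ S := by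
      intro b hb
      have := Finset.single_le_sum (f := fun b => ‖e * φ b * (1 - e)‖)
        (fun i _ => norm_nonneg _) hb
      have h2 := norm_nonneg (e * φ f0 * (1 - e))
      linarith
    have hSf : ‖e * φ f0 * (1 - e)‖ ≤ S := by
      have : 0 ≤ ∑ b ∈ F, ‖e * φ b * (1 - e)‖ := Finset.sum_nonneg (fun i _ => norm_nonneg _)
      linarith
    have htp : 0 < ε / S := by positivity
    have key : ∀ b : Γ, ‖rho φ e b - 1‖ < ε → ‖e * φ b * (1 - e)‖ ≤ S →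
        ‖phit φ e (ε / S) b - 1‖ < 2 * ε := by
      intro b h1 h2
      rw [phit_eq φ e hinv _ htp.ne']
      have h4 : rho φ e b + (ε / S) • (e * φ b * (1 - e)) - 1
          = (rho φ e b - 1) + (ε / S) • (e * φ b * (1 - e)) := by abel
      rw [h4]
      calc ‖(rho φ e b - 1) + (ε / S) • (e * φ b * (1 - e))‖
          ≤ ‖rho φ e b - 1‖ + ‖(ε / S) • (e * φ b * (1 - e))‖ := norm_add_le _ _
        _ = ‖rho φ e b - 1‖ + (ε / S) * ‖e * φ b * (1 - e)‖ := by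
            rw [norm_smul, Real.norm_eq_abs, abs_of_pos htp]
        _ ≤ ‖rho φ e b - 1‖ + (ε / S) * S := by gcongr
        _ = ‖rho φ e b - 1‖ + ε := by field_simp
        _ < 2 * ε := by linarith
    exact ⟨ε / S, htp, fun b hb => key b (hFU hb) (hSb b hb), key f0 hf0' hSf⟩
  have ht0 : t ≠ 0 := ht.ne'
  have hpi : ∀ g, phit φ e t g⁻¹ * phit φ e t g = 1 := by
    intro g
    rw [← phit_mul φ e he t ht0, inv_mul_cancel, phit_one φ e he t ht0]
  have hpi' : ∀ g, phit φ e t g * phit φ e t g⁻¹ = 1 := by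
    intro g
    rw [← phit_mul φ e he t ht0, mul_inv_cancel, phit_one φ e he t ht0]
  have hMb : ∀ g, ‖phit φ e t g - 1‖ < 2 * ε → ‖phit φ e t g⁻¹‖ ≤ M := by
    intro g hg
    exact norm_inv_le _ _ (hpi g) (hg.le.trans hε4)
  set Δ : Set Γ := {g | g ≠ 1 ∧ ‖phit φ e t g - 1‖ < 2 * ε} with hΔ
  have hΔf : Δ.Finite := by
    refine (hdisc (‖dd e t⁻¹‖ * (2 * ε + ‖(1 : R)‖ + M) * ‖dd e t‖)).subset ?_
    rintro g ⟨_, hg⟩
    have hb : ∀ x : R, ‖x‖ ≤ 2 * ε + ‖(1 : R)‖ + M →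
        ‖dd e t⁻¹ * x * dd e t‖ ≤ ‖dd e t⁻¹‖ * (2 * ε + ‖(1 : R)‖ + M) * ‖dd e t‖ := by
      intro x hx
      calc ‖dd e t⁻¹ * x * dd e t‖ ≤ ‖dd e t⁻¹ * x‖ * ‖dd e t‖ := norm_mul_le _ _
        _ ≤ ‖dd e t⁻¹‖ * ‖x‖ * ‖dd e t‖ := by gcongr; exact norm_mul_le _ _
        _ ≤ ‖dd e t⁻¹‖ * (2 * ε + ‖(1 : R)‖ + M) * ‖dd e t‖ := by gcongr
    constructor
    · rw [phi_eq φ e he t ht0 g]
      apply hb
      have h1 : phit φ e t g = (phit φ e t g - 1) + 1 := by abel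
      have h2 : ‖phit φ e t g‖ ≤ ‖phit φ e t g - 1‖ + ‖(1 : R)‖ := by
        conv_lhs => rw [h1]
        exact norm_add_le _ _
      linarith
    · rw [phi_eq φ e he t ht0 g⁻¹]
      apply hb
      have := hMb g hg
      have := norm_nonneg (1 : R)
      linarith
  have hΔn : Δ.Nonempty := ⟨f0, hf0, htf⟩
  obtain ⟨a, ha, hamin⟩ := Set.exists_min_image Δ (fun g => ‖phit φ e t g - 1‖) hΔf hΔn
  have hapos : 0 < ‖phit φ e t a - 1‖ := by
    rw [norm_pos_iff, sub_ne_zero]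
    intro h
    apply ha.1
    apply hinj
    rw [phi_eq φ e he t ht0 a, h, mul_one, dd_mul' e he t ht0, map_one]
  have hcomm : ∀ b ∈ F, a * b = b * a := by
    intro b hb
    by_contra hne
    have hne' : a * b * (a⁻¹ * b⁻¹) ≠ 1 := by
      intro h
      apply hne
      have h2 : a * b = (a⁻¹ * b⁻¹)⁻¹ := eq_inv_of_mul_eq_one_left h
      rw [h2, mul_inv_rev, inv_inv, inv_inv]
    have hlt : ‖phit φ e t (a * b * (a⁻¹ * b⁻¹)) - 1‖ < ‖phit φ e t a - 1‖ := by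
      rw [phit_mul φ e he t ht0, phit_mul φ e he t ht0, phit_mul φ e he t ht0]
      refine lt_of_le_of_lt (comm_le _ _ _ _ (hpi' a) (hpi' b)) ?_
      have h1 := hMb a ha.2
      have h2 := hMb b (htF b hb)
      have h4 := htF b hb
      have h5 : ‖phit φ e t a⁻¹‖ * ‖phit φ e t b⁻¹‖ ≤ M * M := by gcongr
      have h6 : 0 ≤ ‖phit φ e t a⁻¹‖ * ‖phit φ e t b⁻¹‖ := by positivity
      rcases h6.eq_or_lt with h7 | h7
      · rw [← h7, mul_zero]; exact hapos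
      · calc 2 * ‖phit φ e t a - 1‖ * ‖phit φ e t b - 1‖
              * (‖phit φ e t a⁻¹‖ * ‖phit φ e t b⁻¹‖)
            < 2 * ‖phit φ e t a - 1‖ * (2 * ε)
              * (‖phit φ e t a⁻¹‖ * ‖phit φ e t b⁻¹‖) := by gcongr
          _ ≤ 2 * ‖phit φ e t a - 1‖ * (2 * ε) * (M * M) := by gcongr
          _ = (4 * ε * (M * M)) * ‖phit φ e t a - 1‖ := by ring
          _ ≤ 1 * ‖phit φ e t a - 1‖ := by gcongr
          _ = ‖phit φ e t a - 1‖ := one_mul _
    have := hamin _ ⟨hne', hlt.trans ha.2⟩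
    linarith
  have hrle : ∀ g, ‖rho φ e g - 1‖ ≤ C0 * ‖phit φ e t g - 1‖ := by
    intro g
    rw [rho_sub_one φ e he hinv t ht0 g]
    calc ‖e * (phit φ e t g - 1) * e + (1 - e) * (phit φ e t g - 1) * (1 - e)‖
        ≤ ‖e * (phit φ e t g - 1) * e‖ + ‖(1 - e) * (phit φ e t g - 1) * (1 - e)‖ :=
          norm_add_le _ _
      _ ≤ ‖e‖ * ‖phit φ e t g - 1‖ * ‖e‖ + ‖1 - e‖ * ‖phit φ e t g - 1‖ * ‖1 - e‖ := by
          gcongr
          · exact (norm_mul_le _ _).trans (by gcongr; exact norm_mul_le _ _)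
          · exact (norm_mul_le _ _).trans (by gcongr; exact norm_mul_le _ _)
      _ = C0 * ‖phit φ e t g - 1‖ := by rw [hC0]; ring
  have haU : a ∈ U φ e ε₃ := by
    show ‖rho φ e a - 1‖ < ε₃
    refine lt_of_le_of_lt (hrle a) (lt_of_le_of_lt ?_ hε5)
    gcongr
    exact ha.2.le
  have haU' : a⁻¹ ∈ U φ e ε₃ := by
    show ‖rho φ e a⁻¹ - 1‖ < ε₃
    refine lt_of_le_of_lt (hrle a⁻¹) (lt_of_le_of_lt ?_ hε6)
    have h1 : phit φ e t a⁻¹ - 1 = - (phit φ e t a⁻¹ * (phit φ e t a - 1)) := by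
      rw [mul_sub, hpi, mul_one]; abel
    rw [h1, norm_neg]
    have h2 := ha.2.le
    have h4 := hMb a ha.2
    calc C0 * ‖phit φ e t a⁻¹ * (phit φ e t a - 1)‖
        ≤ C0 * (‖phit φ e t a⁻¹‖ * ‖phit φ e t a - 1‖) := by gcongr; exact norm_mul_le _ _
      _ ≤ C0 * (M * (2 * ε)) := by gcongr
  set B := A φ e ε₃ with hB
  have hconj : ∀ (g : Γ) (x : R), x ∈ B → φ g * x * φ g⁻¹ ∈ B :=
    fun g x hx => conj_mem φ e he hinv ε₃ h3 hst g x hx
  have haN : a ∈ N φ B := by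
    refine ⟨Algebra.subset_adjoin ⟨a, haU, rfl⟩, Algebra.subset_adjoin ⟨a⁻¹, haU', rfl⟩, ?_⟩
    intro x hx
    rw [← hst ε hε hε3] at hx
    refine comm_adjoin φ (U φ e ε) F hFs (φ a) ?_ x hx
    intro b hb
    rw [← map_mul, hcomm b hb, map_mul]
  refine ⟨N φ B, ⟨?_⟩, ?_, ?_⟩
  · rintro n ⟨n1, n2, n3⟩ g
    refine ⟨?_, ?_, ?_⟩
    · rw [map_mul, map_mul]; exact hconj g _ n1
    · have : (g * n * g⁻¹)⁻¹ = g * n⁻¹ * g⁻¹ := by group
      rw [this, map_mul, map_mul]; exact hconj g _ n2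
    · intro x hx
      have h1 := hconj g⁻¹ x hx
      rw [inv_inv] at h1
      have h2 := n3 _ h1
      calc φ (g * n * g⁻¹) * x = φ g * (φ n * (φ g⁻¹ * x * φ g)) * φ g⁻¹ := by
            rw [map_mul, map_mul]
            have : φ g * (φ n * (φ g⁻¹ * x * φ g)) * φ g⁻¹
              = φ g * φ n * φ g⁻¹ * x * (φ g * φ g⁻¹) := by simp only [mul_assoc]
            rw [this, phi_mul_inv, mul_one]
        _ = φ g * ((φ g⁻¹ * x * φ g) * φ n) * φ g⁻¹ := by rw [h2]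
        _ = x * φ (g * n * g⁻¹) := by
            rw [map_mul, map_mul]
            have : φ g * ((φ g⁻¹ * x * φ g) * φ n) * φ g⁻¹
              = (φ g * φ g⁻¹) * x * (φ g * φ n * φ g⁻¹) := by simp only [mul_assoc]
            rw [this, phi_mul_inv, one_mul]
  · intro h
    rw [h, Subgroup.mem_bot] at haN
    exact ha.1 haN
  · rintro x ⟨x1, x2, x3⟩ y ⟨y1, y2, y3⟩
    apply hinj
    rw [map_mul, map_mul, x3 _ y1]

end Pool.SV
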