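import Pool.Agent.Helper84.SV.DefsK

open Set Finset

namespace Pool.SV

namespace Aus2

variable {Γ R : Type*} [Group Γ] [NormedRing R] [NormedAlgebra ℝ R]

/-- Elements whose image and whose inverse's image are close to one. -/
def U (τ : Γ →* R) (ε : ℝ) : Set Γ := {g | ‖τ g - 1‖ < ε ∧ ‖τ g⁻¹ - 1‖ < ε}

/-- The subalgebra generated by the images of the elements close to one. -/
noncomputable def A (τ : Γ →* R) (ε : ℝ) : Subalgebra ℝ R := Algebra.adjoin ℝ (τ '' U τ ε)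

theorem U_mono (τ : Γ →* R) {a b : ℝ} (h : a ≤ b) : U τ a ⊆ U τ b :=
  fun _ hg => ⟨hg.1.trans_le h, hg.2.trans_le h⟩

theorem A_mono (τ : Γ →* R) {a b : ℝ} (h : a ≤ b) : A τ a ≤ A τ b :=
  Algebra.adjoin_mono (Set.image_mono (U_mono τ h))

theorem map_mul_inv (τ : Γ →* R) (g : Γ) : τ g * τ g⁻¹ = 1 := by
  rw [← map_mul, mul_inv_cancel, map_one]

theorem inv_map_mul (τ : Γ →* R) (g : Γ) : τ g⁻¹ * τ g = 1 := by
  rw [← map_mul, inv_mul_cancel, map_one]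

/-- Conjugation maps a smaller neighbourhood into the given one. -/
theorem conj_small (τ : Γ →* R) (g : Γ) {ε : ℝ} (hε : 0 < ε) :
    ∃ δ : ℝ, 0 < δ ∧ δ ≤ ε ∧ ∀ h ∈ U τ δ, g * h * g⁻¹ ∈ U τ ε := by
  set K : ℝ := ‖τ g‖ * ‖τ g⁻¹‖ with hK
  have hK0 : 0 ≤ K := by positivity
  refine ⟨ε / (K + 1), by positivity, ?_, ?_⟩
  · rw [div_le_iff₀ (by positivity)]
    nlinarith
  · have key : ∀ h : Γ, ‖τ h - 1‖ < ε / (K + 1) → ‖τ (g * h * g⁻¹) - 1‖ < ε := by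
      intro h hh
      have e1 : τ (g * h * g⁻¹) - 1 = τ g * (τ h - 1) * τ g⁻¹ := by
        rw [mul_sub, sub_mul, mul_one, map_mul_inv, map_mul, map_mul]
      rw [e1]
      have h2 : ‖τ g * (τ h - 1) * τ g⁻¹‖ ≤ K * ‖τ h - 1‖ := by
        calc ‖τ g * (τ h - 1) * τ g⁻¹‖ ≤ ‖τ g * (τ h - 1)‖ * ‖τ g⁻¹‖ := norm_mul_le _ _
          _ ≤ (‖τ g‖ * ‖τ h - 1‖) * ‖τ g⁻¹‖ := by
            gcongr
            exact norm_mul_le _ _
          _ = K * ‖τ h - 1‖ := by rw [hK]; ring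
      have h3 : K * ‖τ h - 1‖ ≤ (K + 1) * ‖τ h - 1‖ := by
        nlinarith [norm_nonneg (τ h - 1)]
      have h4 : (K + 1) * ‖τ h - 1‖ < ε := by
        rw [lt_div_iff₀ (by positivity)] at hh
        linarith
      linarith
    rintro h ⟨h1, h2⟩
    refine ⟨key h h1, ?_⟩
    have : (g * h * g⁻¹)⁻¹ = g * h⁻¹ * g⁻¹ := by group
    rw [this]
    exact key _ h2

/-- If the neighbourhoods commute, so does the algebra. -/
theorem A_comm (τ : Γ →* R) {ε : ℝ}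
    (h : ∀ g h : Γ, ‖τ g - 1‖ < ε → ‖τ h - 1‖ < ε → g * h = h * g) {a b : R}
    (ha : a ∈ A τ ε) (hb : b ∈ A τ ε) : a * b = b * a := by
  have key : ∀ x ∈ τ '' U τ ε, ∀ y ∈ τ '' U τ ε, x * y = y * x := by
    rintro _ ⟨g, hg, rfl⟩ _ ⟨k, hk, rfl⟩
    rw [← map_mul, ← map_mul, h g k hg.1 hk.1]
  have h1 : ∀ x ∈ τ '' U τ ε, ∀ y ∈ A τ ε, x * y = y * x := by
    intro x hx y hy
    induction hy using Algebra.adjoin_induction with
    | mem y hy => exact key x hx y hy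
    | algebraMap r => exact (Algebra.commutes r x).symm
    | add y z _ _ hy hz => rw [mul_add, add_mul, hy, hz]
    | mul y z _ _ hy hz => rw [← mul_assoc, hy, mul_assoc, hz, mul_assoc]
  induction ha using Algebra.adjoin_induction with
  | mem x hx => exact h1 x hx b hb
  | algebraMap r => exact Algebra.commutes r b
  | add y z _ _ hy hz => rw [mul_add, add_mul, hy, hz]
  | mul y z _ _ hy hz => rw [mul_assoc, hz, ← mul_assoc, hy, mul_assoc]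

/-- The eventually constant algebra. -/
theorem exists_const [FiniteDimensional ℝ R] (τ : Γ →* R) {ε₁ : ℝ} (h : 0 < ε₁) :
    ∃ ε : ℝ, 0 < ε ∧ ε ≤ ε₁ ∧ ∀ δ : ℝ, 0 < δ → δ ≤ ε → A τ δ = A τ ε := by
  classical
  have hex : ∃ n : ℕ, ∃ ε : ℝ, 0 < ε ∧ ε ≤ ε₁ ∧
      Module.finrank ℝ (Subalgebra.toSubmodule (A τ ε)) = n :=
    ⟨_, ε₁, h, le_rfl, rfl⟩
  obtain ⟨ε, h0, h1, h2⟩ := Nat.find_spec hex
  refine ⟨ε, h0, h1, fun δ hδ hδε => ?_⟩
  have h3 : Subalgebra.toSubmodule (A τ δ) ≤ Subalgebra.toSubmodule (A τ ε) :=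
    A_mono τ hδε
  have h4 : Module.finrank ℝ (Subalgebra.toSubmodule (A τ ε)) ≤
      Module.finrank ℝ (Subalgebra.toSubmodule (A τ δ)) := by
    rw [h2]
    exact Nat.find_min' hex ⟨δ, hδ, hδε.trans h1, rfl⟩
  have h5 := Submodule.eq_of_le_of_finrank_le h3 h4
  exact Subalgebra.toSubmodule_injective h5

/-- The eventually constant algebra is stable under conjugation. -/
theorem conj_mem (τ : Γ →* R) {ε : ℝ} (hε : 0 < ε)
    (hconst : ∀ δ : ℝ, 0 < δ → δ ≤ ε → A τ δ = A τ ε) (g : Γ) {a : R} (ha : a ∈ A τ ε) :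
    τ g * a * τ g⁻¹ ∈ A τ ε := by
  obtain ⟨δ, hδ, hδε, hU⟩ := conj_small τ g hε
  rw [← hconst δ hδ hδε] at ha
  induction ha using Algebra.adjoin_induction with
  | mem x hx =>
    obtain ⟨h, hh, rfl⟩ := hx
    rw [← map_mul, ← map_mul]
    exact Algebra.subset_adjoin ⟨_, hU h hh, rfl⟩
  | algebraMap r =>
    rw [← Algebra.commutes r (τ g), mul_assoc, map_mul_inv, mul_one]
    exact Subalgebra.algebraMap_mem _ r
  | add x y _ _ hx hy =>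
    rw [mul_add, add_mul]
    exact Subalgebra.add_mem _ hx hy
  | mul x y _ _ hx hy =>
    have : τ g * (x * y) * τ g⁻¹ = (τ g * x * τ g⁻¹) * (τ g * y * τ g⁻¹) := by
      calc τ g * (x * y) * τ g⁻¹ = τ g * x * (1 * y) * τ g⁻¹ := by rw [one_mul]; noncomm_ring
        _ = τ g * x * ((τ g⁻¹ * τ g) * y) * τ g⁻¹ := by rw [inv_map_mul]
        _ = _ := by noncomm_ring
    rw [this]
    exact Subalgebra.mul_mem _ hx hy

end Aus2

open Aus2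

theorem aus2 {Γ R : Type*} [Group Γ] [NormedRing R] [NormedAlgebra ℝ R] [FiniteDimensional ℝ R]
    (τ : Γ →* R)
    (h1 : ∃ ε₁ : ℝ, 0 < ε₁ ∧ ∀ g h : Γ, ‖τ g - 1‖ < ε₁ → ‖τ h - 1‖ < ε₁ → g * h = h * g)
    (h1' : ∀ g h : Γ, τ (g * h) = τ (h * g) → g * h = h * g)
    (h2 : ∀ ε : ℝ, 0 < ε → ∃ g : Γ, g ≠ 1 ∧ ‖τ g - 1‖ < ε) :
    HasAbNormal Γ := by
  obtain ⟨ε₁, hε₁, hc⟩ := h1
  obtain ⟨ε, hε, hεε₁, hconst⟩ := exists_const τ hε₁
  have hcomm : ∀ a ∈ A τ ε, ∀ b ∈ A τ ε, a * b = b * a := fun a ha b hb =>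
    A_comm τ (fun g h hg hh => hc g h (hg.trans_le hεε₁) (hh.trans_le hεε₁)) ha hb
  let N : Subgroup Γ :=
    { carrier := {g | τ g ∈ A τ ε ∧ τ g⁻¹ ∈ A τ ε}
      mul_mem' := by
        rintro a b ⟨ha, ha'⟩ ⟨hb, hb'⟩
        refine ⟨?_, ?_⟩
        · rw [map_mul]
          exact Subalgebra.mul_mem _ ha hb
        · rw [mul_inv_rev, map_mul]
          exact Subalgebra.mul_mem _ hb' ha'
      one_mem' := by
        refine ⟨?_, ?_⟩
        · rw [map_one]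
          exact Subalgebra.one_mem _
        · rw [inv_one, map_one]
          exact Subalgebra.one_mem _
      inv_mem' := by
        rintro a ⟨ha, ha'⟩
        exact ⟨ha', by rwa [inv_inv]⟩ }
  refine ⟨N, ⟨?_⟩, ?_, ?_⟩
  · rintro n ⟨hn, hn'⟩ g
    refine ⟨?_, ?_⟩
    · rw [map_mul, map_mul]
      exact conj_mem τ hε hconst g hn
    · have : (g * n * g⁻¹)⁻¹ = g * n⁻¹ * g⁻¹ := by group
      rw [this, map_mul, map_mul]
      exact conj_mem τ hε hconst g hn'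
  · set δ : ℝ := min (1 / 2) (ε / (2 * ‖(1 : R)‖ + 1)) with hδ
    have hpos : 0 < 2 * ‖(1 : R)‖ + 1 := by positivity
    have hδ0 : 0 < δ := by
      rw [hδ]
      exact lt_min (by norm_num) (by positivity)
    obtain ⟨g, hg1, hg⟩ := h2 δ hδ0
    have hδ1 : δ ≤ 1 / 2 := min_le_left _ _
    have hδ2 : δ * (2 * ‖(1 : R)‖ + 1) ≤ ε := by
      rw [← le_div_iff₀ hpos]
      exact min_le_right _ _
    have hx : ‖τ g⁻¹ - 1‖ ≤ (‖(1 : R)‖ + ‖τ g⁻¹ - 1‖) * ‖τ g - 1‖ := by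
      have e1 : τ g⁻¹ - 1 = τ g⁻¹ * (1 - τ g) := by
        rw [mul_sub, mul_one, inv_map_mul]
      calc ‖τ g⁻¹ - 1‖ = ‖τ g⁻¹ * (1 - τ g)‖ := by rw [← e1]
        _ ≤ ‖τ g⁻¹‖ * ‖1 - τ g‖ := norm_mul_le _ _
        _ = ‖1 + (τ g⁻¹ - 1)‖ * ‖τ g - 1‖ := by rw [add_sub_cancel, norm_sub_rev]
        _ ≤ (‖(1 : R)‖ + ‖τ g⁻¹ - 1‖) * ‖τ g - 1‖ := by
          gcongr
          exact norm_add_le _ _
    have n1 : 0 ≤ ‖(1 : R)‖ := norm_nonneg _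
    have n2 : 0 ≤ ‖τ g⁻¹ - 1‖ := norm_nonneg _
    have n3 : 0 ≤ ‖τ g - 1‖ := norm_nonneg _
    have hgε : ‖τ g - 1‖ < ε := by nlinarith
    have hgε' : ‖τ g⁻¹ - 1‖ < ε := by nlinarith
    have hmem : g ∈ N := by
      refine ⟨Algebra.subset_adjoin ⟨g, ⟨hgε, hgε'⟩, rfl⟩,
        Algebra.subset_adjoin ⟨g⁻¹, ⟨hgε', by rwa [inv_inv]⟩, rfl⟩⟩
    intro hN
    rw [hN, Subgroup.mem_bot] at hmem
    exact hg1 hmem
  · rintro a ⟨ha, _⟩ b ⟨hb, _⟩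
    apply h1'
    rw [map_mul, map_mul]
    exact hcomm _ ha _ hb

end Pool.SV
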