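import Pool.Agent.SV.Aus1
import Pool.Agent.SV.Aus2

open Set Finset

namespace Pool.SV

namespace Step

section Alg

variable {Γ R : Type*} [Group Γ] [NormedRing R]

/-- The compression to the complement of an idempotent with invariant image is multiplicative. -/
theorem comp_mul (φ : Γ →* R) (u : R) (hu : u * u = u) (hinv : ∀ g, (1 - u) * φ g * u = 0)
    (g h : Γ) :
    (1 - u) * φ (g * h) * (1 - u) =
      ((1 - u) * φ g * (1 - u)) * ((1 - u) * φ h * (1 - u)) := by
  have h2 : (1 - u) * (1 - u) = 1 - u := by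
    simp only [mul_sub, sub_mul, mul_one, one_mul, hu]; simp
  have h3 : (1 - u) * φ (g * h) * (1 - u) =
      (1 - u) * φ g * u * φ h * (1 - u) + (1 - u) * φ g * (1 - u) * φ h * (1 - u) := by
    rw [map_mul]; noncomm_ring
  rw [h3, hinv, zero_mul, zero_mul, zero_add]
  calc (1 - u) * φ g * (1 - u) * φ h * (1 - u)
      = (1 - u) * φ g * ((1 - u) * (1 - u)) * φ h * (1 - u) := by rw [h2]
    _ = _ := by noncomm_ring

/-- The middle block is multiplicative. -/
theorem mid_mul (φ : Γ →* R) (e e' : R) (he' : e' * e' = e')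
    (h1 : e * e' = e) (h2 : e' * e = e) (he : e * e = e)
    (hinv : ∀ g, (1 - e) * φ g * e = 0) (hinv' : ∀ g, (1 - e') * φ g * e' = 0) (g h : Γ) :
    (e' - e) * φ (g * h) * (e' - e) =
      ((e' - e) * φ g * (e' - e)) * ((e' - e) * φ h * (e' - e)) := by
  have hf1 : e' - e = (e' - e) * (1 - e) := by
    simp only [mul_sub, sub_mul, mul_one, h2, he]; simp
  have hf2 : e' - e = e' * (e' - e) := by
    rw [mul_sub, he', h2]
  have hff : (e' - e) * (e' - e) = e' - e := by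
    rw [mul_sub, sub_mul, sub_mul, he', h1, h2, he]; simp
  have hz1 : ∀ g, (e' - e) * φ g * e = 0 := by
    intro g
    calc (e' - e) * φ g * e = (e' - e) * (1 - e) * φ g * e := by rw [← hf1]
      _ = (e' - e) * ((1 - e) * φ g * e) := by noncomm_ring
      _ = 0 := by rw [hinv, mul_zero]
  have hz2 : ∀ g, (1 - e') * φ g * (e' - e) = 0 := by
    intro g
    calc (1 - e') * φ g * (e' - e) = (1 - e') * φ g * (e' * (e' - e)) := by rw [← hf2]
      _ = ((1 - e') * φ g * e') * (e' - e) := by noncomm_ring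
      _ = 0 := by rw [hinv', zero_mul]
  have h3 : (e' - e) * φ (g * h) * (e' - e) =
      (e' - e) * φ g * e * φ h * (e' - e) + (e' - e) * φ g * ((e' - e) * (e' - e)) * φ h * (e' - e)
        + (e' - e) * φ g * ((1 - e') * φ h * (e' - e)) := by
    rw [hff, map_mul]; noncomm_ring
  rw [h3, hz1, hz2, mul_zero, add_zero, zero_mul, zero_mul, zero_add]
  noncomm_ring

end Alg

end Step

open Step in
theorem step {Γ R : Type*} [Group Γ] [NormedRing R] [NormedAlgebra ℝ R] [FiniteDimensional ℝ R]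
    (φ : Γ →* R) (htf : ∀ (g : Γ) (m : ℕ), 0 < m → g ^ m = 1 → g = 1)
    (e e' : R) (he : e * e = e) (he' : e' * e' = e') (h1 : e * e' = e) (h2 : e' * e = e)
    (hinv : ∀ g, (1 - e) * φ g * e = 0) (hinv' : ∀ g, (1 - e') * φ g * e' = 0)
    (c : Γ → ℝ) (hc : ∀ g h, c (g * h) = c g * c h) (hc0 : ∀ g, 0 < c g) (C₀ : ℝ)
    (hb : ∀ g, ‖(e' - e) * φ g * (e' - e)‖ ≤ C₀ * c g) (hd : DiscMod φ e) :
    HasAbNormal Γ ∨ DiscMod φ e' := by
  classical
  -- the first representation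
  have hcomp : (1 - e) * (1 - e) = 1 - e := by
    simp only [mul_sub, sub_mul, mul_one, one_mul, he]; simp
  let φ₁ : Γ →* R :=
    { toFun := fun g => e + (1 - e) * φ g * (1 - e)
      map_one' := by
        rw [map_one, mul_one, hcomp]; simp
      map_mul' := by
        intro g h
        rw [comp_mul φ e he hinv]
        have q1 : e * (1 - e) = 0 := by rw [mul_sub, he, mul_one, sub_self]
        have q2 : (1 - e) * e = 0 := by rw [sub_mul, he, one_mul, sub_self]
        symm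
        calc (e + (1 - e) * φ g * (1 - e)) * (e + (1 - e) * φ h * (1 - e))
            = e * e + (e * (1 - e)) * φ h * (1 - e) + (1 - e) * φ g * ((1 - e) * e)
              + ((1 - e) * φ g * (1 - e)) * ((1 - e) * φ h * (1 - e)) := by
              noncomm_ring
          _ = _ := by rw [he, q1, q2]; simp }
  have hφ₁ : ∀ g, φ₁ g = e + (1 - e) * φ g * (1 - e) := fun g => rfl
  have hinj : Function.Injective φ₁ := by
    rw [injective_iff_map_eq_one]
    intro g hg
    have hD : ∀ n : ℕ, (1 - e) * φ (g ^ n) * (1 - e) = 1 - e := by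
      intro n
      have h3 : φ₁ (g ^ n) = 1 := by rw [map_pow, hg, one_pow]
      rw [hφ₁] at h3
      exact eq_sub_of_add_eq' h3
    have hD' : ∀ n : ℕ, (1 - e) * φ (g ^ n)⁻¹ * (1 - e) = 1 - e := by
      intro n
      have h4 : φ₁ (g ^ n)⁻¹ = 1 := by
        have h5 : φ₁ (g ^ n) * φ₁ (g ^ n)⁻¹ = 1 := by rw [← map_mul, mul_inv_cancel, map_one]
        rwa [map_pow, hg, one_pow, one_mul] at h5
      rw [hφ₁] at h4
      exact eq_sub_of_add_eq' h4
    have hfin := hd ‖1 - e‖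
    by_contra hne
    have hinf : (Set.range fun n : ℕ => g ^ n).Infinite := by
      apply Set.infinite_range_of_injective
      intro m n hmn
      rcases lt_trichotomy m n with h | h | h
      · exfalso
        apply hne
        apply htf g (n - m) (by omega)
        have h6 : g ^ m * g ^ (n - m) = g ^ m * 1 := by
          rw [← pow_add, mul_one, show m + (n - m) = n by omega]; exact hmn.symm
        exact mul_left_cancel h6
      · exact h
      · exfalso
        apply hne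
        apply htf g (m - n) (by omega)
        have h6 : g ^ n * g ^ (m - n) = g ^ n * 1 := by
          rw [← pow_add, mul_one, show n + (m - n) = m by omega]; exact hmn
        exact mul_left_cancel h6
    apply hinf
    apply hfin.subset
    rintro x ⟨n, rfl⟩
    refine ⟨?_, ?_⟩
    · show ‖(1 - e) * φ (g ^ n) * (1 - e)‖ ≤ _
      rw [hD]
    · show ‖(1 - e) * φ (g ^ n)⁻¹ * (1 - e)‖ ≤ _
      rw [hD']
  have hdisc : ∀ C : ℝ, {g : Γ | ‖φ₁ g‖ ≤ C ∧ ‖φ₁ g⁻¹‖ ≤ C}.Finite := by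
    intro C
    apply (hd (C + ‖e‖)).subset
    rintro g ⟨hg1, hg2⟩
    refine ⟨?_, ?_⟩
    · have h3 : (1 - e) * φ g * (1 - e) = φ₁ g - e := by rw [hφ₁]; abel
      rw [h3]
      exact (norm_sub_le _ _).trans (by gcongr)
    · have h3 : (1 - e) * φ g⁻¹ * (1 - e) = φ₁ g⁻¹ - e := by rw [hφ₁]; abel
      rw [h3]
      exact (norm_sub_le _ _).trans (by gcongr)
  have r1 : (1 - e') * e = 0 := by rw [sub_mul, one_mul, h2, sub_self]
  have r2 : (1 - e') * (1 - e) = 1 - e' := by rw [mul_sub, mul_one, r1, sub_zero]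
  have r3 : (1 - e) * e' = e' - e := by rw [sub_mul, one_mul, h1]
  have r4 : e' * (1 - e) = e' - e := by rw [mul_sub, mul_one, h2]
  have r5 : (1 - e) * (1 - e') = 1 - e' := by
    rw [mul_sub, mul_one, r3]; abel
  have r6 : e * (1 - e') = 0 := by rw [mul_sub, mul_one, h1, sub_self]
  have r7 : (e' - e) * (1 - e') = 0 := by
    rw [sub_mul, r6, mul_sub, he', mul_one, sub_self, sub_zero]
  have r8 : (1 - e') * (e' - e) = 0 := by
    rw [mul_sub, r1, sub_mul, he', one_mul, sub_self, sub_zero]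
  have r9 : (e' - e) * e = 0 := by rw [sub_mul, h2, he, sub_self]
  have r10 : e * (e' - e) = 0 := by rw [mul_sub, h1, he, sub_self]
  have r11 : (e' - e) * (e' - e) = e' - e := by
    rw [mul_sub, sub_mul, sub_mul, he', h1, h2, he]; simp
  have r12 : (1 - e') * (1 - e') = 1 - e' := by
    simp only [mul_sub, sub_mul, mul_one, one_mul, he']; simp
  have hinv₁ : ∀ g, (1 - e') * φ₁ g * e' = 0 := by
    intro g
    rw [hφ₁]
    calc (1 - e') * (e + (1 - e) * φ g * (1 - e)) * e'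
        = ((1 - e') * e) * e' + ((1 - e') * (1 - e)) * φ g * ((1 - e) * e') := by noncomm_ring
      _ = (1 - e') * φ g * (e' * (1 - e)) := by rw [r1, r2, r3, r4]; simp
      _ = ((1 - e') * φ g * e') * (1 - e) := by noncomm_ring
      _ = 0 := by rw [hinv', zero_mul]
  have hrho : ∀ g, e' * φ₁ g * e' + (1 - e') * φ₁ g * (1 - e') =
      e + (e' - e) * φ g * (e' - e) + (1 - e') * φ g * (1 - e') := by
    intro g
    rw [hφ₁]
    calc e' * (e + (1 - e) * φ g * (1 - e)) * e' + (1 - e') * (e + (1 - e) * φ g * (1 - e)) * (1 - e')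
        = e' * e * e' + (e' * (1 - e)) * φ g * ((1 - e) * e')
          + ((1 - e') * e * (1 - e') + ((1 - e') * (1 - e)) * φ g * ((1 - e) * (1 - e'))) := by
          noncomm_ring
      _ = _ := by rw [r1, r2, r3, r4, r5, h2, h1]; simp
  by_cases hsmall : ∀ ε : ℝ, 0 < ε → ∃ g : Γ, g ≠ 1 ∧
      ‖e' * φ₁ g * e' + (1 - e') * φ₁ g * (1 - e') - 1‖ < ε
  · exact Or.inl (aus1 φ₁ hinj hdisc e' he' hinv₁ hsmall)
  push Not at hsmall
  obtain ⟨ε₀, hε₀, hrho0⟩ := hsmall
  simp only [hrho] at hrho0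
  by_cases hd' : DiscMod φ e'
  · exact Or.inr hd'
  left
  unfold DiscMod at hd'
  push Not at hd'
  obtain ⟨C, hC⟩ := hd'
  have hc1 : c 1 = 1 := by
    have h3 := hc 1 1
    rw [mul_one] at h3
    have h4 := hc0 1
    have h5 : c 1 * (c 1 - 1) = 0 := by linarith
    rcases mul_eq_zero.1 h5 with h6 | h6
    · linarith
    · linarith
  -- the second representation
  let τ : Γ →* R :=
    { toFun := fun g => e + (c g)⁻¹ • ((e' - e) * φ g * (e' - e)) + (1 - e') * φ g * (1 - e')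
      map_one' := by
        rw [map_one, mul_one, mul_one, r11, r12, hc1]; simp
      map_mul' := by
        intro g h
        rw [comp_mul φ e' he' hinv', mid_mul φ e e' he' h1 h2 he hinv hinv', hc]
        set a := (c g)⁻¹
        set b := (c h)⁻¹
        have ha : (c g * c h)⁻¹ = a * b := mul_inv _ _
        rw [ha]
        symm
        calc (e + a • ((e' - e) * φ g * (e' - e)) + (1 - e') * φ g * (1 - e')) *
              (e + b • ((e' - e) * φ h * (e' - e)) + (1 - e') * φ h * (1 - e'))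
            = e * e + b • ((e * (e' - e)) * φ h * (e' - e)) + (e * (1 - e')) * φ h * (1 - e')
              + a • ((e' - e) * φ g * ((e' - e) * e))
              + (a * b) • (((e' - e) * φ g * (e' - e)) * ((e' - e) * φ h * (e' - e)))
              + a • ((e' - e) * φ g * ((e' - e) * (1 - e')) * φ h * (1 - e'))
              + (1 - e') * φ g * ((1 - e') * e)
              + b • ((1 - e') * φ g * ((1 - e') * (e' - e)) * φ h * (e' - e))
              + ((1 - e') * φ g * (1 - e')) * ((1 - e') * φ h * (1 - e')) := by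
              simp only [add_mul, mul_add, smul_mul_assoc, mul_smul_comm]
              simp only [mul_assoc]
              module
          _ = _ := by rw [he, r10, r6, r9, r7, r1, r8]; simp }
  have hτ : ∀ g, τ g = e + (c g)⁻¹ • ((e' - e) * φ g * (e' - e)) + (1 - e') * φ g * (1 - e') :=
    fun g => rfl
  have hw : ∀ g h : Γ, ‖τ ((h * g)⁻¹ * (g * h)) - 1‖ < ε₀ → g * h = h * g := by
    intro g h hlt
    by_contra hne
    have h3 : (h * g)⁻¹ * (g * h) ≠ 1 := by
      intro h4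
      apply hne
      rw [inv_mul_eq_one] at h4
      exact h4.symm
    have h4 := hrho0 _ h3
    have h5 : c ((h * g)⁻¹ * (g * h)) = 1 := by
      have h6 : c ((h * g)⁻¹ * (h * g)) = 1 := by rw [inv_mul_cancel, hc1]
      rw [hc] at h6 ⊢
      rw [hc g h, mul_comm (c g) (c h), ← hc h g]
      exact h6
    rw [hτ, h5, inv_one, one_smul] at hlt
    linarith
  have h1' : ∀ g h : Γ, τ (g * h) = τ (h * g) → g * h = h * g := by
    intro g h heq
    apply hw
    rw [map_mul, heq, ← map_mul, inv_mul_cancel, map_one, sub_self, norm_zero]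
    exact hε₀
  have h1'' : ∃ ε₁ : ℝ, 0 < ε₁ ∧ ∀ g h : Γ, ‖τ g - 1‖ < ε₁ → ‖τ h - 1‖ < ε₁ → g * h = h * g := by
    set K : ℝ := ‖(1 : R)‖ with hK
    have hK0 : 0 ≤ K := norm_nonneg _
    refine ⟨min (1 / 2) (ε₀ / (8 * K ^ 2 + 1)), lt_min (by norm_num) (by positivity), ?_⟩
    intro g h hg hh
    have hinvb : ∀ x : Γ, ‖τ x - 1‖ < 1 / 2 → ‖τ x⁻¹‖ ≤ 2 * K := by
      intro x hx
      have e1 : τ x⁻¹ = 1 - τ x⁻¹ * (τ x - 1) := by
        rw [mul_sub, mul_one, ← map_mul, inv_mul_cancel, map_one]; abel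
      have e2 : ‖τ x⁻¹‖ ≤ K + ‖τ x⁻¹‖ * ‖τ x - 1‖ := by
        calc ‖τ x⁻¹‖ = ‖1 - τ x⁻¹ * (τ x - 1)‖ := by rw [← e1]
          _ ≤ ‖(1 : R)‖ + ‖τ x⁻¹ * (τ x - 1)‖ := norm_sub_le _ _
          _ ≤ _ := by gcongr; exact norm_mul_le _ _
      have e3 : ‖τ x⁻¹‖ * ‖τ x - 1‖ ≤ ‖τ x⁻¹‖ * (1 / 2) := by gcongr
      linarith
    have hg1 := hinvb g (hg.trans_le (min_le_left _ _))
    have hh1 := hinvb h (hh.trans_le (min_le_left _ _))
    have hg2 : ‖τ g - 1‖ < 1 / 2 := hg.trans_le (min_le_left _ _)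
    have hg3 : ‖τ g - 1‖ < ε₀ / (8 * K ^ 2 + 1) := hg.trans_le (min_le_right _ _)
    have hh2 : ‖τ h - 1‖ < 1 / 2 := hh.trans_le (min_le_left _ _)
    apply hw
    have e4 : τ ((h * g)⁻¹ * (g * h)) - 1 =
        τ g⁻¹ * τ h⁻¹ * ((τ g - 1) * (τ h - 1) - (τ h - 1) * (τ g - 1)) := by
      have e5 : (τ g - 1) * (τ h - 1) - (τ h - 1) * (τ g - 1) = τ (g * h) - τ (h * g) := by
        rw [map_mul, map_mul]; noncomm_ring
      rw [e5, mul_sub, ← map_mul, ← map_mul, ← map_mul]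
      congr 1
      · congr 1; group
      · rw [show g⁻¹ * h⁻¹ * (h * g) = 1 by group, map_one]
    rw [e4]
    have e6 : ‖(τ g - 1) * (τ h - 1) - (τ h - 1) * (τ g - 1)‖ ≤ 2 * (‖τ g - 1‖ * ‖τ h - 1‖) := by
      calc _ ≤ ‖(τ g - 1) * (τ h - 1)‖ + ‖(τ h - 1) * (τ g - 1)‖ := norm_sub_le _ _
        _ ≤ ‖τ g - 1‖ * ‖τ h - 1‖ + ‖τ h - 1‖ * ‖τ g - 1‖ :=
          add_le_add (norm_mul_le _ _) (norm_mul_le _ _)
        _ = _ := by ring
    have e7 : 2 * (‖τ g - 1‖ * ‖τ h - 1‖) ≤ ‖τ g - 1‖ := by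
      nlinarith [norm_nonneg (τ g - 1), norm_nonneg (τ h - 1)]
    calc ‖τ g⁻¹ * τ h⁻¹ * ((τ g - 1) * (τ h - 1) - (τ h - 1) * (τ g - 1))‖
        ≤ ‖τ g⁻¹ * τ h⁻¹‖ * ‖(τ g - 1) * (τ h - 1) - (τ h - 1) * (τ g - 1)‖ := norm_mul_le _ _
      _ ≤ (2 * K * (2 * K)) * ‖τ g - 1‖ := by
          gcongr
          · exact (norm_mul_le _ _).trans (by gcongr)
          · exact e6.trans e7
      _ ≤ (8 * K ^ 2 + 1) * ‖τ g - 1‖ := by
          gcongr
          nlinarith [sq_nonneg K]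
      _ < ε₀ := by
          rw [lt_div_iff₀ (by positivity)] at hg3
          linarith
  refine aus2 τ h1'' h1' ?_
  intro ε hε
  -- compactness
  have : ProperSpace R := FiniteDimensional.proper_real R
  set M : ℝ := ‖e‖ + C₀ + C with hM
  have hbd : ∀ g, ‖(1 - e') * φ g * (1 - e')‖ ≤ C → ‖τ g‖ ≤ M := by
    intro g hg
    have e1 : ‖(c g)⁻¹ • ((e' - e) * φ g * (e' - e))‖ ≤ C₀ := by
      rw [norm_smul, norm_inv, Real.norm_of_nonneg (hc0 g).le, inv_mul_le_iff₀ (hc0 g)]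
      have := hb g
      linarith
    rw [hτ]
    calc _ ≤ ‖e + (c g)⁻¹ • ((e' - e) * φ g * (e' - e))‖ + ‖(1 - e') * φ g * (1 - e')‖ :=
          norm_add_le _ _
      _ ≤ (‖e‖ + ‖(c g)⁻¹ • ((e' - e) * φ g * (e' - e))‖) + ‖(1 - e') * φ g * (1 - e')‖ := by
          gcongr; exact norm_add_le _ _
      _ ≤ M := by linarith
  have hinf : Set.Infinite {g : Γ | ‖(1 - e') * φ g * (1 - e')‖ ≤ C ∧
      ‖(1 - e') * φ g⁻¹ * (1 - e')‖ ≤ C} := hC
  set u := hinf.natEmbedding with hu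
  have hu1 : ∀ n, ‖τ (u n : Γ)‖ ≤ M := fun n => hbd _ (u n).2.1
  have hu2 : ∀ n, ‖τ (u n : Γ)⁻¹‖ ≤ M := fun n => hbd _ (u n).2.2
  have hM0 : 0 ≤ M := (norm_nonneg _).trans (hu1 0)
  obtain ⟨a, -, ψ, hψ, hlim⟩ := tendsto_subseq_of_bounded (s := Metric.closedBall (0 : R) M)
    Metric.isBounded_closedBall (x := fun n => τ (u n : Γ)) (fun n => by simpa using hu1 n)
  have hcau := hlim.cauchySeq
  rw [Metric.cauchySeq_iff'] at hcau
  obtain ⟨N, hN⟩ := hcau (ε / (M + 1)) (by positivity)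
  have h3 := hN (N + 1) (by omega)
  simp only [Function.comp] at h3
  rw [dist_eq_norm] at h3
  refine ⟨(u (ψ N) : Γ)⁻¹ * (u (ψ (N + 1)) : Γ), ?_, ?_⟩
  · intro h4
    rw [inv_mul_eq_one] at h4
    have h5 : ψ N = ψ (N + 1) := u.injective (Subtype.ext h4)
    have h6 : ψ N < ψ (N + 1) := hψ (by omega)
    omega
  · have e1 : τ ((u (ψ N) : Γ)⁻¹ * (u (ψ (N + 1)) : Γ)) - 1 =
        τ (u (ψ N) : Γ)⁻¹ * (τ (u (ψ (N + 1)) : Γ) - τ (u (ψ N) : Γ)) := by
      rw [mul_sub, ← map_mul, ← map_mul, inv_mul_cancel, map_one]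
    rw [e1]
    calc _ ≤ ‖τ (u (ψ N) : Γ)⁻¹‖ * ‖τ (u (ψ (N + 1)) : Γ) - τ (u (ψ N) : Γ)‖ := norm_mul_le _ _
      _ ≤ (M + 1) * ‖τ (u (ψ (N + 1)) : Γ) - τ (u (ψ N) : Γ)‖ := by
          gcongr
          linarith [hu2 (ψ N)]
      _ < ε := by
          rw [lt_div_iff₀ (by positivity)] at h3
          linarith

end Pool.SV
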