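import Pool.Agent.Helper84.SV.Hat

/-!
# SV-1: tuple chains
-/

set_option autoImplicit false

open Set Finset

namespace Pool.SV

namespace Chain

variable {A B : Type*}

theorem cone_single (b : B) (l : List B) (r : ℝ) :
    cone b (Finsupp.single l r) = Finsupp.single (b :: l) r := by
  unfold cone
  rw [Finsupp.lmapDomain_apply, Finsupp.mapDomain_single]

theorem d_single (l : List B) : d (Finsupp.single l 1) = dl l := by
  unfold d
  rw [Finsupp.linearCombination_single, one_smul]

theorem pair_single (β : List B → ℝ) (l : List B) : pair β (Finsupp.single l 1) = β l := by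
  unfold pair
  rw [Finsupp.linearCombination_single, one_smul]

theorem lin_single (T : List A → L B) (l : List A) : lin T (Finsupp.single l 1) = T l := by
  unfold lin
  rw [Finsupp.linearCombination_single, one_smul]

theorem ext_lin {V : Type*} [AddCommGroup V] [Module ℝ V] {φ ψ : L A →ₗ[ℝ] V}
    (h : ∀ l, φ (Finsupp.single l 1) = ψ (Finsupp.single l 1)) (c : L A) : φ c = ψ c := by
  have : φ = ψ := by
    apply Finsupp.lhom_ext
    intro l r
    have e : Finsupp.single l r = r • Finsupp.single l (1 : ℝ) := by simp
    rw [e, map_smul, map_smul, h]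
  rw [this]

/-- equality on the support -/
theorem lin_congr {V : Type*} [AddCommGroup V] [Module ℝ V] (φ ψ : L A →ₗ[ℝ] V) (c : L A)
    (h : ∀ l ∈ c.support, φ (Finsupp.single l 1) = ψ (Finsupp.single l 1)) : φ c = ψ c := by
  rw [← Finsupp.sum_single c, Finsupp.sum, map_sum, map_sum]
  refine Finset.sum_congr rfl fun l hl => ?_
  have e : Finsupp.single l (c l) = c l • Finsupp.single l (1 : ℝ) := by simp
  rw [e, map_smul, map_smul, h l hl]

theorem d_cone (b : B) (c : L B) : d (cone b c) = c - cone b (d c) := by
  have := ext_lin (φ := d ∘ₗ cone b) (ψ := LinearMap.id - cone b ∘ₗ d) (fun l => by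
    simp only [LinearMap.comp_apply, LinearMap.sub_apply, LinearMap.id_apply]
    rw [cone_single, d_single, d_single]
    rfl) c
  simpa using this

theorem dl_cons (b : B) (l : List B) : dl (b :: l) = Finsupp.single l 1 - cone b (dl l) := rfl

theorem d_dl (l : List B) : d (dl l) = 0 := by
  induction l with
  | nil => simp [dl]
  | cons b l ih =>
    rw [dl_cons, map_sub, d_single, d_cone, ih]
    simp

theorem dl_support (l : List B) : ∀ l' ∈ (dl l).support, l'.length + 1 = l.length := by
  classical
  induction l with
  | nil => intro l' h; simp [dl] at h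
  | cons b l ih =>
    intro l' h
    rw [dl_cons] at h
    have h := Finsupp.support_sub h
    rw [Finset.mem_union] at h
    rcases h with h | h
    · have h := Finsupp.support_single_subset h
      rw [Finset.mem_singleton] at h
      rw [h]
      rfl
    · have h := Finsupp.mapDomain_support h
      rw [Finset.mem_image] at h
      obtain ⟨l'', h1, rfl⟩ := h
      have := ih l'' h1
      simp only [List.length_cons]
      omega

/-- `p(a)`-average of the cones -/
noncomputable def avg (p : A → (B →₀ ℝ)) (a : A) : L B →ₗ[ℝ] L B :=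
  ∑ b ∈ (p a).support, (p a b) • cone b

theorem avg_apply (p : A → (B →₀ ℝ)) (a : A) (c : L B) :
    avg p a c = (p a).sum (fun b r => r • cone b c) := by
  unfold avg Finsupp.sum
  rw [LinearMap.sum_apply]
  rfl

theorem push_cons (p : A → (B →₀ ℝ)) (a : A) (l : List A) :
    push p (a :: l) = avg p a (push p l) := by
  rw [avg_apply]
  rfl

theorem push_nil (p : A → (B →₀ ℝ)) : push p [] = Finsupp.single [] 1 := rfl

theorem d_avg (p : A → (B →₀ ℝ)) (hp : Normalised p) (a : A) (c : L B) :
    d (avg p a c) = c - avg p a (d c) := by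
  have h1 : ∑ b ∈ (p a).support, p a b = 1 := hp a
  unfold avg
  rw [LinearMap.sum_apply, LinearMap.sum_apply, map_sum]
  have : ∀ b ∈ (p a).support, d ((p a b • cone b) c) = p a b • c - (p a b • cone b) (d c) := by
    intro b _
    rw [LinearMap.smul_apply, LinearMap.smul_apply, map_smul, d_cone, smul_sub]
  rw [Finset.sum_congr rfl this, Finset.sum_sub_distrib, ← Finset.sum_smul, h1, one_smul]

theorem lin_push_cone (p : A → (B →₀ ℝ)) (a : A) (c : L A) :
    lin (push p) (cone a c) = avg p a (lin (push p) c) := by
  have := ext_lin (φ := lin (push p) ∘ₗ cone a) (ψ := avg p a ∘ₗ lin (push p)) (fun l => by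
    simp only [LinearMap.comp_apply]
    rw [cone_single, lin_single, lin_single, push_cons]) c
  simpa using this

theorem d_push (p : A → (B →₀ ℝ)) (hp : Normalised p) (l : List A) :
    d (push p l) = lin (push p) (dl l) := by
  induction l with
  | nil => rw [push_nil, d_single]; simp [dl]
  | cons a l ih =>
    rw [push_cons, d_avg p hp, ih, dl_cons, map_sub, lin_single, lin_push_cone]

/-- translation of tuples -/
noncomputable def tr (f : B → B) : L B →ₗ[ℝ] L B := Finsupp.lmapDomain ℝ ℝ (List.map f)

theorem tr_single (f : B → B) (l : List B) (r : ℝ) :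
    tr f (Finsupp.single l r) = Finsupp.single (l.map f) r := by
  unfold tr
  rw [Finsupp.lmapDomain_apply, Finsupp.mapDomain_single]

theorem tr_apply (f : B → B) (c : L B) : tr f c = c.mapDomain (List.map f) := rfl

theorem tr_cone (f : B → B) (b : B) (c : L B) : tr f (cone b c) = cone (f b) (tr f c) := by
  have := ext_lin (φ := tr f ∘ₗ cone b) (ψ := cone (f b) ∘ₗ tr f) (fun l => by
    simp only [LinearMap.comp_apply]
    rw [cone_single, tr_single, tr_single, cone_single]
    rfl) c
  simpa using this

theorem dl_tr (f : B → B) (l : List B) : dl (l.map f) = tr f (dl l) := by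
  induction l with
  | nil => simp [dl]
  | cons b l ih =>
    rw [List.map_cons, dl_cons, dl_cons, map_sub, tr_single, tr_cone, ih]

theorem pair_tr (Γ : Type*) [Group Γ] [MulAction Γ B] (β : List B → ℝ) (hβ : Inv Γ β) (g : Γ)
    (c : L B) : pair β (tr (fun b => g • b) c) = pair β c := by
  have := ext_lin (φ := pair β ∘ₗ tr (fun b => g • b)) (ψ := pair β) (fun l => by
    simp only [LinearMap.comp_apply]
    rw [tr_single, pair_single, pair_single]
    exact hβ g l) c
  simpa using this

theorem avg_tr (Γ : Type*) [Group Γ] [MulAction Γ A] [MulAction Γ B]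
    (p : A → (B →₀ ℝ)) (he : Equiv' Γ p) (g : Γ) (a : A) (c : L B) :
    avg p (g • a) (tr (fun b => g • b) c) = tr (fun b => g • b) (avg p a c) := by
  rw [avg_apply, avg_apply, he g a, Finsupp.sum_mapDomain_index]
  · rw [Finsupp.sum, Finsupp.sum, map_sum]
    refine Finset.sum_congr rfl fun b _ => ?_
    rw [map_smul, tr_cone]
  · intro b; simp
  · intro b m n; rw [add_smul]

theorem push_tr (Γ : Type*) [Group Γ] [MulAction Γ A] [MulAction Γ B]
    (p : A → (B →₀ ℝ)) (he : Equiv' Γ p) (g : Γ) (l : List A) :
    push p (l.map (fun a => g • a)) = tr (fun b => g • b) (push p l) := by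
  induction l with
  | nil => rw [List.map_nil, push_nil, tr_single]; rfl
  | cons a l ih => rw [List.map_cons, push_cons, push_cons, ih, avg_tr Γ p he]

theorem inv_dual (Γ : Type*) [Group Γ] [MulAction Γ A] [MulAction Γ B] (T : List A → L B)
    (hT : ∀ (g : Γ) (l : List A), T (l.map (fun a => g • a)) = tr (fun b => g • b) (T l))
    (β : List B → ℝ) (hβ : Inv Γ β) : Inv Γ (dual T β) := by
  intro g l
  unfold dual
  rw [hT, pair_tr Γ β hβ]

theorem lin_tr (Γ : Type*) [Group Γ] [MulAction Γ A] [MulAction Γ B] (T : List A → L B)
    (hT : ∀ (g : Γ) (l : List A), T (l.map (fun a => g • a)) = tr (fun b => g • b) (T l))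
    (g : Γ) (c : L A) : lin T (tr (fun a => g • a) c) = tr (fun b => g • b) (lin T c) := by
  have := ext_lin (φ := lin T ∘ₗ tr (fun a => g • a)) (ψ := tr (fun b => g • b) ∘ₗ lin T)
    (fun l => by
      simp only [LinearMap.comp_apply]
      rw [tr_single, lin_single, lin_single, hT]) c
  simpa using this

theorem pair_cone (β : List B → ℝ) (b : B) (c : L B) :
    pair β (cone b c) = pair (fun l => β (b :: l)) c := by
  have := ext_lin (φ := pair β ∘ₗ cone b) (ψ := pair (fun l => β (b :: l))) (fun l => by
    simp only [LinearMap.comp_apply]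
    rw [cone_single, pair_single, pair_single]) c
  simpa using this

end Chain

open Chain

theorem pair_d {B : Type*} (β : List B → ℝ) (c : L B) : pair β (d c) = pair (cob β) c := by
  have := ext_lin (φ := pair β ∘ₗ d) (ψ := pair (cob β)) (fun l => by
    simp only [LinearMap.comp_apply]
    rw [d_single, pair_single]
    rfl) c
  simpa using this

theorem pair_dual {A B : Type*} (T : List A → L B) (β : List B → ℝ) (c : L A) :
    pair (dual T β) c = pair β (lin T c) := by
  have := ext_lin (φ := pair (dual T β)) (ψ := pair β ∘ₗ lin T) (fun l => by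
    simp only [LinearMap.comp_apply]
    rw [lin_single, pair_single]
    rfl) c
  simpa using this

theorem cob_push {A B : Type*} (p : A → (B →₀ ℝ)) (hp : Normalised p) (β : List B → ℝ) :
    cob (dual (push p) β) = dual (push p) (cob β) := by
  funext l
  show pair (dual (push p) β) (dl l) = pair (cob β) (push p l)
  rw [pair_dual, ← pair_d, d_push p hp]

theorem inv_push (Γ : Type*) {A B : Type*} [Group Γ] [MulAction Γ A] [MulAction Γ B]
    (p : A → (B →₀ ℝ)) (he : Equiv' Γ p) (β : List B → ℝ) (hβ : Inv Γ β) :
    Inv Γ (dual (push p) β) :=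
  inv_dual Γ (push p) (push_tr Γ p he) β hβ

theorem bdd_push {A B : Type*} (p : A → (B →₀ ℝ)) (hp : Normalised p) (hp0 : ∀ a b, 0 ≤ p a b)
    (β : List B → ℝ) (C : ℝ) (hβ : ∀ l, |β l| ≤ C) : ∀ l, |dual (push p) β l| ≤ C := by
  intro l
  induction l generalizing β with
  | nil =>
    show |pair β (push p [])| ≤ C
    rw [push_nil, pair_single]
    exact hβ []
  | cons a l ih =>
    show |pair β (push p (a :: l))| ≤ C
    rw [push_cons, avg_apply, Finsupp.sum, map_sum]
    have h1 : ∑ b ∈ (p a).support, p a b = 1 := hp a
    refine (Finset.abs_sum_le_sum_abs _ _).trans ?_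
    calc ∑ b ∈ (p a).support, |pair β (p a b • cone b (push p l))|
        ≤ ∑ b ∈ (p a).support, p a b * C := by
          refine Finset.sum_le_sum fun b _ => ?_
          rw [map_smul, smul_eq_mul, abs_mul, abs_of_nonneg (hp0 a b), pair_cone]
          exact mul_le_mul_of_nonneg_left (ih _ fun l' => hβ (b :: l')) (hp0 a b)
      _ = C := by rw [← Finset.sum_mul, h1, one_mul]

theorem cyc_push (Γ : Type*) {A B : Type*} [Group Γ] [MulAction Γ A] [MulAction Γ B]
    (p : A → (B →₀ ℝ)) (hp : Normalised p) (he : Equiv' Γ p) (w : L A) (hw : Cyc Γ w) :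
    Cyc Γ (lin (push p) w) := by
  intro α hα
  rw [← pair_dual, ← cob_push p hp]
  exact hw _ (inv_push Γ p he α hα)

namespace Chain

/-- a chain homotopy kills the difference -/
theorem of_homotopy (Γ : Type*) {A B : Type*} [Group Γ] [MulAction Γ A] [MulAction Γ B]
    (T T' h : List A → L B)
    (hh : ∀ (g : Γ) (l : List A), h (l.map (fun a => g • a)) = tr (fun b => g • b) (h l))
    (hd : ∀ l, d (h l) + lin h (dl l) = T' l - T l) (β : List B → ℝ) (hβ : Inv Γ β)
    (hc : cob β = 0) (w : L A) (hw : Cyc Γ w) : pair (dual T β) w = pair (dual T' β) w := by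
  have h1 : pair (cob (dual h β)) w = 0 := hw _ (inv_dual Γ h hh β hβ)
  have h2 : ∀ l, cob (dual h β) l = dual T' β l - dual T β l := by
    intro l
    show pair (dual h β) (dl l) = pair β (T' l) - pair β (T l)
    rw [pair_dual, ← map_sub, ← hd l, map_add, pair_d, hc]
    have : pair (0 : List B → ℝ) (h l) = 0 := by
      unfold pair
      rw [Finsupp.linearCombination_apply]
      simp
    rw [this, zero_add]
  have h3 : pair (cob (dual h β)) w = pair (dual T' β) w - pair (dual T β) w := by
    have := ext_lin (φ := pair (cob (dual h β))) (ψ := pair (dual T' β) - pair (dual T β))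
      (fun l => by
        rw [LinearMap.sub_apply, pair_single, pair_single, pair_single, h2]) w
    rw [this, LinearMap.sub_apply]
  rw [h3] at h1
  linarith

/-- the homotopy between two push forwards -/
noncomputable def hp {A B : Type*} (p p' : A → (B →₀ ℝ)) : List A → L B
  | [] => 0
  | a :: l => avg p a (push p' (a :: l) - hp p p' l)

theorem lin_hp_cone {A B : Type*} (p p' : A → (B →₀ ℝ)) (a : A) (c : L A) :
    lin (hp p p') (cone a c) = avg p a (lin (push p') (cone a c) - lin (hp p p') c) := by
  have := ext_lin (φ := lin (hp p p') ∘ₗ cone a)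
    (ψ := avg p a ∘ₗ (lin (push p') ∘ₗ cone a - lin (hp p p'))) (fun l => by
      simp only [LinearMap.comp_apply, LinearMap.sub_apply]
      rw [cone_single, lin_single, lin_single, lin_single]
      rfl) c
  simpa using this

theorem hp_spec {A B : Type*} (p p' : A → (B →₀ ℝ)) (hn : Normalised p) (hn' : Normalised p')
    (l : List A) : d (hp p p' l) + lin (hp p p') (dl l) = push p' l - push p l := by
  induction l with
  | nil => simp [hp, dl, push_nil]
  | cons a l ih =>
    have e1 : d (hp p p' (a :: l)) = (push p' (a :: l) - hp p p' l) -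
        avg p a (d (push p' (a :: l) - hp p p' l)) := d_avg p hn a _
    have e2 : d (hp p p' l) = push p' l - push p l - lin (hp p p') (dl l) :=
      eq_sub_of_add_eq ih
    rw [e1, map_sub d, d_push p' hn', e2, dl_cons, map_sub (lin (push p')), lin_single,
      map_sub (lin (hp p p')), lin_single, lin_hp_cone, push_cons p]
    simp only [map_sub]
    abel

theorem hp_tr (Γ : Type*) {A B : Type*} [Group Γ] [MulAction Γ A] [MulAction Γ B]
    (p p' : A → (B →₀ ℝ)) (he : Equiv' Γ p) (he' : Equiv' Γ p') (g : Γ) (l : List A) :
    hp p p' (l.map (fun a => g • a)) = tr (fun b => g • b) (hp p p' l) := by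
  induction l with
  | nil => simp [hp]
  | cons a l ih =>
    show avg p (g • a) (push p' ((a :: l).map (fun a => g • a)) -
      hp p p' (l.map (fun a => g • a))) = tr (fun b => g • b) (avg p a (push p' (a :: l) - hp p p' l))
    rw [ih, push_tr Γ p' he', ← map_sub, avg_tr Γ p he]

end Chain

theorem push_homotopic (Γ : Type*) {A B : Type*} [Group Γ] [MulAction Γ A] [MulAction Γ B]
    (p p' : A → (B →₀ ℝ)) (hp : Normalised p) (hp' : Normalised p') (he : Equiv' Γ p)
    (he' : Equiv' Γ p') (β : List B → ℝ) (hβ : Inv Γ β) (hc : cob β = 0) (w : L A)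
    (hw : Cyc Γ w) : pair (dual (push p) β) w = pair (dual (push p') β) w :=
  of_homotopy Γ (push p) (push p') (Chain.hp p p') (hp_tr Γ p p' he he')
    (hp_spec p p' hp hp') β hβ hc w hw

namespace Chain

/-- the homotopy from the identity to a natural chain map, on tuples of bounded length -/
noncomputable def DD {B : Type*} (T : List B → L B) : ℕ → List B → L B
  | 0, _ => 0
  | _ + 1, [] => 0
  | n + 1, b :: l => cone b (T (b :: l) - Finsupp.single (b :: l) 1 - lin (DD T n) (dl (b :: l)))

/-- the homotopy -/
noncomputable def D {B : Type*} (T : List B → L B) (l : List B) : L B := DD T l.length l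

theorem D_nil {B : Type*} (T : List B → L B) : D T [] = 0 := rfl

theorem D_cons {B : Type*} (T : List B → L B) (b : B) (l : List B) :
    D T (b :: l) = cone b (T (b :: l) - Finsupp.single (b :: l) 1 - lin (D T) (dl (b :: l))) := by
  show cone b (T (b :: l) - Finsupp.single (b :: l) 1 - lin (DD T l.length) (dl (b :: l))) = _
  congr 2
  apply lin_congr
  intro l' hl'
  rw [lin_single, lin_single]
  have := dl_support _ l' hl'
  rw [List.length_cons] at this
  have h : l'.length = l.length := by omega
  rw [D, h]

theorem D_spec {B : Type*} (T : List B → L B) (h0 : T [] = Finsupp.single [] 1)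
    (hd : ∀ l, d (T l) = lin T (dl l)) (l : List B) :
    d (D T l) + lin (D T) (dl l) = T l - Finsupp.single l 1 := by
  induction hn : l.length using Nat.strong_induction_on generalizing l with
  | _ n ih =>
    cases l with
    | nil => rw [D_nil, h0]; simp [dl]
    | cons b l =>
      have hb : d (lin (D T) (dl (b :: l))) =
          lin T (dl (b :: l)) - dl (b :: l) - lin (D T) (d (dl (b :: l))) := by
        have := lin_congr (d ∘ₗ lin (D T)) (lin T - LinearMap.id - lin (D T) ∘ₗ d)
          (dl (b :: l)) (fun l' hl' => by
            simp only [LinearMap.comp_apply, LinearMap.sub_apply, LinearMap.id_apply]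
            rw [lin_single, lin_single, d_single]
            have hlen := dl_support _ l' hl'
            have := ih l'.length (by omega) l' rfl
            exact eq_sub_of_add_eq this)
        simpa using this
      rw [d_dl, map_zero, sub_zero] at hb
      rw [D_cons, d_cone, map_sub d, map_sub d, hb, hd, d_single]
      simp

theorem DD_tr (Γ : Type*) {B : Type*} [Group Γ] [MulAction Γ B] (T : List B → L B)
    (heq : ∀ (g : Γ) (l : List B),
      T (l.map (fun b => g • b)) = tr (fun b => g • b) (T l)) (g : Γ) (n : ℕ) :
    ∀ l : List B, DD T n (l.map (fun b => g • b)) = tr (fun b => g • b) (DD T n l) := by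
  induction n with
  | zero => intro l; simp [DD]
  | succ n ih =>
    intro l
    cases l with
    | nil => simp [DD]
    | cons b l =>
      show cone (g • b) (T ((b :: l).map (fun b => g • b)) -
        Finsupp.single ((b :: l).map (fun b => g • b)) 1 -
        lin (DD T n) (dl ((b :: l).map (fun b => g • b)))) = tr (fun b => g • b)
        (cone b (T (b :: l) - Finsupp.single (b :: l) 1 - lin (DD T n) (dl (b :: l))))
      have h := ext_lin (φ := lin (DD T n) ∘ₗ tr (fun a => g • a))
        (ψ := tr (fun b => g • b) ∘ₗ lin (DD T n)) (fun l => by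
          simp only [LinearMap.comp_apply]
          rw [tr_single, lin_single, lin_single, ih]) (dl (b :: l))
      simp only [LinearMap.comp_apply] at h
      rw [tr_cone, map_sub (tr fun b => g • b), map_sub (tr fun b => g • b), heq, dl_tr, h,
        tr_single]

end Chain

theorem natural (Γ : Type*) {B : Type*} [Group Γ] [MulAction Γ B] (T : List B → L B)
    (h0 : T [] = Finsupp.single [] 1) (h1 : ∀ b, T [b] = Finsupp.single [b] 1)
    (hd : ∀ l, d (T l) = lin T (dl l))
    (heq : ∀ (g : Γ) (l : List B),
      T (l.map (fun b => g • b)) = (T l).mapDomain (List.map (fun b => g • b)))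
    (β : List B → ℝ) (hβ : Inv Γ β) (hc : cob β = 0) (w : L B) (hw : Cyc Γ w) :
    pair (dual T β) w = pair β w := by
  have hid : dual (fun l => Finsupp.single l (1 : ℝ)) β = β := by
    funext l
    exact pair_single β l
  have key := of_homotopy Γ (fun l : List B => Finsupp.single l (1 : ℝ)) T (D T) (fun g l => by
    unfold D
    rw [List.length_map]
    exact DD_tr Γ T heq g l.length l) (D_spec T h0 hd) β hβ hc w hw
  rw [hid] at key
  exact key.symm

end Pool.SV
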